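import Pool.Agent.Lib.MP_7d7b85_al.Defs

namespace Pool.Agent.Lib.MP_7d7b85_al

open Subgroup Filter

variable {G : Type} [Group G] {p k : ℕ} {D : Set G}

theorem rho_mul {A : Subgroup G} {d α β : G} (hc : Comm A) (hd : d ∈ Nz A) (hα : α ∈ A)
    (hβ : β ∈ A) : rho d (α * β) = rho d α * rho d β := by
  have h1 : Commute (d⁻¹ * β⁻¹ * d) (rho d α) :=
    hc _ (Nz_conj hd (A.inv_mem hβ)) _ (rho_mem_of_Nz hd hα)
  calc rho d (α * β) = (d⁻¹ * β⁻¹ * d) * rho d α * β := by simp only [rho]; group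
    _ = rho d α * (d⁻¹ * β⁻¹ * d) * β := by rw [h1.eq]
    _ = _ := by simp only [rho]; group

theorem ab_rho_one (d : G) : rho d 1 = 1 := by simp [rho]

theorem rho_inv {A : Subgroup G} {d α : G} (hc : Comm A) (hd : d ∈ Nz A) (hα : α ∈ A) :
    rho d α⁻¹ = (rho d α)⁻¹ := by
  rw [eq_inv_iff_mul_eq_one, ← rho_mul hc hd (A.inv_mem hα) hα, inv_mul_cancel, ab_rho_one]

theorem rho_pow {A : Subgroup G} {d α : G} (hc : Comm A) (hd : d ∈ Nz A) (hα : α ∈ A) (n : ℕ) :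
    rho d (α ^ n) = rho d α ^ n := by
  induction n with
  | zero => simp [rho]
  | succ n ih => rw [pow_succ, rho_mul hc hd (A.pow_mem hα n) hα, ih, pow_succ]

theorem mem_rhoIm {A : Subgroup G} {d x : G} (hc : Comm A) (hd : d ∈ Nz A) :
    x ∈ rhoIm d A ↔ ∃ α ∈ A, rho d α = x := by
  refine ⟨fun h => ?_, fun ⟨α, hα, e⟩ => subset_closure ⟨α, hα, e⟩⟩
  induction h using closure_induction with
  | mem x hx => exact hx
  | one => exact ⟨1, A.one_mem, ab_rho_one d⟩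
  | mul x y _ _ hx hy =>
    obtain ⟨α, hα, rfl⟩ := hx
    obtain ⟨β, hβ, rfl⟩ := hy
    exact ⟨α * β, A.mul_mem hα hβ, rho_mul hc hd hα hβ⟩
  | inv x _ hx =>
    obtain ⟨α, hα, rfl⟩ := hx
    exact ⟨α⁻¹, A.inv_mem hα, rho_inv hc hd hα⟩

theorem rhoIm_le {A : Subgroup G} {d : G} (hd : d ∈ Nz A) : rhoIm d A ≤ A := by
  refine (closure_le _).2 ?_
  rintro _ ⟨α, hα, rfl⟩
  exact rho_mem_of_Nz hd hα

theorem rhoIm_mono {A B : Subgroup G} (d : G) (h : A ≤ B) : rhoIm d A ≤ rhoIm d B := by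
  exact closure_mono (Set.image_mono h)

theorem rho_congr {A : Subgroup G} {d e α : G} (hd : d ∈ Nz A) (h : d⁻¹ * e ∈ Cz A)
    (hα : α ∈ A) : rho e α = rho d α := by
  have h1 := mem_Cz.1 h _ (Nz_conj hd (A.inv_mem hα))
  calc rho e α = (d⁻¹ * e)⁻¹ * ((d⁻¹ * α⁻¹ * d) * (d⁻¹ * e)) * α := by simp only [rho]; group
    _ = (d⁻¹ * e)⁻¹ * ((d⁻¹ * e) * (d⁻¹ * α⁻¹ * d)) * α := by rw [h1.eq]
    _ = _ := by simp only [rho]; group

theorem Tower.congr {A : Subgroup G} {d e : G} (T : Tower d A) (h : d⁻¹ * e ∈ Cz A) :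
    Tower e A := by
  refine ⟨T.comm, ?_, fun α hα => ?_⟩
  · exact mul_inv_cancel_left d e ▸ (Nz A).mul_mem T.norm (Cz_le_Nz A h)
  · obtain ⟨β, hβ, e1⟩ := T.surj α hα
    exact ⟨β, hβ, (rho_congr T.norm h hβ).trans e1⟩

theorem Tower.rhoIm_eq {A : Subgroup G} {d : G} (T : Tower d A) : rhoIm d A = A := by
  exact le_antisymm (rhoIm_le T.norm) fun α hα => subset_closure (T.surj α hα)

theorem Tower.le_rhoIm {A W : Subgroup G} {d : G} (T : Tower d W) (h : W ≤ A) :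
    W ≤ rhoIm d A := by
  exact T.rhoIm_eq.ge.trans (rhoIm_mono d h)

theorem tower_bot (d : G) : Tower d ⊥ := by
  refine ⟨fun α hα β _ => ?_, mem_Nz.2 fun h => ?_, fun α hα => ⟨1, one_mem _, ?_⟩⟩
  · rw [Subgroup.mem_bot.1 hα]; exact Commute.one_left _
  · simp only [Subgroup.mem_bot]
    exact ⟨fun e => by simp [e], fun e => by
      have : h = d * (d⁻¹ * h * d) * d⁻¹ := by group
      rw [this, e]; simp⟩
  · rw [Subgroup.mem_bot.1 hα, ab_rho_one]

theorem Tower.mul_mem (H : Hyp p k D) {A : Subgroup G} {d α : G} (hd : d ∈ D) (T : Tower d A)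
    (hα : α ∈ A) : d * α ∈ D := by
  obtain ⟨β, -, rfl⟩ := T.surj α hα
  rw [mul_rho]; exact H.conj d hd β

theorem Tower.eq_bot {A : Subgroup G} {d : G} (T : Tower d A) (h : d ∈ Cz A) : A = ⊥ := by
  refine eq_bot_iff.2 fun α hα => ?_
  obtain ⟨β, hβ, rfl⟩ := T.surj α hα
  exact Subgroup.mem_bot.2 (rho_eq_one_iff.2 (mem_Cz.1 h β hβ).symm)

theorem Tower.sup {A B : Subgroup G} {d : G} (T : Tower d A) (T' : Tower d B) (h : A ≤ Cz B) :
    Tower d (A ⊔ B) := by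
  have h1 : A ⊔ B ≤ Cz A := sup_le T.comm.le_Cz (le_Cz_comm.1 h)
  have h2 : A ⊔ B ≤ Cz B := sup_le h T'.comm.le_Cz
  have hc : Comm (A ⊔ B) := comm_of_le_Cz fun g hg => Cz_sup (h1 hg) (h2 hg)
  have hn := Nz_sup T.norm T'.norm
  refine ⟨hc, hn, fun α hα => (mem_rhoIm hc hn).1 ?_⟩
  exact sup_le (T.le_rhoIm le_sup_left) (T'.le_rhoIm le_sup_right) hα

theorem Tower.cjs {A : Subgroup G} {d : G} (T : Tower d A) (g : G) :
    Tower (g⁻¹ * d * g) (cjs A g) := by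
  refine ⟨fun α hα β hβ => ?_, mem_Nz.2 fun h => ?_, fun α hα => ?_⟩
  · have := (T.comm _ (mem_cjs.1 hα) _ (mem_cjs.1 hβ)).eq
    calc α * β = g⁻¹ * (g * α * g⁻¹ * (g * β * g⁻¹)) * g := by group
      _ = β * α := by rw [this]; group
  · rw [mem_cjs, mem_cjs, mem_Nz.1 T.norm]
    exact iff_of_eq (congrArg (· ∈ A) (by group))
  · obtain ⟨β, hβ, e⟩ := T.surj _ (mem_cjs.1 hα)
    refine ⟨g⁻¹ * β * g, conj_mem_cjs hβ, ?_⟩
    calc _ = g⁻¹ * rho d β * g := by simp only [rho]; group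
      _ = α := by rw [e]; group

theorem ab_map_rho {G' : Type} [Group G'] (f : G →* G') (d y : G) :
    f (rho d y) = rho (f d) (f y) := by simp [rho]

theorem Tower.map {G' : Type} [Group G'] (f : G →* G') {A : Subgroup G} {d : G} (T : Tower d A) :
    Tower (f d) (A.map f) := by
  refine ⟨?_, le_normalizer_map f (mem_map_of_mem f T.norm), ?_⟩
  · rintro _ ⟨α, hα, rfl⟩ _ ⟨β, hβ, rfl⟩
    exact (T.comm α hα β hβ).map f
  · rintro _ ⟨α, hα, rfl⟩
    obtain ⟨β, hβ, rfl⟩ := T.surj α hα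
    exact ⟨f β, mem_map_of_mem f hβ, (ab_map_rho f d β).symm⟩

theorem Tower.comap {G' : Type} [Group G'] (f : G →* G') (hf : Function.Injective f)
    {A : Subgroup G'} {d : G} (T : Tower (f d) A) (hA : A ≤ f.range) : Tower d (A.comap f) := by
  refine ⟨fun α hα β hβ => ?_, mem_Nz.2 fun h => ?_, fun α hα => ?_⟩
  · exact hf (by simpa using (T.comm _ hα _ hβ).eq)
  · rw [Subgroup.mem_comap, Subgroup.mem_comap, mem_Nz.1 T.norm]; simp
  · obtain ⟨β, hβ, e⟩ := T.surj _ hα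
    obtain ⟨γ, rfl⟩ := hA hβ
    exact ⟨γ, hβ, hf ((ab_map_rho f d γ).trans e)⟩

/-- A tower lies in every subgroup containing the conjugates of `d` by the tower. -/
theorem Tower.le_of_orb {A L : Subgroup G} {d : G} (T : Tower d A) (h : orb d A ⊆ L) : A ≤ L := by
  intro α hα
  obtain ⟨β, hβ, rfl⟩ := T.surj α hα
  exact L.mul_mem (L.inv_mem (h ⟨1, A.one_mem, by simp⟩)) (h ⟨β, hβ, rfl⟩)

theorem Tower.le_Gam (H : Hyp p k D) {A K : Subgroup G} {d : G} (hd : d ∈ D) (T : Tower d A)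
    (hn : d ∈ Nz K) (hA : A ≤ Nz K) : A ≤ Gam D K := by
  refine T.le_of_orb ?_
  rintro _ ⟨β, hβ, rfl⟩
  exact mem_Gam (H.conj d hd β) ((Nz K).mul_mem ((Nz K).mul_mem ((Nz K).inv_mem (hA hβ)) hn) (hA hβ))

theorem ab_mem_Nz {A : Subgroup G} {d : G} (h1 : A ≤ cjs A d) (h2 : A ≤ cjs A d⁻¹) : d ∈ Nz A :=
  mem_Nz.2 fun h => ⟨fun hh => by simpa using mem_cjs.1 (h2 hh), fun hh => by
    simpa [mul_assoc] using mem_cjs.1 (h1 hh)⟩

/-- The join of pairwise commuting towers is a tower. -/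
theorem tower_sSup {d : G} {s : Set (Subgroup G)} (hT : ∀ W ∈ s, Tower d W)
    (hc : ∀ W ∈ s, ∀ W' ∈ s, W ≤ Cz W') : Tower d (sSup s) := by
  have h1 : Comm (sSup s) := comm_of_le_Cz
    (sSup_le fun W hW => le_Cz_comm.1 (sSup_le fun W' hW' => hc W' hW' W hW))
  have h2 : ∀ g, (∀ W ∈ s, g ∈ Nz W) → sSup s ≤ cjs (sSup s) g := fun g hg =>
    sSup_le fun W hW α hα => mem_cjs.2 (le_sSup hW (Nz_conj' (hg W hW) hα))
  have h3 : d ∈ Nz (sSup s) := ab_mem_Nz (h2 d fun W hW => (hT W hW).norm)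
    (h2 d⁻¹ fun W hW => inv_mem (hT W hW).norm)
  refine ⟨h1, h3, fun α hα => (mem_rhoIm h1 h3).1 ?_⟩
  exact sSup_le (fun W hW => (hT W hW).le_rhoIm (le_sSup hW)) hα

theorem ab_pow {A : Subgroup G} {d α : G} (hc : Comm A) (hd : d ∈ Nz A) (hα : α ∈ A) (n : ℕ) :
    ∃ β ∈ A, (d * α) ^ n = d ^ n * (α ^ n * rho d β) := by
  induction n with
  | zero => exact ⟨1, A.one_mem, by simp [rho]⟩
  | succ n ih =>
    obtain ⟨β, hβ, e⟩ := ih
    have h1 := rho_mem_of_Nz hd hβ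
    have h2 : α ^ n * rho d β ∈ A := A.mul_mem (A.pow_mem hα n) h1
    refine ⟨β * (α ^ n * rho d β)⁻¹, A.mul_mem hβ (A.inv_mem h2), ?_⟩
    rw [rho_mul hc hd hβ (A.inv_mem h2), rho_inv hc hd h2, pow_succ, e]
    have h3 := (hc _ (A.mul_mem h1 (A.inv_mem (rho_mem_of_Nz hd h2))) _ hα).eq
    generalize hγ : α ^ n * rho d β = γ at *
    calc d ^ n * γ * (d * α) = d ^ n * d * (γ * (rho d γ)⁻¹ * α) := by simp only [rho]; group
      _ = d ^ n * d * (α ^ n * (rho d β * (rho d γ)⁻¹ * α)) := by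
        congr 1; rw [mul_assoc γ, mul_assoc (rho d β), ← mul_assoc (α ^ n), hγ]
      _ = _ := by rw [h3, pow_succ, pow_succ]; group

/-- If `d * α` has order dividing `p` then `α ^ p` lies in the image of `rho d`. -/
theorem kerN {A : Subgroup G} {d α : G} (hc : Comm A) (hd : d ∈ Nz A) (hp : d ^ p = 1)
    (hα : α ∈ A) (h : (d * α) ^ p = 1) : ∃ β ∈ A, rho d β = α ^ p := by
  obtain ⟨β, hβ, e⟩ := ab_pow hc hd hα p
  refine ⟨β⁻¹, A.inv_mem hβ, ?_⟩
  rw [h, hp, one_mul] at e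
  rw [rho_inv hc hd hβ]
  exact (eq_inv_of_mul_eq_one_left e.symm).symm

theorem ab_norm_mul {A : Subgroup G} {d α β : G} (hc : Comm A) (hd : d ∈ Nz A) (hα : α ∈ A)
    (hβ : β ∈ A) (n : ℕ) : (d ^ n)⁻¹ * (d * (α * β)) ^ n
      = (d ^ n)⁻¹ * (d * α) ^ n * ((d ^ n)⁻¹ * (d * β) ^ n) := by
  induction n with
  | zero => simp
  | succ n ih =>
    obtain ⟨γ, hγ, e⟩ := ab_pow hc hd hβ n
    have h1 : (d ^ n)⁻¹ * (d * β) ^ n ∈ A := by
      rw [e, inv_mul_cancel_left]; exact A.mul_mem (A.pow_mem hβ n) (rho_mem_of_Nz hd hγ)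
    have h2 := (hc _ (Nz_conj hd h1) _ hα).eq
    have h3 : ∀ x : G, (d ^ (n + 1))⁻¹ * (d * x) ^ (n + 1)
        = d⁻¹ * ((d ^ n)⁻¹ * (d * x) ^ n) * d * x := fun x => by
      rw [pow_succ, pow_succ]; simp only [mul_inv_rev, mul_assoc]
    rw [h3, h3, h3, ih]
    generalize (d ^ n)⁻¹ * (d * β) ^ n = y at *
    generalize (d ^ n)⁻¹ * (d * α) ^ n = x at *
    calc _ = d⁻¹ * x * d * (d⁻¹ * y * d * α) * β := by group
      _ = _ := by rw [h2]; group

/-- Splitting of a divisible abelian group into a fixed divisible part and the image of `rho`. -/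
theorem split_div {A : Subgroup G} {d : G} (hc : Comm A) (hv : IsDiv p A) (hd : d ∈ Nz A)
    (hp : d ^ p = 1) : ∃ B ≤ A, IsDiv p B ∧ d ∈ Cz B ∧ A ≤ B ⊔ rhoIm d A := by
  have hm : ∀ α ∈ A, (d * α) ^ p ∈ A := fun α hα => by
    obtain ⟨γ, hγ, e⟩ := ab_pow hc hd hα p
    rw [e, hp, one_mul]; exact A.mul_mem (A.pow_mem hα p) (rho_mem_of_Nz hd hγ)
  let f : A →* G := MonoidHom.mk' (fun α => (d * α) ^ p) fun α β => by
    simpa [hp] using ab_norm_mul hc hd α.2 β.2 p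
  have hle : f.range ≤ A := by
    rintro _ ⟨α, rfl⟩
    exact hm α α.2
  refine ⟨f.range, hle, ?_, mem_Cz.2 ?_, fun α hα => ?_⟩
  · rintro _ ⟨α, rfl⟩
    obtain ⟨β, hβ, e⟩ := hv α α.2
    exact ⟨f ⟨β, hβ⟩, ⟨_, rfl⟩, by rw [← map_pow]; exact congrArg f (Subtype.ext e)⟩
  · rintro _ ⟨α, rfl⟩
    have h1 : Commute ((d * α) ^ p) (d * α) := (Commute.refl _).pow_left p
    have h2 := h1.mul_right (hc _ (hm α α.2) _ (A.inv_mem α.2))
    rwa [mul_inv_cancel_right] at h2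
  · obtain ⟨β, hβ, rfl⟩ := hv α hα
    obtain ⟨γ, hγ, e⟩ := ab_pow hc hd hβ p
    have : β ^ p = f ⟨β, hβ⟩ * (rho d γ)⁻¹ := by
      change _ = (d * β) ^ p * _
      rw [e, hp]; group
    rw [this]
    exact mul_mem (mem_sup_left ⟨_, rfl⟩) (mem_sup_right (inv_mem (subset_closure ⟨γ, hγ, rfl⟩)))

theorem ab_Nz_rhoIm {A : Subgroup G} {d : G} (hd : d ∈ Nz A) : d ∈ Nz (rhoIm d A) := by
  refine ab_mem_Nz ((closure_le _).2 ?_) ((closure_le _).2 ?_)
  · rintro _ ⟨α, hα, rfl⟩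
    exact mem_cjs.2 (subset_closure ⟨_, Nz_conj' hd hα, by simp only [rho]; group⟩)
  · rintro _ ⟨α, hα, rfl⟩
    exact mem_cjs.2 (subset_closure ⟨_, Nz_conj hd hα, by simp only [rho]; group⟩)

theorem tower_rhoIm {A : Subgroup G} {d : G} (hc : Comm A) (hv : IsDiv p A) (hd : d ∈ Nz A)
    (hp : d ^ p = 1) : Tower d (rhoIm d A) := by
  refine ⟨hc.mono (rhoIm_le hd), ab_Nz_rhoIm hd, fun x hx => ?_⟩
  obtain ⟨B, hB, -, h1, h2⟩ := split_div hc hv hd hp
  obtain ⟨α, hα, rfl⟩ := (mem_rhoIm hc hd).1 hx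
  have h3 : rhoIm d A ≤ Nz B :=
    (rhoIm_le hd).trans (hc.le_Cz.trans ((Cz_anti hB).trans (Cz_le_Nz B)))
  obtain ⟨b, hb, γ, hγ, rfl⟩ := (mem_sup_Nz h3).1 (h2 hα)
  refine ⟨γ, hγ, ?_⟩
  rw [rho_mul hc hd (hB hb) (rhoIm_le hd hγ), rho_eq_one_iff.2 (mem_Cz.1 h1 b hb).symm, one_mul]

theorem Tower.of_div_le (H : Hyp p k D) {A W : Subgroup G} {d : G} (hd : d ∈ D) (T : Tower d A)
    (hW : W ≤ A) (hv : IsDiv p W) (hn : d ∈ Nz W) : Tower d W := by
  refine ⟨T.comm.mono hW, hn, fun α hα => ?_⟩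
  obtain ⟨β, hβ, rfl⟩ := hv α hα
  exact kerN (T.comm.mono hW) hn (H.pow d hd) hβ (H.pow _ (T.mul_mem H hd (hW hβ)))

theorem ab_end (hp : p.Prime) (hodd : p ≠ 2) {M : Type} [AddCommGroup M] (σ : Module.End ℤ M)
    (hσ : σ ^ p = 1) : ∃ r : Module.End ℤ M, ∀ x, (fun y => -σ y + y)^[p] x = r (p • x) := by
  obtain ⟨r, hr⟩ := (Commute.one_right (-σ)).exists_add_pow_prime_eq hp
  refine ⟨-σ * r, fun x => ?_⟩
  have e : (fun y => -σ y + y) = ⇑(-σ + 1) := by funext y; simp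
  rw [e, ← Module.End.pow_apply, hr, (hp.odd_of_ne_two hodd).neg_pow, hσ, one_pow]
  simp

/-- On an abelian `d`-invariant subgroup the `p`-th iterate of `rho d` is a `p`-th power of an
element of the image of `rho d`, and kills the elements of order `p`. -/
theorem rho_iter_p (hp : p.Prime) (hodd : p ≠ 2) {A : Subgroup G} {d α : G} (hc : Comm A)
    (hd : d ∈ Nz A) (hdp : d ^ p = 1) (hα : α ∈ A) :
    (∃ β ∈ A, (rho d)^[p] α = β ^ p) ∧ (α ^ p = 1 → (rho d)^[p] α = 1) := by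
  let _ : CommGroup A := { (inferInstance : Group A) with
    mul_comm := fun a b => Subtype.ext (hc _ a.2 _ b.2).eq }
  let s : A →* A := MonoidHom.mk' (fun a => ⟨d⁻¹ * a * d, Nz_conj hd a.2⟩) fun a b =>
    Subtype.ext (by simp only [coe_mul]; group)
  let σ : Module.End ℤ (Additive A) := (MonoidHom.toAdditive s).toIntLinearMap
  have h1 : ∀ (n : ℕ) (x : Additive A),
      ((((σ ^ n) x).toMul : A) : G) = (d ^ n)⁻¹ * (x.toMul : A) * d ^ n := fun n x => by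
    induction n with
    | zero => simp
    | succ n ih =>
      rw [pow_succ', Module.End.mul_apply]
      change d⁻¹ * ((((σ ^ n) x).toMul : A) : G) * d = _
      rw [ih, pow_succ]; simp only [mul_inv_rev, mul_assoc]
  have h2 : σ ^ p = 1 := LinearMap.ext fun x =>
    Additive.toMul.injective (Subtype.ext (by rw [h1, hdp]; simp))
  obtain ⟨r, hr⟩ := ab_end hp hodd σ h2
  have h3 : ∀ (n : ℕ) (x : Additive A),
      (rho d)^[n] ((x.toMul : A) : G) = ((((fun y => -σ y + y)^[n] x).toMul : A) : G) :=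
    fun n x => by
      induction n with
      | zero => rfl
      | succ n ih =>
        rw [Function.iterate_succ_apply', Function.iterate_succ_apply', ih]
        generalize (fun y => -σ y + y)^[n] x = y
        change _ = (d⁻¹ * ((y.toMul : A) : G) * d)⁻¹ * ((y.toMul : A) : G)
        simp only [rho]; group
  have h4 := h3 p (Additive.ofMul ⟨α, hα⟩)
  rw [hr] at h4
  refine ⟨⟨_, (r (Additive.ofMul ⟨α, hα⟩)).toMul.2, ?_⟩, fun h5 => ?_⟩
  · rw [map_nsmul] at h4; exact h4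
  · have : p • (Additive.ofMul (⟨α, hα⟩ : A)) = 0 :=
      Additive.toMul.injective (Subtype.ext h5)
    rw [this, map_zero] at h4; exact h4

theorem ab_fibre (H : Hyp p k D) {A : Subgroup G} {d : G} (hd : d ∈ D) (T : Tower d A) (x : G) :
    {α | α ∈ A ∧ rho d α = x}.encard ≤ k := by
  rcases Set.eq_empty_or_nonempty {α | α ∈ A ∧ rho d α = x} with e | ⟨β, hβ, e⟩
  · rw [e]; simp
  refine le_trans (Set.encard_le_encard_of_injOn (f := fun α => d * (α * β⁻¹)) ?_ ?_) (H.bnd d hd)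
  · rintro α ⟨hα, e'⟩
    refine ⟨T.mul_mem H hd (A.mul_mem hα (A.inv_mem hβ)), (Commute.refl d).mul_right ?_⟩
    rw [← rho_eq_one_iff, rho_mul T.comm T.norm hα (A.inv_mem hβ), rho_inv T.comm T.norm hβ, e, e',
      mul_inv_cancel]
  · intro α _ γ _ h
    simpa using h

theorem ab_preimage (H : Hyp p k D) {A : Subgroup G} {d : G} (hd : d ∈ D) (T : Tower d A)
    {X : Set G} (hX : X.Finite) : {α | α ∈ A ∧ rho d α ∈ X}.encard ≤ k * X.encard := by
  induction X, hX using Set.Finite.induction_on with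
  | empty => simp
  | @insert x X hx _ ih =>
    have : {α | α ∈ A ∧ rho d α ∈ insert x X}
        = {α | α ∈ A ∧ rho d α ∈ X} ∪ {α | α ∈ A ∧ rho d α = x} := by
      ext α; simp only [Set.mem_ofPred_eq, Set.mem_insert_iff, Set.mem_union]; tauto
    rw [this, Set.encard_insert_of_notMem hx, mul_add, mul_one]
    exact (Set.encard_union_le _ _).trans (add_le_add ih (ab_fibre H hd T x))

theorem ab_ker (H : Hyp p k D) {A : Subgroup G} {d : G} (hd : d ∈ D) (T : Tower d A) (n : ℕ) :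
    {α | α ∈ A ∧ (rho d)^[n] α = 1}.encard ≤ (k ^ n : ℕ) := by
  induction n with
  | zero =>
    refine (Set.encard_le_encard (t := {1}) fun α hα => hα.2).trans ?_
    simp
  | succ n ih =>
    refine (Set.encard_le_encard (t := {α | α ∈ A ∧ rho d α ∈ {α | α ∈ A ∧ (rho d)^[n] α = 1}})
      fun α hα => ⟨hα.1, rho_mem_of_Nz T.norm hα.1, hα.2⟩).trans ?_
    refine (ab_preimage H hd T (Set.finite_of_encard_le_coe ih)).trans ?_
    rw [pow_succ', Nat.cast_mul]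
    gcongr

theorem ab_om (H : Hyp p k D) {A : Subgroup G} {d : G} (hd : d ∈ D) (T : Tower d A) :
    (Om p A).encard ≤ (k ^ p : ℕ) :=
  le_trans (Set.encard_le_encard fun _ hα => And.intro hα.1
    ((rho_iter_p H.prime H.odd T.comm T.norm (H.pow d hd) hα.1).2 hα.2)) (ab_ker H hd T p)

theorem ab_surj {A : Subgroup G} {d : G} (T : Tower d A) (n : ℕ) :
    ∀ α ∈ A, ∃ β ∈ A, (rho d)^[n] β = α := by
  induction n with
  | zero => exact fun α hα => ⟨α, hα, rfl⟩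
  | succ n ih =>
    intro α hα
    obtain ⟨β, hβ, rfl⟩ := ih α hα
    obtain ⟨γ, hγ, rfl⟩ := T.surj β hβ
    exact ⟨γ, hγ, rfl⟩

theorem Tower.fr (H : Hyp p k D) {A : Subgroup G} {d : G} (hd : d ∈ D) (T : Tower d A) :
    FR p A := by
  refine ⟨T.comm, fun α hα => ?_, Set.finite_of_encard_le_coe (ab_om H hd T)⟩
  obtain ⟨γ, hγ, rfl⟩ := ab_surj T p α hα
  obtain ⟨β, hβ, e⟩ := (rho_iter_p H.prime H.odd T.comm T.norm (H.pow d hd) hγ).1
  exact ⟨β, hβ, e.symm⟩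

theorem Tower.om_le (H : Hyp p k D) {A : Subgroup G} {d : G} (hd : d ∈ D) (T : Tower d A) :
    (Om p A).ncard ≤ k ^ p := by
  have h1 := ab_om H hd T
  rw [← (Set.finite_of_encard_le_coe h1).cast_ncard_eq] at h1
  exact_mod_cast h1

theorem rho_nil (H : Hyp p k D) {d : G} (hd : d ∈ D) (x : G) : ∃ n, (rho d)^[n] x = 1 := by
  have hf := H.fin d hd _ (H.conj d hd x)
  set P : Subgroup G := closure {d, x⁻¹ * d * x}
  have : Finite P := hf
  have : Fact p.Prime := ⟨H.prime⟩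
  obtain ⟨n, hn⟩ := P.isNilpotent_iff_lowerCentralSeries.1 (H.pgrp.to_subgroup P).isNilpotent
  have h0 : d ∈ P := subset_closure (by simp)
  have h1 : ∀ j, (rho d)^[j + 1] x ∈ P.lowerCentralSeries j := fun j => by
    induction j with
    | zero => exact P.mul_mem (P.inv_mem h0) (subset_closure (by simp))
    | succ j ih =>
      rw [Function.iterate_succ_apply', Subgroup.lowerCentralSeries_succ, commutator_comm]
      have := commutator_mem_commutator (P.inv_mem h0) (inv_mem ih)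
      simpa [commutatorElement_def, rho, mul_assoc] using this
  exact ⟨n + 1, Subgroup.mem_bot.1 (hn ▸ h1 n)⟩

theorem rho_iter_mem {A : Subgroup G} {d x : G} (hd : d ∈ Nz A) (hx : x ∈ A) (n : ℕ) :
    (rho d)^[n] x ∈ A := by
  induction n with
  | zero => exact hx
  | succ n ih => rw [Function.iterate_succ_apply']; exact rho_mem_of_Nz hd ih

theorem exists_last (H : Hyp p k D) {d : G} (hd : d ∈ D) (K : Subgroup G) {x : G}
    (hx : x ∉ K) : ∃ j, (rho d)^[j] x ∉ K ∧ rho d ((rho d)^[j] x) ∈ K := by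
  by_contra h
  obtain ⟨n, hn⟩ := rho_nil H hd x
  have : ∀ j, (rho d)^[j] x ∉ K := fun j => by
    induction j with
    | zero => exact hx
    | succ j ih => rw [Function.iterate_succ_apply']; exact fun e => h ⟨j, ih, e⟩
  exact this n (hn ▸ K.one_mem)

theorem Tower.exists_ker (H : Hyp p k D) {A : Subgroup G} {d : G} (hd : d ∈ D) (T : Tower d A)
    (h : A ≠ ⊥) : ∃ z ∈ A, z ≠ 1 ∧ Commute d z := by
  obtain ⟨x, hx, h1⟩ := (bot_or_exists_ne_one A).resolve_left h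
  obtain ⟨j, h2, h3⟩ := exists_last H hd ⊥ (x := x) (by simpa using h1)
  exact ⟨_, rho_iter_mem T.norm hx j, by simpa using h2, rho_eq_one_iff.1 (Subgroup.mem_bot.1 h3)⟩

/-- The preimage under `rho d` of a finite set inside a tower is finite. -/
theorem Tower.finite_preimage (H : Hyp p k D) {A : Subgroup G} {d : G} (hd : d ∈ D)
    (T : Tower d A) {X : Set G} (hX : X.Finite) : {α | α ∈ A ∧ rho d α ∈ X}.Finite := by
  have := ab_preimage H hd T hX
  rw [← hX.cast_ncard_eq, ← Nat.cast_mul] at this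
  exact Set.finite_of_encard_le_coe this

/-- The subgroup generated by the `d`-conjugates of `rho d x` is finite. -/
theorem finite_rho_closure (H : Hyp p k D) {d : G} (hd : d ∈ D) (x : G) :
    ((closure (orb (rho d x) (zpowers d)) : Subgroup G) : Set G).Finite := by
  refine (H.fin d hd _ (H.conj d hd x)).subset ((closure_le _).2 ?_)
  rintro _ ⟨g, hg, rfl⟩
  have h0 : d ∈ closure {d, x⁻¹ * d * x} := subset_closure (by simp)
  have h1 := zpowers_le.2 h0 hg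
  exact mul_mem (mul_mem (inv_mem h1) (mul_mem (inv_mem h0) (subset_closure (by simp)))) h1

theorem Nz_closure_orb (z d : G) : d ∈ Nz (closure (orb z (zpowers d))) := by
  have : ∀ g ∈ zpowers d, closure (orb z (zpowers d)) ≤ cjs (closure (orb z (zpowers d))) g :=
    fun g hg => (closure_le _).2 (by
      rintro _ ⟨h, hh, rfl⟩
      exact mem_cjs.2 (subset_closure ⟨h * g⁻¹, mul_mem hh (inv_mem hg), by group⟩))
  exact ab_mem_Nz (this d (mem_zpowers d)) (this _ (inv_mem (mem_zpowers d)))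

theorem finite_sup {A B : Subgroup G} (h : B ≤ Nz A) (hA : (A : Set G).Finite)
    (hB : (B : Set G).Finite) : ((A ⊔ B : Subgroup G) : Set G).Finite := by
  refine (hA.mul hB).subset fun x hx => ?_
  obtain ⟨α, hα, β, hβ, rfl⟩ := (mem_sup_Nz h).1 hx
  exact Set.mul_mem_mul hα hβ

theorem finite_ext (hp : p.Prime) (hG : IsPGroup p G) {K : Subgroup G} {w : G} (hw : w ∈ Nz K)
    (hK : (K : Set G).Finite) : ((ext K w : Subgroup G) : Set G).Finite := by
  refine finite_sup (zpowers_le.2 hw) hK (finite_zpowers.2 ?_)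
  obtain ⟨s, hs⟩ := hG w
  exact isOfFinOrder_iff_pow_eq_one.2 ⟨p ^ s, pow_pos hp.pos s, hs⟩

/-- An element normalising `K` and fixing `w` modulo `K` normalises `ext K w`. -/
theorem mem_Nz_ext (hp : p.Prime) (hG : IsPGroup p G) {K : Subgroup G} {w g : G} (hg : g ∈ Nz K)
    (h : g⁻¹ * w * g ∈ ext K w) : g ∈ Nz (ext K w) := by
  have : ext K w ≤ cjs (ext K w) g⁻¹ := sup_le
    (fun α hα => mem_cjs.2 (mem_sup_left (by simpa using Nz_conj hg hα)))
    (zpowers_le.2 (mem_cjs.2 (by simpa using h)))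
  exact mem_Nz_of_conj hp hG fun α hα => by simpa using mem_cjs.1 (this hα)

theorem PD.rho_cent {d x : G} {K : Subgroup G} (h : PD d K x) (hd : d ∈ Nz K) :
    rho d x ∈ Cz K := by
  exact rho_mem_of_Nz (Nz_Cz hd) h.cent

theorem PD.norm_ext (H : Hyp p k D) {d x : G} {K : Subgroup G} (h : PD d K x) (hd : d ∈ Nz K) :
    d ∈ Nz (ext K (rho d x)) ∧ x⁻¹ * d * x ∈ Nz (ext K d) ∧ x⁻¹ * d * x ∈ Nz K := by
  have h1 : x⁻¹ * d * x ∈ Nz K := mul_rho d x ▸ mul_mem hd (Cz_le_Nz K (h.rho_cent hd))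
  refine ⟨mem_Nz_ext H.prime H.pgrp hd ?_, mem_Nz_ext H.prime H.pgrp h1 ?_, h1⟩
  · have : d⁻¹ * rho d x * d = rho d x * (rho d (rho d x))⁻¹ := by simp only [rho]; group
    rw [this]
    exact mul_mem (mem_sup_right (mem_zpowers _)) (mem_sup_left (inv_mem h.rho_mem))
  · have : (x⁻¹ * d * x)⁻¹ * d * (x⁻¹ * d * x) = d * rho d (rho d x) := by simp only [rho]; group
    rw [this]
    exact mul_mem (mem_sup_right (mem_zpowers _)) (mem_sup_left h.rho_mem)

end Pool.Agent.Lib.MP_7d7b85_al
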