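import Mathlib

/-!
Basic tools: finite conjugacy classes in p-groups, B. H. Neumann covering, and commutators in
nilpotent groups.
-/

namespace Pool.Agent.Lib.MP_7d7b85_al

open Subgroup

variable {G : Type*} [Group G] {p : ℕ}

theorem finite_conj_of_finiteIndex (z : G) [h : (centralizer ({z} : Set G)).FiniteIndex] :
    {x : G | IsConj z x}.Finite := by
  have hf : Finite (G ⧸ centralizer ({z} : Set G)) := Subgroup.finite_quotient_of_finiteIndex
  refine (Set.finite_range fun q : G ⧸ centralizer ({z} : Set G) =>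
    q.out * z * q.out⁻¹).subset ?_
  intro x hx
  obtain ⟨g, rfl⟩ := isConj_iff.1 hx
  refine ⟨(g : G ⧸ centralizer ({z} : Set G)), ?_⟩
  obtain ⟨c, hc⟩ := QuotientGroup.mk_out_eq_mul (centralizer ({z} : Set G)) g
  have h1 : z * c = c * z := (mem_centralizer_iff.1 c.2) z rfl
  simp only [hc, mul_inv_rev]
  calc g * c * z * ((c : G)⁻¹ * g⁻¹) = g * ((c : G) * z) * (c : G)⁻¹ * g⁻¹ := by group
    _ = g * (z * c) * (c : G)⁻¹ * g⁻¹ := by rw [h1]
    _ = g * z * g⁻¹ := by group

theorem finiteIndex_of_finite_conj (z : G) (h : {x : G | IsConj z x}.Finite) :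
    (centralizer ({z} : Set G)).FiniteIndex := by
  have := h.to_subtype
  refine (finiteIndex_iff_finite_quotient).2 (Finite.of_injective
    (fun q : G ⧸ centralizer ({z} : Set G) =>
      (⟨q.out * z * q.out⁻¹, isConj_iff.2 ⟨_, rfl⟩⟩ : {x : G | IsConj z x})) ?_)
  intro q q' e
  have e' : q.out * z * q.out⁻¹ = q'.out * z * q'.out⁻¹ := congrArg Subtype.val e
  rw [← q.out_eq, ← q'.out_eq]
  refine QuotientGroup.eq.2 (mem_centralizer_singleton_iff.2 (Eq.symm ?_))
  calc z * (q.out⁻¹ * q'.out) = q.out⁻¹ * (q.out * z * q.out⁻¹) * q'.out := by group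
    _ = q.out⁻¹ * (q'.out * z * q'.out⁻¹) * q'.out := by rw [e']
    _ = q.out⁻¹ * q'.out * z := by group

/-- A `p`-group with a nontrivial element having finitely many conjugates has nontrivial centre. -/
theorem center_ne_bot_of_finiteIndex (hp : p.Prime) (hG : IsPGroup p G) {z : G} (hz : z ≠ 1)
    [h : (centralizer ({z} : Set G)).FiniteIndex] : center G ≠ ⊥ := by
  have : Fact p.Prime := ⟨hp⟩
  set M := normalClosure ({z} : Set G) with hM
  have hS : (Group.conjugatesOfSet ({z} : Set G)).Finite := by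
    refine (finite_conj_of_finiteIndex z).subset fun x hx => ?_
    simpa using Group.mem_conjugatesOfSet_iff.1 hx
  have hfg : Group.FG M := by
    have := hS.to_subtype
    exact Group.closure_finite_fg _
  set K := (centralizer ({z} : Set G)).normalCore with hK
  have hle : K.subgroupOf M ≤ center M := by
    intro x hx
    rw [mem_subgroupOf] at hx
    rw [mem_center_iff]
    intro y
    apply Subtype.ext
    have hy : M ≤ centralizer ({(x : G)} : Set G) := by
      refine (closure_le _).2 fun s hs => ?_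
      have hs' : IsConj z s := by simpa using Group.mem_conjugatesOfSet_iff.1 hs
      obtain ⟨g, rfl⟩ := isConj_iff.1 hs'
      have h1 : g⁻¹ * x * g⁻¹⁻¹ ∈ centralizer ({z} : Set G) := hx g⁻¹
      have h2 := mem_centralizer_iff.1 h1 z rfl
      refine mem_centralizer_singleton_iff.2 (Eq.symm ?_)
      calc (x : G) * (g * z * g⁻¹) = g * (g⁻¹ * x * g⁻¹⁻¹ * z) * g⁻¹ := by group
        _ = g * (z * (g⁻¹ * x * g⁻¹⁻¹)) * g⁻¹ := by rw [h2]
        _ = g * z * g⁻¹ * x := by group
    exact (mem_centralizer_iff.1 (hy y.2) x rfl).symm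
  have hci : (center M).FiniteIndex := finiteIndex_of_le hle
  have hMp : IsPGroup p M := hG.to_subgroup M
  have hcf : Finite (center M) := by
    let : CommGroup (center M) := { mul_comm := fun a b => Subtype.ext (mem_center_iff.1 b.2 a) }
    refine CommGroup.finite_of_fg_isMulTorsion _ fun x => ?_
    obtain ⟨k, hk⟩ := (hMp.to_subgroup (center M)) x
    exact isOfFinOrder_iff_pow_eq_one.2 ⟨p ^ k, pow_pos hp.pos k, hk⟩
  have hMf : Finite M := by
    have : Finite (M ⧸ center M) := Subgroup.finite_quotient_of_finiteIndex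
    exact Finite.of_subgroup_quotient (center M)
  have hnt : Nontrivial M := ⟨⟨⟨z, subset_normalClosure rfl⟩, 1, fun e => hz (congrArg Subtype.val e)⟩⟩
  have hdvd : p ∣ Nat.card M := by
    obtain ⟨n, hn, e⟩ := hMp.nontrivial_iff_card.1 hnt
    rw [e]
    exact dvd_pow_self p hn.ne'
  have hC : IsPGroup p (ConjAct G) := hG.of_equiv ConjAct.toConjAct
  obtain ⟨b, hb, hne⟩ := hC.exists_fixed_point_of_prime_dvd_card_of_fixed_point M hdvd
    (a := 1) (fun g => smul_one g)
  intro hbot
  apply hne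
  apply Subtype.ext
  have : (b : G) ∈ center G := by
    rw [mem_center_iff]
    intro g
    have := congrArg Subtype.val (hb (ConjAct.toConjAct g))
    rw [ConjAct.Subgroup.val_conj_smul, ConjAct.smul_def, ConjAct.ofConjAct_toConjAct] at this
    exact mul_inv_eq_iff_eq_mul.1 this
  rw [hbot, mem_bot] at this
  simp [this]

/-- B. H. Neumann covering argument. -/
theorem center_ne_bot_of_returns (hp : p.Prime) (hG : IsPGroup p G) {U : Set G} (hU : U.Finite)
    (h1 : (1 : G) ∉ U) (h : ∀ g : G, ∃ y ∈ U, g * y * g⁻¹ ∈ U) : center G ≠ ⊥ := by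
  classical
  let s : Finset (G × G) := (hU.toFinset ×ˢ hU.toFinset).filter fun q => IsConj q.1 q.2
  let r : G × G → G := fun q => if hq : IsConj q.1 q.2 then (isConj_iff.1 hq).choose else 1
  have hr : ∀ q : G × G, IsConj q.1 q.2 → r q * q.1 * (r q)⁻¹ = q.2 := fun q hq => by
    simp only [r, dif_pos hq]
    exact (isConj_iff.1 hq).choose_spec
  obtain ⟨k, hk, hfi⟩ := exists_finiteIndex_of_leftCoset_cover (s := s)
    (H := fun q => centralizer ({q.1} : Set G)) (g := r) (by
      refine Set.eq_univ_of_forall fun g => ?_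
      obtain ⟨y, hy, hy'⟩ := h g
      have hc : IsConj y (g * y * g⁻¹) := isConj_iff.2 ⟨g, rfl⟩
      refine Set.mem_biUnion (x := (y, g * y * g⁻¹)) (by simp [s, hy, hy']) ?_
      rw [mem_leftCoset_iff]
      refine mem_centralizer_singleton_iff.2 (Eq.symm ?_)
      have e := hr (y, g * y * g⁻¹) hc
      dsimp only at e ⊢
      generalize r (y, g * y * g⁻¹) = c at e ⊢
      calc y * (c⁻¹ * g) = c⁻¹ * (c * y * c⁻¹) * g := by group
        _ = c⁻¹ * (g * y * g⁻¹) * g := by rw [e]
        _ = c⁻¹ * g * y := by group)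
  have hk1 : k.1 ∈ U := by
    simp only [s, Finset.mem_filter, Finset.mem_product, Set.Finite.mem_toFinset] at hk
    exact hk.1.1
  exact center_ne_bot_of_finiteIndex hp hG (z := k.1) (fun e => h1 (e ▸ hk1))

/-- In a nilpotent group, if a set `S` does not centralise the normal subgroup `K`, some
commutator of an element of `S` with an element of `K` is nontrivial and all its conjugates
commute with `S`. -/
theorem exists_comm_of_nilpotent {P : Type*} [Group P] [hP : Group.IsNilpotent P]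
    (K : Subgroup P) [hK : K.Normal] (S : Set P) (h : ∃ s ∈ S, ∃ x ∈ K, ¬ Commute s x) :
    ∃ s ∈ S, ∃ x ∈ K, s⁻¹ * (x⁻¹ * s * x) ≠ 1 ∧
      ∀ s' ∈ S, ∀ g : P, Commute s' (g⁻¹ * (s⁻¹ * (x⁻¹ * s * x)) * g) := by
  classical
  have hex : ∃ j, ∃ s ∈ S, ∃ x ∈ K, x ∈ Subgroup.upperCentralSeries P j ∧ ¬ Commute s x := by
    obtain ⟨c, hc⟩ := hP.nilpotent'
    obtain ⟨s, hs, x, hx, hn⟩ := h
    exact ⟨c, s, hs, x, hx, by rw [hc]; trivial, hn⟩
  obtain ⟨s, hs, x, hx, hxj, hn⟩ := Nat.find_spec hex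
  have hmin := fun j => Nat.find_min hex (m := j)
  generalize Nat.find hex = j at hxj hmin
  cases j with
  | zero =>
    rw [Subgroup.upperCentralSeries_zero, mem_bot] at hxj
    exact (hn (hxj ▸ Commute.one_right s)).elim
  | succ j =>
    refine ⟨s, hs, x, hx, fun e => hn ?_, fun s' hs' g => ?_⟩
    · have : x⁻¹ * s * x = s := (inv_mul_eq_one.1 e).symm
      change s * x = x * s
      calc s * x = x * (x⁻¹ * s * x) := by group
        _ = x * s := by rw [this]
    · by_contra hne
      refine hmin j (Nat.lt_succ_self j) ⟨s', hs', _, ?_, ?_, hne⟩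
      · have h1 : s⁻¹ * x⁻¹ * s ∈ K := by simpa using hK.conj_mem _ (K.inv_mem hx) s⁻¹
        have h2 : s⁻¹ * (x⁻¹ * s * x) ∈ K := by
          simpa [mul_assoc] using K.mul_mem h1 hx
        simpa using hK.conj_mem _ h2 g⁻¹
      · have h1 := Subgroup.mem_upperCentralSeries_succ_iff.1
          ((Subgroup.upperCentralSeries P (j + 1)).inv_mem hxj) s⁻¹
        have h2 : s⁻¹ * (x⁻¹ * s * x) ∈ Subgroup.upperCentralSeries P j := by
          have := (Subgroup.upperCentralSeries P j).inv_mem h1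
          simpa [commutatorElement_def, mul_assoc] using this
        simpa using (inferInstance : (Subgroup.upperCentralSeries P j).Normal).conj_mem _ h2 g⁻¹

/-- The same inside a finite subgroup of a `p`-group. -/
theorem exists_comm (hp : p.Prime) (hG : IsPGroup p G) (H : Subgroup G) (hH : (H : Set G).Finite)
    (K : Subgroup G) (hK : ∀ h ∈ H, ∀ x ∈ K, h * x * h⁻¹ ∈ K) (S : Set G) (hS : S ⊆ H)
    (h : ∃ s ∈ S, ∃ x ∈ K, x ∈ H ∧ ¬ Commute s x) :
    ∃ s ∈ S, ∃ x ∈ K, x ∈ H ∧ s⁻¹ * (x⁻¹ * s * x) ≠ 1 ∧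
      ∀ s' ∈ S, ∀ g ∈ H, Commute s' (g⁻¹ * (s⁻¹ * (x⁻¹ * s * x)) * g) := by
  have : Fact p.Prime := ⟨hp⟩
  have : Finite H := hH.to_subtype
  have : Group.IsNilpotent H := (hG.to_subgroup H).isNilpotent
  have : (K.subgroupOf H).Normal := ⟨fun x hx g => hK g g.2 x hx⟩
  obtain ⟨s, hs, x, hx, h1, h2⟩ := exists_comm_of_nilpotent (K.subgroupOf H)
    {s : H | (s : G) ∈ S} (by
      obtain ⟨s, hs, x, hx, hxH, hn⟩ := h
      exact ⟨⟨s, hS hs⟩, hs, ⟨x, hxH⟩, hx, fun e => hn (congrArg Subtype.val e)⟩)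
  refine ⟨s, hs, x, hx, x.2, fun e => h1 (Subtype.ext e), fun s' hs' g hg => ?_⟩
  exact congrArg Subtype.val (h2 ⟨s', hS hs'⟩ hs' ⟨g, hg⟩)

end Pool.Agent.Lib.MP_7d7b85_al
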