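import Pool.Agent.Lib.MP_7d7b85_al.LimF

namespace Pool.Agent.Lib.MP_7d7b85_al

open Subgroup Filter

variable {G : Type} [Group G] {p k : ℕ} {D : Set G}

variable {I : Type} {r : Ultrafilter I}

theorem alignAll (H : Hyp p k D) {e : I → G} {K : Subgroup G} (hK : (K : Set G).Finite)
    (he : ∀ᶠ l in r, e l ∈ D ∧ e l ∈ Nz K) (hN : NoCT r e K) {y : G} (hy : y ∈ Gam D K)
    (h : CO p (Gam D K) y) : y ∈ TT r e := by
  obtain ⟨A, hA, hAΓ, hΓ, hf⟩ := h
  have hAK : A ≤ Cz K :=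
    hA.div.le_Cz_of_finite H.prime H.pgrp (hAΓ.trans (Gam_le_Nz D K)) hK
  have h1 := centFR H hN hA hAK (he.mono fun l hl => ⟨hl.1, hΓ (mem_Gam hl.1 hl.2)⟩)
  have h2 := align0 H hA hAΓ hΓ hy hf
  intro j
  refine evC_of_finite r _ h2 ?_
  filter_upwards [he, h1] with l hl hc
  refine ⟨e l ^ j, ⟨pow_mem (mem_Gam hl.1 hl.2) j, pow_mem hc j, ?_⟩, rfl⟩
  rw [← pow_mul, mul_comm, pow_mul, H.pow _ hl.1, one_pow]

theorem TT.lim_mem {e : I → G} {g g' : G} (hg : g ∈ TT r e)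
    (h : ∀ᶠ l in r, (e l)⁻¹ * g * e l = g') : g' ∈ TT r e := by
  intro j
  obtain ⟨g'', h2⟩ := hg (j + 1)
  refine ⟨g'', ?_⟩
  filter_upwards [h, h2] with l h3 h4
  rw [← h3, ← h4, pow_succ']; group

theorem TT.evC {e : I → G} {g : G} (hg : g ∈ TT r e) : EvC r e g := by
  simpa using hg 1

theorem TT.of_finite {e : I → G} {K : Subgroup G} (hK : (K : Set G).Finite)
    (he : ∀ᶠ l in r, e l ∈ Nz K) : K ≤ TT r e := fun _ hg j =>
  evC_of_finite r _ hK (he.mono fun _ hl => Nz_conj (pow_mem hl j) hg)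

/-- Elements commuting with a point of `TT` and completing it to a point lie in `TT`. -/
theorem TT.of_comm (H : Hyp p k D) {e : I → G} {y u : G} (hy : y ∈ D) (hyT : y ∈ TT r e)
    (hu : y * u ∈ D) (hc : Commute y u) : u ∈ TT r e := by
  have h1 : y * u ∈ TT r e := by
    intro j
    obtain ⟨y', hy'⟩ := hyT j
    have hD : y' ∈ D := by
      obtain ⟨l, hl⟩ := hy'.exists
      exact hl ▸ H.conj _ hy _
    refine evC_of_finite r _ (H.finite_comm hD) ?_
    filter_upwards [hy'] with l hl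
    refine ⟨H.conj _ hu _, ?_⟩
    rw [← hl]
    have h2 : y * (y * u) = y * u * y := by rw [mul_assoc, ← hc.eq]
    change _ * _ = _ * _
    calc (e l ^ j)⁻¹ * y * e l ^ j * ((e l ^ j)⁻¹ * (y * u) * e l ^ j)
        = (e l ^ j)⁻¹ * (y * (y * u)) * e l ^ j := by group
      _ = _ := by rw [h2]; group
  simpa using mul_mem (inv_mem hyT) h1

/-- The Heisenberg configuration. -/
structure Beta (p : ℕ) (D : Set G) (r : Ultrafilter I) (e : I → G) (c : G) : Prop where
  mem : ∀ᶠ l in r, e l ∈ D ∧ e l ∈ TT r e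
  c_mem : c ∈ TT r e
  c_cent : c ∈ Cz (TT r e)
  rel : ∀ᶠ i in r, ∀ᶠ l in r, (e l)⁻¹ * e i * e l = e i * c

theorem Beta.eta (H : Hyp p k D) {e : I → G} {c : G} (h : Beta p D r e c) (j : ℕ) :
    ∀ᶠ l in r, ∀ᶠ l' in r, ((e l ^ j)⁻¹ * e l' ^ j) ^ p = 1 := by
  filter_upwards [h.mem, h.rel] with l h1 h2
  filter_upwards [h.mem, h2] with l' h3 h4
  exact cls2 H.prime H.odd (H.pow _ h1.1) (H.pow _ h3.1) h4 (mem_Cz.1 h.c_cent _ h1.2).symm
    (mem_Cz.1 h.c_cent _ h3.2).symm j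

/-- The Heisenberg configuration when all conjugation actions are eventually constant. -/
theorem beta_top {n : ℕ} (hT : TS p k n) (H : Hyp p k D) {K : Subgroup G} {t : Dat G} {e : I → G}
    (hg : ∀ᶠ l in r, Good p D K t (e l)) (hn : n ≤ t.m + t.n) (hN : NoCT r e K)
    (htop : ∀ g, g ∈ TT r e) : ∃ c, Beta p D r e c := by
  have he : ∀ᶠ l in r, e l ∈ D := hg.mono fun l hl => hl.mem
  have hE : ∀ g, EvC r e g := fun g => TT.evC (htop g)
  obtain ⟨L⟩ := exists_lim H r e he hE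
  have gε := L.good L.rep_ε hg
  have hCO := hT L.Q L.D' L.hyp _ _ _ gε hn
  have hε := alignAll L.hyp (e := fun l => L.ι (e l)) gε.fin
    (hg.mono fun l hl => ⟨L.mem_D.2 hl.mem, (L.good (L.rep_ι (e l))
      (Eventually.of_forall fun _ => hl)).norm⟩) (L.noCT he H hE hN)
    (mem_Gam gε.mem gε.norm) hCO
  obtain ⟨ε', hε'⟩ := TT.evC hε
  choose τ hτ using hE
  have hc : ∀ g, L.ε⁻¹ * L.ι g * L.ε = L.ι (τ g) := fun g => L.conj_ε (hτ g)
  have key : ∀ i, (L.ι (e i))⁻¹ * L.ε * L.ι (e i) = L.ε * L.ι ((τ (e i))⁻¹ * e i) := fun i => by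
    rw [map_mul, map_inv, ← hc]; group
  obtain ⟨i₀, hi₀⟩ := hε'.exists
  set c := (e i₀)⁻¹ * τ (e i₀) with hcdef
  have hrel : ∀ᶠ i in r, τ (e i) = e i * c := by
    filter_upwards [hε'] with i hi
    have h1 : (τ (e i))⁻¹ * e i = (τ (e i₀))⁻¹ * e i₀ := by
      apply L.inj
      apply mul_left_cancel (a := L.ε)
      rw [← key, ← key, hi, hi₀]
    have h2 : (e i)⁻¹ * τ (e i) = c := by
      rw [hcdef, ← inv_inj]
      simpa using h1
    rw [← h2]; group
  have hεp : L.ε ^ p = 1 := L.hyp.pow _ gε.mem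
  have hmul : ∀ s t, τ (s * t) = τ s * τ t := fun s t => L.inj (by
    rw [map_mul, ← hc, ← hc, ← hc, map_mul]; group)
  have hτp : ∀ t, τ^[p] t = t := fun t => by
    have := (limF_iter (T := ⊤) (fun _ _ => trivial) (fun t _ => hc t) p t trivial).2
    rw [hεp] at this
    exact L.inj (by simpa using this.symm)
  refine ⟨c, hg.mono fun l hl => ⟨hl.mem, htop _⟩, htop _, mem_Cz.2 fun x _ => ?_, ?_⟩
  · obtain ⟨g, rfl⟩ : ∃ g, τ (τ g) = x := by
      refine ⟨τ^[p - 2] x, ?_⟩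
      have h2 := H.prime.two_le
      have := hτp x
      rwa [show p = p - 2 + 1 + 1 by omega, Function.iterate_succ_apply',
        Function.iterate_succ_apply'] at this
    obtain ⟨i, h1, h2, h3⟩ := (hrel.and ((hτ g).and (hτ (τ g)))).exists
    have h4 : g * e i = e i * τ g := by rw [← h2]; group
    have h5 : τ g * e i = e i * τ (τ g) := by rw [← h3]; group
    have h6 := congrArg τ h4
    rw [hmul, hmul, h1, ← mul_assoc, h5, mul_assoc, mul_assoc] at h6
    exact mul_left_cancel h6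
  · filter_upwards [hrel] with i hi
    rw [← hi]
    exact hτ _

theorem exists_beta {n : ℕ} (hT : TS p k n) (H : Hyp p k D) {K : Subgroup G} {t : Dat G}
    {e : I → G} (hg : ∀ᶠ l in r, Good p D K t (e l)) (hn : n ≤ t.m + t.n) (hN : NoCT r e K) :
    ∃ c, Beta p D r e c := by
  classical
  have hK : (K : Set G).Finite := hg.exists.choose_spec.fin
  have he : ∀ᶠ l in r, e l ∈ D ∧ e l ∈ Nz K := hg.mono fun l hl => ⟨hl.mem, hl.norm⟩
  have hmem : ∀ᶠ l in r, e l ∈ TT r e := hg.mono fun l hl =>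
    alignAll H hK he hN (mem_Gam hl.mem hl.norm) (hT G D H K t _ hl hn)
  have hKT : K ≤ TT r e := TT.of_finite hK (he.mono fun l hl => hl.2)
  obtain ⟨t', hm, hn', ht'⟩ := exists_comap_dat (p := p) (D := D) (TT r e) hKT t
  let e' : I → TT r e := fun l => if h : e l ∈ TT r e then ⟨e l, h⟩ else 1
  have hee : ∀ᶠ l in r, (e' l : G) = e l := hmem.mono fun l hl => by simp [e', hl]
  have htop : ∀ g, g ∈ TT r e' := fun g j => by
    obtain ⟨g', hg'⟩ := g.2 j
    have h1 : g' ∈ TT r e := by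
      obtain ⟨l, h1, h2⟩ := (hg'.and hmem).exists
      rw [← h1]
      exact mul_mem (mul_mem (inv_mem (pow_mem h2 j)) g.2) (pow_mem h2 j)
    refine ⟨⟨g', h1⟩, ?_⟩
    filter_upwards [hg', hee] with l h2 h3
    apply Subtype.ext
    simpa [h3] using h2
  have hN' : NoCT r e' (K.subgroupOf (TT r e)) := fun B hB hTw => by
    have h1 : B.map (TT r e).subtype = ⊥ := by
      refine hN _ ?_ ?_
      · rintro _ ⟨b, hb, rfl⟩
        exact mem_Cz.2 fun α hα => congrArg Subtype.val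
          (mem_Cz.1 (hB hb) ⟨α, hKT hα⟩ hα).eq
      · filter_upwards [hTw, hee] with l h2 h3
        rw [← h3]
        exact h2.map (TT r e).subtype
    exact (map_eq_bot_iff_of_injective _ (TT r e).subtype_injective).1 h1
  obtain ⟨c, hc⟩ := beta_top hT (H.subgroup (TT r e)) (K := K.subgroupOf (TT r e)) (t := t')
    (e := e') (by
      filter_upwards [hg, hee] with l h1 h2
      exact ht' _ (h2 ▸ h1)) (by omega) hN' htop
  refine ⟨c, (he.and hmem).mono fun l hl => ⟨hl.1.1, hl.2⟩, c.2, mem_Cz.2 fun α hα =>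
    congrArg Subtype.val (mem_Cz.1 hc.c_cent ⟨α, hα⟩ (htop _)).eq, ?_⟩
  filter_upwards [hc.rel, hee] with i h1 h2
  filter_upwards [h1, hee] with l h3 h4
  simpa [h2, h4] using congrArg Subtype.val h3

end Pool.Agent.Lib.MP_7d7b85_al
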