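import Pool.Agent.Lib.MP_7d7b85_al.Misc

namespace Pool.Agent.Lib.MP_7d7b85_al

open Subgroup Filter

variable {G : Type} [Group G] {p k : ℕ} {D : Set G}

theorem col_mem {A : Subgroup G} {g x : G} : g⁻¹ * x * g ∈ cjs A g ↔ x ∈ A := by
  simp [mul_assoc]

theorem col_map (A : Subgroup G) (g : G) :
    cjs A g = A.map (MulAut.conj g).symm.toMonoidHom := by
  ext x
  rw [mem_cjs, Subgroup.mem_map]
  constructor
  · intro h
    exact ⟨_, h, by simp [mul_assoc]⟩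
  · rintro ⟨y, hy, rfl⟩
    simpa [mul_assoc] using hy

theorem col_closure (S : Set G) (g : G) :
    cjs (closure S) g = closure {x | g * x * g⁻¹ ∈ S} := by
  rw [col_map, MonoidHom.map_closure]
  congr 1
  ext x
  constructor
  · rintro ⟨y, hy, rfl⟩
    simpa [mul_assoc] using hy
  · intro h
    exact ⟨_, h, by simp [mul_assoc]⟩

theorem cjs_eq_of_Nz {K : Subgroup G} {g : G} (hg : g ∈ Nz K) : cjs K g = K := by
  ext x
  simpa using (mem_Nz.1 (inv_mem hg) x).symm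

theorem Nz_of_cjs_eq {K : Subgroup G} {g : G} (hg : cjs K g = K) : g ∈ Nz K :=
  mem_Nz.2 fun h => by rw [← col_mem (g := g), hg]

theorem cjs_sup (A B : Subgroup G) (g : G) : cjs (A ⊔ B) g = cjs A g ⊔ cjs B g := by
  simp only [col_map, Subgroup.map_sup]

theorem cjs_ext (K : Subgroup G) (w g : G) : cjs (ext K w) g = ext (cjs K g) (g⁻¹ * w * g) := by
  rw [cjs_sup, col_map (zpowers w), MonoidHom.map_zpowers]
  simp

theorem cjs_Cz (K : Subgroup G) (g : G) : cjs (Cz K) g = Cz (cjs K g) := by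
  ext x
  rw [mem_cjs, mem_Cz, mem_Cz]
  constructor
  · intro h α hα
    have := (h _ hα).conj g⁻¹
    simpa [mul_assoc] using this
  · intro h α hα
    have := (h _ (conj_mem_cjs (g := g) hα)).conj g
    simpa [mul_assoc] using this

theorem cjs_Nz (K : Subgroup G) (g : G) : cjs (Nz K) g = Nz (cjs K g) := by
  ext x
  rw [mem_cjs, mem_Nz, mem_Nz]
  constructor
  · intro h α
    rw [mem_cjs, mem_cjs, h]
    simp [mul_assoc]
  · intro h α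
    have := h (g⁻¹ * α * g)
    rw [col_mem, mem_cjs] at this
    rw [this]
    simp [mul_assoc]

theorem cjs_Gam (H : Hyp p k D) (K : Subgroup G) (g : G) :
    cjs (Gam D K) g = Gam D (cjs K g) := by
  unfold Gam
  rw [col_closure, ← cjs_Nz]
  congr 1
  ext x
  refine and_congr ⟨fun h => ?_, fun h => ?_⟩ Iff.rfl
  · simpa [mul_assoc] using H.conj _ h g
  · simpa using H.conj _ h g⁻¹

theorem cjs_mono {A B : Subgroup G} (h : A ≤ B) (g : G) : cjs A g ≤ cjs B g :=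
  fun _ hx => h hx

theorem cjs_cjs (A : Subgroup G) (g h : G) : cjs (cjs A g) h = cjs A (g * h) := by
  ext x
  simp [mul_assoc]

theorem cjs_one (A : Subgroup G) : cjs A 1 = A := by
  ext x
  simp

theorem col_le {A B : Subgroup G} {g : G} (h : cjs A g ≤ cjs B g) : A ≤ B :=
  fun _ hx => col_mem.1 (h (col_mem.2 hx))

theorem col_back (A : Subgroup G) (g : G) : cjs (cjs A g) g⁻¹ = A := by
  rw [cjs_cjs, mul_inv_cancel, cjs_one]

theorem col_back' (A : Subgroup G) (g : G) : cjs (cjs A g⁻¹) g = A := by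
  rw [cjs_cjs, inv_mul_cancel, cjs_one]

theorem col_tower {W : Subgroup G} {y g : G} (T : Tower (g⁻¹ * y * g) W) :
    Tower y (cjs W g⁻¹) := by
  simpa [mul_assoc] using T.cjs g⁻¹

theorem cjs_eq_bot {A : Subgroup G} {g : G} : cjs A g = ⊥ ↔ A = ⊥ := by
  rw [col_map]
  exact map_eq_bot_iff_of_injective _ (MulAut.conj g).symm.injective

theorem cjs_finite {A : Subgroup G} (h : (A : Set G).Finite) (g : G) :
    ((cjs A g : Subgroup G) : Set G).Finite := by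
  rw [col_map, coe_map]
  exact h.image _

theorem le_MT {Γ W : Subgroup G} {y : G} (T : Tower y W) (h : W ≤ Γ) : W ≤ MT Γ y :=
  le_sSup ⟨T, h⟩

theorem MT_le (Γ : Subgroup G) (y : G) : MT Γ y ≤ Γ :=
  sSup_le fun _ h => h.2

theorem col_MT (Γ : Subgroup G) (y g : G) : MT (cjs Γ g) (g⁻¹ * y * g) ≤ cjs (MT Γ y) g :=
  sSup_le fun W h => by
    have := le_MT (col_tower h.1) ((cjs_mono h.2 g⁻¹).trans (col_back Γ g).le)
    exact (col_back' W g).ge.trans (cjs_mono this g)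

theorem cjs_MT (Γ : Subgroup G) (y g : G) : cjs (MT Γ y) g = MT (cjs Γ g) (g⁻¹ * y * g) := by
  refine le_antisymm ?_ (col_MT Γ y g)
  have := cjs_mono (col_MT (cjs Γ g) (g⁻¹ * y * g) g⁻¹) g
  rw [col_back, col_back'] at this
  simpa [mul_assoc] using this

theorem rho_conj (d x g : G) : rho (g⁻¹ * d * g) (g⁻¹ * x * g) = g⁻¹ * rho d x * g := by
  simp only [rho]; group

theorem Nz_le_Nz_Gam (H : Hyp p k D) (K : Subgroup G) : Nz K ≤ Nz (Gam D K) :=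
  fun g hg => Nz_of_cjs_eq (by rw [cjs_Gam H, cjs_eq_of_Nz hg])

theorem col_orb {Γ : Subgroup G} {a g x : G} :
    x ∈ orb (g⁻¹ * a * g) (cjs Γ g) ↔ g * x * g⁻¹ ∈ orb a Γ := by
  constructor
  · rintro ⟨h, hh, rfl⟩
    exact ⟨g * h * g⁻¹, hh, by group⟩
  · rintro ⟨h, hh, e⟩
    refine ⟨_, conj_mem_cjs (g := g) hh, ?_⟩
    calc x = g⁻¹ * (g * x * g⁻¹) * g := by group
      _ = _ := by rw [e]; group

theorem CO.cjs {Γ : Subgroup G} {a : G} (h : CO p Γ a) (g : G) :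
    CO p (cjs Γ g) (g⁻¹ * a * g) := by
  obtain ⟨A, h1, h2, h3, Φ, hΦ, h4⟩ := h
  refine ⟨_, h1.cjs g, cjs_mono h2 g, cjs_Nz A g ▸ cjs_mono h3 g,
    (fun φ => g⁻¹ * φ * g) '' Φ, hΦ.image _, fun x hx => ?_⟩
  obtain ⟨φ, hφ, h5⟩ := h4 _ (col_orb.1 hx)
  exact ⟨_, ⟨φ, hφ, rfl⟩, by simpa [mul_assoc] using h5⟩

theorem PD.cjs {d x : G} {K : Subgroup G} (h : PD d K x) (g : G) :
    PD (g⁻¹ * d * g) (cjs K g) (g⁻¹ * x * g) where
  cent := cjs_Cz K g ▸ col_mem.2 h.cent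
  notMem := by rw [rho_conj, col_mem]; exact h.notMem
  rho_mem := by rw [rho_conj, rho_conj, col_mem]; exact h.rho_mem
  comm_mem := by rw [rho_conj, rho_conj, col_mem]; exact h.comm_mem

theorem col_dir {d w f g : G} {K : Subgroup G} (h : (d * w)⁻¹ * (f⁻¹ * d * f) ∈ K) :
    (g⁻¹ * d * g * (g⁻¹ * w * g))⁻¹ * ((g⁻¹ * f * g)⁻¹ * (g⁻¹ * d * g) * (g⁻¹ * f * g))
      ∈ cjs K g := by
  convert conj_mem_cjs (g := g) h using 1
  group

theorem FType.cjs (H : Hyp p k D) {d w : G} {K : Subgroup G} (h : FType D d K w) (g : G) :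
    FType D (g⁻¹ * d * g) (cjs K g) (g⁻¹ * w * g) := by
  obtain ⟨f, h1, h2, h3, h4⟩ := h
  refine ⟨_, H.conj f h1 g, cjs_Nz K g ▸ col_mem.2 h2, ?_, col_dir h4⟩
  rw [← cjs_ext, ← cjs_ext, ← cjs_Nz]
  exact col_mem.2 h3

theorem CType.cjs (H : Hyp p k D) {d w : G} {K : Subgroup G} (h : CType D d K w) (g : G) :
    CType D (g⁻¹ * d * g) (cjs K g) (g⁻¹ * w * g) := by
  obtain ⟨y, h1, h2⟩ := h
  refine ⟨g⁻¹ * y * g, ?_, col_dir h2⟩
  have := conj_mem_cjs (g := g) h1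
  rw [col_closure] at this
  refine closure_mono (fun x hx => ?_) this
  rw [← cjs_ext, ← cjs_Gam H, ← cjs_Nz]
  exact ⟨col_orb.2 hx.1, hx.2⟩

theorem Nice.conj {K : Subgroup G} {y g : G} (h : Nice p K y) (hg : g ∈ Nz K) :
    Nice p K (g⁻¹ * y * g) := by
  have key : ∀ W : Subgroup G, W ≤ Cz K → cjs W g⁻¹ ≤ Cz K := fun W hW =>
    (cjs_mono hW g⁻¹).trans (cjs_eq_of_Nz (inv_mem (Nz_Cz hg))).le
  constructor
  · intro W W' T T' h1 h2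
    refine col_le (g := g⁻¹) ?_
    rw [cjs_Cz]
    exact h.uniq _ _ (col_tower T) (col_tower T') (key W h1) (key W' h2)
  · intro B W h1 h2 h3 h4 T h5
    refine col_le (g := g⁻¹) ?_
    rw [cjs_Cz]
    refine h.cent _ _ (h1.cjs _) (h2.cjs _) (key B h3) ?_ (col_tower T) (key W h5)
    rw [← cjs_Cz]
    simpa using h4

theorem Dich.mono {K K' : Subgroup G} {a : G} (h : Dich p D K a) (hK : K ≤ K') :
    Dich p D K' a :=
  fun g hg L hL => h g (Cz_anti hK hg) L (hK.trans hL)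

theorem MTwo.mono {K K' : Subgroup G} {a : G} (h : MTwo p D K a) (hK : K ≤ K') :
    MTwo p D K' a :=
  fun g hg L hL => h g (Cz_anti hK hg) L (hK.trans hL)

/-- Towers inside `Γ` lie in the finite rank subgroup given by `CO`. -/
theorem tower_le_of_finMod (H : Hyp p k D) {Γ A W : Subgroup G} {a : G} (ha : a ∈ D)
    (h : FinMod A (orb a Γ)) (T : Tower a W) (hW : W ≤ Γ) : W ≤ A := by
  refine (T.fr H ha).div.le_of_finMod H.prime H.pgrp (FinMod.of_mul a (h.mono ?_))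
  rintro _ ⟨α, hα, rfl⟩
  obtain ⟨β, hβ, rfl⟩ := T.surj α hα
  exact ⟨β, hW hβ, mul_rho a β⟩

theorem CO.towers_comm (H : Hyp p k D) {Γ W W' : Subgroup G} {a : G} (ha : a ∈ D)
    (h : CO p Γ a) (T : Tower a W) (T' : Tower a W') (hW : W ≤ Γ) (hW' : W' ≤ Γ) :
    W ≤ Cz W' := by
  obtain ⟨A, h1, -, -, h4⟩ := h
  exact (tower_le_of_finMod H ha h4 T hW).trans
    (h1.comm.le_Cz.trans (Cz_anti (tower_le_of_finMod H ha h4 T' hW')))

theorem CO.conj {Γ : Subgroup G} {a g : G} (h : CO p Γ a) (hg : g ∈ Γ) :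
    CO p Γ (g⁻¹ * a * g) := by
  have := h.cjs g
  rwa [cjs_eq_of_Nz (le_Nz Γ hg)] at this

theorem col_finMod_of_subset {A : Subgroup G} {X : Set G} (h : X ⊆ A) : FinMod A X :=
  ⟨{1}, Set.finite_singleton _, fun x hx => ⟨1, rfl, by simpa using h hx⟩⟩

theorem col_orb_subset {Γ A : Subgroup G} {a : G} (ha : a ∈ A) (h : Γ ≤ Nz A) : orb a Γ ⊆ A := by
  rintro _ ⟨g, hg, rfl⟩
  exact Nz_conj (h hg) ha

/-- Restriction to a subgroup, in canonical form. -/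
theorem CO.can (H : Hyp p k D) {Γ Γ' : Subgroup G} {a : G} (ha : a ∈ D) (h : CO p Γ a)
    (hle : Γ' ≤ Γ) (ha' : a ∈ Γ') : ∃ Y : Set G, Y.Finite ∧ Y ⊆ orb a Γ' ∧
      ∀ x ∈ orb a Γ', ∃ y ∈ Y, ∃ W, Tower y W ∧ W ≤ Γ' ∧ y⁻¹ * x ∈ W := by
  obtain ⟨A, h1, -, h3, h4⟩ := h
  obtain ⟨X, hX, hv, hf, hn⟩ := exists_divPart H.prime H.pgrp (X := A ⊓ Γ')
    (h1.comm.mono inf_le_left) (h1.fin.subset fun x hx => ⟨hx.1.1, hx.2⟩)
  have hFR : FR p X := h1.of_le (hX.trans inf_le_left) hv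
  have hsub : orb a Γ' ⊆ Γ' := col_orb_subset ha' (le_Nz Γ')
  have hD : ∀ x ∈ orb a Γ', x ∈ D ∧ x ∈ Nz X := fun x hx =>
    ⟨by obtain ⟨g, -, rfl⟩ := hx; exact H.conj a ha g,
      hn (Nz_inf (h3 (hle (hsub hx))) (le_Nz Γ' (hsub hx)))⟩
  have h5 : FinMod A (orb a Γ') := h4.mono fun x ⟨g, hg, e⟩ => ⟨g, hle hg, e⟩
  obtain ⟨Y, hY, hY', hY2⟩ := dcapA H hFR hD ((h5.inf (col_finMod_of_subset hsub)).trans hf)
  refine ⟨Y, hY, hY', fun x hx => ?_⟩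
  obtain ⟨y, hy, h6⟩ := hY2 x hx
  have h7 := hD y (hY' hy)
  exact ⟨y, hy, _, tower_rhoIm hFR.comm hv h7.2 (H.pow y h7.1),
    (rhoIm_le h7.2).trans (hX.trans inf_le_right), h6⟩

theorem col_div_sSup {s : Set (Subgroup G)} (hc : Comm (sSup s)) (h : ∀ W ∈ s, IsDiv p W) :
    IsDiv p (sSup s) := by
  let L : Subgroup G :=
    { carrier := {x | ∃ β ∈ sSup s, β ^ p = x}
      one_mem' := ⟨1, one_mem _, one_pow _⟩
      mul_mem' := by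
        rintro _ _ ⟨β, hβ, rfl⟩ ⟨γ, hγ, rfl⟩
        exact ⟨β * γ, mul_mem hβ hγ, (hc β hβ γ hγ).mul_pow p⟩
      inv_mem' := by
        rintro _ ⟨β, hβ, rfl⟩
        exact ⟨β⁻¹, inv_mem hβ, inv_pow _ _⟩ }
  have : sSup s ≤ L := sSup_le fun W hW α hα => by
    obtain ⟨β, hβ, e⟩ := h W hW α hα
    exact ⟨β, le_sSup hW hβ, e⟩
  exact fun α hα => this hα

/-- The finite rank subgroup can be chosen invariant under everything fixing the data. -/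
theorem CO.ta (H : Hyp p k D) {Γ : Subgroup G} {a : G} (ha : a ∈ D) (haΓ : a ∈ Γ)
    (h : CO p Γ a) : ∃ A, FR p A ∧ A ≤ Γ ∧ Γ ≤ Nz A ∧ FinMod A (orb a Γ) ∧
      ∀ θ ∈ Nz Γ, Commute a θ → θ ∈ Nz A := by
  obtain ⟨Y, hY, hY', hY2⟩ := h.can H ha le_rfl haΓ
  obtain ⟨A, h1, -, -, h4⟩ := h
  let s : Set (Subgroup G) := {W | ∃ y ∈ orb a Γ, Tower y W ∧ W ≤ Γ}
  have hA : sSup s ≤ A := sSup_le fun W ⟨y, ⟨g, hg, e⟩, T, hW⟩ => by
    refine tower_le_of_finMod H (e ▸ H.conj a ha g) (h4.mono ?_) T hW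
    rintro _ ⟨g', hg', rfl⟩
    exact ⟨g * g', mul_mem hg hg', by rw [e]; group⟩
  have hv : IsDiv p (sSup s) := col_div_sSup (h1.comm.mono hA)
    fun W ⟨y, ⟨g, _, e⟩, T, _⟩ => (T.fr H (e ▸ H.conj a ha g)).div
  have key : ∀ θ ∈ Nz Γ, θ⁻¹ * a * θ ∈ orb a Γ → θ ∈ Nz (sSup s) := by
    rintro θ hθ ⟨g0, hg0, e0⟩
    have : sSup s ≤ MP_7d7b85_al.cjs (sSup s) θ⁻¹ := sSup_le fun W ⟨y, ⟨g, hg, e⟩, T, hW⟩ => by
      have hm : MP_7d7b85_al.cjs W θ ∈ s := by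
        refine ⟨_, ⟨g0 * (θ⁻¹ * g * θ), mul_mem hg0 (Nz_conj hθ hg), ?_⟩, T.cjs θ,
          (cjs_mono hW θ).trans (cjs_eq_of_Nz hθ).le⟩
        calc θ⁻¹ * y * θ = (θ⁻¹ * g * θ)⁻¹ * (θ⁻¹ * a * θ) * (θ⁻¹ * g * θ) := by rw [e]; group
          _ = _ := by rw [e0]; group
      exact (col_back W θ).ge.trans (cjs_mono (le_sSup hm) _)
    exact mem_Nz_of_conj H.prime H.pgrp fun α hα => by simpa using this hα
  refine ⟨sSup s, h1.of_le hA hv, sSup_le fun W ⟨_, _, _, hW⟩ => hW,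
    fun θ hθ => key θ (le_Nz Γ hθ) ⟨θ, hθ, rfl⟩, ⟨Y, hY, fun x hx => ?_⟩,
    fun θ hθ hc => key θ hθ ⟨1, one_mem _, by simpa using commute_iff_conj.1 hc⟩⟩
  obtain ⟨y, hy, W, T, hW, h5⟩ := hY2 x hx
  exact ⟨y, hy, le_sSup (show W ∈ s from ⟨y, hY' hy, T, hW⟩) h5⟩

theorem CO.finite (H : Hyp p k D) {Γ : Subgroup G} {a : G} (ha : a ∈ D) (haΓ : a ∈ Γ)
    (h : CO p Γ a) (hT : ∀ W, Tower a W → W ≤ Γ → W = ⊥) : (orb a Γ).Finite := by
  obtain ⟨Y, hY, hY', hY2⟩ := h.can H ha le_rfl haΓ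
  refine hY.subset fun x hx => ?_
  obtain ⟨y, hy, W, T, hW, h5⟩ := hY2 x hx
  obtain ⟨g, hg, e⟩ := hY' hy
  have := cjs_eq_bot.1 (hT _ (col_tower (e ▸ T))
    ((cjs_mono hW _).trans (cjs_eq_of_Nz (le_Nz Γ (inv_mem hg))).le))
  rw [this, Subgroup.mem_bot, inv_mul_eq_one] at h5
  exact h5 ▸ hy

theorem CO.of_mem_FR {Γ A : Subgroup G} (hA : FR p A) (hAΓ : A ≤ Γ) (hΓ : Γ ≤ Nz A) {g : G}
    (hg : g ∈ A) : CO p Γ g :=
  ⟨A, hA, hAΓ, hΓ, col_finMod_of_subset (col_orb_subset hg hΓ)⟩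

/-- The elements of `Γ` with property `CO` form a subgroup. -/
theorem exists_COsub (hp : p.Prime) (hodd : p ≠ 2) (hG : IsPGroup p G) (Γ : Subgroup G) :
    ∃ L : Subgroup G, ∀ g, g ∈ L ↔ g ∈ Γ ∧ CO p Γ g := by
  refine ⟨{ carrier := {g | g ∈ Γ ∧ CO p Γ g}, one_mem' := ⟨one_mem _, ?_⟩
            mul_mem' := ?_, inv_mem' := ?_ }, fun _ => Iff.rfl⟩
  · rintro a b ⟨ha, A, a1, a2, a3, Φ, hΦ, a4⟩ ⟨hb, B, b1, b2, b3, b4⟩
    obtain ⟨Ψ, hΨ, b5, b6⟩ := b4.reps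
    refine ⟨mul_mem ha hb, A ⊔ B, a1.sup hp hG b1 (b1.div_cent hp hodd hG a1.div (a2.trans b3)),
      sup_le a2 b2, fun g hg => Nz_sup (a3 hg) (b3 hg), Set.image2 (· * ·) Φ Ψ, hΦ.image2 _ hΨ, ?_⟩
    rintro _ ⟨g, hg, rfl⟩
    obtain ⟨φ, hφ, h1⟩ := a4 _ ⟨g, hg, rfl⟩
    obtain ⟨ψ, hψ, h2⟩ := b6 _ ⟨g, hg, rfl⟩
    refine ⟨_, ⟨φ, hφ, ψ, hψ, rfl⟩, ?_⟩
    have h3 := Nz_conj (a3 (col_orb_subset hb (le_Nz Γ) (b5 hψ))) h1
    convert mul_mem_sup h3 h2 using 1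
    group
  · refine CO.of_mem_FR fr_bot bot_le (fun g _ => mem_Nz.2 fun h => ?_) (one_mem _)
    rw [← col_mem (g := g), cjs_eq_bot.2 rfl]
  · rintro a ⟨ha, A, a1, a2, a3, a4⟩
    obtain ⟨Φ, hΦ, a5, a6⟩ := a4.reps
    refine ⟨inv_mem ha, A, a1, a2, a3, (·⁻¹) '' Φ, hΦ.image _, ?_⟩
    rintro _ ⟨g, hg, rfl⟩
    obtain ⟨φ, hφ, h1⟩ := a6 _ ⟨g, hg, rfl⟩
    refine ⟨_, ⟨φ, hφ, rfl⟩, ?_⟩
    convert Nz_conj' (a3 (col_orb_subset ha (le_Nz Γ) (a5 hφ))) (inv_mem h1) using 1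
    group

/-- `DivCC`. -/
theorem divCC (hp : p.Prime) (hodd : p ≠ 2) (hG : IsPGroup p G) {Γ W W' : Subgroup G}
    (hW : IsDiv p W) (hW' : IsDiv p W') (h1 : W ≤ Γ) (h2 : W' ≤ Γ) (h : ∀ α ∈ W, CO p Γ α) :
    W ≤ Cz W' := by
  intro α hα
  obtain ⟨A, a1, -, a3, a4⟩ := h α hα
  exact bil hG hW' (a1.div_cent hp hodd hG hW' (h2.trans a3))
    (a1.div_cent hp hodd hG hW (h1.trans a3) hα)
    (hW'.rho_mem_of_finMod hp hG (h2.trans a3) (a4.mono fun x ⟨g, hg, e⟩ => ⟨g, h2 hg, e⟩))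

end Pool.Agent.Lib.MP_7d7b85_al
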