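import Pool.Agent.Lib.MP_7d7b85_al.Misc

namespace Pool.Agent.Lib.MP_7d7b85_al

open Subgroup Filter

variable {G : Type} [Group G] {p k : ℕ} {D : Set G}

theorem chain_conj (a y : G) : a⁻¹ * y * a = y * (rho a y)⁻¹ := by
  simp only [rho]; group

theorem chain_Nz (H : Hyp p k D) {a : G} {A : Subgroup G} (h : ∀ α ∈ A, rho a α ∈ A) :
    a ∈ Nz A :=
  mem_Nz_of_conj H.prime H.pgrp fun α hα => by
    rw [chain_conj]; exact A.mul_mem hα (A.inv_mem (h α hα))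

theorem chain_Nz_rhoIm (H : Hyp p k D) {a : G} {A : Subgroup G} (hn : a ∈ Nz A) :
    a ∈ Nz (rhoIm a A) :=
  chain_Nz H fun α hα => subset_closure ⟨α, rhoIm_le hn hα, rfl⟩

theorem chain_ker {a x y : G} {A : Subgroup G} (hc : Comm A) (hn : a ∈ Nz A) (hx : x ∈ A)
    (hy : y ∈ A) (h : rho a x = rho a y) : rho a (x⁻¹ * y) = 1 := by
  rw [rho_mul hc hn (A.inv_mem hx) hy, rho_inv hc hn hx, h, inv_mul_cancel]

open Classical in
theorem chain_fib (H : Hyp p k D) {a : G} {A : Subgroup G} (hc : Comm A) (hn : a ∈ Nz A)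
    (s : Finset G) (hs : ∀ x ∈ s, x ∈ A ∧ a * x ∈ D) : s.card ≤ k * (s.image (rho a)).card := by
  refine Finset.card_le_mul_card_image s k fun y hy => ?_
  obtain ⟨x, hx, rfl⟩ := Finset.mem_image.1 hy
  have h1 : (((s.filter fun z => rho a z = rho a x).image (a * ·) : Finset G) : Set G) ⊆
      D ∩ {e | Commute (a * x) e} := by
    intro e he
    obtain ⟨z, hz, rfl⟩ := Finset.mem_image.1 (Finset.mem_coe.1 he)
    obtain ⟨hz1, hz2⟩ := Finset.mem_filter.1 hz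
    refine ⟨(hs z hz1).2, ?_⟩
    have h2 := rho_eq_one_iff.1 (chain_ker hc hn (hs x hx).1 (hs z hz1).1 hz2.symm)
    have h3 : Commute x (x⁻¹ * z) :=
      hc _ (hs x hx).1 _ (A.mul_mem (A.inv_mem (hs x hx).1) (hs z hz1).1)
    have h4 : a * z = a * x * (x⁻¹ * z) := by group
    change Commute (a * x) (a * z)
    rw [h4]
    exact (Commute.refl _).mul_right (h2.mul_left h3)
  have h2 := (Set.encard_le_encard h1).trans (H.bnd _ (hs x hx).2)
  rw [Set.encard_coe_eq_coe_finsetCard, Finset.card_image_of_injective _ (mul_right_injective a)]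
    at h2
  exact_mod_cast h2

theorem chain_D (H : Hyp p k D) {a : G} (ha : a ∈ D) {A : Subgroup G} (hc : Comm A)
    (hn : a ∈ Nz A) {x : G} (hx : x ∈ rhoIm a A) : a * x ∈ D := by
  obtain ⟨α, -, rfl⟩ := (mem_rhoIm hc hn).1 hx
  rw [mul_rho]
  exact H.conj a ha α

theorem chain_kerBd (H : Hyp p k D) {a : G} (ha : a ∈ D) {A : Subgroup G} (hc : Comm A)
    (hn : a ∈ Nz A) (n : ℕ) (s : Finset G) (hs : ∀ x ∈ s, x ∈ rhoIm a A ∧ (rho a)^[n] x = 1) :
    s.card ≤ k ^ n := by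
  classical
  induction n generalizing s with
  | zero =>
    rw [pow_zero, Finset.card_le_one]
    exact fun x hx y hy => (hs x hx).2.trans (hs y hy).2.symm
  | succ n ih =>
    refine (chain_fib H hc hn s fun x hx =>
      ⟨rhoIm_le hn (hs x hx).1, chain_D H ha hc hn (hs x hx).1⟩).trans ?_
    rw [pow_succ']
    refine Nat.mul_le_mul_left _ (ih _ fun y hy => ?_)
    obtain ⟨x, hx, rfl⟩ := Finset.mem_image.1 hy
    exact ⟨subset_closure ⟨x, rhoIm_le hn (hs x hx).1, rfl⟩, (hs x hx).2⟩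

theorem chain_kerFin (H : Hyp p k D) {a : G} (ha : a ∈ D) {A : Subgroup G} (hc : Comm A)
    (hn : a ∈ Nz A) (n : ℕ) : {x | x ∈ rhoIm a A ∧ (rho a)^[n] x = 1}.Finite := by
  by_contra h
  obtain ⟨s, h1, h2⟩ := Set.Infinite.exists_subset_card_eq h (k ^ n + 1)
  have := chain_kerBd H ha hc hn n s fun x hx => h1 hx
  omega

theorem chain_iter_mul {a x y : G} {A : Subgroup G} (hc : Comm A) (hn : a ∈ Nz A) (hx : x ∈ A)
    (hy : y ∈ A) (n : ℕ) : (rho a)^[n] (x * y) = (rho a)^[n] x * (rho a)^[n] y := by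
  induction n with
  | zero => rfl
  | succ n ih =>
    simp only [Function.iterate_succ_apply', ih]
    exact rho_mul hc hn (rho_iter_mem hn hx n) (rho_iter_mem hn hy n)

theorem chain_iter_pow {a x : G} {A : Subgroup G} (hc : Comm A) (hn : a ∈ Nz A) (hx : x ∈ A)
    (n q : ℕ) : (rho a)^[n] (x ^ q) = (rho a)^[n] x ^ q := by
  induction n with
  | zero => rfl
  | succ n ih =>
    simp only [Function.iterate_succ_apply', ih]
    exact rho_pow hc hn (rho_iter_mem hn hx n) q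

theorem chain_iter_one (a : G) (n : ℕ) : (rho a)^[n] 1 = 1 :=
  Function.iterate_fixed (by simp [rho]) n

/-- The largest tower inside an abelian invariant subgroup. -/
theorem chain_stab (H : Hyp p k D) {a : G} (ha : a ∈ D) {A₀ : Subgroup G} (hc : Comm A₀)
    (hn : a ∈ Nz A₀) : ∃ A, Tower a A ∧ A ≤ A₀ ∧ (∀ B, Tower a B → B ≤ A₀ → B ≤ A) ∧
      FinMod A (rhoIm a A₀) := by
  let W : ℕ → Subgroup G := fun n => (rhoIm a)^[n] (rhoIm a A₀)
  have hW : ∀ n, W (n + 1) = rhoIm a (W n) := fun n => Function.iterate_succ_apply' _ _ _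
  have hN : ∀ n, a ∈ Nz (W n) := fun n => by
    induction n with
    | zero => exact chain_Nz_rhoIm H hn
    | succ n ih => rw [hW]; exact chain_Nz_rhoIm H ih
  have hanti : Antitone W := antitone_nat_of_succ_le fun n => hW n ▸ rhoIm_le (hN n)
  have hle : ∀ n, W n ≤ A₀ := fun n => (hanti n.zero_le).trans (rhoIm_le hn)
  have hcW : ∀ n, Comm (W n) := fun n => hc.mono (hle n)
  let K : ℕ → Set G := fun n => {x | x ∈ W n ∧ rho a x = 1}
  have hK : ∀ n, (K n).Finite := fun n =>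
    (chain_kerFin H ha hc hn 1).subset fun x hx => ⟨hanti n.zero_le hx.1, hx.2⟩
  obtain ⟨n₀, hn₀⟩ := exists_minimalFor_of_wellFoundedLT (fun _ : ℕ => True)
    (fun n => (K n).ncard) ⟨0, trivial⟩
  have hKe : ∀ n ≥ n₀, K n = K n₀ := fun n h => by
    have h1 : K n ⊆ K n₀ := fun x hx => ⟨hanti h hx.1, hx.2⟩
    exact Set.eq_of_subset_of_ncard_le h1 (hn₀.2 trivial (Set.ncard_le_ncard h1 (hK _))) (hK _)
  have key : ∀ h : ℕ, ∀ n ≥ n₀, ∀ y ∈ W n, (rho a)^[h] y = 1 → y ∈ W (n + 1) := by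
    intro h
    induction h with
    | zero => rintro n - y - rfl; exact one_mem _
    | succ h ih =>
      intro n hn' y hy e
      have h1 : rho a y ∈ W (n + 1) := hW n ▸ subset_closure ⟨y, hy, rfl⟩
      have h2 := ih (n + 1) (by omega) _ h1 e
      rw [hW] at h2
      obtain ⟨u, hu, e2⟩ := (mem_rhoIm (hcW _) (hN _)).1 h2
      have hu' : u ∈ W n := hanti n.le_succ hu
      have h3 : u⁻¹ * y ∈ K n :=
        ⟨(W n).mul_mem ((W n).inv_mem hu') hy, chain_ker (hcW n) (hN n) hu' hy e2⟩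
      rw [hKe n hn', ← hKe (n + 1) (by omega)] at h3
      simpa using (W (n + 1)).mul_mem hu h3.1
  have T : Tower a (W n₀) := ⟨hcW _, hN _, fun y hy => by
    obtain ⟨h, e⟩ := rho_nil H ha y
    have := key h n₀ le_rfl y hy e
    rw [hW] at this
    exact (mem_rhoIm (hcW _) (hN _)).1 this⟩
  refine ⟨W n₀, T, hle _, fun B TB hB => ?_, ?_⟩
  · have : ∀ n, B ≤ W n := fun n => by
      induction n with
      | zero => exact TB.le_rhoIm hB
      | succ n ih => rw [hW]; exact TB.le_rhoIm ih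
    exact this _
  · have h1 : ∀ n, ∀ w ∈ W 0, (rho a)^[n] w ∈ W n := fun n w hw => by
      induction n with
      | zero => exact hw
      | succ n ih => rw [Function.iterate_succ_apply', hW]; exact subset_closure ⟨_, ih, rfl⟩
    have h2 : ∀ n, ∀ y ∈ W n₀, ∃ α ∈ W n₀, (rho a)^[n] α = y := fun n => by
      induction n with
      | zero => exact fun y hy => ⟨y, hy, rfl⟩
      | succ n ih =>
        intro y hy
        obtain ⟨α, hα, rfl⟩ := ih y hy
        obtain ⟨β, hβ, rfl⟩ := T.surj α hα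
        exact ⟨β, hβ, rfl⟩
    refine ⟨_, chain_kerFin H ha hc hn n₀, fun w hw => ?_⟩
    obtain ⟨α, hα, e⟩ := h2 n₀ _ (h1 n₀ w hw)
    have hα' : α ∈ W 0 := hanti n₀.zero_le hα
    refine ⟨w * α⁻¹, ⟨(W 0).mul_mem hw ((W 0).inv_mem hα'), ?_⟩, by simpa using hα⟩
    have h3 := chain_iter_mul hc hn (A₀.mul_mem (hle 0 hw) (A₀.inv_mem (hle 0 hα'))) (hle 0 hα') n₀
    rw [inv_mul_cancel_right, ← e] at h3
    exact (mul_eq_right.1 h3.symm)

theorem chain_comm_closure {X : Set G} (h : ∀ x ∈ X, ∀ y ∈ X, Commute x y) : Comm (closure X) := by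
  have h1 : closure X ≤ centralizer X := (closure_le _).2 fun y hy x hx => h x hx y hy
  have h2 : closure X ≤ Cz (closure X) := by
    rw [Cz, centralizer_closure]; exact h1
  exact comm_of_le_Cz h2

/-- The abelian invariant subgroup generated by a chain. -/
theorem chain_gen (H : Hyp p k D) {a : G} {B : Subgroup G} (TB : Tower a B) (J : Set ℕ)
    (S : ℕ → Subgroup G) (x : ℕ → G) (hm : ∀ i ∈ J, ∀ j ∈ J, i < j → S (i + 1) ≤ S j)
    (hn : ∀ i ∈ J, a ∈ Nz (S i) ∧ a ∈ Nz (S (i + 1))) (hx : ∀ i ∈ J, x i ∈ Cz (S i) ∧ x i ∈ Cz B)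
    (h1 : ∀ i ∈ J, rho a (x i) ∈ S (i + 1)) (h3 : ∀ i ∈ J, rho a (rho a (x i)) ∈ S i ⊔ B) :
    ∃ A₀ : Subgroup G, Comm A₀ ∧ a ∈ Nz A₀ ∧ B ≤ A₀ ∧ (∀ i ∈ J, rho a (x i) ∈ A₀) ∧
      ∀ (L : Subgroup G) (q : ℕ), a ∈ Nz L → B ≤ L → (∀ i ∈ J, rho a (x i) ^ q ∈ L) →
        ∀ y ∈ A₀, y ^ q ∈ L := by
  let X : Set G := {y | ∃ i ∈ J, ∃ n, y = (rho a)^[n + 1] (x i)} ∪ B
  have hC : ∀ i ∈ J, ∀ n, (rho a)^[n] (x i) ∈ Cz (S i ⊔ B) := fun i hi n =>
    rho_iter_mem (Nz_Cz (Nz_sup (hn i hi).1 TB.norm)) (Cz_sup (hx i hi).1 (hx i hi).2) n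
  have hS : ∀ i ∈ J, ∀ n, (rho a)^[n + 1] (x i) ∈ S (i + 1) := fun i hi n =>
    rho_iter_mem (hn i hi).2 (h1 i hi) n
  have hT : ∀ i ∈ J, ∀ n, (rho a)^[n + 1 + 1] (x i) ∈ S i ⊔ B := fun i hi n =>
    rho_iter_mem (Nz_sup (hn i hi).1 TB.norm) (h3 i hi) n
  have hc : Comm (closure X) := by
    refine chain_comm_closure ?_
    rintro y (⟨i, hi, n, rfl⟩ | hy) z (⟨j, hj, m, rfl⟩ | hz)
    · rcases lt_trichotomy i j with h | rfl | h
      · exact mem_Cz.1 (hC j hj _) _ (mem_sup_left (hm i hi j hj h (hS i hi n)))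
      · rcases n with _ | n
        · rcases m with _ | m
          · exact Commute.refl _
          · exact (mem_Cz.1 (hC i hi _) _ (hT i hi m)).symm
        · exact mem_Cz.1 (hC i hi _) _ (hT i hi n)
      · exact (mem_Cz.1 (hC i hi _) _ (mem_sup_left (hm j hj i hi h (hS j hj m)))).symm
    · exact (mem_Cz.1 (hC i hi _) _ (mem_sup_right hz)).symm
    · exact mem_Cz.1 (hC j hj _) _ (mem_sup_right hy)
    · exact TB.comm _ hy _ hz
  have hN : a ∈ Nz (closure X) := by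
    refine mem_Nz_of_conj H.prime H.pgrp fun α hα => ?_
    have : closure X ≤ cjs (closure X) a⁻¹ := by
      refine (closure_le _).2 ?_
      rintro y (⟨i, hi, n, rfl⟩ | hy)
      · rw [SetLike.mem_coe, mem_cjs, inv_inv, chain_conj]
        refine mul_mem (subset_closure (Or.inl ⟨i, hi, n, rfl⟩))
          (inv_mem (subset_closure (Or.inl ⟨i, hi, n + 1, ?_⟩)))
        exact (Function.iterate_succ_apply' _ _ _).symm
      · rw [SetLike.mem_coe, mem_cjs, inv_inv]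
        exact subset_closure (Or.inr (Nz_conj TB.norm hy))
    simpa using this hα
  have hz : ∀ i ∈ J, rho a (x i) ∈ closure X := fun i hi => subset_closure (Or.inl ⟨i, hi, 0, rfl⟩)
  refine ⟨closure X, hc, hN, fun y hy => subset_closure (Or.inr hy), hz,
    fun L q hL hB hq y hy => ?_⟩
  induction hy using closure_induction with
  | mem y hy =>
    rcases hy with ⟨i, hi, n, rfl⟩ | hy
    · rw [Function.iterate_succ_apply, ← chain_iter_pow hc hN (hz i hi)]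
      exact rho_iter_mem hL (hq i hi) n
    · exact L.pow_mem (hB hy) q
  | one => simp
  | mul y z hy hz' i1 i2 => rw [(hc y hy z hz').mul_pow]; exact L.mul_mem i1 i2
  | inv y _ i1 => rw [inv_pow]; exact L.inv_mem i1

theorem chain_step (H : Hyp p k D) {a x u : G} (hu : a * u ∈ D) (h : Commute u x) :
    a * (rho a x * u) ∈ D := by
  have := H.conj _ hu x
  rwa [mul_assoc, mul_assoc, h.eq, ← mul_assoc, ← mul_assoc, ← mul_rho, mul_assoc] at this

/-- The chain lemma. -/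
theorem chain (H : Hyp p k D) {a : G} (ha : a ∈ D) {B : Subgroup G} (TB : Tower a B)
    (S : ℕ → Subgroup G) (x : ℕ → G) (hm : ∀ i, S i ≤ S (i + 1)) (hn : ∀ i, a ∈ Nz (S i))
    (hB : ∀ i, S i ≤ Cz B) (hx : ∀ i, x i ∈ Cz (S i) ∧ x i ∈ Cz B)
    (h1 : ∀ i, rho a (x i) ∈ S (i + 1)) (h2 : ∀ i, rho a (x i) ∉ S i ⊔ B)
    (h3 : ∀ i, rho a (rho a (x i)) ∈ S i ⊔ B) :
    ∃ (A : Subgroup G) (φ : G), Tower a A ∧ B < A ∧ φ ∈ Cz A ∧
      {i | φ⁻¹ * rho a (x i) ∈ A}.Infinite ∧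
      (∀ L : Subgroup G, a ∈ Nz L → B ≤ L → (∃ m, ∀ i ≥ m, rho a (x i) ∈ L) → A ≤ L) ∧
      (∃ i, φ = rho a (x i)) := by
  have hmono : Monotone S := monotone_nat_of_le_succ hm
  obtain ⟨A₀, hc, hN, hBA, hz, hL⟩ := chain_gen H TB Set.univ S x (fun i _ j _ h => hmono h)
    (fun i _ => ⟨hn i, hn _⟩) (fun i _ => hx i) (fun i _ => h1 i) fun i _ => h3 i
  replace hz := fun i => hz i trivial
  obtain ⟨A, T, hA, hmax, Φ, hΦ, hF⟩ := chain_stab H ha hc hN
  have pig : ∀ {Y : Set G} (I : Set ℕ) (R : G → ℕ → Prop), Y.Finite → I.Infinite →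
      (∀ i ∈ I, ∃ y ∈ Y, R y i) → ∃ y, {i | i ∈ I ∧ R y i}.Infinite := by
    intro Y I R hY hI h
    by_contra hcon
    push Not at hcon
    refine hI ((hY.biUnion fun y _ => hcon y).subset fun i hi => ?_)
    obtain ⟨y, hy, e⟩ := h i hi
    exact Set.mem_biUnion hy ⟨hi, e⟩
  obtain ⟨ψ, hψ⟩ := pig Set.univ (fun ψ i => ψ⁻¹ * rho a (rho a (x i)) ∈ A) hΦ Set.infinite_univ
    fun i _ => hF _ (subset_closure ⟨_, hz i, rfl⟩)
  have hψ0 : ψ ∈ A₀ := by
    obtain ⟨i, -, hi⟩ := hψ.nonempty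
    have := A₀.mul_mem (rho_mem_of_Nz hN (hz i)) (A₀.inv_mem (hA hi))
    simpa using this
  have hstep : ∀ (n j : ℕ) (u : G), u ∈ A₀ → (ψ ^ n)⁻¹ * rho a u ∈ A →
      ψ⁻¹ * rho a (rho a (x j)) ∈ A → (ψ ^ (n + 1))⁻¹ * rho a (rho a (x j) * u) ∈ A := by
    intro n j u hu e1 e2
    have := A.mul_mem e1 e2
    have c1 : Commute (rho a u) (ψ⁻¹ * rho a (rho a (x j))) :=
      hc _ (rho_mem_of_Nz hN hu) _ (hA e2)
    rw [mul_assoc, c1.eq] at this
    rw [rho_mul hc hN (hz j) hu, pow_succ', mul_inv_rev]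
    simpa only [mul_assoc] using this
  have hP : ∀ n : ℕ, ∃ m, ∃ u ∈ A₀, u ∈ S m ∧ a * u ∈ D ∧ (ψ ^ n)⁻¹ * rho a u ∈ A := by
    intro n
    induction n with
    | zero => exact ⟨0, 1, one_mem _, one_mem _, by simpa using ha, by simp [rho]⟩
    | succ n ih =>
      obtain ⟨m, u, u1, u2, u3, u4⟩ := ih
      obtain ⟨j, hj, hmj⟩ := hψ.exists_gt m
      exact ⟨j + 1, rho a (x j) * u, A₀.mul_mem (hz j) u1,
        (S _).mul_mem (h1 j) (hmono (by omega) u2),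
        chain_step H u3 (mem_Cz.1 (hx j).1 u (hmono hmj.le u2)), hstep n j u u1 u4 hj.2⟩
  obtain ⟨s, hs⟩ := H.pgrp ψ
  obtain ⟨m, u, u1, u2, u3, u4⟩ := hP (p ^ s - 1)
  obtain ⟨y, hy⟩ := pig _ (fun y j => ∃ α ∈ A, y = a * (rho a (x j) * u) * α) (H.finite_comm ha)
    (hψ.sdiff (Set.finite_le_nat m)) fun j hj => by
      have e1 := hstep _ j u u1 u4 hj.1.2
      rw [Nat.sub_add_cancel (Nat.one_le_pow _ _ H.prime.pos), hs, inv_one, one_mul] at e1
      obtain ⟨α, hα, e2⟩ := T.surj _ e1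
      have hu' := A₀.mul_mem (hz j) u1
      have hD := chain_step H u3 (mem_Cz.1 (hx j).1 u (hmono (not_le.1 hj.2).le u2))
      have T' : Tower (a * (rho a (x j) * u)) A := T.congr (by
        simpa using Cz_anti hA (hc.le_Cz hu'))
      refine ⟨_, ⟨T'.mul_mem H hD (A.inv_mem hα), ?_⟩, α⁻¹, A.inv_mem hα, rfl⟩
      have e3 := rho_eq_one_iff.1 (chain_ker hc hN (hA hα) hu' e2)
      rw [(hc _ (A₀.inv_mem (hA hα)) _ hu').eq] at e3
      change Commute a _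
      rw [mul_assoc]
      exact (Commute.refl a).mul_right e3
  obtain ⟨i, -, α, hα, e⟩ := hy.nonempty
  have hinf : {j | (rho a (x i))⁻¹ * rho a (x j) ∈ A}.Infinite := by
    refine hy.mono fun j hj => ?_
    obtain ⟨-, β, hβ, e'⟩ := hj
    rw [e, mul_assoc, mul_assoc a, mul_right_inj, mul_assoc, mul_assoc,
      (hc _ u1 _ (hA hα)).eq, (hc _ u1 _ (hA hβ)).eq, ← mul_assoc, ← mul_assoc,
      mul_left_inj] at e'
    have : (rho a (x i))⁻¹ * rho a (x j) = α * β⁻¹ := by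
      rw [inv_mul_eq_iff_eq_mul, ← mul_assoc, e', mul_inv_cancel_right]
    change _ ∈ A
    rw [this]
    exact A.mul_mem hα (A.inv_mem hβ)
  refine ⟨A, rho a (x i), T, lt_of_le_of_ne (hmax B TB hBA) fun hAB => ?_,
    Cz_anti hA (hc.le_Cz (hz i)), hinf, fun L hL1 hL2 ⟨m', hm'⟩ α hα => ?_, i, rfl⟩
  · obtain ⟨j, hj, hij⟩ := hinf.exists_gt i
    refine h2 j ?_
    have := (S j ⊔ B).mul_mem (mem_sup_left (hmono hij (h1 i))) (mem_sup_right (hAB ▸ hj))
    simpa using this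
  · have hq : ∀ n : ℕ, ∃ t, ∀ j < n, rho a (x j) ^ p ^ t = 1 := by
      intro n
      induction n with
      | zero => exact ⟨0, by simp⟩
      | succ n ih =>
        obtain ⟨t, ht⟩ := ih
        obtain ⟨t', ht'⟩ := H.pgrp (rho a (x n))
        refine ⟨t + t', fun j hj => ?_⟩
        rcases Nat.lt_succ_iff_lt_or_eq.1 hj with h | rfl
        · rw [pow_add, pow_mul, ht j h, one_pow]
        · rw [pow_add, mul_comm, pow_mul, ht', one_pow]
    obtain ⟨t, ht⟩ := hq m'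
    obtain ⟨β, hβ, rfl⟩ := (T.fr H ha).div.pow t hα
    refine hL L _ hL1 hL2 (fun j _ => ?_) β (hA hβ)
    rcases lt_or_ge j m' with h | h
    · rw [ht j h]; exact one_mem _
    · exact L.pow_mem (hm' j h) _

/-- Chains of bounded exponent have bounded length. -/
theorem chainBd (H : Hyp p k D) {a : G} (ha : a ∈ D) (e t : ℕ)
    (S : ℕ → Subgroup G) (x : ℕ → G) (hm : ∀ i < t, S i ≤ S (i + 1)) (hn : ∀ i ≤ t, a ∈ Nz (S i))
    (hx : ∀ i < t, x i ∈ Cz (S i)) (h1 : ∀ i < t, rho a (x i) ∈ S (i + 1))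
    (h2 : ∀ i < t, rho a (x i) ∉ S i) (h3 : ∀ i < t, rho a (rho a (x i)) ∈ S i)
    (h4 : ∀ i < t, rho a (x i) ^ p ^ e = 1) : t < k ^ (p * e + 1) := by
  classical
  have hmono : ∀ j ≤ t, ∀ i ≤ j, S i ≤ S j := by
    intro j hj i hi
    induction j, hi using Nat.le_induction with
    | base => exact le_rfl
    | succ j _ ih => exact (ih (by omega)).trans (hm j (by omega))
  obtain ⟨A₀, hc, hN, -, hz, hL⟩ := chain_gen H (tower_bot a) {i | i < t} S x
    (fun i _ j hj h => hmono j (le_of_lt hj) _ h) (fun i hi => ⟨hn i (le_of_lt hi), hn _ hi⟩)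
    (fun i hi => ⟨hx i hi, mem_Cz.2 fun α hα => by rw [mem_bot.1 hα]; exact Commute.one_left _⟩)
    h1 fun i hi => mem_sup_left (h3 i hi)
  have hexp : ∀ y ∈ A₀, y ^ p ^ e = 1 := fun y hy =>
    mem_bot.1 (hL ⊥ _ (tower_bot a).norm le_rfl (fun i hi => mem_bot.2 (h4 i hi)) y hy)
  have hit : ∀ j : ℕ, ∀ y ∈ A₀, ∃ β ∈ A₀, (rho a)^[p * j] y = β ^ p ^ j := by
    intro j y hy
    induction j with
    | zero => exact ⟨y, hy, by simp⟩
    | succ j ih =>
      obtain ⟨β, hβ, e1⟩ := ih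
      obtain ⟨γ, hγ, e2⟩ := (rho_iter_p H.prime H.odd hc hN (H.pow a ha) hβ).1
      refine ⟨γ, hγ, ?_⟩
      rw [Nat.mul_succ, add_comm, Function.iterate_add_apply, e1, chain_iter_pow hc hN hβ, e2,
        ← pow_mul, pow_succ']
  let u : ℕ → G := fun n => Nat.rec 1 (fun i v => rho a (x i) * v) n
  have hu : ∀ n ≤ t, u n ∈ A₀ ∧ u n ∈ S n ∧ a * u n ∈ D := by
    intro n hn'
    induction n with
    | zero => exact ⟨one_mem _, one_mem _, by simpa [u] using ha⟩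
    | succ n ih =>
      obtain ⟨i1, i2, i3⟩ := ih (by omega)
      exact ⟨A₀.mul_mem (hz n hn') i1, (S _).mul_mem (h1 n hn') (hm n hn' i2),
        chain_step H i3 (mem_Cz.1 (hx n hn') _ i2)⟩
  have hne : ∀ j ≤ t, ∀ i < j, u i ≠ u j := by
    intro j hj i hi e1
    obtain ⟨j, rfl⟩ : ∃ j', j = j' + 1 := ⟨j - 1, by omega⟩
    refine h2 j hj ?_
    have e2 : rho a (x j) = u i * (u j)⁻¹ := by rw [e1]; simp [u]
    rw [e2]
    exact (S j).mul_mem (hmono j (by omega) i (by omega) (hu i (by omega)).2.1)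
      ((S j).inv_mem (hu j (by omega)).2.1)
  have hcard : ((Finset.range (t + 1)).image u).card = t + 1 := by
    rw [Finset.card_image_of_injOn, Finset.card_range]
    intro i hi j hj e1
    simp only [Finset.coe_range, Set.mem_Iio] at hi hj
    rcases lt_trichotomy i j with h | h | h
    · exact absurd e1 (hne j (by omega) i h)
    · exact h
    · exact absurd e1.symm (hne i (by omega) j h)
  have hmem : ∀ y ∈ (Finset.range (t + 1)).image u, y ∈ A₀ ∧ a * y ∈ D := by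
    intro y hy
    obtain ⟨n, hn', rfl⟩ := Finset.mem_image.1 hy
    have := hu n (by simpa [Nat.lt_succ_iff] using hn')
    exact ⟨this.1, this.2.2⟩
  have h5 := chain_fib H hc hN _ hmem
  have h6 := chain_kerBd H ha hc hN (p * e) (((Finset.range (t + 1)).image u).image (rho a))
    fun y hy => by
      obtain ⟨z, hz', rfl⟩ := Finset.mem_image.1 hy
      refine ⟨subset_closure ⟨z, (hmem z hz').1, rfl⟩, ?_⟩
      obtain ⟨β, hβ, e1⟩ := hit e _ (rho_mem_of_Nz hN (hmem z hz').1)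
      rw [e1, hexp β hβ]
  rw [hcard] at h5
  rw [pow_succ']
  exact lt_of_lt_of_le (Nat.lt_succ_self t) (h5.trans (Nat.mul_le_mul_left _ h6))

/-- The chain lemma for families. -/
theorem cf (H : Hyp p k D) {a : G} (ha : a ∈ D) {B : Subgroup G} (TB : Tower a B) {I : Type}
    (r : Ultrafilter I) (g : I → G) (L : Subgroup G) (hL : a ∈ Nz L) (hT : ∀ s ∈ L, EvC r g s)
    (h1 : ∀ᶠ l in r, ∀ᶠ l' in r, g l' * (g l)⁻¹ ∈ Cz B ∧ rho a (g l' * (g l)⁻¹) ∈ L)
    (h2 : ∀ᶠ l in r, NonC r (fun l' => rho a (g l' * (g l)⁻¹)) B) :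
    ∃ B', Tower a B' ∧ B < B' ∧ B' ≤ L ⊔ B := by
  have horb : ∀ (K : Subgroup G) (z : G), a ∈ Nz K → z ∈ K → closure (orb z (zpowers a)) ≤ K := by
    intro K z hK hz
    refine (closure_le _).2 ?_
    rintro _ ⟨y, hy, rfl⟩
    exact Nz_conj (zpowers_le.2 hK hy) hz
  obtain ⟨S, x, -, hS⟩ := seq_of_step
    (fun S : Subgroup G => (S : Set G).Finite ∧ a ∈ Nz S ∧ S ≤ L ∧ S ≤ Cz B)
    (fun S (x : G) S' => S ≤ S' ∧ (x ∈ Cz S ∧ x ∈ Cz B) ∧ rho a x ∈ S' ∧ rho a x ∉ S ⊔ B ∧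
      rho a (rho a x) ∈ S ⊔ B ∧ rho a x ∈ L) ⊥
    ⟨by simp, (tower_bot a).norm, bot_le, bot_le⟩ (by
      rintro S ⟨s1, s2, s3, s4⟩
      choose! c hc using hT
      have e1 : ∀ᶠ l in r, ∀ s ∈ (S : Set G), (g l)⁻¹ * s * g l = c s :=
        (eventually_all_finite s1).2 fun s hs => hc s (s3 hs)
      obtain ⟨l, l1, l2, l3⟩ := (e1.and (h1.and h2)).exists
      have e2 : ∀ᶠ l' in r, ∀ s ∈ (S : Set G), s⁻¹ * rho a (g l' * (g l)⁻¹) ∉ B :=
        (eventually_all_finite s1).2 fun s _ => l3 s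
      obtain ⟨l', m1, m2, m3⟩ := (e1.and (l2.and e2)).exists
      have t1 : g l' * (g l)⁻¹ ∈ Cz S := mem_Cz.2 fun s hs => by
        rw [commute_iff_conj]
        calc _ = g l * ((g l')⁻¹ * s * g l') * (g l)⁻¹ := by group
          _ = s := by rw [m1 s hs, ← l1 s hs]; group
      have t2 : rho a (g l' * (g l)⁻¹) ∉ S ⊔ B := fun h => by
        obtain ⟨s, hs, β, hβ, e⟩ := (mem_sup_Nz' (s4.trans (Cz_le_Nz B))).1 h
        exact m3 s hs (by rw [e]; simpa using hβ)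
      generalize g l' * (g l)⁻¹ = θ at *
      obtain ⟨j, j1, j2⟩ := exists_last H ha (S ⊔ B) t2
      have e3 : rho a ((rho a)^[j] θ) = (rho a)^[j] (rho a θ) :=
        (Function.iterate_succ_apply' _ _ _).symm
      have x1 : (rho a)^[j] θ ∈ Cz S := rho_iter_mem (Nz_Cz s2) t1 j
      have x2 : (rho a)^[j] θ ∈ Cz B := rho_iter_mem (Nz_Cz TB.norm) m2.1 j
      have x3 : rho a ((rho a)^[j] θ) ∈ L := e3 ▸ rho_iter_mem hL m2.2 j
      refine ⟨(rho a)^[j] θ, S ⊔ closure (orb (rho a ((rho a)^[j] θ)) (zpowers a)),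
        ⟨finite_sup ((horb _ _ (Nz_Cz s2) (rho_mem_of_Nz (Nz_Cz s2) x1)).trans (Cz_le_Nz S)) s1
          (finite_rho_closure H ha _), Nz_sup s2 (Nz_closure_orb _ _),
          sup_le s3 (horb _ _ hL x3),
          sup_le s4 (horb _ _ (Nz_Cz TB.norm) (rho_mem_of_Nz (Nz_Cz TB.norm) x2))⟩,
        le_sup_left, ⟨x1, x2⟩, mem_sup_right (subset_closure ⟨1, one_mem _, by simp⟩),
        e3 ▸ j1, e3 ▸ j2, x3⟩)
  obtain ⟨A, -, T, hBA, -, -, hAL, -⟩ := chain H ha TB S x (fun i => (hS i).2.1)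
    (fun i => (hS i).1.2.1) (fun i => (hS i).1.2.2.2) (fun i => (hS i).2.2.1)
    (fun i => (hS i).2.2.2.1) (fun i => (hS i).2.2.2.2.1) fun i => (hS i).2.2.2.2.2.1
  exact ⟨A, T, hBA, hAL _ (Nz_sup hL TB.norm) le_sup_right
    ⟨0, fun i _ => mem_sup_left (hS i).2.2.2.2.2.2⟩⟩

/-- The largest `a`-invariant subgroup of elements with eventually constant conjugates. -/
theorem exists_inv_evC (hp : p.Prime) {a : G} (ha : a ^ p = 1) {I : Type} (r : Ultrafilter I)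
    (g : I → G) (Γ : Subgroup G) (haΓ : a ∈ Γ) : ∃ L : Subgroup G, a ∈ Nz L ∧ L ≤ Γ ∧
      (∀ s ∈ L, EvC r g s) ∧
      ∀ s ∈ Γ, (∀ j : ℕ, EvC r g ((a ^ j)⁻¹ * s * a ^ j)) → s ∈ L := by
  let L : Subgroup G :=
    { carrier := {s | s ∈ Γ ∧ ∀ j : ℕ, EvC r g ((a ^ j)⁻¹ * s * a ^ j)}
      one_mem' := ⟨one_mem _, fun j => ⟨1, by simp⟩⟩
      mul_mem' := fun {s t} hs ht => ⟨Γ.mul_mem hs.1 ht.1, fun j => by
        obtain ⟨s', hs'⟩ := hs.2 j
        obtain ⟨t', ht'⟩ := ht.2 j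
        refine ⟨s' * t', ?_⟩
        filter_upwards [hs', ht'] with l h1 h2
        rw [← h1, ← h2]; group⟩
      inv_mem' := fun {s} hs => ⟨Γ.inv_mem hs.1, fun j => by
        obtain ⟨s', hs'⟩ := hs.2 j
        refine ⟨s'⁻¹, ?_⟩
        filter_upwards [hs'] with l h1
        rw [← h1]; group⟩ }
  have key : ∀ n : ℕ, ∀ s ∈ L, (a ^ n)⁻¹ * s * a ^ n ∈ L := fun n s hs =>
    ⟨Γ.mul_mem (Γ.mul_mem (Γ.inv_mem (Γ.pow_mem haΓ n)) hs.1) (Γ.pow_mem haΓ n), fun j => by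
      have e : (a ^ j)⁻¹ * ((a ^ n)⁻¹ * s * a ^ n) * a ^ j = (a ^ (n + j))⁻¹ * s * a ^ (n + j) := by
        rw [pow_add]; simp only [mul_inv_rev, mul_assoc]
      rw [e]
      exact hs.2 _⟩
  refine ⟨L, mem_Nz.2 fun s => ⟨fun hs => by simpa using key 1 s hs, fun hs => ?_⟩,
    fun s hs => hs.1, fun s hs => by simpa using hs.2 0, fun s hs h => ⟨hs, h⟩⟩
  have h1 : a ^ (p - 1) = a⁻¹ := by
    rw [eq_inv_iff_mul_eq_one, ← pow_succ, Nat.sub_add_cancel hp.pos, ha]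
  have := key (p - 1) _ hs
  rw [h1] at this
  simpa [mul_assoc] using this

end Pool.Agent.Lib.MP_7d7b85_al
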