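import Pool.Agent.Lib.MP_7d7b85_al.Beta

namespace Pool.Agent.Lib.MP_7d7b85_al

open Subgroup Filter

variable {G : Type} [Group G] {p k : ℕ} {D : Set G}

variable {I : Type} {r : Ultrafilter I}

theorem costar_alg {d e δ c σ : G} (h1 : Commute c d) (h2 : Commute c e) (h3 : Commute c δ)
    (h4 : Commute c σ) (h5 : Commute δ d) (h6 : Commute δ σ) (h : δ⁻¹ * e * δ = e * c) :
    (e * d⁻¹ * e * σ)⁻¹ * (e * δ * d⁻¹ * (e * δ) * σ) = c⁻¹ * δ ^ 2 ∧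
      δ⁻¹ * (e * d⁻¹ * e * σ) * δ = e * d⁻¹ * e * σ * c ^ 2 := by
  have e1 : δ * e = e * (c⁻¹ * δ) := by
    have e0 : e * δ = δ * (e * c) := by rw [← h]; group
    calc δ * e = δ * (e * c) * c⁻¹ := by group
      _ = e * (δ * c⁻¹) := by rw [← e0]; group
      _ = e * (c⁻¹ * δ) := by rw [h3.inv_left.eq]
  have e2 : δ⁻¹ * d⁻¹ * δ = d⁻¹ := commute_iff_conj.1 h5.symm.inv_left
  have e3 : δ⁻¹ * σ * δ = σ := commute_iff_conj.1 h6.symm
  constructor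
  · have e4 : Commute (c⁻¹ * δ * δ) σ := (h4.inv_left.mul_left h6).mul_left h6
    calc (e * d⁻¹ * e * σ)⁻¹ * (e * δ * d⁻¹ * (e * δ) * σ)
        = (e * d⁻¹ * e * σ)⁻¹ * (e * (δ * d⁻¹) * e * δ * σ) := by group
      _ = (e * d⁻¹ * e * σ)⁻¹ * (e * (d⁻¹ * δ) * e * δ * σ) := by rw [h5.inv_right.eq]
      _ = σ⁻¹ * e⁻¹ * (δ * e) * δ * σ := by group
      _ = σ⁻¹ * (c⁻¹ * δ * δ * σ) := by rw [e1]; group
      _ = c⁻¹ * δ ^ 2 := by rw [e4.eq, pow_two]; group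
  · have e4 : Commute c (d⁻¹ * e) := h1.inv_right.mul_right h2
    have e5 : Commute (c * c) σ := h4.mul_left h4
    calc δ⁻¹ * (e * d⁻¹ * e * σ) * δ
        = (δ⁻¹ * e * δ) * (δ⁻¹ * d⁻¹ * δ) * (δ⁻¹ * e * δ) * (δ⁻¹ * σ * δ) := by group
      _ = e * (c * (d⁻¹ * e)) * c * σ := by rw [h, e2, e3]; group
      _ = e * d⁻¹ * e * (c * c * σ) := by rw [e4.eq]; group
      _ = e * d⁻¹ * e * σ * c ^ 2 := by rw [e5.eq, pow_two]; group

theorem costar_evC_mul {e : I → G} {a b : G} (ha : EvC r e a) (hb : EvC r e b) :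
    EvC r e (a * b) := by
  obtain ⟨a', ha'⟩ := ha
  obtain ⟨b', hb'⟩ := hb
  refine ⟨a' * b', ?_⟩
  filter_upwards [ha', hb'] with l h1 h2
  rw [← h1, ← h2]; group

theorem costar_evC_pow {e : I → G} {a : G} (ha : EvC r e a) (n : ℕ) : EvC r e (a ^ n) := by
  induction n with
  | zero => exact ⟨1, by simp⟩
  | succ n ih => rw [pow_succ]; exact costar_evC_mul ih ha

/-- The family `f` is eventually constant modulo `A`. -/
def CostarCM (r : Ultrafilter I) (A : Subgroup G) (f : I → G) : Prop :=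
  ∃ φ ∈ Nz A, ∀ᶠ i in r, φ⁻¹ * f i ∈ A

theorem CostarCM.mul {A : Subgroup G} {f g : I → G} (hf : CostarCM r A f) (hg : CostarCM r A g) :
    CostarCM r A (fun i => f i * g i) := by
  obtain ⟨φ, hφ, h1⟩ := hf
  obtain ⟨ψ, hψ, h2⟩ := hg
  refine ⟨φ * ψ, mul_mem hφ hψ, ?_⟩
  filter_upwards [h1, h2] with i a1 a2
  convert A.mul_mem (Nz_conj hψ a1) a2 using 1
  group

theorem CostarCM.inv {A : Subgroup G} {f : I → G} (hf : CostarCM r A f) :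
    CostarCM r A (fun i => (f i)⁻¹) := by
  obtain ⟨φ, hφ, h1⟩ := hf
  refine ⟨φ⁻¹, inv_mem hφ, ?_⟩
  filter_upwards [h1] with i a1
  convert Nz_conj' hφ (A.inv_mem a1) using 1
  group

theorem costarCM_of_finMod {A : Subgroup G} {X : Set G} (h : FinMod A X) {f : I → G}
    (hf : ∀ᶠ i in r, f i ∈ X ∧ f i ∈ Nz A) : CostarCM r A f := by
  obtain ⟨φ, h1⟩ := ultra_finMod r h f (hf.mono fun i hi => hi.1)
  obtain ⟨i, a1, a2⟩ := (h1.and hf).exists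
  refine ⟨φ, ?_, h1⟩
  simpa using mul_mem a2.2 (inv_mem (le_Nz A a1))

theorem costar_Nz_map {G' : Type} [Group G'] (hp : p.Prime) (hG : IsPGroup p G') (f : G →* G')
    {K : Subgroup G} {g : G} (hg : g ∈ Nz K) : f g ∈ Nz (K.map f) := by
  refine mem_Nz_of_conj hp hG ?_
  rintro _ ⟨α, hα, rfl⟩
  exact ⟨g⁻¹ * α * g, Nz_conj hg hα, by simp⟩

theorem costar_mem_of_sq (H : Hyp p k D) {R : Subgroup G} {δ : G} (h : δ ^ 2 ∈ R) : δ ∈ R := by
  obtain ⟨s, hs⟩ := H.pgrp δ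
  obtain ⟨m, hm⟩ : Odd (p ^ s) := (H.prime.odd_of_ne_two H.odd).pow
  have e : δ = (δ ^ 2) ^ (m + 1) := by
    rw [← pow_mul, show 2 * (m + 1) = p ^ s + 1 by omega, pow_succ, hs, one_mul]
  rw [e]
  exact pow_mem h _

/-- The abstract core of the G-lemma. -/
theorem costar_core {n : ℕ} (hT : TS p k (n + 1)) (H : Hyp p k D) {K R : Subgroup G} {t : Dat G}
    {d σ c E δ : G} (hd : d ∈ Nz K) (hσ : σ ∈ K) (hn : n ≤ t.m + t.n)
    (g1 : Good p D K t E) (g2 : Good p D K t (E * δ)) (g3 : Good p D K t (E * d⁻¹ * E * σ))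
    (g4 : Good p D K t (E * δ * d⁻¹ * (E * δ) * σ)) (hKR : K ≤ R) (hdR : d ∈ R)
    (hδR : δ ∈ Cz R) (hcR : c ∈ Cz R) (hcE : Commute c E) (hcδ : Commute c δ)
    (h : δ⁻¹ * E * δ = E * c) (hδ : δ ∉ K) (hδ2 : c⁻¹ * δ ^ 2 ∉ K) :
    ∃ A : Subgroup G, FR p A ∧ ∀ (y : I → G) (f : I → G),
      (∀ᶠ i in r, y i ∈ closure (D ∩ (R : Set G) ∩ (Nz K : Set G)) ∧
        (f i)⁻¹ * ((y i)⁻¹ * d * y i) ∈ K) → CostarCM r A f := by
  have hp := H.prime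
  have hG := H.pgrp
  have hcK : c ∈ Cz K := Cz_anti hKR hcR
  have hδK : δ ∈ Cz K := Cz_anti hKR hδR
  have hcd : Commute c d := (mem_Cz.1 hcR d hdR).symm
  have hcσ : Commute c σ := (mem_Cz.1 hcK σ hσ).symm
  have hδd : Commute δ d := (mem_Cz.1 hδR d hdR).symm
  have hδσ : Commute δ σ := (mem_Cz.1 hδK σ hσ).symm
  obtain ⟨a1, a2⟩ := costar_alg hcd hcE hcδ hcσ hδd hδσ h
  set K' := ext (ext K c) δ with hK'
  have hKK' : K ≤ K' := le_sup_left.trans le_sup_left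
  have hcK' : c ∈ K' := (le_sup_right.trans le_sup_left : zpowers c ≤ K') (mem_zpowers c)
  have hδK' : δ ∈ K' := (le_sup_right : zpowers δ ≤ K') (mem_zpowers δ)
  have hf : (K' : Set G).Finite :=
    finite_ext hp hG (Cz_le_Nz _ (mem_Cz_ext.2 ⟨hδK, hcδ⟩))
      (finite_ext hp hG (Cz_le_Nz _ hcK) g1.fin)
  have hN : ∀ g ∈ Nz K, Commute c g → g⁻¹ * δ * g ∈ K' → g ∈ Nz K' := fun g hg h1 h2 =>
    mem_Nz_ext hp hG (mem_Nz_ext hp hG hg (by
      rw [commute_iff_conj.1 h1]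
      exact (le_sup_right : zpowers c ≤ ext K c) (mem_zpowers c))) h2
  have hNR : ∀ g ∈ Nz K, g ∈ R → g ∈ Nz K' := fun g hg hgR =>
    hN g hg (mem_Cz.1 hcR g hgR).symm (by
      rw [commute_iff_conj.1 (mem_Cz.1 hδR g hgR).symm]
      exact hδK')
  have hE : E ∈ Nz K' := hN E g1.norm hcE (by
    have e0 : E * δ = δ * (E * c) := by rw [← h]; group
    have e1 : E⁻¹ * δ * E = δ * c⁻¹ := by
      calc E⁻¹ * δ * E = E⁻¹ * (δ * (E * c)) * c⁻¹ := by group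
        _ = δ * c⁻¹ := by rw [← e0]; group
    rw [e1]
    exact mul_mem hδK' (inv_mem hcK'))
  set y2 := E * d⁻¹ * E * σ with hy2
  have hy2N : y2 ∈ Nz K' :=
    mul_mem (mul_mem (mul_mem hE (inv_mem (hNR d hd hdR))) hE) (le_Nz K' (hKK' hσ))
  have hcy : Commute c y2 := ((hcE.mul_right hcd.inv_right).mul_right hcE).mul_right hcσ
  obtain ⟨t1, G1, n1⟩ := Good.three H g1 g2 hδK hδ (by
    rw [h]
    exact (Commute.refl E).mul_right hcE.symm) hKK' hδK' hf hE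
  obtain ⟨t2, G2, n2⟩ := Good.three (δ := c⁻¹ * δ ^ 2) H g3 (by
      rw [← a1, mul_inv_cancel_left]
      exact g4) (mul_mem (inv_mem hcK) (pow_mem hδK 2)) hδ2 (by
      have e1 : c * y2 * c⁻¹ = y2 := by rw [hcy.eq]; group
      have e2 : δ⁻¹ * c ^ 2 * δ = c ^ 2 := commute_iff_conj.1 (hcδ.pow_left 2)
      have e3 : (c⁻¹ * δ ^ 2)⁻¹ * y2 * (c⁻¹ * δ ^ 2) = y2 * (c ^ 2 * c ^ 2) := by
        calc (c⁻¹ * δ ^ 2)⁻¹ * y2 * (c⁻¹ * δ ^ 2)
            = δ⁻¹ * (δ⁻¹ * (c * y2 * c⁻¹) * δ) * δ := by rw [pow_two]; group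
          _ = δ⁻¹ * (y2 * c ^ 2) * δ := by rw [e1, a2]
          _ = (δ⁻¹ * y2 * δ) * (δ⁻¹ * c ^ 2 * δ) := by group
          _ = y2 * (c ^ 2 * c ^ 2) := by rw [a2, e2, mul_assoc]
      rw [e3]
      exact (Commute.refl y2).mul_right
        ((hcy.symm.pow_right 2).mul_right (hcy.symm.pow_right 2)))
    hKK' (mul_mem (inv_mem hcK') (pow_mem hδK' 2)) hf hy2N
  obtain ⟨A1, f1, l1, m1, c1⟩ := hT G D H K' t1 E G1 (by omega)
  obtain ⟨A2, f2, l2, m2, c2⟩ := hT G D H K' t2 y2 G2 (by omega)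
  have h12 : A1 ≤ Cz A2 := f2.div_cent hp H.odd hG f1.div (l1.trans m2)
  have fA : FR p (A1 ⊔ A2) := f1.sup hp hG f2 h12
  have hΓA : Gam D K' ≤ Nz (A1 ⊔ A2) := fun g hg => Nz_sup (m1 hg) (m2 hg)
  have hAK : K' ≤ Nz (A1 ⊔ A2) := (le_Cz_comm.1 (fA.div.le_Cz_of_finite hp hG
    ((sup_le l1 l2).trans (Gam_le_Nz D K')) hf)).trans (Cz_le_Nz _)
  have hEΓ : E ∈ Gam D K' := mem_Gam g1.mem hE
  have hyΓ : y2 ∈ Gam D K' := mem_Gam g3.mem hy2N
  have hle : closure (D ∩ (R : Set G) ∩ (Nz K : Set G)) ≤ Gam D K' :=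
    (closure_le _).2 fun g hg => mem_Gam hg.1.1 (hNR g hg.2 hg.1.2)
  refine ⟨A1 ⊔ A2, fA, fun y f hy => ?_⟩
  have b1 : CostarCM r (A1 ⊔ A2) (fun i => (y i)⁻¹ * E * y i) :=
    costarCM_of_finMod (c1.of_le le_sup_left) (hy.mono fun i hi =>
      ⟨⟨y i, hle hi.1, rfl⟩, hΓA (mul_mem (mul_mem (inv_mem (hle hi.1)) hEΓ) (hle hi.1))⟩)
  have b2 : CostarCM r (A1 ⊔ A2) (fun i => (y i)⁻¹ * y2 * y i) :=
    costarCM_of_finMod (c2.of_le le_sup_right) (hy.mono fun i hi =>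
      ⟨⟨y i, hle hi.1, rfl⟩, hΓA (mul_mem (mul_mem (inv_mem (hle hi.1)) hyΓ) (hle hi.1))⟩)
  have b3 : CostarCM r (A1 ⊔ A2) (fun i => (y i)⁻¹ * σ * y i) :=
    costarCM_of_finMod (finMod_of_finite _ hf) (hy.mono fun i hi => by
      have h1 := Nz_conj (Gam_le_Nz D K' (hle hi.1)) (hKK' hσ)
      exact ⟨h1, hAK h1⟩)
  have b4 : CostarCM r (A1 ⊔ A2) (fun i => (f i)⁻¹ * ((y i)⁻¹ * d * y i)) :=
    costarCM_of_finMod (finMod_of_finite _ hf) (hy.mono fun i hi =>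
      ⟨hKK' hi.2, hAK (hKK' hi.2)⟩)
  have b5 := (((b1.mul b3).mul b2.inv).mul b1).mul b4.inv
  convert b5 using 2 with i
  rw [hy2]
  group

/-- The G-lemma when all conjugation actions are eventually constant. -/
theorem glem_top {n : ℕ} (hT : TS p k (n + 1)) (H : Hyp p k D) {K : Subgroup G} {t : Dat G}
    {d σ c : G} {e : I → G} (hd : d ∈ Nz K) (hσ : σ ∈ K) (hn : n ≤ t.m + t.n)
    (hg : ∀ᶠ l in r, Good p D K t (e l) ∧ Good p D K t (e l * d⁻¹ * e l * σ))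
    (hB : Beta p D r e c) (hN : NonC r e K) (htop : ∀ g, g ∈ TT r e) :
    ∀ᶠ i in r, ∀ y ∈ Gam D K, (e i)⁻¹ * (y⁻¹ * d * y) ∉ K := by
  have hev : ∀ g, EvC r e g := fun g => TT.evC (htop g)
  have hcc : ∀ g, Commute g c := fun g => mem_Cz.1 hB.c_cent g (htop g)
  obtain ⟨L1⟩ := exists_lim H r e (hB.mem.mono fun l hl => hl.1) hev
  have hc1 : L1.ε⁻¹ * L1.ι c * L1.ε = L1.ι c :=
    L1.conj_ε (Eventually.of_forall fun l => commute_iff_conj.1 (hcc (e l)).symm)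
  have hcε : Commute (L1.ι c) L1.ε := commute_iff_conj.2 hc1
  have hε : ∀ᶠ l in r, (L1.ι (e l))⁻¹ * L1.ε * L1.ι (e l) = L1.ε * (L1.ι c)⁻¹ := by
    filter_upwards [hB.rel] with i hi
    have h1 := L1.conj_ε hi
    rw [map_mul] at h1
    calc (L1.ι (e i))⁻¹ * L1.ε * L1.ι (e i)
        = (L1.ι (e i))⁻¹ * L1.ε * (L1.ι (e i) * L1.ι c) * (L1.ι c)⁻¹ := by group
      _ = L1.ε * (L1.ι c)⁻¹ := by rw [← h1]; group
  have hι : ∀ g g', (∀ᶠ l in r, (e l)⁻¹ * g * e l = g') →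
      ∀ᶠ l in r, (L1.ι (e l))⁻¹ * L1.ι g * L1.ι (e l) = L1.ι g' := fun g g' h =>
    h.mono fun l hl => by rw [← hl]; simp
  have hev1 : ∀ h, EvC r (fun l => L1.ι (e l)) h := by
    intro h
    obtain ⟨g, m, rfl⟩ := L1.nf h
    obtain ⟨g', hg'⟩ := hev g
    exact costar_evC_mul ⟨_, hι g g' hg'⟩ (costar_evC_pow ⟨_, hε⟩ m)
  obtain ⟨L2⟩ := exists_lim L1.hyp r (fun l => L1.ι (e l))
    (hB.mem.mono fun l hl => L1.mem_D.2 hl.1) hev1
  set j : G →* L2.Q := L2.ι.comp L1.ι with hj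
  have hjinj : Function.Injective j := L2.inj.comp L1.inj
  have hjD : ∀ g ∈ D, j g ∈ L2.D' := fun g hg => L2.mem_D.2 (L1.mem_D.2 hg)
  set E := L2.ι L1.ε with hE
  set δ := E⁻¹ * L2.ε with hδ
  have hEδ : E * δ = L2.ε := by rw [hδ]; group
  have hτ : ∀ g, ∃ g', E⁻¹ * j g * E = j g' ∧ L2.ε⁻¹ * j g * L2.ε = j g' := by
    intro g
    obtain ⟨g', hg'⟩ := hev g
    refine ⟨g', ?_, L2.conj_ε (hι g g' hg')⟩
    have := congrArg L2.ι (L1.conj_ε hg')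
    simpa [hE, hj] using this
  have hEN : E ∈ Nz j.range := mem_Nz_of_conj H.prime L2.hyp.pgrp (by
    rintro _ ⟨g, rfl⟩
    obtain ⟨g', h1, -⟩ := hτ g
    exact ⟨g', h1.symm⟩)
  have hδR : δ ∈ Cz j.range := mem_Cz.2 fun α hα => by
    obtain ⟨g, hg⟩ := Nz_conj' hEN hα
    obtain ⟨g', h1, h2⟩ := hτ g
    rw [commute_iff_conj]
    calc δ⁻¹ * α * δ = L2.ε⁻¹ * (E * α * E⁻¹) * L2.ε := by rw [hδ]; group
      _ = E⁻¹ * (E * α * E⁻¹) * E := by rw [← hg, h1, h2]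
      _ = α := by group
  have hcR : (j c)⁻¹ ∈ Cz j.range := inv_mem (mem_Cz.2 (by
    rintro _ ⟨g, rfl⟩
    exact (hcc g).map j))
  have hcE : Commute (j c)⁻¹ E := (hcε.map L2.ι).inv_left
  have hcδ : Commute (j c)⁻¹ δ := (mem_Cz.1 hδR _ ⟨c, rfl⟩).inv_left
  have hrel : δ⁻¹ * E * δ = E * (j c)⁻¹ := by
    have h1 := L2.conj_ε hε
    rw [map_mul, map_inv] at h1
    calc δ⁻¹ * E * δ = L2.ε⁻¹ * E * L2.ε := by rw [hδ]; group
      _ = E * (j c)⁻¹ := h1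
  have hnot : δ ∉ L2.ι.range := fun h => L2.ε_not_mem (fun g => by
      by_cases hg : g ∈ L1.ι.range
      · obtain ⟨g, rfl⟩ := hg
        filter_upwards [hN g] with l hl h1
        rw [L1.inj h1] at hl
        exact hl (by simp)
      · exact Eventually.of_forall fun l h1 => hg ⟨_, h1⟩) (by
      rw [← hEδ]
      exact mul_mem ⟨_, rfl⟩ h)
  have hKr : (K.map L1.ι).map L2.ι ≤ L2.ι.range := map_le_range _ _
  have hKj : (K.map L1.ι).map L2.ι = K.map j := by rw [hj, Subgroup.map_map]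
  have r1 : L1.Rep (L1.ε * (L1.ι d)⁻¹ * L1.ε * L1.ι σ) (fun l => e l * d⁻¹ * e l * σ) :=
    L1.rep_mul (L1.rep_mul (L1.rep_mul L1.rep_ε (L1.rep_inv (L1.rep_ι d))) L1.rep_ε) (L1.rep_ι σ)
  have r2 : L2.Rep (L2.ε * (j d)⁻¹ * L2.ε * j σ)
      (fun l => L1.ι (e l) * (L1.ι d)⁻¹ * L1.ι (e l) * L1.ι σ) :=
    L2.rep_mul (L2.rep_mul (L2.rep_mul L2.rep_ε (L2.rep_inv (L2.rep_ι _))) L2.rep_ε) (L2.rep_ι _)
  have hD1 : ∀ g ∈ D, L1.ι g ∈ L1.D' := fun g hg => L1.mem_D.2 hg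
  have hD2 : ∀ g ∈ L1.D', L2.ι g ∈ L2.D' := fun g hg => L2.mem_D.2 hg
  obtain ⟨A, fA, hA⟩ := costar_core (r := r) (K := (K.map L1.ι).map L2.ι) (R := j.range)
    (t := (t.map L1.ι).map L2.ι) (d := j d) (σ := j σ) (c := (j c)⁻¹) (E := E) (δ := δ)
    hT L2.hyp (by rw [hKj]; exact costar_Nz_map H.prime L2.hyp.pgrp j hd)
    (by rw [hKj]; exact ⟨σ, hσ, rfl⟩) hn
    ((L1.good L1.rep_ε (hg.mono fun l hl => hl.1)).map L2.ι L2.inj hD2)
    (by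
      rw [hEδ]
      exact L2.good L2.rep_ε (hg.mono fun l hl => hl.1.map L1.ι L1.inj hD1))
    (by
      have := (L1.good r1 (hg.mono fun l hl => hl.2)).map L2.ι L2.inj hD2
      simpa [hE, hj] using this)
    (by
      rw [hEδ]
      refine L2.good r2 (hg.mono fun l hl => ?_)
      simpa using hl.2.map L1.ι L1.inj hD1)
    (by rw [hKj]; exact map_le_range _ _) ⟨d, rfl⟩ hδR hcR hcE hcδ hrel
    (fun h => hnot (hKr h)) (fun h => hnot (costar_mem_of_sq L2.hyp (by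
      have h1 : (j c)⁻¹ ∈ L2.ι.range := inv_mem ⟨_, rfl⟩
      simpa using mul_mem h1 (hKr h))))
  by_contra hno
  have h1 : ∀ᶠ i in r, ∃ y ∈ Gam D K, (e i)⁻¹ * (y⁻¹ * d * y) ∈ K := by
    refine (Ultrafilter.eventually_not.2 hno).mono fun i hi => ?_
    simpa using hi
  have hex : ∀ i, ∃ y, (∃ y ∈ Gam D K, (e i)⁻¹ * (y⁻¹ * d * y) ∈ K) →
      y ∈ Gam D K ∧ (e i)⁻¹ * (y⁻¹ * d * y) ∈ K := fun i => by
    by_cases hi : ∃ y ∈ Gam D K, (e i)⁻¹ * (y⁻¹ * d * y) ∈ K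
    · obtain ⟨y, hy⟩ := hi
      exact ⟨y, fun _ => hy⟩
    · exact ⟨1, fun h => (hi h).elim⟩
  choose y hy using hex
  have hle : Gam D K ≤ (closure (L2.D' ∩ (j.range : Set L2.Q) ∩
      (Nz ((K.map L1.ι).map L2.ι) : Set L2.Q))).comap j :=
    (closure_le _).2 fun g hg => subset_closure ⟨⟨hjD g hg.1, ⟨g, rfl⟩⟩, by
      rw [hKj]; exact costar_Nz_map H.prime L2.hyp.pgrp j hg.2⟩
  obtain ⟨φ, -, hφ⟩ := hA (fun i => j (y i)) (fun i => j (e i)) (h1.mono fun i hi =>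
    ⟨hle (hy i hi).1, by
      rw [hKj]
      exact ⟨_, (hy i hi).2, by simp⟩⟩)
  obtain ⟨i, a1, a2⟩ := (hφ.and (hB.eta H 1)).exists
  obtain ⟨z, -, hz⟩ := ultra_fin r fA.fin (fun l => j ((e i)⁻¹ * e l)) (by
    filter_upwards [hφ, a2] with l b1 b2
    refine ⟨?_, ?_⟩
    · simpa using A.mul_mem (A.inv_mem a1) b1
    · rw [← map_pow]
      simp only [pow_one] at b2
      rw [b2, map_one])
  obtain ⟨l0, hl0⟩ := hz.exists
  obtain ⟨l, b1, b2⟩ := (hz.and (hN (e l0))).exists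
  have b3 : e l = e l0 := mul_left_cancel (hjinj (b1.trans hl0.symm))
  rw [b3] at b2
  exact b2 (by simp)

theorem glem {n : ℕ} (hT : TS p k (n + 1)) (H : Hyp p k D) {K : Subgroup G} {t : Dat G}
    {d c : G} {x : I → G} (hg : Good p D K t d) (hn : n ≤ t.m + t.n)
    (hx : ∀ᶠ l in r, PD d K (x l)) (hB : Beta p D r (fun l => (x l)⁻¹ * d * x l) c)
    (hN : NonC r (fun l => rho d (x l)) K) :
    ∀ᶠ i in r, ∀ y ∈ closure (D ∩ (TT r fun l => (x l)⁻¹ * d * x l : Subgroup G) ∩ (Nz K : Set G)),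
      ((x i)⁻¹ * d * x i)⁻¹ * (y⁻¹ * d * y) ∉ K := by
  classical
  set e : I → G := fun l => (x l)⁻¹ * d * x l with he
  set T := TT r e with hTT
  have hKd : ext K d ≤ T := TT.of_finite (finite_ext H.prime H.pgrp hg.norm hg.fin)
    (hx.mono fun l hl => (hl.norm_ext H hg.norm).2.1)
  have hK : K ≤ T := le_sup_left.trans hKd
  have hd : d ∈ T := (le_sup_right.trans hKd) (mem_zpowers d)
  obtain ⟨σ, hσ, hσ'⟩ := ultra_fin r hg.fin (fun l => rho (rho d (x l)) (x l))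
    (hx.mono fun l hl => hl.comm_mem)
  let e' : I → T := fun l => if h : e l ∈ T then ⟨e l, h⟩ else 1
  have he' : ∀ᶠ l in r, (e' l : G) = e l := hB.mem.mono fun l hl => by
    have h1 : e l ∈ T := hl.2
    simp only [e', dif_pos h1]
  obtain ⟨t', m1, n1, ht'⟩ := exists_comap_dat (p := p) (D := D) T hK t
  have hNz : ∀ g : T, (g : G) ∈ Nz K → g ∈ Nz (K.subgroupOf T) := fun g hg =>
    mem_Nz.2 fun h => mem_Nz.1 hg h
  have htop : ∀ g : T, g ∈ TT r e' := by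
    intro g j
    obtain ⟨g', hg'⟩ := g.2 j
    obtain ⟨l, b1, b2⟩ := (hg'.and hB.mem).exists
    have hg'T : g' ∈ T := by
      rw [← b1]
      exact mul_mem (mul_mem (inv_mem (pow_mem b2.2 j)) g.2) (pow_mem b2.2 j)
    refine ⟨⟨g', hg'T⟩, ?_⟩
    filter_upwards [hg', he'] with l a1 a2
    apply Subtype.ext
    simpa [a2] using a1
  have key := glem_top (r := r) (e := e') (d := ⟨d, hd⟩) (σ := ⟨σ, hK hσ⟩) (c := ⟨c, hB.c_mem⟩)
    (K := K.subgroupOf T) (t := t') hT (H.subgroup T) (hNz _ hg.norm) hσ (by omega) (by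
      filter_upwards [he', hx, hσ'] with l a1 a2 a3
      refine ⟨ht' _ ?_, ht' _ ?_⟩
      · rw [a1]
        exact hg.conj H a2.cent
      · have h1 := hg.conj H (mul_mem a2.cent a2.cent)
        convert h1 using 1
        simp only [Subgroup.coe_mul, Subgroup.coe_inv, a1, he, ← a3]
        unfold rho
        group)
    ⟨by
      filter_upwards [he', hB.mem] with l a1 a2
      exact ⟨by change (e' l : G) ∈ D; rw [a1]; exact a2.1, htop _⟩,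
    htop _, mem_Cz.2 fun α _ => Subtype.ext (mem_Cz.1 hB.c_cent α α.2), by
      filter_upwards [he', hB.rel] with i a1 a2
      filter_upwards [he', a2] with l b1 b2
      apply Subtype.ext
      simpa [a1, b1] using b2⟩
    (fun g => by
      filter_upwards [he', hN (d⁻¹ * g)] with l a1 a2 a3
      apply a2
      have a4 : ((g⁻¹ * e' l : T) : G) ∈ K := a3
      convert a4 using 1
      simp only [Subgroup.coe_mul, Subgroup.coe_inv, a1, he]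
      unfold rho
      group) htop
  have hle : closure (D ∩ (T : Set G) ∩ (Nz K : Set G)) ≤
      (Gam (Subtype.val ⁻¹' D : Set T) (K.subgroupOf T)).map T.subtype :=
    (closure_le _).2 fun g hg => ⟨⟨g, hg.1.2⟩, mem_Gam hg.1.1 (hNz _ hg.2), rfl⟩
  filter_upwards [key, he'] with i a1 a2 y hy a3
  obtain ⟨y', hy', rfl⟩ := hle hy
  refine a1 y' hy' ?_
  change (((e' i)⁻¹ * (y'⁻¹ * ⟨d, hd⟩ * y') : T) : G) ∈ K
  simpa [a2, he] using a3

end Pool.Agent.Lib.MP_7d7b85_al
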