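import Pool.Agent.Lib.MP_7d7b85_al.Basic

/-!
Definitions for the proof that a p-group with a special class of elements of order p has a
nontrivial centre. Conjugation is written `y⁻¹ * x * y` throughout.
-/

namespace Pool.Agent.Lib.MP_7d7b85_al

open Subgroup Filter

variable {G : Type} [Group G]

/-- `rho d y = d⁻¹ * d ^ y`. -/
def rho (d y : G) : G := d⁻¹ * (y⁻¹ * d * y)

/-- Normaliser of a subgroup. -/
abbrev Nz (A : Subgroup G) : Subgroup G := normalizer (A : Set G)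

/-- Centraliser of a subgroup. -/
abbrev Cz (A : Subgroup G) : Subgroup G := centralizer (A : Set G)

/-- The conjugate subgroup `g⁻¹ A g`. -/
def cjs (A : Subgroup G) (g : G) : Subgroup G := A.comap (MulAut.conj g).toMonoidHom

/-- The standing hypothesis on the pair `(G, D)`. -/
structure Hyp (p k : ℕ) (D : Set G) : Prop where
  prime : p.Prime
  odd : p ≠ 2
  pgrp : IsPGroup p G
  conj : ∀ d ∈ D, ∀ g : G, g⁻¹ * d * g ∈ D
  pow : ∀ d ∈ D, d ^ p = 1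
  fin : ∀ d ∈ D, ∀ e ∈ D, ((closure ({d, e} : Set G) : Subgroup G) : Set G).Finite
  bnd : ∀ d ∈ D, (D ∩ {e | Commute d e}).encard ≤ k

/-- Commutative subgroup. -/
def Comm (A : Subgroup G) : Prop := ∀ α ∈ A, ∀ β ∈ A, Commute α β

/-- `p`-divisible subgroup. -/
def IsDiv (p : ℕ) (A : Subgroup G) : Prop := ∀ α ∈ A, ∃ β ∈ A, β ^ p = α

/-- Elements of `A` killed by `q`. -/
def Om (q : ℕ) (A : Subgroup G) : Set G := {α | α ∈ A ∧ α ^ q = 1}

/-- Divisible abelian subgroup of finite rank. -/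
structure FR (p : ℕ) (A : Subgroup G) : Prop where
  comm : Comm A
  div : IsDiv p A
  fin : (Om p A).Finite

/-- A tower at `d`: an abelian `d`-invariant subgroup on which `rho d` is onto. -/
structure Tower (d : G) (A : Subgroup G) : Prop where
  comm : Comm A
  norm : d ∈ Nz A
  surj : ∀ α ∈ A, ∃ β ∈ A, rho d β = α

/-- The subgroup generated by `rho d '' A`. -/
def rhoIm (d : G) (A : Subgroup G) : Subgroup G := closure (rho d '' (A : Set G))

/-- `X` lies in finitely many left cosets of `A`. -/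
def FinMod (A : Subgroup G) (X : Set G) : Prop :=
  ∃ Φ : Set G, Φ.Finite ∧ ∀ x ∈ X, ∃ φ ∈ Φ, φ⁻¹ * x ∈ A

/-- The conjugates of `a` by the elements of `S`. -/
def orb (a : G) (S : Set G) : Set G := {x | ∃ g ∈ S, x = g⁻¹ * a * g}

/-- The `Γ`-class of `a` is finite modulo a finite rank divisible normal subgroup of `Γ`. -/
def CO (p : ℕ) (Γ : Subgroup G) (a : G) : Prop :=
  ∃ A : Subgroup G, FR p A ∧ A ≤ Γ ∧ Γ ≤ Nz A ∧ FinMod A (orb a Γ)

/-- The subgroup generated by the points of `D` normalising `K`. -/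
def Gam (D : Set G) (K : Subgroup G) : Subgroup G := closure (D ∩ (Nz K : Set G))

/-- The join of all towers at `y` inside `Γ`. -/
def MT (Γ : Subgroup G) (y : G) : Subgroup G := sSup {W | Tower y W ∧ W ≤ Γ}

/-- Perfect direction at `(d, K)`. -/
structure PD (d : G) (K : Subgroup G) (x : G) : Prop where
  cent : x ∈ Cz K
  notMem : rho d x ∉ K
  rho_mem : rho d (rho d x) ∈ K
  comm_mem : rho (rho d x) x ∈ K

/-- `K` extended by one element. -/
abbrev ext (K : Subgroup G) (w : G) : Subgroup G := K ⊔ zpowers w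

/-- Direction realised by a point of `D`. -/
def FType (D : Set G) (d : G) (K : Subgroup G) (w : G) : Prop :=
  ∃ f ∈ D, f ∈ Nz K ∧ f ∈ Nz (ext (ext K d) w) ∧ (d * w)⁻¹ * (f⁻¹ * d * f) ∈ K

/-- Direction realised inside the normal closure of `d`. -/
def CType (D : Set G) (d : G) (K : Subgroup G) (w : G) : Prop :=
  ∃ y ∈ closure (orb d (Gam D (ext K w)) ∩ (Nz K : Set G)), (d * w)⁻¹ * (y⁻¹ * d * y) ∈ K

/-- Directions to which the dichotomy applies. -/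
def OK (p : ℕ) (D : Set G) (d : G) (K : Subgroup G) (w : G) : Prop :=
  FType D d K w ∨ (CO p (Gam D (ext K w)) d ∧ CType D d K w)

/-- Depth data. -/
structure Dat (G : Type) [Group G] where
  m : ℕ
  n : ℕ
  a : ℕ → G
  s : ℕ → G
  P : ℕ → G
  S : ℕ → Subgroup G

/-- The reflection attached to the `l`-th piece of depth data. -/
def Dat.phi (t : Dat G) (l : ℕ) (e : G) : G := t.a l * e⁻¹ * t.a l * t.s l

/-- The point `e` carries the depth data `t` over the finite subgroup `K`. -/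
structure Good (p : ℕ) (D : Set G) (K : Subgroup G) (t : Dat G) (e : G) : Prop where
  fin : (K : Set G).Finite
  S_le : ∀ l < t.m, t.S l ≤ K
  a_mem : ∀ l < t.m, t.a l ∈ K
  a_not : ∀ l < t.m, t.a l ∉ t.S l
  a_pow : ∀ l < t.m, t.a l ^ p = 1
  s_mem : ∀ l < t.m, t.s l ∈ t.S l
  S_mono : ∀ l l', l < l' → l' < t.m → t.S l ≤ t.S l'
  a_mem' : ∀ l l', l < l' → l' < t.m → t.a l ∈ t.S l'
  P_mem : ∀ j ≤ t.n, t.P j ∈ K
  P_comm : ∀ i ≤ t.n, ∀ j ≤ t.n, Commute (t.P i) (t.P j)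
  P_inj : ∀ i ≤ t.n, ∀ j ≤ t.n, t.P i = t.P j → i = j
  mem : e ∈ D
  norm : e ∈ Nz K
  norm_S : ∀ l < t.m, e ∈ Nz (t.S l)
  pure : ∀ l < t.m, (t.a l)⁻¹ * e ∈ Cz (t.S l)
  rho_a : ∀ l < t.m, rho (t.a l) e ∈ t.S l
  phi_mem : ∀ l < t.m, t.phi l e ∈ D
  phi_pure : ∀ l < t.m, e⁻¹ * t.phi l e ∈ Cz (t.S l)
  phi_phi : ∀ l l', l < l' → l' < t.m → t.phi l (t.phi l' e) ∈ D
  P_D : ∀ i j, i < j → j ≤ t.n → e * ((t.P i)⁻¹ * t.P j) ∈ D
  P_e : ∀ j ≤ t.n, Commute e ((t.P j)⁻¹ * e * t.P j)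

/-- The inner induction statement. -/
def TS (p k n : ℕ) : Prop :=
  ∀ (G : Type) [Group G] (D : Set G), Hyp p k D → ∀ (K : Subgroup G) (t : Dat G) (e : G),
    Good p D K t e → n ≤ t.m + t.n → CO p (Gam D K) e

/-- The outer induction statement. -/
def Main (p k : ℕ) : Prop :=
  ∀ (G : Type) [Group G] (D : Set G), Hyp p k D → ∀ a ∈ D, CO p (closure D) a

/-- The outer induction hypothesis. -/
def Prev (p k : ℕ) : Prop := ∀ k' < k, Main p k'

/-- `g` has eventually constant conjugates under the family `e` along `r`. -/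
def EvC {I : Type} (r : Ultrafilter I) (e : I → G) (g : G) : Prop :=
  ∃ g', ∀ᶠ l in r, (e l)⁻¹ * g * e l = g'

/-- The family `e` avoids every left coset of `K` along `r`. -/
def NonC {I : Type} (r : Ultrafilter I) (e : I → G) (K : Subgroup G) : Prop :=
  ∀ g : G, ∀ᶠ l in r, g⁻¹ * e l ∉ K

/-- The elements whose conjugates under all powers of the family are eventually constant. -/
def TT {I : Type} (r : Ultrafilter I) (e : I → G) : Subgroup G where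
  carrier := {g | ∀ j : ℕ, EvC r (fun l => e l ^ j) g}
  one_mem' := fun j => ⟨1, by simp⟩
  mul_mem' := fun {a b} ha hb j => by
    obtain ⟨a', ha'⟩ := ha j
    obtain ⟨b', hb'⟩ := hb j
    refine ⟨a' * b', ?_⟩
    filter_upwards [ha', hb'] with l h1 h2
    rw [← h1, ← h2]; group
  inv_mem' := fun {a} ha j => by
    obtain ⟨a', ha'⟩ := ha j
    refine ⟨a'⁻¹, ?_⟩
    filter_upwards [ha'] with l h1
    rw [← h1]; group

/-- No nontrivial subgroup centralising `K` is a tower at most members of the family. -/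
def NoCT {I : Type} (r : Ultrafilter I) (e : I → G) (K : Subgroup G) : Prop :=
  ∀ B : Subgroup G, B ≤ Cz K → (∀ᶠ l in r, Tower (e l) B) → B = ⊥

/-- The conclusion of the dichotomy, as a property of the point `d` over all finite
`d`-invariant subgroups containing `K₀` and of all its conjugates by `Cz K₀`. -/
def Dich (p : ℕ) (D : Set G) (K₀ : Subgroup G) (a : G) : Prop :=
  ∀ g ∈ Cz K₀, ∀ K : Subgroup G, K₀ ≤ K → (K : Set G).Finite → g⁻¹ * a * g ∈ Nz K →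
    ∀ (I : Type) (r : Ultrafilter I) (x : I → G),
      (∀ᶠ l in r, PD (g⁻¹ * a * g) K (x l) ∧ OK p D (g⁻¹ * a * g) K (rho (g⁻¹ * a * g) (x l))) →
      NonC r (fun l => rho (g⁻¹ * a * g) (x l)) K →
      ¬ NoCT r (fun l => (x l)⁻¹ * (g⁻¹ * a * g) * x l) (ext K (g⁻¹ * a * g))

/-- The consequence of the inner induction hypothesis for single perfect directions. -/
def MTwo (p : ℕ) (D : Set G) (K₀ : Subgroup G) (a : G) : Prop :=
  ∀ g ∈ Cz K₀, ∀ K : Subgroup G, K₀ ≤ K → (K : Set G).Finite → g⁻¹ * a * g ∈ Nz K →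
    ∀ x, PD (g⁻¹ * a * g) K x →
      CO p (Gam D (ext K (g⁻¹ * a * g))) (x⁻¹ * (g⁻¹ * a * g) * x)

/-- The good starting subgroup. -/
def SZero (p : ℕ) (D : Set G) (K₀ : Subgroup G) (a : G) : Prop :=
  ∀ K : Subgroup G, K₀ ≤ K → (K : Set G).Finite → a ∈ Nz K → ∀ x, PD a K x →
    ¬ CO p (Gam D (ext K (rho a x))) a →
      (∀ B, Tower (x⁻¹ * a * x) B → B ≤ Cz (ext K a) → B = ⊥) ∧ FType D a K (rho a x)

/-- Uniqueness of towers at `y` over `K`. -/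
structure Nice (p : ℕ) (K : Subgroup G) (y : G) : Prop where
  uniq : ∀ W W', Tower y W → Tower y W' → W ≤ Cz K → W' ≤ Cz K → W ≤ Cz W'
  cent : ∀ B W, Comm B → IsDiv p B → B ≤ Cz K → y ∈ Cz B → Tower y W → W ≤ Cz K → B ≤ Cz W

/-! ### Elementary API -/

theorem mem_Cz {A : Subgroup G} {g : G} : g ∈ Cz A ↔ ∀ α ∈ A, Commute α g :=
  mem_centralizer_iff

theorem mem_Nz {A : Subgroup G} {g : G} : g ∈ Nz A ↔ ∀ h, h ∈ A ↔ g⁻¹ * h * g ∈ A :=
  mem_normalizer_iff''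

theorem Nz_conj {A : Subgroup G} {g h : G} (hg : g ∈ Nz A) (hh : h ∈ A) : g⁻¹ * h * g ∈ A :=
  (mem_Nz.1 hg h).1 hh

theorem Nz_conj' {A : Subgroup G} {g h : G} (hg : g ∈ Nz A) (hh : h ∈ A) : g * h * g⁻¹ ∈ A := by
  simpa using Nz_conj (inv_mem hg) hh

theorem le_Cz_comm {A B : Subgroup G} : A ≤ Cz B ↔ B ≤ Cz A := le_centralizer_iff

theorem Cz_le_Nz (A : Subgroup G) : Cz A ≤ Nz A := centralizer_le_normalizer _

theorem le_Nz (A : Subgroup G) : A ≤ Nz A := le_normalizer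

theorem Cz_anti {A B : Subgroup G} (h : A ≤ B) : Cz B ≤ Cz A := centralizer_le h

theorem Comm.le_Cz {A : Subgroup G} (h : Comm A) : A ≤ Cz A :=
  fun g hg => mem_Cz.2 fun α hα => h α hα g hg

theorem comm_of_le_Cz {A : Subgroup G} (h : A ≤ Cz A) : Comm A :=
  fun α hα _ hβ => mem_Cz.1 (h hβ) α hα

theorem Comm.mono {A B : Subgroup G} (h : Comm B) (hle : A ≤ B) : Comm A :=
  fun α hα β hβ => h α (hle hα) β (hle hβ)

@[simp] theorem mem_cjs {A : Subgroup G} {g x : G} : x ∈ cjs A g ↔ g * x * g⁻¹ ∈ A := Iff.rfl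

theorem conj_mem_cjs {A : Subgroup G} {g x : G} (h : x ∈ A) : g⁻¹ * x * g ∈ cjs A g := by
  simpa [mul_assoc] using h

theorem mul_rho (d y : G) : d * rho d y = y⁻¹ * d * y := by simp [rho]

theorem rho_eq_one_iff {d y : G} : rho d y = 1 ↔ Commute d y := by
  unfold rho
  rw [inv_mul_eq_one, mul_assoc, eq_inv_mul_iff_mul_eq]
  exact ⟨fun h => h.symm, fun h => h.symm⟩

theorem commute_iff_conj {d y : G} : Commute d y ↔ y⁻¹ * d * y = d := by
  rw [← rho_eq_one_iff, rho, inv_mul_eq_one, eq_comm]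

theorem mem_orb {a : G} {S : Set G} {x : G} : x ∈ orb a S ↔ ∃ g ∈ S, x = g⁻¹ * a * g := Iff.rfl

/-- In a torsion group a one-sided normalising condition suffices. -/
theorem mem_Nz_of_conj {p : ℕ} (hp : p.Prime) (hG : IsPGroup p G) {A : Subgroup G} {g : G}
    (h : ∀ α ∈ A, g⁻¹ * α * g ∈ A) : g ∈ Nz A := by
  have key : ∀ n : ℕ, ∀ α ∈ A, (g ^ n)⁻¹ * α * g ^ n ∈ A := by
    intro n
    induction n with
    | zero => simp
    | succ n ih =>
      intro α hα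
      have := h _ (ih α hα)
      convert this using 1
      rw [pow_succ]; group
  refine mem_Nz.2 fun α => ⟨h α, fun hα => ?_⟩
  obtain ⟨s, hs⟩ := hG g
  have h1 : g ^ (p ^ s - 1) = g⁻¹ := by
    rw [eq_inv_iff_mul_eq_one, ← pow_succ, Nat.sub_add_cancel (Nat.one_le_pow _ _ hp.pos), hs]
  have := key (p ^ s - 1) _ hα
  rw [h1] at this
  simpa [mul_assoc] using this

/-- Products of a subgroup and a subgroup normalising it. -/
theorem mem_sup_Nz {A B : Subgroup G} (h : B ≤ Nz A) {x : G} :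
    x ∈ A ⊔ B ↔ ∃ α ∈ A, ∃ β ∈ B, x = α * β := by
  rw [← SetLike.mem_coe, coe_mul_of_right_le_normalizer_left A B h]
  exact ⟨fun ⟨α, hα, β, hβ, e⟩ => ⟨α, hα, β, hβ, e.symm⟩,
    fun ⟨α, hα, β, hβ, e⟩ => ⟨α, hα, β, hβ, e.symm⟩⟩

theorem mem_sup_Nz' {A B : Subgroup G} (h : A ≤ Nz B) {x : G} :
    x ∈ A ⊔ B ↔ ∃ α ∈ A, ∃ β ∈ B, x = α * β := by
  rw [← SetLike.mem_coe, coe_mul_of_left_le_normalizer_right A B h]
  exact ⟨fun ⟨α, hα, β, hβ, e⟩ => ⟨α, hα, β, hβ, e.symm⟩,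
    fun ⟨α, hα, β, hβ, e⟩ => ⟨α, hα, β, hβ, e.symm⟩⟩

theorem Nz_sup {A B : Subgroup G} {g : G} (ha : g ∈ Nz A) (hb : g ∈ Nz B) : g ∈ Nz (A ⊔ B) :=
  normalizer_inf_normalizer_le_normalizer_sup A B ⟨ha, hb⟩

theorem Nz_inf {A B : Subgroup G} {g : G} (ha : g ∈ Nz A) (hb : g ∈ Nz B) : g ∈ Nz (A ⊓ B) :=
  mem_Nz.2 fun h => by simp only [mem_inf, mem_Nz.1 ha h, mem_Nz.1 hb h]

theorem Nz_Cz {A : Subgroup G} {g : G} (ha : g ∈ Nz A) : g ∈ Nz (Cz A) := by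
  have key : ∀ g ∈ Nz A, ∀ h ∈ Cz A, g⁻¹ * h * g ∈ Cz A := fun g hg h hh =>
    mem_Cz.2 fun α hα => by
      have := mem_Cz.1 hh _ (Nz_conj' hg hα)
      have e : α * (g⁻¹ * h * g) = g⁻¹ * (g * α * g⁻¹ * h) * g := by group
      change α * (g⁻¹ * h * g) = g⁻¹ * h * g * α
      rw [e, this]; group
  refine mem_Nz.2 fun h => ⟨key g ha h, fun hh => ?_⟩
  simpa [mul_assoc] using key g⁻¹ (inv_mem ha) _ hh

theorem Cz_sup {A B : Subgroup G} {g : G} (ha : g ∈ Cz A) (hb : g ∈ Cz B) : g ∈ Cz (A ⊔ B) := by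
  have : A ⊔ B ≤ Cz (zpowers g) :=
    sup_le (le_Cz_comm.1 (zpowers_le.2 ha)) (le_Cz_comm.1 (zpowers_le.2 hb))
  exact le_Cz_comm.1 this (mem_zpowers g)

theorem mem_Cz_zpowers {g h : G} : g ∈ Cz (zpowers h) ↔ Commute h g :=
  ⟨fun hg => mem_Cz.1 hg h (mem_zpowers h), fun hc => mem_Cz.2 fun α hα => by
    obtain ⟨n, rfl⟩ := hα
    exact hc.zpow_left n⟩

theorem mem_Cz_ext {K : Subgroup G} {w g : G} : g ∈ Cz (ext K w) ↔ g ∈ Cz K ∧ Commute w g :=
  ⟨fun h => ⟨Cz_anti le_sup_left h, mem_Cz_zpowers.1 (Cz_anti le_sup_right h)⟩,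
    fun h => Cz_sup h.1 (mem_Cz_zpowers.2 h.2)⟩

theorem rho_mem_of_Nz {A : Subgroup G} {d y : G} (hd : d ∈ Nz A) (hy : y ∈ A) : rho d y ∈ A := by
  have := A.mul_mem (Nz_conj hd (A.inv_mem hy)) hy
  simpa [rho, mul_assoc] using this

theorem rho_mem_of_Nz' {A : Subgroup G} {d y : G} (hy : y ∈ Nz A) (hd : d ∈ A) : rho d y ∈ A :=
  A.mul_mem (A.inv_mem hd) (Nz_conj hy hd)

theorem Gam_le_Nz (D : Set G) (K : Subgroup G) : Gam D K ≤ Nz K :=
  (closure_le _).2 Set.inter_subset_right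

theorem mem_Gam {D : Set G} {K : Subgroup G} {d : G} (hd : d ∈ D) (hn : d ∈ Nz K) :
    d ∈ Gam D K := subset_closure ⟨hd, hn⟩

theorem FinMod.mono {A : Subgroup G} {X Y : Set G} (h : FinMod A Y) (hXY : X ⊆ Y) :
    FinMod A X := by
  obtain ⟨Φ, hΦ, h⟩ := h
  exact ⟨Φ, hΦ, fun x hx => h x (hXY hx)⟩

theorem FinMod.of_le {A B : Subgroup G} {X : Set G} (h : FinMod A X) (hAB : A ≤ B) :
    FinMod B X := by
  obtain ⟨Φ, hΦ, h⟩ := h
  exact ⟨Φ, hΦ, fun x hx => (h x hx).imp fun φ hφ => ⟨hφ.1, hAB hφ.2⟩⟩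

theorem finMod_bot {X : Set G} : FinMod ⊥ X ↔ X.Finite := by
  refine ⟨fun ⟨Φ, hΦ, h⟩ => hΦ.subset fun x hx => ?_, fun h => ⟨X, h, fun x hx => ⟨x, hx, by simp⟩⟩⟩
  obtain ⟨φ, hφ, h1⟩ := h x hx
  rw [Subgroup.mem_bot, inv_mul_eq_one] at h1
  exact h1 ▸ hφ

theorem FinMod.finite {A : Subgroup G} {X : Set G} (h : FinMod A X) (hA : (A : Set G).Finite) :
    X.Finite := by
  obtain ⟨Φ, hΦ, h⟩ := h
  refine (hΦ.mul hA).subset fun x hx => ?_
  obtain ⟨φ, hφ, h1⟩ := h x hx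
  exact ⟨φ, hφ, _, h1, by simp⟩

/-- Representatives can be chosen inside the set. -/
theorem FinMod.reps {A : Subgroup G} {X : Set G} (h : FinMod A X) :
    ∃ Φ : Set G, Φ.Finite ∧ Φ ⊆ X ∧ ∀ x ∈ X, ∃ φ ∈ Φ, φ⁻¹ * x ∈ A := by
  classical
  obtain ⟨Φ, hΦ, h⟩ := h
  let f : G → G := fun φ => if hx : ∃ x ∈ X, φ⁻¹ * x ∈ A then hx.choose else 1
  refine ⟨f '' {φ ∈ Φ | ∃ x ∈ X, φ⁻¹ * x ∈ A}, (hΦ.subset fun _ h => h.1).image f, ?_, ?_⟩
  · rintro _ ⟨φ, hφ, rfl⟩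
    simp only [f, dif_pos hφ.2]
    exact hφ.2.choose_spec.1
  · intro x hx
    obtain ⟨φ, hφ, h1⟩ := h x hx
    have h2 : ∃ x ∈ X, φ⁻¹ * x ∈ A := ⟨x, hx, h1⟩
    refine ⟨f φ, ⟨φ, ⟨hφ, h2⟩, rfl⟩, ?_⟩
    simp only [f, dif_pos h2]
    have := A.mul_mem (A.inv_mem h2.choose_spec.2) h1
    simpa [mul_assoc] using this

theorem ultra_fin {I Y : Type} (q : Ultrafilter I) {s : Set Y} (hs : s.Finite) (f : I → Y)
    (hf : ∀ᶠ x in q, f x ∈ s) : ∃ y ∈ s, ∀ᶠ x in q, f x = y := by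
  have : ∀ᶠ x in q, ∃ y ∈ s, f x = y := hf.mono fun x hx => ⟨_, hx, rfl⟩
  exact (Ultrafilter.eventually_exists_mem_iff hs).1 this

theorem ultra_finMod {I : Type} (q : Ultrafilter I) {A : Subgroup G} {X : Set G} (h : FinMod A X)
    (f : I → G) (hf : ∀ᶠ x in q, f x ∈ X) : ∃ φ, ∀ᶠ x in q, φ⁻¹ * f x ∈ A := by
  obtain ⟨Φ, hΦ, h⟩ := h
  obtain ⟨φ, -, h1⟩ := (Ultrafilter.eventually_exists_mem_iff hΦ).1 (hf.mono fun x hx => h _ hx)
  exact ⟨φ, h1⟩

theorem Hyp.finite_comm {p k : ℕ} {D : Set G} (H : Hyp p k D) {d : G} (hd : d ∈ D) :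
    (D ∩ {e | Commute d e}).Finite :=
  Set.finite_of_encard_le_coe (H.bnd d hd)

end Pool.Agent.Lib.MP_7d7b85_al
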