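import Pool.Agent.Lib.MP_7d7b85_al.COl

namespace Pool.Agent.Lib.MP_7d7b85_al

open Subgroup Filter

variable {G : Type} [Group G] {p k : ℕ} {D : Set G}

/-- Transport of depth data. -/
def Dat.map {G' : Type} [Group G'] (f : G →* G') (t : Dat G) : Dat G' where
  m := t.m
  n := t.n
  a := fun l => f (t.a l)
  s := fun l => f (t.s l)
  P := fun l => f (t.P l)
  S := fun l => (t.S l).map f

omit [Group G] in
/-- Counting through a colouring whose classes inject into the set of colours. -/
theorem depth_count {F : Set G} (hF : F.encard ≤ k) (s : Finset ℕ) (c : ℕ → G)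
    (g : ℕ → ℕ → G) (hc : ∀ l ∈ s, c l ∈ F)
    (hg : ∀ l ∈ s, ∀ l' ∈ s, l ≤ l' → c l = c l' → g l l' ∈ F)
    (hi : ∀ l, ∀ l' ∈ s, ∀ l'' ∈ s, g l l' = g l l'' → l' = l'') : s.card ≤ k * k := by
  classical
  have hfin : F.Finite := Set.finite_of_encard_le_coe hF
  have hcard : hfin.toFinset.card ≤ k := by
    rw [hfin.encard_eq_coe_toFinset_card] at hF
    exact_mod_cast hF
  have h1 := Finset.card_le_mul_card_image_of_maps_to (f := c) (s := s) (t := hfin.toFinset)
    (fun a ha => hfin.mem_toFinset.2 (hc a ha)) k (fun b _ => by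
      rcases (s.filter fun a => c a = b).eq_empty_or_nonempty with h0 | h0
      · rw [h0]; exact Nat.zero_le _
      · have hm := (s.filter fun a => c a = b).min'_mem h0
        refine le_trans (Finset.card_le_card_of_injOn
          (g ((s.filter fun a => c a = b).min' h0)) (t := hfin.toFinset) ?_ ?_) hcard
        · intro a ha
          have ha' := Finset.mem_filter.1 (Finset.mem_coe.1 ha)
          have hm' := Finset.mem_filter.1 hm
          exact Finset.mem_coe.2 (hfin.mem_toFinset.2 (hg _ hm'.1 a ha'.1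
            (Finset.min'_le _ a (Finset.mem_coe.1 ha)) (hm'.2.trans ha'.2.symm)))
        · intro a ha a' ha' e
          exact hi _ a (Finset.mem_filter.1 (Finset.mem_coe.1 ha)).1 a'
            (Finset.mem_filter.1 (Finset.mem_coe.1 ha')).1 e)
  exact h1.trans (Nat.mul_le_mul_left k hcard)

theorem depth_comm_of_conj {e u v : G} (h : u⁻¹ * e * u = v⁻¹ * e * v) :
    Commute e (u * v⁻¹) := by
  change e * (u * v⁻¹) = u * v⁻¹ * e
  calc e * (u * v⁻¹) = u * (u⁻¹ * e * u) * v⁻¹ := by group
    _ = u * (v⁻¹ * e * v) * v⁻¹ := by rw [h]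
    _ = u * v⁻¹ * e := by group

theorem depth_mem_of_sq (hp : p.Prime) (hodd : p ≠ 2) {S : Subgroup G} {a : G} (ha : a ^ p = 1)
    (h : a * a ∈ S) : a ∈ S := by
  obtain ⟨q, hq⟩ := hp.odd_of_ne_two hodd
  have h1 : (a * a) ^ q * a = 1 := by
    rw [← ha, hq, pow_succ, pow_mul, pow_two]
  have h2 : a = ((a * a) ^ q)⁻¹ := eq_inv_of_mul_eq_one_right h1
  rw [h2]
  exact S.inv_mem (S.pow_mem h q)

theorem Good.depth_a_Nz {K : Subgroup G} {t : Dat G} {e : G} (h : Good p D K t e) {l : ℕ}
    (hl : l < t.m) : t.a l ∈ Nz (t.S l) := by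
  have := (Nz (t.S l)).mul_mem (h.norm_S l hl) ((Nz (t.S l)).inv_mem (Cz_le_Nz _ (h.pure l hl)))
  simpa [mul_assoc] using this

/-- The displacement `u_l` of the `l`-th reflection. -/
def Dat.depthU (t : Dat G) (e : G) (l : ℕ) : G := e⁻¹ * t.phi l e

theorem Good.depth_rho_u {K : Subgroup G} {t : Dat G} {e : G} (h : Good p D K t e) {l : ℕ}
    (hl : l < t.m) : rho e (t.depthU e l) ∈ t.S l := by
  have ha := h.depth_a_Nz hl
  have he := h.norm_S l hl
  have hr := h.rho_a l hl
  have hs := h.s_mem l hl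
  simp only [Dat.depthU, Dat.phi]
  generalize t.a l = a at ha hr ⊢
  generalize t.s l = s at hs ⊢
  generalize t.S l = S at ha he hr hs ⊢
  have hb : e⁻¹ * a ∈ Nz S := (Nz S).mul_mem ((Nz S).inv_mem he) ha
  have h1 : rho e (e⁻¹ * a) ∈ S := by
    have e1 : rho e (e⁻¹ * a) = (rho a e)⁻¹ := by simp only [rho]; group
    rw [e1]; exact S.inv_mem hr
  have e2 : rho e (e⁻¹ * (a * e⁻¹ * a * s)) = (e⁻¹ * s⁻¹ * e) * (rho e (e⁻¹ * a) *
      ((e⁻¹ * a)⁻¹ * rho e (e⁻¹ * a) * (e⁻¹ * a))) * s := by simp only [rho]; group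
  rw [e2]
  exact S.mul_mem (S.mul_mem (Nz_conj he (S.inv_mem hs)) (S.mul_mem h1 (Nz_conj hb h1))) hs

theorem Good.depth_u_D (H : Hyp p k D) {K : Subgroup G} {t : Dat G} {e : G}
    (h : Good p D K t e) {l l' : ℕ} (hl : l ≤ l') (hl' : l' < t.m) :
    e * (t.depthU e l * (t.depthU e l')⁻¹) ∈ D := by
  rcases hl.eq_or_lt with rfl | hl
  · simpa using h.mem
  have h1 := H.conj _ (h.phi_phi l l' hl hl') (t.depthU e l')⁻¹
  have h2 : Commute (t.a l) (t.depthU e l') :=
    mem_Cz.1 (h.phi_pure l' hl') _ (h.a_mem' l l' hl hl')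
  have h3 : t.phi l' e = e * t.depthU e l' := by simp [Dat.depthU]
  rw [h3] at h1
  have h4 : (t.depthU e l')⁻¹⁻¹ * t.phi l (e * t.depthU e l') * (t.depthU e l')⁻¹ =
      e * (t.depthU e l * (t.depthU e l')⁻¹) := by
    generalize t.depthU e l' = u at h2
    simp only [Dat.depthU, Dat.phi]
    calc u⁻¹⁻¹ * (t.a l * (e * u)⁻¹ * t.a l * t.s l) * u⁻¹
        = (u * t.a l) * u⁻¹ * e⁻¹ * t.a l * t.s l * u⁻¹ := by group
      _ = (t.a l * u) * u⁻¹ * e⁻¹ * t.a l * t.s l * u⁻¹ := by rw [h2.eq]
      _ = _ := by group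
  rwa [h4] at h1

theorem Good.depth_u_inj (H : Hyp p k D) {K : Subgroup G} {t : Dat G} {e : G}
    (h : Good p D K t e) {l l' : ℕ} (hl : l < l') (hl' : l' < t.m) :
    t.depthU e l ≠ t.depthU e l' := by
  intro hu
  apply h.a_not l' hl'
  refine depth_mem_of_sq H.prime H.odd (h.a_pow l' hl') ?_
  have ha := h.depth_a_Nz hl'
  have he := h.norm_S l' hl'
  have hr := h.rho_a l' hl'
  have hs := h.s_mem l' hl'
  have hb := h.a_mem' l l' hl hl'
  have hs' := h.S_mono l l' hl hl' (h.s_mem l (hl.trans hl'))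
  simp only [Dat.depthU, Dat.phi, mul_right_inj] at hu
  generalize t.a l' = a at ha hr hu ⊢
  generalize t.s l' = s at hs hu
  generalize t.a l = b at hb hu
  generalize t.s l = s' at hs' hu
  generalize t.S l' = S at ha he hr hs hb hs' ⊢
  have h1 : a * e⁻¹ * a * e ∈ S := by
    have e1 : a * e⁻¹ * a * e = b * (e⁻¹ * (b * s' * s⁻¹) * e) := by
      calc a * e⁻¹ * a * e = (a * e⁻¹ * a * s) * s⁻¹ * e := by group
        _ = (b * e⁻¹ * b * s') * s⁻¹ * e := by rw [hu]
        _ = _ := by group
    rw [e1]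
    exact S.mul_mem hb (Nz_conj he (S.mul_mem (S.mul_mem hb hs') (S.inv_mem hs)))
  have e2 : a * a = a * e⁻¹ * a * e * (rho a e)⁻¹ := by simp only [rho]; group
  rw [e2]
  exact S.mul_mem h1 (S.inv_mem hr)

theorem Good.depth_exists_v (H : Hyp p k D) {K : Subgroup G} {t : Dat G} {e : G}
    (h : Good p D K t e) {l : ℕ} (hl : l < t.m) (hn : rho e (rho e (t.depthU e l)) ≠ 1) :
    ∃ v ∈ Cz (t.S l), rho e v ∈ t.S l ∧ rho e (rho e v) ≠ 1 ∧ rho e (rho e (rho e v)) = 1 := by
  obtain ⟨j, h1, h2⟩ := exists_last H h.mem ⊥ (x := rho e (rho e (t.depthU e l)))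
    (by rwa [Subgroup.mem_bot])
  rw [Subgroup.mem_bot] at h1 h2
  have hc : ∀ x, (rho e)^[j] (rho e x) = rho e ((rho e)^[j] x) := fun x => by
    rw [← Function.iterate_succ_apply, Function.iterate_succ_apply']
  refine ⟨(rho e)^[j] (t.depthU e l), rho_iter_mem (Nz_Cz (h.norm_S l hl)) (h.phi_pure l hl) j,
    ?_, ?_, ?_⟩
  · rw [← hc]
    exact rho_iter_mem (h.norm_S l hl) (h.depth_rho_u hl) j
  · rwa [hc, hc] at h1
  · rwa [hc, hc] at h2

theorem Good.n_le (H : Hyp p k D) {K : Subgroup G} {t : Dat G} {e : G} (h : Good p D K t e) :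
    t.n ≤ k * k := by
  have := depth_count (H.bnd e h.mem) (Finset.range (t.n + 1))
    (fun j => (t.P j)⁻¹ * e * t.P j) (fun i j => e * ((t.P i)⁻¹ * t.P j))
    (fun l hl => ⟨H.conj _ h.mem _, h.P_e l (Nat.lt_succ_iff.1 (Finset.mem_range.1 hl))⟩)
    (fun l hl l' hl' hle hc => by
      have hl1 := Nat.lt_succ_iff.1 (Finset.mem_range.1 hl)
      have hl2 := Nat.lt_succ_iff.1 (Finset.mem_range.1 hl')
      rcases hle.eq_or_lt with rfl | hlt
      · exact ⟨by simpa using h.mem, by simp⟩
      · refine ⟨h.P_D l l' hlt hl2, (Commute.refl e).mul_right ?_⟩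
        have h1 := depth_comm_of_conj hc.symm
        rwa [(h.P_comm l' hl2 l hl1).inv_right.eq] at h1)
    (fun l l' hl' l'' hl'' hc => h.P_inj l' (Nat.lt_succ_iff.1 (Finset.mem_range.1 hl')) l''
      (Nat.lt_succ_iff.1 (Finset.mem_range.1 hl'')) (by simpa using hc))
  rw [Finset.card_range] at this
  omega

theorem Good.m_le (H : Hyp p k D) {K : Subgroup G} {t : Dat G} {e : G} (h : Good p D K t e) :
    t.m ≤ 2 * k * (k + 1) := by
  classical
  let Q : ℕ → Prop := fun l => rho e (rho e (t.depthU e l)) = 1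
  have hA := depth_count (H.bnd e h.mem) ((Finset.range t.m).filter Q)
    (fun l => (t.depthU e l)⁻¹ * e * t.depthU e l)
    (fun l l' => e * (t.depthU e l * (t.depthU e l')⁻¹))
    (fun l hl => ⟨H.conj _ h.mem _, by
      have h1 : Commute e (rho e (t.depthU e l)) := rho_eq_one_iff.1 (Finset.mem_filter.1 hl).2
      rw [← mul_rho]
      exact (Commute.refl e).mul_right h1⟩)
    (fun l _ l' hl' hle hc => ⟨h.depth_u_D H hle
      (Finset.mem_range.1 (Finset.mem_filter.1 hl').1),
      (Commute.refl e).mul_right (depth_comm_of_conj hc)⟩)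
    (fun l l' hl' l'' hl'' hc => by
      have h1 := Finset.mem_range.1 (Finset.mem_filter.1 hl').1
      have h2 := Finset.mem_range.1 (Finset.mem_filter.1 hl'').1
      have h3 : t.depthU e l' = t.depthU e l'' := by simpa using hc
      rcases lt_trichotomy l' l'' with hlt | hlt | hlt
      · exact (h.depth_u_inj H hlt h2 h3).elim
      · exact hlt
      · exact (h.depth_u_inj H hlt h1 h3.symm).elim)
  have hex : ∀ l, ∃ v, l < t.m → ¬ Q l → v ∈ Cz (t.S l) ∧ rho e v ∈ t.S l ∧
      rho e (rho e v) ≠ 1 ∧ rho e (rho e (rho e v)) = 1 := fun l => by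
    by_cases hl : l < t.m ∧ ¬ Q l
    · obtain ⟨v, hv⟩ := h.depth_exists_v H hl.1 hl.2
      exact ⟨v, fun _ _ => hv⟩
    · exact ⟨1, fun h1 h2 => (hl ⟨h1, h2⟩).elim⟩
  choose v hv using hex
  have hv' : ∀ l ∈ (Finset.range t.m).filter (fun l => ¬ Q l), l < t.m ∧ v l ∈ Cz (t.S l) ∧
      rho e (v l) ∈ t.S l ∧ rho e (rho e (v l)) ≠ 1 ∧ rho e (rho e (rho e (v l))) = 1 :=
    fun l hl => ⟨Finset.mem_range.1 (Finset.mem_filter.1 hl).1,
      hv l (Finset.mem_range.1 (Finset.mem_filter.1 hl).1) (Finset.mem_filter.1 hl).2⟩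
  have hne : ∀ l ∈ (Finset.range t.m).filter (fun l => ¬ Q l),
      ∀ l' ∈ (Finset.range t.m).filter (fun l => ¬ Q l), l < l' →
      rho e (v l) ≠ rho e (v l') := fun l hl l' hl' hlt hc => by
    obtain ⟨h1, -, h3, h4, -⟩ := hv' l hl
    obtain ⟨h1', h2', -, -, -⟩ := hv' l' hl'
    have h5 : Commute (t.a l) (rho e (v l')) :=
      mem_Cz.1 (rho_mem_of_Nz (Nz_Cz (h.norm_S l' h1')) h2') _ (h.a_mem' l l' hlt h1')
    rw [← hc] at h5
    have h6 : Commute (rho e (v l)) ((t.a l)⁻¹ * e) := mem_Cz.1 (h.pure l h1) _ h3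
    have h7 := h5.symm.mul_right h6
    rw [mul_inv_cancel_left] at h7
    exact h4 (rho_eq_one_iff.2 h7.symm)
  have hB := depth_count (H.bnd e h.mem) ((Finset.range t.m).filter fun l => ¬ Q l)
    (fun l => (rho e (v l))⁻¹ * e * rho e (v l))
    (fun l l' => e * ((rho e (v l'))⁻¹ * rho e (v l)))
    (fun l hl => ⟨H.conj _ h.mem _, by
      have h1 : Commute e (rho e (rho e (v l))) := rho_eq_one_iff.1 (hv' l hl).2.2.2.2
      rw [← mul_rho]
      exact (Commute.refl e).mul_right h1⟩)
    (fun l hl l' hl' hle hc => by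
      obtain ⟨h1, -, h3, -, -⟩ := hv' l hl
      obtain ⟨h1', h2', h3', -, -⟩ := hv' l' hl'
      have h4 : rho e (v l) ∈ t.S l' := by
        rcases hle.eq_or_lt with rfl | hlt
        · exact h3
        · exact h.S_mono l l' hlt h1' h3
      have h5 : Commute (rho e (v l)) (rho e (v l')) :=
        mem_Cz.1 (rho_mem_of_Nz (Nz_Cz (h.norm_S l' h1')) h2') _ h4
      have h6 : Commute (rho e (v l)) (v l') := mem_Cz.1 h2' _ h4
      have h7 : Commute (rho e (v l')) (v l') := mem_Cz.1 h2' _ h3'
      refine ⟨?_, (Commute.refl e).mul_right ?_⟩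
      · have h8 := H.conj _ (H.conj _ h.mem (v l)) (v l')⁻¹
        have h9 : (v l')⁻¹⁻¹ * ((v l)⁻¹ * e * v l) * (v l')⁻¹ =
            e * ((rho e (v l'))⁻¹ * rho e (v l)) := by
          have h10 : e * rho e (v l') = (v l')⁻¹ * e * v l' := mul_rho _ _
          rw [← mul_rho e (v l)]
          generalize rho e (v l) = τ at h6 ⊢
          generalize rho e (v l') = τ' at h7 h10 ⊢
          generalize v l' = w at h6 h7 h10 ⊢
          have h11 : w * e * w⁻¹ = e * τ'⁻¹ := by
            calc w * e * w⁻¹ = w * (e * τ') * (w * τ')⁻¹ := by group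
              _ = w * (w⁻¹ * e * w) * (τ' * w)⁻¹ := by rw [h10, h7.eq]
              _ = e * τ'⁻¹ := by group
          calc w⁻¹⁻¹ * (e * τ) * w⁻¹ = (w * e * w⁻¹) * (w * τ) * w⁻¹ := by group
            _ = (e * τ'⁻¹) * (τ * w) * w⁻¹ := by rw [h11, h6.eq]
            _ = _ := by group
        rwa [h9] at h8
      · have h8 := depth_comm_of_conj hc
        rwa [h5.inv_right.eq] at h8)
    (fun l l' hl' l'' hl'' hc => by
      have h3 : rho e (v l') = rho e (v l'') := by simpa using hc
      rcases lt_trichotomy l' l'' with hlt | hlt | hlt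
      · exact (hne l' hl' l'' hl'' hlt h3).elim
      · exact hlt
      · exact (hne l'' hl'' l' hl' hlt h3.symm).elim)
  have hsum := Finset.card_filter_add_card_filter_not (s := Finset.range t.m) Q
  rw [Finset.card_range] at hsum
  nlinarith

theorem exists_good_bot (H : Hyp p k D) {a : G} (ha : a ∈ D) :
    ∃ t : Dat G, Good p D ⊥ t a := by
  refine ⟨⟨0, 0, fun _ => 1, fun _ => 1, fun _ => 1, fun _ => ⊥⟩, ?_⟩
  exact
    { fin := by simp
      S_le := fun l hl => absurd hl (Nat.not_lt_zero _)
      a_mem := fun l hl => absurd hl (Nat.not_lt_zero _)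
      a_not := fun l hl => absurd hl (Nat.not_lt_zero _)
      a_pow := fun l hl => absurd hl (Nat.not_lt_zero _)
      s_mem := fun l hl => absurd hl (Nat.not_lt_zero _)
      S_mono := fun l l' _ hl => absurd hl (Nat.not_lt_zero _)
      a_mem' := fun l l' _ hl => absurd hl (Nat.not_lt_zero _)
      P_mem := fun j _ => one_mem _
      P_comm := fun i _ j _ => Commute.refl _
      P_inj := fun i hi j hj _ => (Nat.le_zero.1 hi).trans (Nat.le_zero.1 hj).symm
      mem := ha
      norm := mem_Nz.2 fun h => by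
        simp only [Subgroup.mem_bot, mul_assoc, inv_mul_eq_one]
        constructor
        · rintro rfl; simp
        · intro h1; simpa using h1
      norm_S := fun l hl => absurd hl (Nat.not_lt_zero _)
      pure := fun l hl => absurd hl (Nat.not_lt_zero _)
      rho_a := fun l hl => absurd hl (Nat.not_lt_zero _)
      phi_mem := fun l hl => absurd hl (Nat.not_lt_zero _)
      phi_pure := fun l hl => absurd hl (Nat.not_lt_zero _)
      phi_phi := fun l l' _ hl => absurd hl (Nat.not_lt_zero _)
      P_D := fun i j hij hj => absurd (lt_of_lt_of_le hij hj) (Nat.not_lt_zero _)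
      P_e := fun j _ => by simp }

theorem depth_conj_eq {K : Subgroup G} {g x : G} (hg : g ∈ Cz K) (hx : x ∈ K) :
    g⁻¹ * x * g = x := commute_iff_conj.1 (mem_Cz.1 hg x hx)

theorem Good.depth_phi_conj {K : Subgroup G} {t : Dat G} {e g : G} (h : Good p D K t e)
    (hg : g ∈ Cz K) {l : ℕ} (hl : l < t.m) (y : G) :
    t.phi l (g⁻¹ * y * g) = g⁻¹ * t.phi l y * g := by
  have h1 := depth_conj_eq hg (h.a_mem l hl)
  have h2 := depth_conj_eq hg (h.S_le l hl (h.s_mem l hl))
  simp only [Dat.phi]
  calc t.a l * (g⁻¹ * y * g)⁻¹ * t.a l * t.s l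
      = (g⁻¹ * t.a l * g) * (g⁻¹ * y * g)⁻¹ * (g⁻¹ * t.a l * g) * (g⁻¹ * t.s l * g) := by
        rw [h1, h2]
    _ = _ := by group

theorem Good.conj (H : Hyp p k D) {K : Subgroup G} {t : Dat G} {e g : G} (h : Good p D K t e)
    (hg : g ∈ Cz K) : Good p D K t (g⁻¹ * e * g) := by
  have hS : ∀ l < t.m, g ∈ Cz (t.S l) := fun l hl => Cz_anti (h.S_le l hl) hg
  exact
    { h with
      mem := H.conj _ h.mem g
      norm := mul_mem (mul_mem (inv_mem (Cz_le_Nz _ hg)) h.norm) (Cz_le_Nz _ hg)
      norm_S := fun l hl => mul_mem (mul_mem (inv_mem (Cz_le_Nz _ (hS l hl))) (h.norm_S l hl))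
        (Cz_le_Nz _ (hS l hl))
      pure := fun l hl => by
        have h1 := depth_conj_eq hg (K.inv_mem (h.a_mem l hl))
        have h2 : (t.a l)⁻¹ * (g⁻¹ * e * g) = g⁻¹ * ((t.a l)⁻¹ * e) * g := by
          conv_lhs => rw [← h1]
          group
        rw [h2]
        exact mul_mem (mul_mem (inv_mem (hS l hl)) (h.pure l hl)) (hS l hl)
      rho_a := fun l hl => by
        have h1 := depth_conj_eq hg (h.a_mem l hl)
        have h2 : rho (t.a l) (g⁻¹ * e * g) = g⁻¹ * rho (t.a l) e * g := by
          conv_lhs => rw [← h1]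
          simp only [rho]; group
        rw [h2]
        exact Nz_conj (Cz_le_Nz _ (hS l hl)) (h.rho_a l hl)
      phi_mem := fun l hl => by
        rw [h.depth_phi_conj hg hl]
        exact H.conj _ (h.phi_mem l hl) g
      phi_pure := fun l hl => by
        rw [h.depth_phi_conj hg hl]
        have h2 : (g⁻¹ * e * g)⁻¹ * (g⁻¹ * t.phi l e * g) = g⁻¹ * (e⁻¹ * t.phi l e) * g := by
          group
        rw [h2]
        exact mul_mem (mul_mem (inv_mem (hS l hl)) (h.phi_pure l hl)) (hS l hl)
      phi_phi := fun l l' hl hl' => by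
        rw [h.depth_phi_conj hg hl', h.depth_phi_conj hg (hl.trans hl')]
        exact H.conj _ (h.phi_phi l l' hl hl') g
      P_D := fun i j hij hj => by
        have h1 := depth_conj_eq hg (K.mul_mem (K.inv_mem (h.P_mem i (hij.le.trans hj)))
          (h.P_mem j hj))
        have h2 : g⁻¹ * e * g * ((t.P i)⁻¹ * t.P j) = g⁻¹ * (e * ((t.P i)⁻¹ * t.P j)) * g := by
          conv_lhs => rw [← h1]
          group
        rw [h2]
        exact H.conj _ (h.P_D i j hij hj) g
      P_e := fun j hj => by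
        have h1 := depth_conj_eq hg (h.P_mem j hj)
        have h2 : (t.P j)⁻¹ * (g⁻¹ * e * g) * t.P j = g⁻¹ * ((t.P j)⁻¹ * e * t.P j) * g := by
          conv_lhs => rw [← h1]
          group
        rw [h2]
        have h3 := (h.P_e j hj).eq
        change g⁻¹ * e * g * (g⁻¹ * ((t.P j)⁻¹ * e * t.P j) * g) =
          g⁻¹ * ((t.P j)⁻¹ * e * t.P j) * g * (g⁻¹ * e * g)
        calc g⁻¹ * e * g * (g⁻¹ * ((t.P j)⁻¹ * e * t.P j) * g)
            = g⁻¹ * (e * ((t.P j)⁻¹ * e * t.P j)) * g := by group
          _ = g⁻¹ * (((t.P j)⁻¹ * e * t.P j) * e) * g := by rw [h3]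
          _ = _ := by group }

theorem Good.mono {K K' : Subgroup G} {t : Dat G} {e : G} (h : Good p D K t e) (hK : K ≤ K')
    (hf : (K' : Set G).Finite) (hn : e ∈ Nz K') : Good p D K' t e := by
  exact
    { h with
      fin := hf
      S_le := fun l hl => (h.S_le l hl).trans hK
      a_mem := fun l hl => hK (h.a_mem l hl)
      P_mem := fun j hj => hK (h.P_mem j hj)
      norm := hn }

/-- The data after the first move. -/
def Dat.two (t : Dat G) (K : Subgroup G) (d σ : G) : Dat G where
  m := t.m + 1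
  n := t.n
  a := Function.update t.a t.m d
  s := Function.update t.s t.m σ
  P := t.P
  S := Function.update t.S t.m K

theorem depth_two_a (t : Dat G) (K : Subgroup G) (d σ : G) {l : ℕ} (hl : l < t.m) :
    (t.two K d σ).a l = t.a l := Function.update_of_ne hl.ne _ _

theorem depth_two_s (t : Dat G) (K : Subgroup G) (d σ : G) {l : ℕ} (hl : l < t.m) :
    (t.two K d σ).s l = t.s l := Function.update_of_ne hl.ne _ _

theorem depth_two_S (t : Dat G) (K : Subgroup G) (d σ : G) {l : ℕ} (hl : l < t.m) :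
    (t.two K d σ).S l = t.S l := Function.update_of_ne hl.ne _ _

theorem depth_two_phi (t : Dat G) (K : Subgroup G) (d σ : G) {l : ℕ} (hl : l < t.m) (y : G) :
    (t.two K d σ).phi l y = t.phi l y := by
  simp only [Dat.phi, depth_two_a t K d σ hl, depth_two_s t K d σ hl]

theorem depth_two_a' (t : Dat G) (K : Subgroup G) (d σ : G) :
    (t.two K d σ).a t.m = d := Function.update_self _ _ _

theorem depth_two_s' (t : Dat G) (K : Subgroup G) (d σ : G) :
    (t.two K d σ).s t.m = σ := Function.update_self _ _ _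

theorem depth_two_S' (t : Dat G) (K : Subgroup G) (d σ : G) :
    (t.two K d σ).S t.m = K := Function.update_self _ _ _

theorem depth_two_cases {t : Dat G} {K : Subgroup G} {d σ : G} {l : ℕ}
    (hl : l < (t.two K d σ).m) : l < t.m ∨ l = t.m := Nat.lt_succ_iff_lt_or_eq.1 hl

theorem Good.two (H : Hyp p k D) {K : Subgroup G} {t : Dat G} {d x : G} (h : Good p D K t d)
    (hx : PD d K x) : Good p D (ext K d) (t.two K d (rho (rho d x) x)) (x⁻¹ * d * x) := by
  have h1 := h.conj H hx.cent
  have h2 := h.conj H ((Cz K).inv_mem hx.cent)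
  have hw : rho d x ∈ Cz K := hx.rho_cent h.norm
  have hσ : rho (rho d x) x ∈ Cz K :=
    mul_mem (inv_mem hw) (mul_mem (mul_mem (inv_mem hx.cent) hw) hx.cent)
  obtain ⟨-, hn1, hn2⟩ := hx.norm_ext H h.norm
  have hle : K ≤ ext K d := le_sup_left
  have hphi : (t.two K d (rho (rho d x) x)).phi t.m (x⁻¹ * d * x) = x⁻¹⁻¹ * d * x⁻¹ := by
    simp only [Dat.phi, depth_two_a', depth_two_s']
    have c1 := (mem_Cz.1 hw _ hx.comm_mem).eq
    have c2 := (mem_Cz.1 hx.cent _ hx.comm_mem).eq
    have c3 : rho d x * rho (rho d x) x = x⁻¹ * rho d x * x := mul_rho _ _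
    have c4 : d * rho d x = x⁻¹ * d * x := mul_rho _ _
    generalize rho (rho d x) x = σ at c1 c2 c3 ⊢
    generalize rho d x = w at c1 c3 c4 ⊢
    have c5 : x⁻¹ * (d * w⁻¹ * σ) * x = d := by
      calc x⁻¹ * (d * w⁻¹ * σ) * x = (x⁻¹ * d * x) * (x⁻¹ * w * x)⁻¹ * x⁻¹ * (σ * x) := by group
        _ = (d * w) * (σ * w)⁻¹ * x⁻¹ * (x * σ) := by rw [← c4, ← c3, c2, c1]
        _ = d := by group
    rw [← c4]
    calc d * (d * w)⁻¹ * d * σ = x * (x⁻¹ * (d * w⁻¹ * σ) * x) * x⁻¹ := by group
      _ = x⁻¹⁻¹ * d * x⁻¹ := by rw [c5, inv_inv]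
  exact
    { fin := finite_ext H.prime H.pgrp h.norm h.fin
      S_le := fun l hl => by
        rcases depth_two_cases hl with hl | rfl
        · rw [depth_two_S _ _ _ _ hl]; exact (h.S_le l hl).trans hle
        · rw [depth_two_S']; exact hle
      a_mem := fun l hl => by
        rcases depth_two_cases hl with hl | rfl
        · rw [depth_two_a _ _ _ _ hl]; exact hle (h.a_mem l hl)
        · rw [depth_two_a']; exact mem_sup_right (mem_zpowers d)
      a_not := fun l hl => by
        rcases depth_two_cases hl with hl | rfl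
        · rw [depth_two_a _ _ _ _ hl, depth_two_S _ _ _ _ hl]; exact h.a_not l hl
        · rw [depth_two_a', depth_two_S']
          intro hd
          apply hx.notMem
          rw [rho_eq_one_iff.2 (mem_Cz.1 hx.cent d hd)]
          exact one_mem _
      a_pow := fun l hl => by
        rcases depth_two_cases hl with hl | rfl
        · rw [depth_two_a _ _ _ _ hl]; exact h.a_pow l hl
        · rw [depth_two_a']; exact H.pow d h.mem
      s_mem := fun l hl => by
        rcases depth_two_cases hl with hl | rfl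
        · rw [depth_two_s _ _ _ _ hl, depth_two_S _ _ _ _ hl]; exact h.s_mem l hl
        · rw [depth_two_s', depth_two_S']; exact hx.comm_mem
      S_mono := fun l l' hll hl' => by
        rcases depth_two_cases hl' with hl' | rfl
        · rw [depth_two_S _ _ _ _ hl', depth_two_S _ _ _ _ (hll.trans hl')]
          exact h.S_mono l l' hll hl'
        · rw [depth_two_S', depth_two_S _ _ _ _ hll]; exact h.S_le l hll
      a_mem' := fun l l' hll hl' => by
        rcases depth_two_cases hl' with hl' | rfl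
        · rw [depth_two_S _ _ _ _ hl', depth_two_a _ _ _ _ (hll.trans hl')]
          exact h.a_mem' l l' hll hl'
        · rw [depth_two_S', depth_two_a _ _ _ _ hll]; exact h.a_mem l hll
      P_mem := fun j hj => hle (h.P_mem j hj)
      P_comm := h.P_comm
      P_inj := h.P_inj
      mem := h1.mem
      norm := hn1
      norm_S := fun l hl => by
        rcases depth_two_cases hl with hl | rfl
        · rw [depth_two_S _ _ _ _ hl]; exact h1.norm_S l hl
        · rw [depth_two_S']; exact hn2
      pure := fun l hl => by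
        rcases depth_two_cases hl with hl | rfl
        · rw [depth_two_a _ _ _ _ hl, depth_two_S _ _ _ _ hl]; exact h1.pure l hl
        · rw [depth_two_a', depth_two_S']; exact hw
      rho_a := fun l hl => by
        rcases depth_two_cases hl with hl | rfl
        · rw [depth_two_a _ _ _ _ hl, depth_two_S _ _ _ _ hl]; exact h1.rho_a l hl
        · rw [depth_two_a', depth_two_S']
          have c : rho d (x⁻¹ * d * x) = rho d (rho d x) := by simp only [rho]; group
          rw [c]; exact hx.rho_mem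
      phi_mem := fun l hl => by
        rcases depth_two_cases hl with hl | rfl
        · rw [depth_two_phi _ _ _ _ hl]; exact h1.phi_mem l hl
        · rw [hphi]; exact h2.mem
      phi_pure := fun l hl => by
        rcases depth_two_cases hl with hl | rfl
        · rw [depth_two_phi _ _ _ _ hl, depth_two_S _ _ _ _ hl]; exact h1.phi_pure l hl
        · rw [depth_two_S']
          simp only [Dat.phi, depth_two_a', depth_two_s']
          have c : (x⁻¹ * d * x)⁻¹ * (d * (x⁻¹ * d * x)⁻¹ * d * rho (rho d x) x) =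
              (rho d x)⁻¹ * (rho d x)⁻¹ * rho (rho d x) x := by
            generalize rho (rho d x) x = σ
            simp only [rho]; group
          rw [c]
          exact mul_mem (mul_mem (inv_mem hw) (inv_mem hw)) hσ
      phi_phi := fun l l' hll hl' => by
        rcases depth_two_cases hl' with hl' | rfl
        · rw [depth_two_phi _ _ _ _ hl', depth_two_phi _ _ _ _ (hll.trans hl')]
          exact h1.phi_phi l l' hll hl'
        · rw [hphi, depth_two_phi _ _ _ _ hll]; exact h2.phi_mem l hll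
      P_D := h1.P_D
      P_e := h1.P_e }

theorem Good.three (H : Hyp p k D) {K K' : Subgroup G} {t : Dat G} {y δ : G}
    (h : Good p D K t y) (h' : Good p D K t (y * δ)) (hδ : δ ∈ Cz K) (hδ' : δ ∉ K)
    (hc : Commute y (δ⁻¹ * y * δ)) (hK : K ≤ K') (hδK : δ ∈ K')
    (hf : (K' : Set G).Finite) (hn : y ∈ Nz K') :
    ∃ t' : Dat G, Good p D K' t' y ∧ t'.m + t'.n = t.m + t.n + 1 := by
  have h0 := h.mono hK hf hn
  let P' : ℕ → G := Function.update t.P (t.n + 1) (t.P t.n * δ)
  have hP1 : ∀ j ≤ t.n, P' j = t.P j := fun j hj =>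
    Function.update_of_ne (Nat.lt_succ_of_le hj).ne _ _
  have hP2 : P' (t.n + 1) = t.P t.n * δ := Function.update_self _ _ _
  have hcase : ∀ j ≤ t.n + 1, j ≤ t.n ∨ j = t.n + 1 := fun j hj => by omega
  have hPδ : ∀ j ≤ t.n, Commute (t.P j) δ := fun j hj => mem_Cz.1 hδ _ (h.P_mem j hj)
  have hnew : ∀ j ≤ t.n, t.P j ≠ t.P t.n * δ := fun j hj hc => hδ' (by
    have := K.mul_mem (K.inv_mem (h.P_mem t.n le_rfl)) (h.P_mem j hj)
    rwa [hc, inv_mul_cancel_left] at this)
  refine ⟨⟨t.m, t.n + 1, t.a, t.s, P', t.S⟩, ?_, by simp only [add_assoc]⟩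
  exact
    { h0 with
      P_mem := fun j hj => by
        change P' j ∈ K'
        rcases hcase j hj with hj | rfl
        · rw [hP1 j hj]; exact h0.P_mem j hj
        · rw [hP2]; exact K'.mul_mem (h0.P_mem _ le_rfl) hδK
      P_comm := fun i hi j hj => by
        change Commute (P' i) (P' j)
        rcases hcase i hi with hi | rfl <;> rcases hcase j hj with hj | rfl
        · rw [hP1 i hi, hP1 j hj]; exact h.P_comm i hi j hj
        · rw [hP1 i hi, hP2]; exact (h.P_comm i hi _ le_rfl).mul_right (hPδ i hi)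
        · rw [hP1 j hj, hP2]; exact ((h.P_comm j hj _ le_rfl).mul_right (hPδ j hj)).symm
        · exact Commute.refl _
      P_inj := fun i hi j hj hc => by
        change P' i = P' j at hc
        rcases hcase i hi with hi | rfl <;> rcases hcase j hj with hj | rfl
        · rw [hP1 i hi, hP1 j hj] at hc; exact h.P_inj i hi j hj hc
        · rw [hP1 i hi, hP2] at hc; exact (hnew i hi hc).elim
        · rw [hP1 j hj, hP2] at hc; exact (hnew j hj hc.symm).elim
        · rfl
      P_D := fun i j hij hj => by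
        change y * ((P' i)⁻¹ * P' j) ∈ D
        rcases hcase j hj with hj | rfl
        · rw [hP1 i (hij.le.trans hj), hP1 j hj]; exact h.P_D i j hij hj
        · have hi : i ≤ t.n := Nat.lt_succ_iff.1 hij
          rw [hP1 i hi, hP2]
          rcases hi.eq_or_lt with rfl | hi'
          · rw [inv_mul_cancel_left]; exact h'.mem
          · have h3 := h'.P_D i t.n hi' le_rfl
            have h4 := ((hPδ i hi).inv_left.mul_left (hPδ _ le_rfl)).eq
            rwa [mul_assoc, ← h4, mul_assoc] at h3
      P_e := fun j hj => by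
        change Commute y ((P' j)⁻¹ * y * P' j)
        rcases hcase j hj with hj | rfl
        · rw [hP1 j hj]; exact h.P_e j hj
        · rw [hP2]
          have h3 := h.P_e t.n le_rfl
          have h4 := (h'.P_e t.n le_rfl).eq
          have h5 := (hPδ t.n le_rfl).eq
          generalize t.P t.n = Q at h3 h4 h5 ⊢
          have h6 : Q⁻¹ * (y * δ) * Q = Q⁻¹ * y * Q * δ := by
            calc Q⁻¹ * (y * δ) * Q = Q⁻¹ * y * (δ * Q) := by group
              _ = Q⁻¹ * y * (Q * δ) := by rw [h5]
              _ = _ := by group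
          rw [h6] at h4
          have h7 : (Q * δ)⁻¹ * y * (Q * δ) = δ⁻¹ * y * δ * (Q⁻¹ * y * Q) * y⁻¹ := by
            calc (Q * δ)⁻¹ * y * (Q * δ)
                = δ⁻¹ * (Q⁻¹ * y * Q * δ * (y * δ)) * δ⁻¹ * y⁻¹ := by group
              _ = δ⁻¹ * (y * δ * (Q⁻¹ * y * Q * δ)) * δ⁻¹ * y⁻¹ := by rw [h4]
              _ = _ := by group
          rw [h7]
          exact (hc.mul_right h3).mul_right (Commute.refl y).inv_right }

theorem depth_map_Nz {G' : Type} [Group G'] (f : G →* G') {K : Subgroup G} {e : G}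
    (h : e ∈ Nz K) : f e ∈ Nz (K.map f) :=
  le_normalizer_map f (mem_map_of_mem f h)

theorem depth_map_Cz {G' : Type} [Group G'] (f : G →* G') {K : Subgroup G} {e : G}
    (h : e ∈ Cz K) : f e ∈ Cz (K.map f) :=
  mem_Cz.2 fun _ ⟨β, hβ, e1⟩ => e1 ▸ (mem_Cz.1 h β hβ).map f

theorem depth_map_phi {G' : Type} [Group G'] (f : G →* G') (t : Dat G) (l : ℕ) (e : G) :
    (t.map f).phi l (f e) = f (t.phi l e) := by
  simp only [Dat.phi, Dat.map, map_mul, map_inv]

theorem Good.map {G' : Type} [Group G'] {D' : Set G'} (f : G →* G') (hf : Function.Injective f)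
    (hD : ∀ d ∈ D, f d ∈ D') {K : Subgroup G} {t : Dat G} {e : G} (h : Good p D K t e) :
    Good p D' (K.map f) (t.map f) (f e) := by
  exact
    { fin := by rw [coe_map]; exact h.fin.image f
      S_le := fun l hl => map_mono (h.S_le l hl)
      a_mem := fun l hl => mem_map_of_mem f (h.a_mem l hl)
      a_not := fun l hl hc => h.a_not l hl ((mem_map_iff_mem hf).1 hc)
      a_pow := fun l hl => by
        change f (t.a l) ^ p = 1
        rw [← map_pow, h.a_pow l hl, map_one]
      s_mem := fun l hl => mem_map_of_mem f (h.s_mem l hl)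
      S_mono := fun l l' hl hl' => map_mono (h.S_mono l l' hl hl')
      a_mem' := fun l l' hl hl' => mem_map_of_mem f (h.a_mem' l l' hl hl')
      P_mem := fun j hj => mem_map_of_mem f (h.P_mem j hj)
      P_comm := fun i hi j hj => (h.P_comm i hi j hj).map f
      P_inj := fun i hi j hj hc => h.P_inj i hi j hj (hf hc)
      mem := hD e h.mem
      norm := depth_map_Nz f h.norm
      norm_S := fun l hl => depth_map_Nz f (h.norm_S l hl)
      pure := fun l hl => by
        have := depth_map_Cz f (h.pure l hl)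
        rwa [map_mul, map_inv] at this
      rho_a := fun l hl => by
        have := mem_map_of_mem f (h.rho_a l hl)
        simp only [rho, map_mul, map_inv] at this
        exact this
      phi_mem := fun l hl => by
        rw [depth_map_phi]; exact hD _ (h.phi_mem l hl)
      phi_pure := fun l hl => by
        have := depth_map_Cz f (h.phi_pure l hl)
        rwa [map_mul, map_inv, ← depth_map_phi] at this
      phi_phi := fun l l' hl hl' => by
        rw [depth_map_phi, depth_map_phi]; exact hD _ (h.phi_phi l l' hl hl')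
      P_D := fun i j hij hj => by
        have := hD _ (h.P_D i j hij hj)
        rwa [map_mul, map_mul, map_inv] at this
      P_e := fun j hj => by
        have := (h.P_e j hj).map f
        rwa [map_mul, map_mul, map_inv] at this }

theorem depth_sub_Nz {T K : Subgroup G} {e : T} (h : (e : G) ∈ Nz K) :
    e ∈ Nz (K.subgroupOf T) :=
  mem_Nz.2 fun x => by
    rw [mem_subgroupOf, mem_subgroupOf]
    exact mem_Nz.1 h x

theorem depth_sub_Cz {T K : Subgroup G} {e : T} (h : (e : G) ∈ Cz K) :
    e ∈ Cz (K.subgroupOf T) :=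
  mem_Cz.2 fun x hx => Subtype.ext (mem_Cz.1 h x (mem_subgroupOf.1 hx)).eq

/-- Pulling depth data back to a subgroup containing `K`. -/
theorem exists_comap_dat (T : Subgroup G) {K : Subgroup G} (hK : K ≤ T) (t : Dat G) :
    ∃ t' : Dat T, t'.m = t.m ∧ t'.n = t.n ∧ ∀ e : T, Good p D K t (e : G) →
      Good p (Subtype.val ⁻¹' D) (K.subgroupOf T) t' e := by
  classical
  let π : G → T := fun g => if hg : g ∈ T then ⟨g, hg⟩ else 1
  have hπ : ∀ g ∈ K, (π g : G) = g := fun g hg => by simp only [π, dif_pos (hK hg)]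
  let t' : Dat T := ⟨t.m, t.n, fun l => π (t.a l), fun l => π (t.s l), fun l => π (t.P l),
    fun l => (t.S l).subgroupOf T⟩
  refine ⟨t', rfl, rfl, fun e h => ?_⟩
  have ha : ∀ l < t.m, (t'.a l : G) = t.a l := fun l hl => hπ _ (h.a_mem l hl)
  have hs : ∀ l < t.m, (t'.s l : G) = t.s l := fun l hl => hπ _ (h.S_le l hl (h.s_mem l hl))
  have hP : ∀ j ≤ t.n, (t'.P j : G) = t.P j := fun j hj => hπ _ (h.P_mem j hj)
  have hphi : ∀ l < t.m, ∀ y : T, (t'.phi l y : G) = t.phi l y := fun l hl y => by
    simp only [Dat.phi, coe_mul, coe_inv, ha l hl, hs l hl]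
  exact
    { fin := h.fin.preimage (f := (Subtype.val : T → G)) Subtype.val_injective.injOn
      S_le := fun l hl => subgroupOf_mono T (h.S_le l hl)
      a_mem := fun l hl => mem_subgroupOf.2 (by rw [ha l hl]; exact h.a_mem l hl)
      a_not := fun l hl hc => h.a_not l hl (by rw [← ha l hl]; exact mem_subgroupOf.1 hc)
      a_pow := fun l hl => Subtype.ext (by rw [coe_pow, ha l hl]; exact h.a_pow l hl)
      s_mem := fun l hl => mem_subgroupOf.2 (by rw [hs l hl]; exact h.s_mem l hl)
      S_mono := fun l l' hl hl' => subgroupOf_mono T (h.S_mono l l' hl hl')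
      a_mem' := fun l l' hl hl' => mem_subgroupOf.2 (by
        rw [ha l (hl.trans hl')]; exact h.a_mem' l l' hl hl')
      P_mem := fun j hj => mem_subgroupOf.2 (by rw [hP j hj]; exact h.P_mem j hj)
      P_comm := fun i hi j hj => Subtype.ext (by
        rw [coe_mul, coe_mul, hP i hi, hP j hj]; exact (h.P_comm i hi j hj).eq)
      P_inj := fun i hi j hj hc => h.P_inj i hi j hj (by rw [← hP i hi, ← hP j hj, hc])
      mem := h.mem
      norm := depth_sub_Nz h.norm
      norm_S := fun l hl => depth_sub_Nz (h.norm_S l hl)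
      pure := fun l hl => depth_sub_Cz (by rw [coe_mul, coe_inv, ha l hl]; exact h.pure l hl)
      rho_a := fun l hl => mem_subgroupOf.2 (by
        simp only [rho, coe_mul, coe_inv, ha l hl]; exact h.rho_a l hl)
      phi_mem := fun l hl => by
        rw [Set.mem_preimage, hphi l hl]; exact h.phi_mem l hl
      phi_pure := fun l hl => depth_sub_Cz (by
        rw [coe_mul, coe_inv, hphi l hl]; exact h.phi_pure l hl)
      phi_phi := fun l l' hl hl' => by
        rw [Set.mem_preimage, hphi l (hl.trans hl'), hphi l' hl']; exact h.phi_phi l l' hl hl'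
      P_D := fun i j hij hj => by
        rw [Set.mem_preimage, coe_mul, coe_mul, coe_inv, hP i (hij.le.trans hj), hP j hj]
        exact h.P_D i j hij hj
      P_e := fun j hj => Subtype.ext (by
        simp only [coe_mul, coe_inv, hP j hj]; exact (h.P_e j hj).eq) }

theorem Hyp.subgroup (H : Hyp p k D) (T : Subgroup G) :
    Hyp p k (Subtype.val ⁻¹' D : Set T) := by
  exact
    { prime := H.prime
      odd := H.odd
      pgrp := H.pgrp.to_subgroup T
      conj := fun d hd g => H.conj d hd g
      pow := fun d hd => Subtype.ext (H.pow d hd)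
      fin := fun d hd e he => by
        refine ((H.fin d hd e he).preimage
          (Subtype.val_injective (p := fun x => x ∈ T)).injOn).subset ?_
        have : closure ({d, e} : Set T) ≤ (closure ({(d : G), (e : G)} : Set G)).subgroupOf T :=
          (closure_le _).2 (by
            rintro x (rfl | rfl)
            · exact mem_subgroupOf.2 (subset_closure (Or.inl rfl))
            · exact mem_subgroupOf.2 (subset_closure (Or.inr rfl)))
        exact fun x hx => this hx
      bnd := fun d hd => by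
        refine le_trans ?_ (H.bnd d hd)
        refine Set.encard_le_encard_of_injOn (f := Subtype.val) ?_ Subtype.val_injective.injOn
        exact fun x hx => ⟨hx.1, congrArg Subtype.val hx.2.eq⟩ }

end Pool.Agent.Lib.MP_7d7b85_al
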