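import Pool.Agent.Lib.MP_7d7b85_al.Beta

namespace Pool.Agent.Lib.MP_7d7b85_al

open Subgroup Filter

variable {G : Type} [Group G] {p k : ℕ} {D : Set G}

theorem fclose_Nz {Q : Type} [Group Q] {U : Subgroup Q} {a : Q} (hp : 0 < p) (ha : a ^ p = 1)
    (h : ∀ α ∈ U, a⁻¹ * α * a ∈ U) : a ∈ Nz U := by
  have key : ∀ n : ℕ, ∀ α ∈ U, (a ^ n)⁻¹ * α * a ^ n ∈ U := by
    intro n
    induction n with
    | zero => simp
    | succ n ih =>
      intro α hα
      have := h _ (ih α hα)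
      convert this using 1
      rw [pow_succ]; group
  refine mem_Nz.2 fun α => ⟨h α, fun hα => ?_⟩
  have h1 : a ^ (p - 1) = a⁻¹ := by
    rw [eq_inv_iff_mul_eq_one, ← pow_succ, Nat.sub_add_cancel hp, ha]
  have := key (p - 1) _ hα
  rw [h1] at this
  simpa [mul_assoc] using this

/-- The elements whose image, conjugated by `q`, lies in `U`. -/
def fcloseSub {Q : Type} [Group Q] (ι : G →* Q) (q : Q) (U : Subgroup Q) : Subgroup G :=
  U.comap (((MulAut.conj q⁻¹).toMonoidHom).comp ι)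

theorem fclose_mem_sub {Q : Type} [Group Q] {ι : G →* Q} {q : Q} {U : Subgroup Q} {g : G} :
    g ∈ fcloseSub ι q U ↔ q⁻¹ * ι g * q ∈ U := by
  simp [fcloseSub]

theorem fclose_finD (H : Hyp p k D) {K V : Subgroup G} (hK : (K : Set G).Finite)
    (hV : V ≤ Cz (K ⊔ V)) : (D ∩ (K ⊔ V : Subgroup G)).Finite := by
  have hVK : V ≤ Nz K := hV.trans ((Cz_anti le_sup_left).trans (Cz_le_Nz K))
  have h1 : D ∩ (K ⊔ V : Subgroup G) ⊆ ⋃ κ ∈ (K : Set G), {u | u ∈ D ∧ κ⁻¹ * u ∈ V} := by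
    rintro u ⟨hu, hu'⟩
    obtain ⟨α, hα, β, hβ, rfl⟩ := (mem_sup_Nz hVK).1 hu'
    simp only [Set.mem_iUnion]
    exact ⟨α, hα, hu, by simpa using hβ⟩
  refine (hK.biUnion fun κ hκ => ?_).subset h1
  rcases Set.eq_empty_or_nonempty {u | u ∈ D ∧ κ⁻¹ * u ∈ V} with h | ⟨u0, hu0, hv0⟩
  · rw [h]; exact Set.finite_empty
  · refine (H.finite_comm hu0).subset fun u hu => ⟨hu.1, ?_⟩
    have hu0m : u0 ∈ K ⊔ V := by
      have := mul_mem (mem_sup_left hκ : κ ∈ K ⊔ V) (mem_sup_right hv0)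
      simpa using this
    have hw : u0⁻¹ * u ∈ V := by
      have := mul_mem (inv_mem hv0) hu.2
      simpa [mul_assoc] using this
    have hc : Commute u0 (u0⁻¹ * u) := mem_Cz.1 (hV hw) u0 hu0m
    have := (Commute.refl u0).mul_right hc
    simpa using this

theorem fclose_abs (H : Hyp p k D) {Q : Type} [Group Q] (ι : G →* Q)
    (hι : Function.Injective ι) (D' : Set Q) (hD' : ∀ h ∈ D', ∀ q : Q, q⁻¹ * h * q ∈ D')
    (hιD : ∀ g, ι g ∈ D' ↔ g ∈ D) {ε : Q} (hε : ε ^ p = 1) {T K : Subgroup G} {c y f : G}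
    (hTε : ∀ g ∈ T, ∃ g', ε⁻¹ * ι g * ε = ι g')
    (hcomm : ∀ y ∈ D, y ∈ T → ∀ u, y * u ∈ D → Commute y u → u ∈ T)
    (hcT : c ∈ T) (hcc : c ∈ Cz T) (hK : (K : Set G).Finite) (hKT : K ≤ T) (hy : y ∈ K)
    (hyD : y ∈ D) (hyc : y * c ∈ D)
    (hKε : ∀ g ∈ ext K c, ε⁻¹ * ι g * ε ∈ (ext K c).map ι) (hfD : f ∈ D) (hfn : f ∈ Nz K) :
    ∃ K' : Subgroup G, K ≤ K' ∧ (K' : Set G).Finite ∧ f ∈ Nz K' ∧
      ∀ g ∈ K', ε⁻¹ * ι g * ε ∈ K'.map ι := by
  have hp : 0 < p := H.prime.pos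
  have hyc' : Commute y c := mem_Cz.1 hcc y (hKT hy)
  have hfc : ∀ g : G, (ι f)⁻¹ * ι g * ι f = ι (f⁻¹ * g * f) := fun g => by simp
  have hK1 : ∀ a : Q, (a = ι f ∨ a = ε) → ∀ g ∈ K, a⁻¹ * ι g * a ∈ (ext K c).map ι := by
    rintro a (rfl | rfl) g hg
    · rw [hfc]
      exact mem_map_of_mem ι (mem_sup_left (Nz_conj hfn hg))
    · exact hKε g (mem_sup_left hg)
  have hT1 : ∀ a : Q, (a = ι f ∨ a = ε) → ∀ g ∈ T, ∃ g', a⁻¹ * ι g * a = ι g' := by
    rintro a (rfl | rfl) g hg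
    · exact ⟨_, hfc g⟩
    · exact hTε g hg
  -- all words keep `ext K c` inside the image of `T`
  have hP : ∀ n : ℕ, ∀ L : List Q, (∀ a ∈ L, a = ι f ∨ a = ε) → L.length = n →
      ∀ g ∈ ext K c, (L.prod)⁻¹ * ι g * L.prod ∈ T.map ι := by
    intro n
    induction n with
    | zero =>
      intro L _ hL g hg
      rw [List.length_eq_zero_iff] at hL
      subst hL
      have : ext K c ≤ T := sup_le hKT (zpowers_le.2 hcT)
      simpa using mem_map_of_mem ι (this hg)
    | succ n ih =>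
      intro L hLa hL
      have ha : ∀ g ∈ K, (L.prod)⁻¹ * ι g * L.prod ∈ T.map ι := by
        intro g hg
        obtain ⟨a, L', rfl⟩ := List.exists_cons_of_length_eq_add_one hL
        obtain ⟨g1, hg1, e1⟩ := hK1 a (hLa a (by simp)) g hg
        have := ih L' (fun b hb => hLa b (by simp [hb])) (by simpa using hL) g1 hg1
        rw [e1] at this
        convert this using 1
        rw [List.prod_cons]; group
      have hb : (L.prod)⁻¹ * ι c * L.prod ∈ T.map ι := by
        obtain ⟨y', hy', ey⟩ := ha y hy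
        rcases List.eq_nil_or_concat' L with rfl | ⟨L', a, rfl⟩
        · simp at hL
        obtain ⟨c1, hc1, e1⟩ := ih L' (fun b hb => hLa b (by simp [hb])) (by simpa using hL) c
          (mem_sup_right (mem_zpowers c))
        obtain ⟨c2, e2⟩ := hT1 a (hLa a (by simp)) c1 hc1
        have e3 : ((L' ++ [a]).prod)⁻¹ * ι c * (L' ++ [a]).prod = ι c2 := by
          rw [← e2, e1, List.prod_append, List.prod_singleton]; group
        rw [e3]
        refine mem_map_of_mem ι (hcomm y' ?_ hy' c2 ?_ ?_)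
        · rw [← hιD, ey]
          exact hD' _ ((hιD y).2 hyD) _
        · rw [← hιD, map_mul, ey, ← e3]
          have := hD' _ ((hιD _).2 hyc) (L' ++ [a]).prod
          convert this using 1
          rw [map_mul]; group
        · apply hι
          rw [map_mul, map_mul, ey, ← e3]
          have h2 : ι y * ι c = ι c * ι y := by rw [← map_mul, hyc'.eq, map_mul]
          calc _ = ((L' ++ [a]).prod)⁻¹ * (ι y * ι c) * (L' ++ [a]).prod := by group
            _ = _ := by rw [h2]; group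
      have : ext K c ≤ fcloseSub ι L.prod (T.map ι) :=
        sup_le (fun g hg => fclose_mem_sub.2 (ha g hg)) (zpowers_le.2 (fclose_mem_sub.2 hb))
      exact fun g hg => fclose_mem_sub.1 (this hg)
  let S : Set G := {s | ∃ L : List Q, (∀ a ∈ L, a = ι f ∨ a = ε) ∧
    ι s = (L.prod)⁻¹ * ι c * L.prod}
  have hST : ∀ s ∈ S, s ∈ T := by
    rintro s ⟨L, hL, e⟩
    obtain ⟨s', hs', e'⟩ := hP _ L hL rfl c (mem_sup_right (mem_zpowers c))
    rw [← e] at e'
    exact hι e' ▸ hs'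
  have hcS : c ∈ S := ⟨[], by simp, by simp⟩
  let K' : Subgroup G := K ⊔ closure S
  have hK'T : K' ≤ T := sup_le hKT ((closure_le _).2 hST)
  have hext : ext K c ≤ K' :=
    sup_le le_sup_left (zpowers_le.2 (mem_sup_right (subset_closure hcS)))
  have hstab : ∀ a : Q, (a = ι f ∨ a = ε) → ∀ g ∈ K', a⁻¹ * ι g * a ∈ K'.map ι := by
    intro a ha
    have : K' ≤ fcloseSub ι a (K'.map ι) := by
      refine sup_le (fun g hg => fclose_mem_sub.2 (map_mono hext (hK1 a ha g hg)))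
        ((closure_le _).2 fun s hs => fclose_mem_sub.2 ?_)
      obtain ⟨s', e'⟩ := hT1 a ha s (hST s hs)
      obtain ⟨L, hL, e⟩ := hs
      rw [e']
      refine mem_map_of_mem ι (mem_sup_right (subset_closure ⟨L ++ [a], ?_, ?_⟩))
      · intro b hb
        rcases List.mem_append.1 hb with hb | hb
        · exact hL b hb
        · rw [List.mem_singleton.1 hb]; exact ha
      · rw [← e', e, List.prod_append, List.prod_singleton]; group
    exact fun g hg => fclose_mem_sub.1 (this hg)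
  have hNa : ∀ a : Q, (a = ι f ∨ a = ε) → a ∈ Nz (K'.map ι) := by
    intro a ha
    refine fclose_Nz hp ?_ ?_
    · rcases ha with rfl | rfl
      · rw [← map_pow, H.pow f hfD, map_one]
      · exact hε
    · rintro _ ⟨g, hg, rfl⟩
      exact hstab a ha g hg
  have hNL : ∀ L : List Q, (∀ a ∈ L, a = ι f ∨ a = ε) → L.prod ∈ Nz (K'.map ι) :=
    fun L hL => list_prod_mem fun a ha => hNa a (hL a ha)
  have hcC : ι c ∈ Cz (K'.map ι) := by
    refine mem_Cz.2 ?_
    rintro _ ⟨g, hg, rfl⟩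
    exact (mem_Cz.1 hcc g (hK'T hg)).map ι
  have hSC : ∀ s ∈ S, s ∈ Cz K' := by
    rintro s ⟨L, hL, e⟩
    have h1 : ι s ∈ Cz (K'.map ι) := e ▸ Nz_conj (Nz_Cz (hNL L hL)) hcC
    refine mem_Cz.2 fun g hg => hι ?_
    rw [map_mul, map_mul]
    exact mem_Cz.1 h1 _ (mem_map_of_mem ι hg)
  have hVC : closure S ≤ Cz K' := (closure_le _).2 hSC
  have hfin : (D ∩ (K' : Set G)).Finite := fclose_finD H hK hVC
  have hSfin : S.Finite := by
    refine (hfin.inv.mul hfin).subset ?_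
    intro s hs
    have hsK : s ∈ K' := mem_sup_right (subset_closure hs)
    obtain ⟨L, hL, e⟩ := hs
    obtain ⟨y', hy', ey⟩ := Nz_conj (hNL L hL) (mem_map_of_mem ι (mem_sup_left hy : y ∈ K'))
    refine ⟨y'⁻¹, ?_, y' * s, ⟨?_, mul_mem hy' hsK⟩, by simp⟩
    · rw [Set.mem_inv, inv_inv]
      refine ⟨?_, hy'⟩
      rw [← hιD, ey]
      exact hD' _ ((hιD y).2 hyD) _
    · rw [← hιD, map_mul, ey, e]
      have := hD' _ ((hιD _).2 hyc) L.prod
      convert this using 1
      rw [map_mul]; group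
  have hVfin : ((closure S : Subgroup G) : Set G).Finite := by
    refine dietzmann H.prime H.pgrp hSfin fun x hx z hz => ?_
    have := mem_Cz.1 (hSC z hz) x (mem_sup_right (subset_closure hx))
    rw [commute_iff_conj.1 this]
    exact hx
  refine ⟨K', le_sup_left, finite_sup (hVC.trans ((Cz_anti le_sup_left).trans (Cz_le_Nz K))) hK
    hVfin, mem_Nz_of_conj H.prime H.pgrp fun g hg => ?_, hstab ε (Or.inr rfl)⟩
  obtain ⟨g', hg', e⟩ := hstab _ (Or.inl rfl) g hg
  rw [hfc] at e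
  exact hι e ▸ hg'

variable {I : Type} {r : Ultrafilter I}

/-- A finite subgroup normalised by `f` and by most of the family. Here `y` is a member of the
family and `K` a finite subgroup containing it. -/
theorem fclose (H : Hyp p k D) {e : I → G} {c y : G} (hB : Beta p D r e c) {K : Subgroup G}
    (hK : (K : Set G).Finite) (hKT : K ≤ TT r e) (hy : y ∈ K) (hyD : y ∈ D) (hyc : y * c ∈ D)
    (he : ∀ᶠ l in r, e l ∈ Nz (ext K c)) {f : G} (hfD : f ∈ D) (hfn : f ∈ Nz K) :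
    ∃ K' : Subgroup G, K ≤ K' ∧ (K' : Set G).Finite ∧ f ∈ Nz K' ∧ ∀ᶠ l in r, e l ∈ Nz K' := by
  let ι : G →* Germ (r : Filter I) G :=
    (Germ.coeMulHom (r : Filter I)).comp (Pi.constMonoidHom I G)
  have hιa : ∀ g, ι g = ((fun _ : I => g : I → G) : Germ (r : Filter I) G) := fun g => rfl
  have hι : Function.Injective ι := fun a b h => Germ.const_inj.1 h
  let ε : Germ (r : Filter I) G := (e : I → G)
  have hconj : ∀ g g' : G, ε⁻¹ * ι g * ε = ι g' ↔ ∀ᶠ l in r, (e l)⁻¹ * g * e l = g' := by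
    intro g g'
    rw [hιa, hιa]
    simp only [ε]
    rw [← Germ.coe_inv, ← Germ.coe_mul, ← Germ.coe_mul, Germ.coe_eq]
    rfl
  obtain ⟨K', h1, h2, h3, h4⟩ := fclose_abs H ι hι {h | h.LiftPred (· ∈ D)} (ε := ε)
    (T := TT r e) (K := K) (c := c) (y := y) (f := f)
    (by
      intro h hh q
      induction h using Germ.inductionOn with | _ h =>
      induction q using Germ.inductionOn with | _ q =>
      rw [← Germ.coe_inv, ← Germ.coe_mul, ← Germ.coe_mul]
      simp only [Set.mem_ofPred_eq, Germ.liftPred_coe] at hh ⊢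
      exact hh.mono fun l hl => H.conj _ hl _)
    (fun g => by
      rw [hιa]
      simp only [Set.mem_ofPred_eq, Germ.liftPred_coe]
      exact eventually_const)
    (by
      simp only [ε]
      rw [← Germ.coe_pow, ← Germ.coe_one, Germ.coe_eq]
      exact hB.mem.mono fun l hl => H.pow _ hl.1)
    (fun g hg => (TT.evC hg).imp fun g' h => (hconj g g').2 h)
    (fun y hy hyT u hu hc => TT.of_comm H hy hyT hu hc) hB.c_mem hB.c_cent hK hKT hy hyD hyc
    (fun g hg => by
      have hT : g ∈ TT r e := (sup_le hKT (zpowers_le.2 hB.c_mem) : ext K c ≤ TT r e) hg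
      obtain ⟨g', h⟩ := TT.evC hT
      rw [(hconj g g').2 h]
      obtain ⟨l, hl, hl'⟩ := (h.and he).exists
      exact mem_map_of_mem ι (hl ▸ Nz_conj hl' hg))
    hfD hfn
  refine ⟨K', h1, h2, h3, ?_⟩
  have h5 : ∀ᶠ l in r, ∀ g ∈ (K' : Set G), (e l)⁻¹ * g * e l ∈ K' := by
    refine (eventually_all_finite h2).2 fun g hg => ?_
    obtain ⟨g', hg', e'⟩ := h4 g hg
    exact ((hconj g g').1 e'.symm).mono fun l hl => hl ▸ hg'
  exact h5.mono fun l hl => mem_Nz_of_conj H.prime H.pgrp hl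

end Pool.Agent.Lib.MP_7d7b85_al
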