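import Pool.Agent.Lib.MP_7d7b85_al.COl

namespace Pool.Agent.Lib.MP_7d7b85_al

open Subgroup Filter

variable {G : Type} [Group G] {p k : ℕ} {D : Set G}

/-- The normal closure of `W` under `Γ`. -/
def ncl (W Γ : Subgroup G) : Subgroup G := closure {x | ∃ g ∈ Γ, ∃ w ∈ W, x = g⁻¹ * w * g}

theorem le_ncl (W Γ : Subgroup G) : W ≤ ncl W Γ :=
  fun w hw => subset_closure ⟨1, Γ.one_mem, w, hw, by simp⟩

theorem cjs_le_ncl (W : Subgroup G) {Γ : Subgroup G} {g : G} (hg : g ∈ Γ) :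
    cjs W g ≤ ncl W Γ :=
  fun x hx => subset_closure ⟨g, hg, g * x * g⁻¹, mem_cjs.1 hx, by group⟩

theorem le_Nz_ncl (W Γ : Subgroup G) : Γ ≤ Nz (ncl W Γ) := by
  have key : ∀ g ∈ Γ, ∀ x ∈ ncl W Γ, g⁻¹ * x * g ∈ ncl W Γ := by
    intro g hg x hx
    have hle : ncl W Γ ≤ cjs (ncl W Γ) g⁻¹ := by
      refine (closure_le _).2 ?_
      rintro _ ⟨h, hh, w, hw, rfl⟩
      refine mem_cjs.2 (subset_closure ⟨h * g, Γ.mul_mem hh hg, w, hw, ?_⟩)
      group
    simpa using mem_cjs.1 (hle hx)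
  intro g hg
  refine mem_Nz.2 fun x => ⟨key g hg x, fun hx => ?_⟩
  simpa [mul_assoc] using key g⁻¹ (Γ.inv_mem hg) _ hx

theorem ncl_le {W Γ L : Subgroup G} (h : ∀ g ∈ Γ, cjs W g ≤ L) : ncl W Γ ≤ L := by
  refine (closure_le _).2 ?_
  rintro _ ⟨g, hg, w, hw, rfl⟩
  exact h g hg (conj_mem_cjs hw)

theorem comm_ncl {W Γ : Subgroup G} (h : ∀ g ∈ Γ, cjs W g ≤ Cz W) : Comm (ncl W Γ) := by
  refine comm_of_le_Cz (ncl_le fun g hg => le_Cz_comm.1 (ncl_le fun g' hg' => ?_))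
  have h1 := cjs_mono (h (g' * g⁻¹) (Γ.mul_mem hg' (Γ.inv_mem hg))) g
  rw [cjs_cjs, cjs_Cz] at h1
  simpa using h1

theorem div_ncl {W Γ : Subgroup G} (hW : IsDiv p W) (h : Comm (ncl W Γ)) :
    IsDiv p (ncl W Γ) := by
  intro x hx
  induction hx using closure_induction with
  | mem x hx =>
    obtain ⟨g, hg, w, hw, rfl⟩ := hx
    obtain ⟨β, hβ, rfl⟩ := hW w hw
    refine ⟨g⁻¹ * β * g, subset_closure ⟨g, hg, β, hβ, rfl⟩, ?_⟩
    simpa using conj_pow (a := g⁻¹) (b := β) (i := p)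
  | one => exact ⟨1, one_mem _, one_pow _⟩
  | mul x y _ _ hx hy =>
    obtain ⟨β, hβ, rfl⟩ := hx
    obtain ⟨γ, hγ, rfl⟩ := hy
    exact ⟨β * γ, mul_mem hβ hγ, (h β hβ γ hγ).mul_pow p⟩
  | inv x _ hx =>
    obtain ⟨β, hβ, rfl⟩ := hx
    exact ⟨β⁻¹, inv_mem hβ, inv_pow β p⟩

theorem rank_rho_swap (a u : G) : rho a u = (rho u a)⁻¹ := by
  simp only [rho]; group

/-- The elements normalising `U` and `U'` and acting trivially on `U'` modulo `U`. -/
def rank_C (U U' : Subgroup G) : Subgroup G where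
  carrier := {h | h ∈ Nz U' ∧ h ∈ Nz U ∧ ∀ u ∈ U', rho u h ∈ U}
  one_mem' := ⟨one_mem _, one_mem _, fun u _ => by simp [rho]⟩
  mul_mem' := fun {g h} hg hh => ⟨mul_mem hg.1 hh.1, mul_mem hg.2.1 hh.2.1, fun u hu => by
    have e : rho u (g * h) = rho u h * (h⁻¹ * rho u g * h) := by simp only [rho]; group
    rw [e]
    exact U.mul_mem (hh.2.2 u hu) (Nz_conj hh.2.1 (hg.2.2 u hu))⟩
  inv_mem' := fun {h} hh => ⟨inv_mem hh.1, inv_mem hh.2.1, fun u hu => by
    have e : rho u h⁻¹ = (rho (h * u * h⁻¹) h)⁻¹ := by simp only [rho]; group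
    rw [e]
    exact U.inv_mem (hh.2.2 _ (Nz_conj' hh.1 hu))⟩

theorem rank_mem_C {U U' : Subgroup G} {h : G} :
    h ∈ rank_C U U' ↔ h ∈ Nz U' ∧ h ∈ Nz U ∧ ∀ u ∈ U', rho u h ∈ U := Iff.rfl

theorem rank_Nz_C {U U' : Subgroup G} {g : G} (h : g ∈ Nz U) (h' : g ∈ Nz U') :
    g ∈ Nz (rank_C U U') := by
  have key : ∀ g, g ∈ Nz U → g ∈ Nz U' → ∀ c ∈ rank_C U U', g⁻¹ * c * g ∈ rank_C U U' := by
    intro g h h' c hc
    refine ⟨mul_mem (mul_mem (inv_mem h') hc.1) h', mul_mem (mul_mem (inv_mem h) hc.2.1) h,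
      fun u hu => ?_⟩
    have e : rho u (g⁻¹ * c * g) = g⁻¹ * rho (g * u * g⁻¹) c * g := by simp only [rho]; group
    rw [e]
    exact Nz_conj h (hc.2.2 _ (Nz_conj' h' hu))
  refine mem_Nz.2 fun c => ⟨key g h h' c, fun hc => ?_⟩
  simpa [mul_assoc] using key g⁻¹ (inv_mem h) (inv_mem h') _ hc

theorem rank_Cz_le_C {U U' V : Subgroup G} (h : U ≤ V) (h' : U' ≤ V) : Cz V ≤ rank_C U U' :=
  fun c hc => ⟨Cz_le_Nz _ (Cz_anti h' hc), Cz_le_Nz _ (Cz_anti h hc), fun u hu => by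
    rw [rho_eq_one_iff.2 (mem_Cz.1 hc u (h' hu))]
    exact U.one_mem⟩

/-- The norm argument. -/
theorem rank_norm (hp : p.Prime) (hodd : p ≠ 2) (hG : IsPGroup p G) {V U U' C : Subgroup G}
    (hV : FR p V) (hU' : U' ≤ V) (hd : IsDiv p U') (hC : ∀ c ∈ C, ∀ u ∈ U', rho u c ∈ U)
    (hgen : ∀ L : Subgroup G, (∀ c ∈ C, c ∈ Nz V → ∀ β ∈ V, rho c β ∈ L) → V ≤ L) : U' ≤ U := by
  classical
  have : Fact p.Prime := ⟨hp⟩
  let : CommGroup V :=
    { mul_comm := fun a b => Subtype.ext (hV.comm a a.2 b b.2) }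
  set f := V.normalizerMonoidHom with hf
  have hfin : Finite f.range := by
    have h1 := finMod_iff_relIndex.1 (hV.finMod_Cz hp hodd hG)
    have h2 : f.ker.index ≠ 0 := by
      rw [hf, normalizerMonoidHom_ker]
      exact h1
    rw [index_ker] at h2
    exact Nat.finite_of_card_ne_zero h2
  set Λ : Subgroup (MulAut V) := (C.subgroupOf (Nz V)).map f with hΛ
  have hΛfin : Finite Λ :=
    Finite.of_injective (inclusion (map_le_range f _)) (inclusion_injective _)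
  have hΛp : IsPGroup p Λ := ((hG.to_subgroup (Nz V)).to_subgroup _).map f
  obtain ⟨s, hs⟩ := IsPGroup.iff_card.1 hΛp
  let : Fintype Λ := Fintype.ofFinite Λ
  let N : V →* V :=
    { toFun := fun v => ∏ σ : Λ, (σ : MulAut V) v
      map_one' := by simp
      map_mul' := fun v w => by simp [Finset.prod_mul_distrib] }
  have hN : ∀ v, N v = ∏ σ : Λ, (σ : MulAut V) v := fun v => rfl
  have hNσ : ∀ τ : Λ, ∀ v, N ((τ : MulAut V) v) = N v := by
    intro τ v
    rw [hN, hN]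
    exact Fintype.prod_equiv (Equiv.mulRight τ) _ _ fun σ => by simp
  have hf_apply : ∀ (g : Nz V) (v : V), ((f g v : V) : G) = g * v * (g : G)⁻¹ := fun g v => rfl
  have hker : V ≤ N.ker.map V.subtype := by
    refine hgen _ fun c hc hcV β hβ => ?_
    have hτ : f ⟨c⁻¹, inv_mem hcV⟩ ∈ Λ :=
      mem_map_of_mem f (mem_subgroupOf.2 (C.inv_mem hc))
    refine ⟨f ⟨c⁻¹, inv_mem hcV⟩ (⟨β, hβ⟩ : V)⁻¹ * ⟨β, hβ⟩, ?_, ?_⟩
    · have := hNσ ⟨_, hτ⟩ (⟨β, hβ⟩ : V)⁻¹
      change N _ = 1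
      rw [map_mul, this, ← map_mul, inv_mul_cancel, map_one]
    · change ((f ⟨c⁻¹, inv_mem hcV⟩ (⟨β, hβ⟩ : V)⁻¹ : V) : G) * β = rho c β
      rw [hf_apply]
      simp only [rho, inv_inv, InvMemClass.coe_inv]
      group
  have hN1 : ∀ v : V, N v = 1 := by
    intro v
    obtain ⟨w, hw, e⟩ := hker v.2
    have : w = v := Subtype.ext e
    exact this ▸ hw
  intro u hu
  obtain ⟨β, hβ, rfl⟩ := hd.pow s hu
  let b : V := ⟨β, hU' hβ⟩
  have h1 : ∏ σ : Λ, (b⁻¹ * (σ : MulAut V) b) ∈ U.subgroupOf V := by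
    refine Subgroup.prod_mem _ fun σ _ => ?_
    obtain ⟨σ, g, hg, rfl⟩ := σ
    rw [mem_subgroupOf]
    change β⁻¹ * ((f g b : V) : G) ∈ U
    rw [hf_apply]
    have := hC _ (C.inv_mem (mem_subgroupOf.1 hg)) β hβ
    simpa [rho, b] using this
  rw [Finset.prod_mul_distrib, ← hN, hN1, mul_one, Finset.prod_const, Finset.card_univ,
    ← Nat.card_eq_fintype_card, hs, inv_pow, inv_mem_iff, mem_subgroupOf] at h1
  exact h1

theorem rank_div_rhoIm {A : Subgroup G} {z : G} (hc : Comm A) (hv : IsDiv p A) (hz : z ∈ Nz A) :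
    IsDiv p (rhoIm z A) := by
  intro x hx
  obtain ⟨α, hα, rfl⟩ := (mem_rhoIm hc hz).1 hx
  obtain ⟨β, hβ, rfl⟩ := hv α hα
  exact ⟨rho z β, (mem_rhoIm hc hz).2 ⟨β, hβ, rfl⟩, (rho_pow hc hz hβ p).symm⟩

/-- A direction which is central modulo `C` and whose image has small socle. -/
theorem rank_dir (H : Hyp p k D) {S : Set G} (hS : S ⊆ D) {C A : Subgroup G}
    (hn : closure S ≤ Nz C) (hf : FinMod C (closure S : Subgroup G)) (hnle : ¬ closure S ≤ C)
    (hA : FR p A) (hAn : closure S ≤ Nz A) :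
    ∃ z ∈ closure S, z ∉ C ∧ (∀ g ∈ closure S, rho z g ∈ C) ∧
      (Om p (rhoIm z A)).ncard ≤ (k ^ p) ^ 2 := by
  have hT : ∀ d ∈ D, d ∈ closure S → Tower d (rhoIm d A) := fun d hd hdS =>
    tower_rhoIm hA.comm hA.div (hAn hdS) (H.pow d hd)
  rcases lcs_dir H.prime H.pgrp hn hf with h | ⟨d, hd, x, hx, h1, h2⟩
  · obtain ⟨d, hd, hdC⟩ : ∃ d ∈ S, d ∉ C := by
      by_contra hcon
      push Not at hcon
      exact hnle ((closure_le _).2 hcon)
    refine ⟨d, subset_closure hd, hdC, fun g hg => ?_, ?_⟩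
    · induction hg using closure_induction with
      | mem x hx => exact h d hd x hx
      | one => simp [rho]
      | mul x y _ hy ihx ihy =>
        have e : rho d (x * y) = rho d y * (y⁻¹ * rho d x * y) := by simp only [rho]; group
        rw [e]
        exact C.mul_mem ihy (Nz_conj (hn hy) ihx)
      | inv x hx ihx =>
        have e : rho d x⁻¹ = x * (rho d x)⁻¹ * x⁻¹ := by simp only [rho]; group
        rw [e]
        exact Nz_conj' (hn hx) (C.inv_mem ihx)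
    · exact ((hT d (hS hd) (subset_closure hd)).om_le H (hS hd)).trans
        (Nat.le_self_pow two_ne_zero _)
  · have hdS : d ∈ closure S := subset_closure hd
    have hxS : x ∈ closure S := by
      rcases hx with hx | hx
      · exact commutator_le_self _ hx
      · exact subset_closure hx
    have heS : x⁻¹ * d * x ∈ closure S := mul_mem (mul_mem (inv_mem hxS) hdS) hxS
    have heD : x⁻¹ * d * x ∈ D := H.conj d (hS hd) x
    have T1 := hT d (hS hd) hdS
    have T2 := hT _ heD heS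
    have F1 := T1.fr H (hS hd)
    have F2 := T2.fr H heD
    have hcz : rhoIm d A ≤ Cz (rhoIm (x⁻¹ * d * x) A) :=
      (rhoIm_le (hAn hdS)).trans (hA.comm.le_Cz.trans (Cz_anti (rhoIm_le (hAn heS))))
    obtain ⟨h3, h4⟩ := om_sup H.prime H.pgrp F1.comm F2.comm hcz F1.fin F2.fin
    refine ⟨rho d x, mul_mem (inv_mem hdS) heS, h1, h2, ?_⟩
    have hle : rhoIm (rho d x) A ≤ rhoIm d A ⊔ rhoIm (x⁻¹ * d * x) A := by
      refine (closure_le _).2 ?_
      rintro _ ⟨u, hu, rfl⟩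
      have hu1 : d * u * d⁻¹ ∈ A := Nz_conj' (hAn hdS) hu
      have e : rho (rho d x) u =
          rho (x⁻¹ * d * x) (d * u * d⁻¹) * (rho d (d * u * d⁻¹))⁻¹ := by
        simp only [rho]; group
      rw [SetLike.mem_coe, e]
      exact mul_mem (mem_sup_right (subset_closure ⟨_, hu1, rfl⟩))
        (inv_mem (mem_sup_left (subset_closure ⟨_, hu1, rfl⟩)))
    refine (om_mono h3 hle).trans (h4.trans ?_)
    rw [sq]
    exact Nat.mul_le_mul (T1.om_le H (hS hd)) (T2.om_le H heD)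

/-- One step up a chain of invariant divisible subgroups. -/
theorem rank_step (H : Hyp p k D) {S : Set G} (hS : S ⊆ D) {a : G}
    (haS : a ∈ closure S) {W : Subgroup G} (T : Tower a W) (hV : FR p (ncl W (closure S)))
    {U : Subgroup G} (hUd : IsDiv p U) (hUV : U < ncl W (closure S)) (hUn : closure S ≤ Nz U) :
    ∃ U' : Subgroup G, IsDiv p U' ∧ U' ≤ ncl W (closure S) ∧ closure S ≤ Nz U' ∧
      (Om p U').ncard ≤ (k ^ p) ^ 2 * (Om p U).ncard ∧ rhoIm a U < rhoIm a U' := by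
  classical
  set V := ncl W (closure S) with hVdef
  have hex : ∃ n, ∃ U' : Subgroup G, (IsDiv p U' ∧ U' ≤ V ∧ closure S ≤ Nz U' ∧ U < U') ∧
      (Om p U').ncard = n := ⟨_, V, ⟨hV.div, le_rfl, le_Nz_ncl _ _, hUV⟩, rfl⟩
  obtain ⟨U', ⟨hd, hle, hn, hlt⟩, hcard⟩ := Nat.find_spec hex
  have hFR : FR p U' := hV.of_le hle hd
  have hmin : ∀ X : Subgroup G, IsDiv p X → X ≤ U' → closure S ≤ Nz X → U < X → X = U' := by
    intro X h1 h2 h3 h4
    by_contra hne
    have h5 := om_lt H.pgrp h1 hFR (lt_of_le_of_ne h2 hne)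
    rw [hcard] at h5
    exact Nat.find_min hex h5 ⟨X, ⟨h1, h2.trans hle, h3, h4⟩, rfl⟩
  have hCn : closure S ≤ Nz (rank_C U U') := fun g hg => rank_Nz_C (hUn hg) (hn hg)
  have hCf : FinMod (rank_C U U') (closure S : Subgroup G) :=
    ((hV.finMod_Cz H.prime H.odd H.pgrp).mono (le_Nz_ncl W _)).of_le (rank_Cz_le_C hUV.le hle)
  have haC : a ∉ rank_C U U' := by
    intro haC
    refine hlt.not_ge (rank_norm H.prime H.odd H.pgrp hV hle hd (C := rank_C U U')
      (fun c hc => hc.2.2) fun L hL => ncl_le fun g hg x hx => ?_)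
    obtain ⟨β, hβ, rfl⟩ := (T.cjs g).surj x hx
    exact hL _ (Nz_conj (hCn hg) haC)
      (le_Nz_ncl W _ (mul_mem (mul_mem (inv_mem hg) haS) hg)) β (cjs_le_ncl W hg hβ)
  have hout : ∀ z ∈ closure S, z ∉ rank_C U U' → ∃ u ∈ U', rho z u ∉ U := by
    intro z hz hzC
    by_contra hcon
    push Not at hcon
    refine hzC ⟨hn hz, hUn hz, fun u hu => ?_⟩
    rw [rank_rho_swap]
    exact U.inv_mem (hcon u hu)
  obtain ⟨z, hz, hzC, hzc, hzo⟩ := rank_dir H hS hCn hCf (fun h => haC (h haS)) hFR hn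
  have hzle : rhoIm z U' ≤ U' := rhoIm_le (hn hz)
  have hcz : U ≤ Cz (rhoIm z U') := hlt.le.trans (hFR.comm.le_Cz.trans (Cz_anti hzle))
  have hzd : IsDiv p (rhoIm z U') := rank_div_rhoIm hFR.comm hd (hn hz)
  have hX : U ⊔ rhoIm z U' = U' := by
    refine hmin _ (hUd.sup hzd hcz) (sup_le hlt.le hzle) (fun g hg => ?_) ?_
    · refine mem_Nz_of_conj H.prime H.pgrp fun α hα => ?_
      have h1 : U ⊔ rhoIm z U' ≤ cjs (U ⊔ rhoIm z U') g⁻¹ := by
        refine sup_le (fun u hu => ?_) ((closure_le _).2 ?_)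
        · rw [mem_cjs, inv_inv]
          exact mem_sup_left (Nz_conj (hUn hg) hu)
        · rintro _ ⟨u, hu, rfl⟩
          rw [SetLike.mem_coe, mem_cjs, inv_inv]
          have hu' : g⁻¹ * u * g ∈ U' := Nz_conj (hn hg) hu
          have hy : z⁻¹ * (g⁻¹ * u * g)⁻¹ * z ∈ U' := Nz_conj (hn hz) (U'.inv_mem hu')
          have hr := (hzc g hg).2.2 _ hy
          have hu'N : g⁻¹ * u * g ∈ Nz U := Cz_le_Nz _ (Cz_anti hlt.le (hFR.comm.le_Cz hu'))
          have e : g⁻¹ * rho z u * g = rho z (g⁻¹ * u * g) * ((g⁻¹ * u * g)⁻¹ *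
              rho (z⁻¹ * (g⁻¹ * u * g)⁻¹ * z) (rho z g) * (g⁻¹ * u * g)) := by
            simp only [rho]; group
          rw [e]
          exact mul_mem (mem_sup_right (subset_closure ⟨_, hu', rfl⟩))
            (mem_sup_left (Nz_conj hu'N hr))
      simpa using mem_cjs.1 (h1 hα)
    · obtain ⟨u, hu, hu1⟩ := hout z hz hzC
      refine lt_of_le_of_ne le_sup_left fun e => hu1 ?_
      rw [e]
      exact mem_sup_right (subset_closure ⟨u, hu, rfl⟩)
  refine ⟨U', hd, hle, hn, ?_, ?_⟩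
  · have F1 : FR p U := hFR.of_le hlt.le hUd
    have F2 : FR p (rhoIm z U') := hFR.of_le hzle hzd
    have h4 := (om_sup H.prime H.pgrp F1.comm F2.comm hcz F1.fin F2.fin).2
    rw [hX] at h4
    rw [mul_comm]
    exact h4.trans (Nat.mul_le_mul_left _ hzo)
  · obtain ⟨u, hu, hu1⟩ := hout a haS haC
    refine lt_of_le_of_ne (rhoIm_mono a hlt.le) fun e => hu1 ?_
    refine rhoIm_le (hUn haS) ?_
    rw [e]
    exact subset_closure ⟨u, hu, rfl⟩

/-- Bounded version for a finitely generated acting group. -/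
theorem rank_le (H : Hyp p k D) {S : Set G} (hS : S ⊆ D) {a : G} (ha : a ∈ D)
    (haS : a ∈ closure S) {W : Subgroup G} (T : Tower a W) (hV : FR p (ncl W (closure S))) :
    (Om p (ncl W (closure S))).ncard ≤ ((k ^ p) ^ 2) ^ (k ^ p) := by
  have hk : 1 ≤ k := by
    have h1 : (1 : ℕ∞) ≤ (D ∩ {e | Commute a e}).encard :=
      Set.one_le_encard_iff_nonempty.2 ⟨a, ha, Commute.refl a⟩
    exact_mod_cast h1.trans (H.bnd a ha)
  have hM : ∀ n, 1 ≤ ((k ^ p) ^ 2) ^ n := fun n =>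
    Nat.one_le_pow _ _ (Nat.pow_pos (Nat.pow_pos hk))
  have hT : ∀ U : Subgroup G, IsDiv p U → U ≤ ncl W (closure S) → closure S ≤ Nz U →
      Tower a (rhoIm a U) := fun U h1 h2 h3 =>
    tower_rhoIm (hV.comm.mono h2) h1 (h3 haS) (H.pow a ha)
  have key : ∀ n : ℕ, ∀ U : Subgroup G, IsDiv p U → U ≤ ncl W (closure S) → closure S ≤ Nz U →
      k ^ p ≤ n + (Om p (rhoIm a U)).ncard →
      (Om p (ncl W (closure S))).ncard ≤ ((k ^ p) ^ 2) ^ n * (Om p U).ncard := by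
    intro n
    induction n with
    | zero =>
      intro U h1 h2 h3 h4
      rcases h2.eq_or_lt with e | hlt
      · rw [e]; simp
      · obtain ⟨U', g1, g2, g3, -, g5⟩ := rank_step H hS haS T hV h1 hlt h3
        have T' := hT U' g1 g2 g3
        have h5 := om_lt H.pgrp ((hT U h1 h2 h3).fr H ha).div (T'.fr H ha) g5
        have h6 := T'.om_le H ha
        omega
    | succ n ih =>
      intro U h1 h2 h3 h4
      rcases h2.eq_or_lt with e | hlt
      · rw [e]
        exact Nat.le_mul_of_pos_left _ (hM _)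
      · obtain ⟨U', g1, g2, g3, g4, g5⟩ := rank_step H hS haS T hV h1 hlt h3
        have T' := hT U' g1 g2 g3
        have h5 := om_lt H.pgrp ((hT U h1 h2 h3).fr H ha).div (T'.fr H ha) g5
        refine (ih U' g1 g2 g3 (by omega)).trans ?_
        rw [pow_succ _ n, mul_assoc]
        exact Nat.mul_le_mul_left _ g4
  have hb : Om p (⊥ : Subgroup G) = {1} := by
    ext x
    simp only [Om, Set.mem_ofPred_eq, Subgroup.mem_bot, Set.mem_singleton_iff]
    exact ⟨fun h => h.1, fun h => ⟨h, by rw [h, one_pow]⟩⟩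
  have h := key (k ^ p) ⊥ fr_bot.div bot_le (fun g _ => mem_Nz.2 fun x => by
    simp [mul_assoc, inv_mul_eq_one]) (Nat.le_add_right _ _)
  rwa [hb, Set.ncard_singleton, mul_one] at h

theorem rank_ncl_mono (W : Subgroup G) {Γ Γ' : Subgroup G} (h : Γ ≤ Γ') : ncl W Γ ≤ ncl W Γ' :=
  ncl_le fun _ hg => cjs_le_ncl W (h hg)

theorem rank_fin_gen {S : Set G} {g : G} (hg : g ∈ closure S) :
    ∃ S₀ ⊆ S, S₀.Finite ∧ g ∈ closure S₀ := by
  induction hg using closure_induction with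
  | mem x hx => exact ⟨{x}, by simpa using hx, Set.finite_singleton x, subset_closure rfl⟩
  | one => exact ⟨∅, Set.empty_subset _, Set.finite_empty, one_mem _⟩
  | mul x y _ _ hx hy =>
    obtain ⟨A, hA, fA, hx⟩ := hx
    obtain ⟨B, hB, fB, hy⟩ := hy
    exact ⟨A ∪ B, Set.union_subset hA hB, fA.union fB,
      mul_mem (closure_mono Set.subset_union_left hx) (closure_mono Set.subset_union_right hy)⟩
  | inv x _ hx =>
    obtain ⟨A, hA, fA, hx⟩ := hx
    exact ⟨A, hA, fA, inv_mem hx⟩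

theorem rank_fin_ncl {S : Set G} {W : Subgroup G} {x : G} (hx : x ∈ ncl W (closure S)) :
    ∃ S₀ ⊆ S, S₀.Finite ∧ x ∈ ncl W (closure S₀) := by
  induction hx using closure_induction with
  | mem x hx =>
    obtain ⟨g, hg, w, hw, rfl⟩ := hx
    obtain ⟨A, hA, fA, hg⟩ := rank_fin_gen hg
    exact ⟨A, hA, fA, subset_closure ⟨g, hg, w, hw, rfl⟩⟩
  | one => exact ⟨∅, Set.empty_subset _, Set.finite_empty, one_mem _⟩
  | mul x y _ _ hx hy =>
    obtain ⟨A, hA, fA, hx⟩ := hx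
    obtain ⟨B, hB, fB, hy⟩ := hy
    exact ⟨A ∪ B, Set.union_subset hA hB, fA.union fB,
      mul_mem (rank_ncl_mono W (closure_mono Set.subset_union_left) hx)
        (rank_ncl_mono W (closure_mono Set.subset_union_right) hy)⟩
  | inv x _ hx =>
    obtain ⟨A, hA, fA, hx⟩ := hx
    exact ⟨A, hA, fA, inv_mem hx⟩

/-- The rank bound. -/
theorem rankBound (H : Hyp p k D) {S : Set G} (hS : S ⊆ D) {a : G} (ha : a ∈ D)
    (haS : a ∈ closure S) {W : Subgroup G} (T : Tower a W) (hc : Comm (ncl W (closure S))) :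
    FR p (ncl W (closure S)) := by
  have hWd : IsDiv p W := (T.fr H ha).div
  have hv : IsDiv p (ncl W (closure S)) := div_ncl hWd hc
  refine ⟨hc, hv, ?_⟩
  have h1 : ∀ S₀ : Set G, S₀.Finite → S₀ ⊆ S → ∃ L ≤ ncl W (closure S), FR p L ∧ W ≤ L ∧
      ∀ d ∈ S₀, rhoIm d (ncl W (closure S)) ≤ L := by
    intro S₀ hf
    induction S₀, hf using Set.Finite.induction_on with
    | empty => exact fun _ => ⟨W, le_ncl _ _, T.fr H ha, le_rfl, fun d hd => hd.elim⟩
    | @insert d s _ _ ih =>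
      intro hsub
      obtain ⟨L, g1, g2, g3, g4⟩ := ih ((Set.subset_insert d s).trans hsub)
      have hd : d ∈ S := hsub (Set.mem_insert d s)
      have hdn : d ∈ Nz (ncl W (closure S)) := le_Nz_ncl W _ (subset_closure hd)
      have T' := tower_rhoIm hc hv hdn (H.pow d (hS hd))
      refine ⟨L ⊔ rhoIm d (ncl W (closure S)), sup_le g1 (rhoIm_le hdn),
        g2.sup H.prime H.pgrp (T'.fr H (hS hd))
          (g1.trans (hc.le_Cz.trans (Cz_anti (rhoIm_le hdn)))),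
        g3.trans le_sup_left, fun e he => ?_⟩
      rcases he with rfl | he
      · exact le_sup_right
      · exact (g4 e he).trans le_sup_left
  have h2 : ∀ S₀ : Set G, S₀.Finite → S₀ ⊆ S → FR p (ncl W (closure S₀)) := by
    intro S₀ hf hsub
    obtain ⟨L, g1, g2, g3, g4⟩ := h1 S₀ hf hsub
    have hn : closure S₀ ≤ Nz L := by
      refine (closure_le _).2 fun d hd => mem_Nz_of_conj H.prime H.pgrp fun α hα => ?_
      have e : d⁻¹ * α * d = α * (rho d α)⁻¹ := by simp only [rho]; group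
      rw [e]
      exact mul_mem hα (inv_mem (g4 d hd (subset_closure ⟨α, g1 hα, rfl⟩)))
    refine g2.of_le (ncl_le fun g hg => ?_)
      (div_ncl hWd (hc.mono (rank_ncl_mono W (closure_mono hsub))))
    exact (cjs_mono g3 g).trans (cjs_eq_of_Nz (hn hg)).le
  have h3 : ∀ F : Set G, F.Finite → F ⊆ ncl W (closure S) →
      ∃ S₀ ⊆ S, S₀.Finite ∧ a ∈ closure S₀ ∧ F ⊆ ncl W (closure S₀) := by
    intro F hf
    induction F, hf using Set.Finite.induction_on with
    | empty =>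
      intro _
      obtain ⟨A, hA, fA, h⟩ := rank_fin_gen haS
      exact ⟨A, hA, fA, h, Set.empty_subset _⟩
    | @insert x s _ _ ih =>
      intro hsub
      obtain ⟨A, hA, fA, g1, g2⟩ := ih ((Set.subset_insert x s).trans hsub)
      obtain ⟨B, hB, fB, g3⟩ := rank_fin_ncl (hsub (Set.mem_insert x s))
      refine ⟨A ∪ B, Set.union_subset hA hB, fA.union fB,
        closure_mono Set.subset_union_left g1, Set.insert_subset ?_ fun y hy => ?_⟩
      · exact rank_ncl_mono W (closure_mono Set.subset_union_right) g3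
      · exact rank_ncl_mono W (closure_mono Set.subset_union_left) (g2 hy)
  by_contra hinf
  obtain ⟨F, hF, fF, cF⟩ :=
    Set.Infinite.exists_subset_ncard_eq hinf (((k ^ p) ^ 2) ^ (k ^ p) + 1)
  obtain ⟨S₀, g1, g2, g3, g4⟩ := h3 F fF fun x hx => (hF hx).1
  have g5 := h2 S₀ g2 g1
  have g6 := rank_le H (g1.trans hS) ha g3 T g5
  have g7 : F.ncard ≤ (Om p (ncl W (closure S₀))).ncard :=
    Set.ncard_le_ncard (fun x hx => ⟨g4 hx, (hF hx).2⟩) g5.fin
  omega

end Pool.Agent.Lib.MP_7d7b85_al
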