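import Pool.Agent.Lib.MP_7d7b85_al.Beta
import Pool.Agent.Lib.MP_7d7b85_al.Chain
import Pool.Agent.Lib.MP_7d7b85_al.Rank

namespace Pool.Agent.Lib.MP_7d7b85_al

open Subgroup Filter

variable {G : Type} [Group G] {p k : ℕ} {D : Set G}

variable {I : Type} {r : Ultrafilter I}

/-- A normal finite rank subgroup with maximal tower at `f`. -/
theorem ft_max (H : Hyp p k D) {Γ : Subgroup G} {f : G} (hfD : f ∈ D) (hf : f ∈ Γ) :
    ∃ R, (FR p R ∧ R ≤ Γ ∧ Γ ≤ Nz R) ∧ ∀ R', FR p R' → R' ≤ Γ → Γ ≤ Nz R' →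
      (Om p (rhoIm f R')).ncard ≤ (Om p (rhoIm f R)).ncard := by
  classical
  have hb : ∀ R, FR p R → Γ ≤ Nz R → (Om p (rhoIm f R)).ncard ≤ k ^ p := fun R h1 h2 =>
    (tower_rhoIm h1.comm h1.div (h2 hf) (H.pow f hfD)).om_le H hfD
  let P : ℕ → Prop := fun m => ∃ R, (FR p R ∧ R ≤ Γ ∧ Γ ≤ Nz R) ∧ (Om p (rhoIm f R)).ncard = m
  have h0 : P (Om p (rhoIm f (⊥ : Subgroup G))).ncard :=
    ⟨⊥, ⟨fr_bot, bot_le, fun g _ => mem_Nz.2 fun h => by
      simp only [Subgroup.mem_bot]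
      constructor
      · rintro rfl
        simp
      · intro h1
        calc h = g * (g⁻¹ * h * g) * g⁻¹ := by group
          _ = 1 := by rw [h1]; simp⟩, rfl⟩
  have hle : (Om p (rhoIm f (⊥ : Subgroup G))).ncard ≤ k ^ p := by
    obtain ⟨R, hR, e⟩ := h0
    rw [← e]
    exact hb R hR.1 hR.2.2
  obtain ⟨R, hR, e⟩ := Nat.findGreatest_spec (P := P) hle h0
  refine ⟨R, hR, fun R' h1 h2 h3 => ?_⟩
  rw [e]
  exact Nat.le_findGreatest (hb R' h1 h3) ⟨R', ⟨h1, h2, h3⟩, rfl⟩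

/-- Points normalising a finite subgroup over which the family has property `CO` lie in `TT`. -/
theorem fprime (H : Hyp p k D) {e : I → G} {c : G} (hB : Beta p D r e c) {K K' : Subgroup G}
    (hN : NoCT r e K) (hK : K ≤ K') (hf : (K' : Set G).Finite)
    (he : ∀ᶠ l in r, e l ∈ Nz K' ∧ CO p (Gam D K') (e l)) {f : G} (hfD : f ∈ D)
    (hfn : f ∈ Nz K') : f ∈ TT r e := by
  intro j
  have hp := H.prime
  have hG := H.pgrp
  have hfΓ : f ∈ Gam D K' := mem_Gam hfD hfn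
  have heΓ : ∀ᶠ l in r, e l ∈ Gam D K' := by
    filter_upwards [he, hB.mem] with l h1 h2
    exact mem_Gam h2.1 h1.1
  obtain ⟨R, ⟨fR, hRΓ, hΓR⟩, hmax⟩ := ft_max H hfD hfΓ
  have TB : Tower f (rhoIm f R) := tower_rhoIm fR.comm fR.div (hΓR hfΓ) (H.pow f hfD)
  have hBR : rhoIm f R ≤ R := rhoIm_le (hΓR hfΓ)
  have hRK : R ≤ Cz K :=
    (fR.div.le_Cz_of_finite hp hG (hRΓ.trans (Gam_le_Nz D K')) hf).trans (Cz_anti hK)
  have heR : ∀ᶠ l in r, e l ∈ Cz R := centFR H hN fR hRK (by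
    filter_upwards [heΓ, hB.mem] with l h1 h2
    exact ⟨h2.1, hΓR h1⟩)
  obtain ⟨L, hL⟩ := exists_COsub hp H.odd hG (Gam D K')
  have hΓL : Gam D K' ≤ Nz L := fun g hg => mem_Nz_of_conj hp hG fun α hα =>
    (hL _).2 ⟨mul_mem (mul_mem (inv_mem hg) ((hL α).1 hα).1) hg, ((hL α).1 hα).2.conj hg⟩
  have hLΓ : L ≤ Gam D K' := fun g hg => ((hL g).1 hg).1
  have heL : ∀ᶠ l in r, e l ∈ L := by
    filter_upwards [heΓ, he] with l h1 h2
    exact (hL _).2 ⟨h1, h2.2⟩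
  by_cases h2 : ∀ᶠ l in r, NonC r (fun l' => rho f (e l' ^ j * (e l ^ j)⁻¹)) (rhoIm f R)
  · exfalso
    obtain ⟨B', T', hlt, hle⟩ := cf H hfD TB r (fun l => e l ^ j) L (hΓL hfΓ) (fun s hs => by
        obtain ⟨A, fA, -, hΓA, hA⟩ := ((hL s).1 hs).2
        exact constLem hp H.odd hG fA r _ (heΓ.mono fun l hl => hΓA (pow_mem hl j)) hA
          (heΓ.mono fun l hl => ⟨_, pow_mem hl j, rfl⟩) (hB.eta H j)) (by
        filter_upwards [heR, heL] with l a1 a2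
        filter_upwards [heR, heL] with l' b1 b2
        exact ⟨Cz_anti hBR (mul_mem (pow_mem b1 j) (inv_mem (pow_mem a1 j))),
          rho_mem_of_Nz (hΓL hfΓ) (mul_mem (pow_mem b2 j) (inv_mem (pow_mem a2 j)))⟩) h2
    have hB'L : B' ≤ L := hle.trans (sup_le le_rfl fun g hg =>
      (hL g).2 ⟨hRΓ (hBR hg), CO.of_mem_FR fR hRΓ hΓR (hBR hg)⟩)
    have fB' : FR p B' := T'.fr H hfD
    have hcj : ∀ g ∈ Gam D K', cjs B' g ≤ L := fun g hg x hx => by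
      have := Nz_conj (hΓL hg) (hB'L (mem_cjs.1 hx))
      simpa [mul_assoc] using this
    have hc : Comm (ncl B' (Gam D K')) := comm_ncl fun g hg =>
      divCC hp H.odd hG (fB'.div.cjs g) fB'.div ((hcj g hg).trans hLΓ) (hB'L.trans hLΓ)
        fun α hα => ((hL α).1 (hcj g hg hα)).2
    have fV : FR p (ncl B' (Gam D K')) :=
      rankBound H (S := D ∩ (Nz K' : Set G)) Set.inter_subset_left hfD hfΓ T' hc
    have hΓV := le_Nz_ncl B' (Gam D K')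
    have h3 := hmax _ fV (ncl_le fun g hg => (hcj g hg).trans hLΓ) hΓV
    have h4 := om_lt hG (TB.fr H hfD).div fB' hlt
    have h5 := om_mono ((tower_rhoIm fV.comm fV.div (hΓV hfΓ) (H.pow f hfD)).fr H hfD).fin
      (T'.le_rhoIm (le_ncl B' (Gam D K')))
    omega
  · obtain ⟨l, a1, a2⟩ := ((Ultrafilter.eventually_not.2 h2).and heΓ).exists
    simp only [NonC, not_forall] at a1
    obtain ⟨g, hg⟩ := a1
    refine constLem hp H.odd hG fR r _ (heΓ.mono fun l hl => hΓR (pow_mem hl j))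
      (X := {x | ((e l ^ j)⁻¹ * (f * g) * e l ^ j)⁻¹ * x ∈ R})
      ⟨{_}, Set.finite_singleton _, fun x hx => ⟨_, rfl, hx⟩⟩ ?_ (hB.eta H j)
    filter_upwards [Ultrafilter.eventually_not.2 hg] with l' b1
    have b2 := Nz_conj (hΓR (pow_mem a2 j)) (hBR (not_not.1 b1))
    change _ * _ ∈ R
    convert b2 using 1
    unfold rho
    group

/-- The delta trick. -/
theorem delta (H : Hyp p k D) {e : I → G} {c d : G} (hB : Beta p D r e c) {K : Subgroup G}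
    (hK : (K : Set G).Finite) (hKT : K ≤ TT r e) (hd : d ∈ D) (hdT : d ∈ TT r e) (hn : d ∈ Nz K)
    (h : CO p (Gam D K) d) : orb d (Gam D K) ⊆ TT r e := by
  rintro _ ⟨γ, hγ, rfl⟩ j
  have hγ' : γ ∈ Gam D K := hγ
  obtain ⟨A, fA, -, -, hA, hθ⟩ := h.ta H hd (mem_Gam hd hn)
  have h1 : ∀ g ∈ insert d (K : Set G), EvC r (fun l => e l ^ j) g := by
    rintro g (rfl | hg)
    · exact hdT j
    · exact hKT hg j
  choose! τ hτ using h1
  have h2 : ∀ᶠ l in r, ∀ g ∈ insert d (K : Set G), (e l ^ j)⁻¹ * g * e l ^ j = τ g :=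
    (Filter.eventually_all_finite (hK.insert d)).2 hτ
  obtain ⟨l0, hl0⟩ := h2.exists
  have h3 : ∀ᶠ l in r, ∀ g ∈ insert d (K : Set G), Commute g (e l ^ j * (e l0 ^ j)⁻¹) :=
    h2.mono fun l hl g hg => commute_iff_conj.2 (by
      calc (e l ^ j * (e l0 ^ j)⁻¹)⁻¹ * g * (e l ^ j * (e l0 ^ j)⁻¹)
          = e l0 ^ j * ((e l ^ j)⁻¹ * g * e l ^ j) * (e l0 ^ j)⁻¹ := by group
        _ = e l0 ^ j * ((e l0 ^ j)⁻¹ * g * e l0 ^ j) * (e l0 ^ j)⁻¹ := by rw [hl g hg, hl0 g hg]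
        _ = g := by group)
  have h4 : ∀ᶠ l in r, e l ^ j * (e l0 ^ j)⁻¹ ∈ Nz (Gam D K) := h3.mono fun l hl =>
    Nz_le_Nz_Gam H K (Cz_le_Nz K (mem_Cz.2 fun α hα => hl α (Set.mem_insert_of_mem d hα)))
  obtain ⟨s, hs⟩ := constLem H.prime H.odd H.pgrp fA r (fun l => e l ^ j * (e l0 ^ j)⁻¹)
    (s := γ⁻¹ * d * γ) (by
      filter_upwards [h3, h4] with l a1 a2
      exact hθ _ a2 (a1 d (Set.mem_insert _ _))) hA (by
      filter_upwards [h3, h4] with l a1 a2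
      refine ⟨_, Nz_conj a2 hγ', ?_⟩
      have a3 := commute_iff_conj.1 (a1 d (Set.mem_insert _ _))
      generalize e l ^ j * (e l0 ^ j)⁻¹ = θ at a3
      calc θ⁻¹ * (γ⁻¹ * d * γ) * θ = (θ⁻¹ * γ * θ)⁻¹ * (θ⁻¹ * d * θ) * (θ⁻¹ * γ * θ) := by group
        _ = (θ⁻¹ * γ * θ)⁻¹ * d * (θ⁻¹ * γ * θ) := by rw [a3]) (by
      filter_upwards [hB.eta H j] with l a1
      filter_upwards [a1] with l' a2
      have e1 : (e l ^ j * (e l0 ^ j)⁻¹)⁻¹ * (e l' ^ j * (e l0 ^ j)⁻¹) =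
          e l0 ^ j * ((e l ^ j)⁻¹ * e l' ^ j) * (e l0 ^ j)⁻¹ := by group
      rw [e1, conj_pow, a2]
      simp)
  refine ⟨(e l0 ^ j)⁻¹ * s * e l0 ^ j, hs.mono fun l hl => ?_⟩
  rw [← hl]
  group

end Pool.Agent.Lib.MP_7d7b85_al
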