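import Pool.Agent.Lib.MP_7d7b85_al.Costar
import Pool.Agent.Lib.MP_7d7b85_al.FT
import Pool.Agent.Lib.MP_7d7b85_al.FClose

namespace Pool.Agent.Lib.MP_7d7b85_al

open Subgroup Filter

variable {G : Type} [Group G] {p k : ℕ} {D : Set G}

theorem mtwo {n : ℕ} (hT : TS p k (n + 1)) (H : Hyp p k D) {K : Subgroup G} {t : Dat G} {a : G}
    (hg : Good p D K t a) (hn : n ≤ t.m + t.n) : MTwo p D K a := by
  intro g hgK K' hK' hf hd x hx
  refine hT G D H _ _ _ (((hg.conj H hgK).mono hK' hf hd).two H hx) ?_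
  simp only [Dat.two]; omega

theorem dicho_aux {n : ℕ} (hT : TS p k (n + 1)) (H : Hyp p k D) {K : Subgroup G} {t : Dat G}
    {d : G} (hg : Good p D K t d) (hn : n ≤ t.m + t.n) {I : Type} {r : Ultrafilter I} {x : I → G}
    (hx : ∀ᶠ l in r, PD d K (x l) ∧ OK p D d K (rho d (x l)))
    (hN : NonC r (fun l => rho d (x l)) K) :
    ¬ NoCT r (fun l => (x l)⁻¹ * d * x l) (ext K d) := by
  intro hC
  obtain ⟨σ, -, hσ⟩ := ultra_fin r hg.fin (fun l => rho (rho d (x l)) (x l))
    (hx.mono fun l h => h.1.comm_mem)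
  have g2 : ∀ᶠ l in r, Good p D (ext K d) (t.two K d σ) ((x l)⁻¹ * d * x l) := by
    filter_upwards [hx, hσ] with l h1 h2
    exact h2 ▸ hg.two H h1.1
  have hn2 : n + 1 ≤ (t.two K d σ).m + (t.two K d σ).n := by simp only [Dat.two]; omega
  obtain ⟨c, hB⟩ := exists_beta hT H g2 hn2 hC
  have f1 : ((ext K d : Subgroup G) : Set G).Finite := finite_ext H.prime H.pgrp hg.norm hg.fin
  have t1 : ext K d ≤ TT r fun l => (x l)⁻¹ * d * x l := TT.of_finite f1 (g2.mono fun l h => h.norm)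
  have dK : d ∈ ext K d := mem_sup_right (mem_zpowers d)
  obtain ⟨i, ⟨hi, ok⟩, hgl, hm, hrel⟩ :=
    (hx.and ((glem hT H hg hn (hx.mono fun l h => h.1) hB hN).and (hB.mem.and hB.rel))).exists
  have wT : rho d (x i) ∈ TT r fun l => (x l)⁻¹ * d * x l := mul_mem (inv_mem (t1 dK)) hm.2
  rcases ok with ⟨f, fD, fK, fK2, hf⟩ | ⟨hco, y, hy, hf⟩
  · have wN : rho d (x i) ∈ Nz (ext K d) :=
      mul_mem (inv_mem (le_Nz _ dK)) (hi.norm_ext H hg.norm).2.1
    have eK : (x i)⁻¹ * d * x i ∈ ext (ext K d) (rho d (x i)) :=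
      mul_rho d (x i) ▸ mul_mem (mem_sup_left dK) (mem_sup_right (mem_zpowers _))
    obtain ⟨K', h1, h2, h3, h4⟩ := fclose H hB (finite_ext H.prime H.pgrp wN f1)
      (sup_le t1 (zpowers_le.2 wT)) eK hm.1
      (by obtain ⟨l, hl⟩ := hrel.exists; exact hl ▸ H.conj _ hm.1 _) (by
        filter_upwards [g2, hB.mem, hrel] with l a1 a2 a3
        have cK : c ∈ ext (ext (ext K d) (rho d (x i))) c := mem_sup_right (mem_zpowers c)
        have key : ext (ext (ext K d) (rho d (x i))) c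
            ≤ cjs (ext (ext (ext K d) (rho d (x i))) c) ((x l)⁻¹ * d * x l)⁻¹ := by
          refine sup_le (sup_le (fun α hα => ?_) (zpowers_le.2 ?_)) (zpowers_le.2 ?_) <;>
            rw [mem_cjs, inv_inv]
          · exact mem_sup_left (mem_sup_left (Nz_conj a1.norm hα))
          · have b1 := mul_mem (inv_mem (mem_sup_left (mem_sup_left (Nz_conj a1.norm dK))))
              (mul_mem (mem_sup_left eK) cK)
            rw [← a3] at b1
            convert b1 using 1
            simp only [rho]; group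
          · rwa [commute_iff_conj.1 (mem_Cz.1 hB.c_cent _ a2.2).symm]
        refine mem_Nz_of_conj H.prime H.pgrp fun α hα => ?_
        have := key hα
        rwa [mem_cjs, inv_inv] at this) fD fK2
    have h5 : ext K d ≤ K' := le_sup_left.trans h1
    have := fprime H hB hC h5 h2 (by
      filter_upwards [g2, h4] with l a1 a2
      exact ⟨a2, hT G D H _ _ _ (a1.mono h5 h2 a2) hn2⟩) fD h3
    exact hgl f (subset_closure ⟨⟨fD, this⟩, fK⟩) (mul_rho d (x i) ▸ hf)
  · have := delta H hB (finite_ext H.prime H.pgrp (Cz_le_Nz _ (hi.rho_cent hg.norm)) hg.fin)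
      (sup_le (le_sup_left.trans t1) (zpowers_le.2 wT)) hg.mem (t1 dK) (hi.norm_ext H hg.norm).1 hco
    refine hgl y (Subgroup.closure_mono ?_ hy) (mul_rho d (x i) ▸ hf)
    rintro z ⟨hz, hz'⟩
    refine ⟨⟨?_, this hz⟩, hz'⟩
    obtain ⟨g, -, rfl⟩ := hz
    exact H.conj _ hg.mem g

theorem dich {n : ℕ} (hT : TS p k (n + 1)) (H : Hyp p k D) {K : Subgroup G} {t : Dat G} {a : G}
    (hg : Good p D K t a) (hn : n ≤ t.m + t.n) : Dich p D K a :=
  fun _ hgK _ hK' hf hd _ _ _ hx hN => dicho_aux hT H ((hg.conj H hgK).mono hK' hf hd) hn hx hN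

end Pool.Agent.Lib.MP_7d7b85_al
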