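import Mathlib

/-! An example in which the normal closure of the special element is infinite of exponent `p`. -/

namespace Pool.Agent.Lib.MP_7d7b85_al

open Polynomial

variable {p : ℕ}

/-- The vector space with one basis vector for every polynomial. -/
abbrev EV (p : ℕ) : Type := (ZMod p)[X] →₀ ZMod p

/-- The alternating form given by the leading coefficient of the difference. -/
noncomputable def eB (p : ℕ) : EV p →ₗ[ZMod p] EV p →ₗ[ZMod p] ZMod p :=
  Finsupp.linearCombination (ZMod p) fun g =>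
    Finsupp.linearCombination (ZMod p) fun h => (h - g).leadingCoeff

/-- Translation. -/
noncomputable def eT (c : (ZMod p)[X]) : EV p →ₗ[ZMod p] EV p :=
  Finsupp.lmapDomain (ZMod p) (ZMod p) (c + ·)

theorem eB_single (g h : (ZMod p)[X]) (s t : ZMod p) :
    eB p (Finsupp.single g s) (Finsupp.single h t) = s * (t * (h - g).leadingCoeff) := by
  simp [eB]

@[simp] theorem eT_single (c g : (ZMod p)[X]) (s : ZMod p) :
    eT c (Finsupp.single g s) = Finsupp.single (c + g) s := by
  simp [eT]

@[simp] theorem eT_zero (u : EV p) : eT 0 u = u := by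
  induction u using Finsupp.induction_linear with
  | zero => simp
  | add u v hu hv => rw [map_add, hu, hv]
  | single g s => simp

theorem eT_add (c d : (ZMod p)[X]) (u : EV p) : eT (c + d) u = eT c (eT d u) := by
  induction u using Finsupp.induction_linear with
  | zero => simp
  | add u v hu hv => simp only [map_add, hu, hv]
  | single g s => simp [add_assoc]

theorem eB_eT (c : (ZMod p)[X]) (u v : EV p) : eB p (eT c u) (eT c v) = eB p u v := by
  induction u using Finsupp.induction_linear with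
  | zero => simp
  | add u u' hu hu' => simp only [map_add, LinearMap.add_apply, hu, hu']
  | single g s =>
    induction v using Finsupp.induction_linear with
    | zero => simp
    | add v v' hv hv' => simp only [map_add, hv, hv']
    | single h t => simp [eB_single]

theorem eB_swap (u v : EV p) : eB p u v = -eB p v u := by
  induction u using Finsupp.induction_linear with
  | zero => simp
  | add u u' hu hu' => simp only [map_add, LinearMap.add_apply, hu, hu', neg_add]
  | single g s =>
    induction v using Finsupp.induction_linear with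
    | zero => simp
    | add v v' hv hv' => simp only [map_add, LinearMap.add_apply, hv, hv', neg_add]
    | single h t =>
      rw [eB_single, eB_single, ← neg_sub g h, leadingCoeff_neg]
      ring

/-- An odd prime. -/
class OddP (p : ℕ) : Prop where
  prime : p.Prime
  odd : p ≠ 2

instance [h : OddP p] : Fact p.Prime := ⟨h.prime⟩

theorem e_two [h : OddP p] {x : ZMod p} (hx : x = -x) : x = 0 := by
  have h2 : (2 : ZMod p) ≠ 0 := fun e => h.odd <| by
    have : ((2 : ℕ) : ZMod p) = 0 := by exact_mod_cast e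
    exact (Nat.prime_dvd_prime_iff_eq h.prime Nat.prime_two).1 ((ZMod.natCast_eq_zero_iff 2 p).1 this)
  have : 2 * x = 0 := by linear_combination hx
  exact (mul_eq_zero.1 this).resolve_left h2

@[simp] theorem eB_self [OddP p] (u : EV p) : eB p u u = 0 := e_two (eB_swap u u)

/-- The elements of the example. -/
@[ext] structure Ex (p : ℕ) where
  u : EV p
  s : ZMod p
  c : (ZMod p)[X]

noncomputable instance : Mul (Ex p) :=
  ⟨fun x y => ⟨x.u + eT x.c y.u, x.s + y.s + eB p x.u (eT x.c y.u), x.c + y.c⟩⟩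
noncomputable instance : One (Ex p) := ⟨⟨0, 0, 0⟩⟩
noncomputable instance : Inv (Ex p) := ⟨fun x => ⟨-eT (-x.c) x.u, -x.s, -x.c⟩⟩

@[simp] theorem Ex.mul_u (x y : Ex p) : (x * y).u = x.u + eT x.c y.u := rfl
@[simp] theorem Ex.mul_s (x y : Ex p) : (x * y).s = x.s + y.s + eB p x.u (eT x.c y.u) := rfl
@[simp] theorem Ex.mul_c (x y : Ex p) : (x * y).c = x.c + y.c := rfl
@[simp] theorem Ex.one_u : (1 : Ex p).u = 0 := rfl
@[simp] theorem Ex.one_s : (1 : Ex p).s = 0 := rfl
@[simp] theorem Ex.one_c : (1 : Ex p).c = 0 := rfl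
@[simp] theorem Ex.inv_u (x : Ex p) : x⁻¹.u = -eT (-x.c) x.u := rfl
@[simp] theorem Ex.inv_s (x : Ex p) : x⁻¹.s = -x.s := rfl
@[simp] theorem Ex.inv_c (x : Ex p) : x⁻¹.c = -x.c := rfl

noncomputable instance [OddP p] : Group (Ex p) :=
  Group.ofLeftAxioms
    (fun x y z => by
      refine Ex.ext ?_ ?_ ?_
      · simp [eT_add, add_assoc]
      · simp only [Ex.mul_s, Ex.mul_u, Ex.mul_c, map_add, LinearMap.add_apply, eT_add, eB_eT]
        ring
      · simp [add_assoc])
    (fun x => by refine Ex.ext ?_ ?_ ?_ <;> simp)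
    (fun x => by refine Ex.ext ?_ ?_ ?_ <;> simp)

variable [OddP p]

theorem Ex.pow_c (x : Ex p) (n : ℕ) : (x ^ n).c = n • x.c := by
  induction n with
  | zero => simp
  | succ n ih => rw [pow_succ, Ex.mul_c, ih, succ_nsmul]

theorem Ex.pow_eq (x : Ex p) (hx : x.c = 0) (n : ℕ) :
    x ^ n = ⟨(n : ZMod p) • x.u, (n : ZMod p) * x.s, 0⟩ := by
  induction n with
  | zero => refine Ex.ext ?_ ?_ ?_ <;> simp
  | succ n ih =>
    rw [pow_succ, ih]
    refine Ex.ext ?_ ?_ ?_
    · simp [add_smul]
    · simp [add_mul]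
    · simp [hx]

theorem Ex.pow_p (x : Ex p) (hx : x.c = 0) : x ^ p = 1 := by
  rw [x.pow_eq hx]
  refine Ex.ext ?_ ?_ ?_ <;> simp

/-- The special element. -/
noncomputable def eA (p : ℕ) : Ex p := ⟨Finsupp.single 0 1, 0, 0⟩

theorem eA_conj (g : Ex p) :
    (g⁻¹ * eA p * g).u = Finsupp.single (-g.c) 1 ∧ (g⁻¹ * eA p * g).c = 0 := by
  constructor <;> simp [eA]

theorem example_thm : IsPGroup p (Ex p) ∧ orderOf (eA p) = p ∧
    (∀ g : Ex p, Finite (Subgroup.closure ({eA p, g⁻¹ * eA p * g} : Set (Ex p)))) ∧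
    ((Subgroup.centralizer ({eA p} : Set (Ex p)) : Set (Ex p)) ∩
      {x | ∃ g, x = g⁻¹ * eA p * g}).Finite ∧
    Infinite (Subgroup.normalClosure ({eA p} : Set (Ex p))) ∧
    ∀ x ∈ Subgroup.normalClosure ({eA p} : Set (Ex p)), x ^ p = 1 := by
  refine ⟨fun x => ⟨2, ?_⟩, orderOf_eq_prime (Ex.pow_p _ rfl) fun e => ?_, fun g => ?_, ?_, ?_, ?_⟩
  · rw [pow_two, pow_mul]
    refine Ex.pow_p _ ?_
    rw [Ex.pow_c, nsmul_eq_mul, CharP.cast_eq_zero, zero_mul]
  · simpa [eA] using congrArg Ex.u e
  · let H : Subgroup (Ex p) :=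
      { carrier := Set.range fun q : ZMod p × ZMod p × ZMod p =>
          ⟨Finsupp.single 0 q.1 + Finsupp.single (-g.c) q.2.1, q.2.2, 0⟩
        one_mem' := ⟨0, by refine Ex.ext ?_ ?_ ?_ <;> simp⟩
        mul_mem' := by
          rintro x y ⟨q, hq⟩ ⟨r, hr⟩
          refine ⟨(q.1 + r.1, q.2.1 + r.2.1, (x * y).s), Ex.ext ?_ rfl ?_⟩
          · rw [← hq, ← hr]
            simp only [Ex.mul_u, eT_zero, Finsupp.single_add]
            abel
          · simp [← hq, ← hr]
        inv_mem' := by
          rintro x ⟨q, hq⟩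
          refine ⟨(-q.1, -q.2.1, x⁻¹.s), Ex.ext ?_ rfl ?_⟩
          · rw [← hq]
            simp only [Ex.inv_u, neg_zero, eT_zero, Finsupp.single_neg]
            abel
          · simp [← hq] }
    have hle : Subgroup.closure ({eA p, g⁻¹ * eA p * g} : Set (Ex p)) ≤ H := by
      refine (Subgroup.closure_le _).2 ?_
      rintro _ (rfl | rfl)
      · exact ⟨(1, 0, 0), by simp [eA]⟩
      · exact ⟨(0, 1, (g⁻¹ * eA p * g).s),
          Ex.ext (by rw [(eA_conj g).1]; simp) rfl (eA_conj g).2.symm⟩
    exact ((Set.finite_range _).subset hle).to_subtype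
  · refine (Set.finite_range fun s : ZMod p => (⟨Finsupp.single 0 1, s, 0⟩ : Ex p)).subset ?_
    rintro x ⟨hx, g, rfl⟩
    obtain ⟨h1, h2⟩ := eA_conj g
    have h3 := congrArg Ex.s (Subgroup.mem_centralizer_singleton_iff.1 hx)
    generalize g⁻¹ * eA p * g = x at h1 h2 h3
    rw [Ex.mul_s, Ex.mul_s, h1, h2] at h3
    simp only [eA, eT_zero, eB_single] at h3
    have h4 : g.c.leadingCoeff = 0 := e_two (by simpa using h3)
    rw [leadingCoeff_eq_zero] at h4
    exact ⟨x.s, Ex.ext (by simp [h1, h4]) rfl h2.symm⟩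
  · refine Infinite.of_injective (fun d : (ZMod p)[X] =>
      (⟨(⟨0, 0, d⟩ : Ex p)⁻¹ * eA p * ⟨0, 0, d⟩, ?_⟩ :
        Subgroup.normalClosure ({eA p} : Set (Ex p)))) fun d e h => ?_
    · simpa using Subgroup.normalClosure_normal.conj_mem _
        (Subgroup.subset_normalClosure (Set.mem_singleton (eA p))) (⟨0, 0, d⟩ : Ex p)⁻¹
    · have := congrArg (fun x => x.1.u) h
      simp only [(eA_conj _).1] at this
      simpa using Finsupp.single_left_injective one_ne_zero this
  · let E : Subgroup (Ex p) :=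
      { carrier := {x | x.c = 0}
        one_mem' := rfl
        mul_mem' := fun {x y} (hx : x.c = 0) (hy : y.c = 0) => show (x * y).c = 0 by simp [hx, hy]
        inv_mem' := fun {x} (hx : x.c = 0) => show x⁻¹.c = 0 by simp [hx] }
    have : E.Normal := ⟨fun x (hx : x.c = 0) g => show (g * x * g⁻¹).c = 0 by simp [hx]⟩
    have hle : Subgroup.normalClosure ({eA p} : Set (Ex p)) ≤ E :=
      Subgroup.normalClosure_le_normal (by rintro _ rfl; rfl)
    exact fun x hx => Ex.pow_p x (hle hx)

theorem Ex.triv {x : Ex p} (h : ∀ g : Ex p, (g * x).u = (x * g).u) : x.u = 0 ∧ x.c = 0 := by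
  constructor
  · by_contra hne
    obtain ⟨e, he⟩ := Finsupp.ne_iff.1 hne
    refine Set.infinite_univ (x.u.hasFiniteSupport.subset fun d _ => ?_)
    have h1 : eT (d - e) x.u = x.u := by simpa using h ⟨0, 0, d - e⟩
    have h2 : eT (d - e) x.u (d - e + e) = x.u e :=
      Finsupp.mapDomain_apply (add_right_injective _) _ _
    rw [h1, sub_add_cancel] at h2
    exact fun h3 => he (h2 ▸ h3)
  · have h1 : (Finsupp.single 0 1 : EV p) = Finsupp.single x.c 1 := by
      simpa [eA, add_comm] using h (eA p)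
    exact (Finsupp.single_left_injective one_ne_zero h1).symm

theorem Ex.mem_center {x : Ex p} : x ∈ Subgroup.center (Ex p) ↔ x.u = 0 ∧ x.c = 0 := by
  rw [Subgroup.mem_center_iff]
  refine ⟨fun h => Ex.triv fun g => congrArg Ex.u (h g), fun ⟨h1, h2⟩ g => Ex.ext ?_ ?_ ?_⟩ <;>
    simp [h1, h2, add_comm]

theorem example_center : Nat.card (Subgroup.center (Ex p)) = p ∧
    Subgroup.center (Ex p ⧸ Subgroup.center (Ex p)) = ⊥ := by
  constructor
  · have e : Subgroup.center (Ex p) ≃ ZMod p :=
      { toFun := fun x => x.1.s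
        invFun := fun s => ⟨⟨0, s, 0⟩, Ex.mem_center.2 ⟨rfl, rfl⟩⟩
        left_inv := fun x => Subtype.ext
          (Ex.ext (Ex.mem_center.1 x.2).1.symm rfl (Ex.mem_center.1 x.2).2.symm)
        right_inv := fun _ => rfl }
    rw [Nat.card_congr e, Nat.card_zmod]
  · refine eq_bot_iff.2 fun q hq => ?_
    obtain ⟨x, rfl⟩ := QuotientGroup.mk_surjective q
    refine (QuotientGroup.eq_one_iff x).2 (Ex.mem_center.2 (Ex.triv fun g => ?_))
    have h1 : ((g * x : Ex p) : Ex p ⧸ Subgroup.center (Ex p)) = (x * g : Ex p) :=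
      Subgroup.mem_center_iff.1 hq g
    have h2 := (Ex.mem_center.1 (QuotientGroup.eq.1 h1)).1
    have e : x * g = g * x * ((g * x)⁻¹ * (x * g)) := by group
    rw [e, Ex.mul_u (g * x), h2, map_zero, add_zero]

end Pool.Agent.Lib.MP_7d7b85_al
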