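import Pool.Agent.Lib.MP_7d7b85_al.ExtB

namespace Pool.Agent.Lib.MP_7d7b85_al

open Subgroup Filter

variable {G : Type} [Group G] {p k : ℕ} {D : Set G}

/-- Quantitative form of `FinMod`. -/
def FMN (A : Subgroup G) (X : Set G) (n : ℕ) : Prop :=
  ∃ Φ : Finset G, Φ.card ≤ n ∧ ∀ x ∈ X, ∃ φ ∈ Φ, φ⁻¹ * x ∈ A

theorem FMN.reps {A : Subgroup G} {X Y : Set G} {n : ℕ} (h : FMN A X n) (hY : Y ⊆ X) :
    ∃ Φ : Finset G, Φ.card ≤ n ∧ (∀ φ ∈ Φ, φ ∈ Y) ∧ ∀ x ∈ Y, ∃ φ ∈ Φ, φ⁻¹ * x ∈ A := by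
  classical
  obtain ⟨Φ, hΦ, h⟩ := h
  let f : G → G := fun φ => if hx : ∃ x ∈ Y, φ⁻¹ * x ∈ A then hx.choose else 1
  refine ⟨(Φ.filter fun φ => ∃ x ∈ Y, φ⁻¹ * x ∈ A).image f,
    Finset.card_image_le.trans ((Finset.card_filter_le _ _).trans hΦ), ?_, ?_⟩
  · intro ψ hψ
    obtain ⟨φ, hφ, rfl⟩ := Finset.mem_image.1 hψ
    have h2 := (Finset.mem_filter.1 hφ).2
    simp only [f, dif_pos h2]
    exact h2.choose_spec.1
  · intro x hx
    obtain ⟨φ, hφ, h1⟩ := h x (hY hx)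
    have h2 : ∃ x ∈ Y, φ⁻¹ * x ∈ A := ⟨x, hx, h1⟩
    refine ⟨f φ, Finset.mem_image.2 ⟨φ, Finset.mem_filter.2 ⟨hφ, h2⟩, rfl⟩, ?_⟩
    simp only [f, dif_pos h2]
    have := A.mul_mem (A.inv_mem h2.choose_spec.2) h1
    simpa [mul_assoc] using this

theorem FMN.mono {A : Subgroup G} {X Y : Set G} {n : ℕ} (h : FMN A X n) (hY : Y ⊆ X) :
    FMN A Y n := by
  obtain ⟨Φ, hΦ, h⟩ := h
  exact ⟨Φ, hΦ, fun x hx => h x (hY hx)⟩

theorem FMN.sup {A R R' : Subgroup G} {n n' : ℕ} (h : FMN A R n) (h' : FMN A R' n')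
    (h1 : R' ≤ Nz R) (h2 : R' ≤ Nz A) : FMN A (R ⊔ R' : Subgroup G) (n * n') := by
  classical
  obtain ⟨Φ, hΦ, h⟩ := h
  obtain ⟨Φ', hΦ', hs, h'⟩ := h'.reps subset_rfl
  refine ⟨(Φ ×ˢ Φ').image fun q => q.1 * q.2, Finset.card_image_le.trans ?_, ?_⟩
  · rw [Finset.card_product]; exact Nat.mul_le_mul hΦ hΦ'
  · intro x hx
    obtain ⟨r, hr, r', hr', rfl⟩ := (mem_sup_Nz h1).1 hx
    obtain ⟨φ, hφ, h3⟩ := h r hr
    obtain ⟨φ', hφ', h4⟩ := h' r' hr'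
    refine ⟨φ * φ', Finset.mem_image.2 ⟨(φ, φ'), Finset.mem_product.2 ⟨hφ, hφ'⟩, rfl⟩, ?_⟩
    have := A.mul_mem (Nz_conj (h2 (hs φ' hφ')) h3) h4
    convert this using 1
    group

theorem FMN.cjs {A R : Subgroup G} {n : ℕ} (h : FMN A R n) {g : G} (hg : g ∈ Nz A) :
    FMN A (cjs R g) n := by
  classical
  obtain ⟨Φ, hΦ, h⟩ := h
  refine ⟨Φ.image fun φ => g⁻¹ * φ * g, Finset.card_image_le.trans hΦ, fun x hx => ?_⟩
  obtain ⟨φ, hφ, h1⟩ := h _ (mem_cjs.1 hx)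
  refine ⟨_, Finset.mem_image.2 ⟨φ, hφ, rfl⟩, ?_⟩
  convert Nz_conj hg h1 using 1
  group

theorem FMN.zpowers (hp : p.Prime) (A : Subgroup G) {b : G} (hb : b ^ p = 1) :
    FMN A (zpowers b : Subgroup G) p := by
  classical
  refine ⟨(Finset.range p).image fun i => b ^ i, Finset.card_image_le.trans (by simp), ?_⟩
  intro x hx
  have hfin : IsOfFinOrder b := isOfFinOrder_iff_pow_eq_one.2 ⟨p, hp.pos, hb⟩
  obtain ⟨i, rfl⟩ := (hfin.mem_powers_iff_mem_zpowers).2 hx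
  refine ⟨b ^ (i % p), Finset.mem_image.2 ⟨_, Finset.mem_range.2 (Nat.mod_lt _ hp.pos), rfl⟩, ?_⟩
  have : b ^ i = b ^ (i % p) := by
    conv_lhs => rw [← Nat.div_add_mod i p, pow_add, pow_mul, hb, one_pow, one_mul]
  simp [this]

theorem FinMod.fmn {A : Subgroup G} {X : Set G} (h : FinMod A X) : ∃ n, FMN A X n := by
  obtain ⟨Φ, hΦ, h⟩ := h
  exact ⟨_, hΦ.toFinset, le_rfl, fun x hx => by simpa using h x hx⟩

/-- A group generated by elements of order `p` which is central by bounded has bounded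
exponent. -/
theorem extC_exp (hp : p.Prime) (hG : IsPGroup p G) {A : Subgroup G} {X : Set G} {m : ℕ}
    (hX : ∀ x ∈ X, x ^ p = 1) (hA : closure X ≤ Cz A) (h : FMN A (closure X : Subgroup G) m)
    {z : G} (hz : z ∈ closure X) : z ^ p ^ (m + 1) = 1 := by
  classical
  have : Fact p.Prime := ⟨hp⟩
  set P := closure X with hP
  obtain ⟨Φ, hΦ, hs, h⟩ := h.reps subset_rfl
  let f : Φ → P ⧸ center P := fun φ => QuotientGroup.mk ⟨φ.1, hs φ.1 φ.2⟩
  have hf : Function.Surjective f := by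
    intro q
    obtain ⟨x, rfl⟩ := QuotientGroup.mk_surjective q
    obtain ⟨φ, hφ, h1⟩ := h x x.2
    refine ⟨⟨φ, hφ⟩, QuotientGroup.eq.2 (mem_center_iff.2 fun y => Subtype.ext ?_)⟩
    exact (mem_Cz.1 (hA y.2) _ h1).symm
  have hfin : Finite (P ⧸ center P) := Finite.of_surjective f hf
  have hfi : (center P).FiniteIndex := finiteIndex_iff_finite_quotient.2 hfin
  have hle : (center P).index ≤ m := by
    have := Nat.card_le_card_of_surjective f hf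
    simp only [Nat.card_eq_fintype_card, Fintype.card_coe] at this
    exact this.trans hΦ
  obtain ⟨s, hs'⟩ := (hG.to_subgroup P).index (center P)
  have hsm : s ≤ m := by
    have := Nat.lt_pow_self (n := s) hp.one_lt
    omega
  have key : ∀ x (hx : x ∈ P), (MonoidHom.transferCenterPow P ⟨x, hx⟩) ^ p = 1 := by
    intro x hx
    induction hx using closure_induction with
    | mem x hx =>
      rw [← map_pow]
      have : (⟨x, subset_closure hx⟩ : P) ^ p = 1 := Subtype.ext (hX x hx)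
      rw [this, map_one]
    | one => exact by rw [show (⟨1, one_mem _⟩ : P) = 1 from rfl, map_one, one_pow]
    | mul x y hx hy ihx ihy =>
      rw [show (⟨x * y, mul_mem hx hy⟩ : P) = ⟨x, hx⟩ * ⟨y, hy⟩ from rfl, map_mul,
        Commute.mul_pow, ihx, ihy, one_mul]
      exact Subtype.ext (mem_center_iff.1 (MonoidHom.transferCenterPow P ⟨y, hy⟩).2 _)
    | inv x hx ih =>
      rw [show (⟨x⁻¹, inv_mem hx⟩ : P) = (⟨x, hx⟩ : P)⁻¹ from rfl, map_inv, inv_pow, ih, inv_one]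
  have h1 := congrArg (fun t : center P => ((t : P) : G)) (key z hz)
  simp only [SubmonoidClass.coe_pow, MonoidHom.transferCenterPow_apply, hs', OneMemClass.coe_one]
    at h1
  have h2 : p ^ (m + 1) = p ^ s * p * p ^ (m - s) := by
    rw [← pow_succ, ← pow_add]; congr 1; omega
  rw [h2, pow_mul, pow_mul, h1, one_pow]

theorem extC_orb {A R M : Subgroup G} {m e w : ℕ} (hc : Comm A) (hf : (Om p A).Finite)
    (hw : (Om p A).ncard ≤ w) (h : FMN A R m) (hR : R ≤ Cz A) (hM : M ≤ Nz R) {z : G}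
    (hz : z ∈ R) (hq : z ^ p ^ e = 1) :
    ∃ Ψ : Finset G, Ψ.card ≤ m * w ^ e ∧ ∀ θ ∈ M, θ⁻¹ * z * θ ∈ Ψ := by
  classical
  have hsub : orb z M ⊆ R := by
    rintro _ ⟨θ, hθ, rfl⟩
    exact Nz_conj (hM hθ) hz
  have hpow : ∀ y ∈ orb z M, y ^ p ^ e = 1 := by
    rintro _ ⟨θ, hθ, rfl⟩
    have := conj_pow (a := θ⁻¹) (b := z) (i := p ^ e)
    simp only [inv_inv] at this
    rw [this, hq]; simp
  obtain ⟨Φ, hΦ, hs, h⟩ := h.reps hsub
  have hf' := om_pow_finite hc hf e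
  refine ⟨(Φ ×ˢ hf'.toFinset).image fun q => q.1 * q.2, Finset.card_image_le.trans ?_, ?_⟩
  · rw [Finset.card_product]
    refine Nat.mul_le_mul hΦ ?_
    rw [← Set.ncard_eq_toFinset_card _ hf']
    exact (om_pow_ncard hc hf e).trans (Nat.pow_le_pow_left hw e)
  · intro θ hθ
    have hy : θ⁻¹ * z * θ ∈ orb z M := ⟨θ, hθ, rfl⟩
    obtain ⟨φ, hφ, h1⟩ := h _ hy
    refine Finset.mem_image.2 ⟨(φ, φ⁻¹ * (θ⁻¹ * z * θ)), Finset.mem_product.2 ⟨hφ, ?_⟩, by simp⟩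
    exact hf'.mem_toFinset.2 (bd (hR (hsub (hs φ hφ))) (hpow φ (hs φ hφ)) (hpow _ hy) h1)

theorem extC_Nz_bot (g : G) : g ∈ Nz (⊥ : Subgroup G) :=
  le_normalizer_of_normal (K := ⊤) (mem_top g)

theorem extC_card_ext {S : Subgroup G} {z : G} {q n : ℕ} (hq : 0 < q) (hz : z ∈ Nz S)
    (hzq : z ^ q = 1) (h : FMN (⊥ : Subgroup G) S n) :
    FMN (⊥ : Subgroup G) (ext S z : Subgroup G) (n * q) := by
  classical
  refine h.sup ?_ (zpowers_le.2 hz) (fun g _ => extC_Nz_bot g)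
  refine ⟨(Finset.range q).image fun i => z ^ i, Finset.card_image_le.trans (by simp), ?_⟩
  intro x hx
  have hfin : IsOfFinOrder z := isOfFinOrder_iff_pow_eq_one.2 ⟨q, hq, hzq⟩
  obtain ⟨i, rfl⟩ := (hfin.mem_powers_iff_mem_zpowers).2 hx
  refine ⟨z ^ (i % q), Finset.mem_image.2 ⟨_, Finset.mem_range.2 (Nat.mod_lt _ hq), rfl⟩, ?_⟩
  have : z ^ i = z ^ (i % q) := by
    conv_lhs => rw [← Nat.div_add_mod i q, pow_add, pow_mul, hzq, one_pow, one_mul]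
  simp [this]

/-- A `b`-invariant small subgroup containing a given small subgroup. -/
theorem extC_inv (hp : p.Prime) (hG : IsPGroup p G) {A M R : Subgroup G} {b : G} {n : ℕ}
    (hb : b ^ p = 1) (hbA : b ∈ Nz A) (hbM : b ∈ Nz M) (hMA : M ≤ Nz A) (hR : R ≤ M)
    (hn : M ≤ Nz R) (h : FMN A R n) :
    ∃ R', R ≤ R' ∧ R' ≤ M ∧ M ≤ Nz R' ∧ b ∈ Nz R' ∧ FMN A R' (n ^ p) := by
  have hM : ∀ i : ℕ, cjs R (b ^ i) ≤ M := fun i x hx => by
    have := Nz_conj (pow_mem hbM i) (hR (mem_cjs.1 hx))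
    simpa [mul_assoc] using this
  have hN : ∀ i : ℕ, M ≤ Nz (cjs R (b ^ i)) := fun i g hg => by
    rw [← cjs_Nz, mem_cjs]
    exact hn (Nz_conj' (pow_mem hbM i) hg)
  have key : ∀ s : ℕ, ∃ R', R' ≤ M ∧ M ≤ Nz R' ∧ FMN A R' (n ^ s) ∧
      (∀ i < s, cjs R (b ^ i) ≤ R') ∧
      ∀ L : Subgroup G, (∀ i < s, cjs R (b ^ i) ≤ L) → R' ≤ L := by
    intro s
    induction s with
    | zero =>
      exact ⟨⊥, bot_le, fun g _ => extC_Nz_bot g,
        ⟨{1}, by simp, fun x hx => ⟨1, by simp, by simp [Subgroup.mem_bot.1 hx]⟩⟩, by simp,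
        fun _ _ => bot_le⟩
    | succ s ih =>
      obtain ⟨R', h1, h2, h3, h4, h5⟩ := ih
      refine ⟨R' ⊔ cjs R (b ^ s), sup_le h1 (hM s), fun g hg => Nz_sup (h2 hg) (hN s hg), ?_,
        fun i hi => ?_, fun L hL => sup_le (h5 L fun i hi => hL i (by omega)) (hL s (by omega))⟩
      · rw [pow_succ]
        exact h3.sup (h.cjs (pow_mem hbA s)) ((hM s).trans h2) ((hM s).trans hMA)
      · rcases Nat.lt_succ_iff_lt_or_eq.1 hi with hi | rfl
        · exact (h4 i hi).trans le_sup_left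
        · exact le_sup_right
  obtain ⟨R', h1, h2, h3, h4, h5⟩ := key p
  refine ⟨R', by simpa [cjs_one] using h4 0 hp.pos, h1, h2, ?_, h3⟩
  refine mem_Nz_of_conj hp hG fun α hα => ?_
  have : R' ≤ cjs R' b⁻¹ := by
    refine h5 _ fun i hi x hx => ?_
    rw [mem_cjs] at hx ⊢
    by_cases hi' : i + 1 < p
    · refine h4 _ hi' (mem_cjs.2 ?_)
      convert hx using 1
      rw [pow_succ]; group
    · refine h4 0 hp.pos (mem_cjs.2 ?_)
      have h6 : b ^ i * b = 1 := by rw [← pow_succ, show i + 1 = p by omega, hb]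
      have h7 : b⁻¹ = b ^ i := (eq_inv_of_mul_eq_one_left h6).symm
      rw [h7]
      simpa using hx
  simpa using mem_cjs.1 (this hα)

theorem extC_step (H : Hyp p k D) {n w : ℕ} {A M : Subgroup G} {b : G} (hb : b ∈ D) (hc : Comm A)
    (hf : (Om p A).Finite) (hw : (Om p A).ncard ≤ w) (hbA : b ∈ Cz A) (hM : M ≤ Cz A)
    (hbM : b ∈ Nz M) {θ θ' : G} {Q Q' : Subgroup G} (h1 : θ ∈ Q) (h2 : θ' ∈ Q') (h3 : Q ≤ M)
    (h4 : Q' ≤ M) (h5 : M ≤ Nz Q) (h6 : M ≤ Nz Q') (h7 : FMN A Q n) (h8 : FMN A Q' n)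
    {x : G} (j : ℕ) (hx : x = (rho b)^[j] (θ * θ'⁻¹)) :
    rho b x ^ p ^ ((n * n) ^ p * p + 1) = 1 ∧ ∃ Ψ : Finset G,
      Ψ.card ≤ (n * n) ^ p * w ^ ((n * n) ^ p * p + 1) ∧ ∀ g ∈ M, g⁻¹ * rho b x * g ∈ Ψ := by
  have hMA : M ≤ Nz A := hM.trans (Cz_le_Nz A)
  obtain ⟨R, hR1, hR2, hR3, hR4, hR5⟩ := extC_inv H.prime H.pgrp (R := Q ⊔ Q') (H.pow b hb)
    (Cz_le_Nz A hbA) hbM hMA (sup_le h3 h4) (fun g hg => Nz_sup (h5 hg) (h6 hg))
    (h7.sup h8 (h4.trans h5) (h4.trans hMA))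
  have hη : θ * θ'⁻¹ ∈ R := hR1 (mul_mem (mem_sup_left h1) (inv_mem (mem_sup_right h2)))
  have hxR : x ∈ R := hx ▸ rho_iter_mem hR4 hη j
  have hzR : rho b x ∈ R := rho_mem_of_Nz hR4 hxR
  have hpow : rho b x ^ p ^ ((n * n) ^ p * p + 1) = 1 := by
    have hle : closure ({b, x⁻¹ * b * x} : Set G) ≤ R ⊔ zpowers b := by
      refine (closure_le _).2 ?_
      rintro y (rfl | rfl)
      · exact mem_sup_right (mem_zpowers _)
      · rw [← mul_rho]
        exact mul_mem (mem_sup_right (mem_zpowers _)) (mem_sup_left hzR)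
    refine extC_exp H.prime H.pgrp (A := A) (X := {b, x⁻¹ * b * x}) ?_
      (hle.trans (sup_le (hR2.trans hM) (zpowers_le.2 hbA))) ?_ ?_
    · rintro y (rfl | rfl)
      · exact H.pow _ hb
      · exact H.pow _ (H.conj _ hb _)
    · exact (hR5.sup (FMN.zpowers H.prime A (H.pow b hb)) (zpowers_le.2 hR4)
        (zpowers_le.2 (Cz_le_Nz A hbA))).mono hle
    · exact mul_mem (inv_mem (subset_closure (by simp))) (subset_closure (by simp))
  exact ⟨hpow, extC_orb hc hf hw hR5 (hR2.trans hM) hR3 hzR hpow⟩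

/-- The central case of the uniform bound. -/
theorem unif_core (p k n w : ℕ) : ∃ N : ℕ,
    ∀ (G : Type) [Group G] (D : Set G), Hyp p k D → ∀ (A : Subgroup G) (M : Subgroup G) (b : G),
      b ∈ D → Comm A → (Om p A).Finite → (Om p A).ncard ≤ w → b ∈ Cz A → M ≤ Cz A → b ∈ Nz M →
      ∀ f : Fin (N + 1) → G,
      (∀ i, ∃ Q : Subgroup G, f i ∈ Q ∧ Q ≤ M ∧ M ≤ Nz Q ∧ FMN A Q n) →
        ∃ i j, i ≠ j ∧ Commute b (f i * (f j)⁻¹) := by
  classical
  set e := (n * n) ^ p * p + 1 with he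
  set c := (n * n) ^ p * w ^ e + 1 with hc
  set t := k ^ (p * e + 1) with ht
  refine ⟨c ^ t * (p ^ e) ^ t, fun G _ D H A M b hb hcA hf hw hbA hM hbM f hQ => ?_⟩
  by_contra hcon
  push Not at hcon
  choose Q hQ1 hQ2 hQ3 hQ4 using hQ
  have hpe : 0 < p ^ e := pow_pos H.prime.pos e
  let Inv : Subgroup G × ℕ → Prop := fun s => s.2 ≤ t → b ∈ Nz s.1 ∧
    FMN (⊥ : Subgroup G) s.1 ((p ^ e) ^ s.2) ∧
    ∃ col : G → Fin (c ^ s.2), ∀ θ ∈ M, ∀ θ' ∈ M, col θ = col θ' → θ * θ'⁻¹ ∈ Cz s.1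
  let R : Subgroup G × ℕ → G → Subgroup G × ℕ → Prop := fun s x s' => s'.2 = s.2 + 1 ∧
    (s.2 < t → s.1 ≤ s'.1 ∧ x ∈ Cz s.1 ∧ rho b x ∈ s'.1 ∧ rho b x ∉ s.1 ∧
      rho b (rho b x) ∈ s.1 ∧ rho b x ^ p ^ e = 1)
  obtain ⟨S, x, h0, hS⟩ := seq_of_step Inv R (⊥, 0) (fun _ => ⟨extC_Nz_bot b,
    ⟨{1}, by simp, fun x hx => ⟨1, by simp, by simp [Subgroup.mem_bot.1 hx]⟩⟩,
    fun _ => ⟨0, by simp⟩, fun _ _ _ _ _ => mem_Cz.2 fun α hα => by
      rw [Subgroup.mem_bot.1 hα]; exact Commute.one_left _⟩) (by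
    rintro ⟨S, i⟩ hI
    by_cases hi : i < t
    swap
    · exact ⟨1, (S, i + 1), fun h => absurd (show i < t from h) hi, rfl, fun h => absurd h hi⟩
    obtain ⟨hbS, ⟨Φ, hΦ, hΦS⟩, col, hcol⟩ := hI hi.le
    obtain ⟨v, hv⟩ := Fintype.exists_lt_card_fiber_of_mul_lt_card (f := fun j => col (f j))
      (n := (p ^ e) ^ t) (by
        simp only [Fintype.card_fin]
        have : c ^ i ≤ c ^ t := Nat.pow_le_pow_right (by omega) hi.le
        exact Nat.lt_succ_of_le (Nat.mul_le_mul_right _ this))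
    obtain ⟨j₀, hj₀⟩ : (Finset.univ.filter fun j => col (f j) = v).Nonempty :=
      Finset.card_pos.1 (lt_of_le_of_lt (Nat.zero_le _) hv)
    obtain ⟨j, hj, hnot⟩ : ∃ j ∈ Finset.univ.filter fun j => col (f j) = v,
        rho b (f j * (f j₀)⁻¹) ∉ S := by
      by_contra hall
      push Not at hall
      have hlt : Φ.card < (Finset.univ.filter fun j => col (f j) = v).card :=
        lt_of_le_of_lt (hΦ.trans (Nat.pow_le_pow_right hpe hi.le)) hv
      obtain ⟨j, -, j', -, hne, heq⟩ := Finset.exists_ne_map_eq_of_card_lt_of_maps_to hlt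
        (f := fun j => rho b (f j * (f j₀)⁻¹)) (fun j hj => by
          obtain ⟨φ, hφ, h1⟩ := hΦS _ (hall j hj)
          rw [Subgroup.mem_bot, inv_mul_eq_one] at h1
          rw [h1] at hφ
          exact hφ)
      apply hcon j j' hne
      rw [commute_iff_conj]
      simp only [rho, mul_right_inj] at heq
      calc (f j * (f j')⁻¹)⁻¹ * b * (f j * (f j')⁻¹)
          = f j' * (f j₀)⁻¹ * ((f j * (f j₀)⁻¹)⁻¹ * b * (f j * (f j₀)⁻¹)) * (f j₀ * (f j')⁻¹) := by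
            group
        _ = b := by rw [heq]; group
    have hηC : f j * (f j₀)⁻¹ ∈ Cz S := hcol _ (hQ2 j (hQ1 j)) _ (hQ2 j₀ (hQ1 j₀))
      ((Finset.mem_filter.1 hj).2.trans (Finset.mem_filter.1 hj₀).2.symm)
    obtain ⟨s, hs1, hs2⟩ := exists_last H hb S hnot
    rw [← Function.iterate_succ_apply, Function.iterate_succ_apply'] at hs1 hs2
    set x := (rho b)^[s] (f j * (f j₀)⁻¹) with hx
    have hxC : x ∈ Cz S := rho_iter_mem (Nz_Cz hbS) hηC s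
    have hzC : rho b x ∈ Cz S := rho_mem_of_Nz (Nz_Cz hbS) hxC
    obtain ⟨hpow, Ψ, hΨ, hΨM⟩ := extC_step H hb hcA hf hw hbA hM hbM (hQ1 j) (hQ1 j₀) (hQ2 j)
      (hQ2 j₀) (hQ3 j) (hQ3 j₀) (hQ4 j) (hQ4 j₀) s hx
    refine ⟨x, (ext S (rho b x), i + 1), fun _ => ⟨?_, ?_, ?_⟩, rfl, fun _ => ⟨le_sup_left, hxC,
      mem_sup_right (mem_zpowers _), hs1, hs2, hpow⟩⟩
    · refine mem_Nz_ext H.prime H.pgrp hbS ?_
      have : b⁻¹ * rho b x * b = rho b x * (rho b (rho b x))⁻¹ := by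
        generalize rho b x = z
        simp only [rho]; group
      rw [this]
      exact mul_mem (mem_sup_right (mem_zpowers _)) (inv_mem (mem_sup_left hs2))
    · rw [pow_succ]
      exact extC_card_ext hpe (Cz_le_Nz S hzC) hpow ⟨Φ, hΦ, hΦS⟩
    · have hcard : Fintype.card Ψ ≤ Fintype.card (Fin c) := by
        simp only [Fintype.card_coe, Fintype.card_fin]
        exact hΨ.trans (Nat.le_succ _)
      obtain ⟨ι⟩ := Function.Embedding.nonempty_of_card_le hcard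
      let col' : G → Fin c := fun θ => if h : θ ∈ M then ι ⟨_, hΨM θ h⟩ else ⟨0, by omega⟩
      refine ⟨fun θ => Fin.cast (pow_succ c i).symm (finProdFinEquiv (col θ, col' θ)),
        fun θ hθ θ' hθ' heq => ?_⟩
      have h1 := finProdFinEquiv.injective (Fin.cast_injective _ heq)
      rw [Prod.mk.injEq] at h1
      refine mem_Cz_ext.2 ⟨hcol θ hθ θ' hθ' h1.1, ?_⟩
      have h2 := h1.2
      simp only [col', dif_pos hθ, dif_pos hθ'] at h2
      have h3 := congrArg Subtype.val (ι.injective h2)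
      rw [commute_iff_conj]
      calc (θ * θ'⁻¹)⁻¹ * rho b x * (θ * θ'⁻¹) = θ' * (θ⁻¹ * rho b x * θ) * θ'⁻¹ := by group
        _ = rho b x := by
          rw [show θ⁻¹ * rho b x * θ = θ'⁻¹ * rho b x * θ' from h3]; group)
  have hidx : ∀ i, (S i).2 = i := fun i => by
    induction i with
    | zero => rw [h0]
    | succ i ih => rw [(hS i).2.1, ih]
  have hR : ∀ i < t, _ := fun i hi => (hS i).2.2 (by rw [hidx]; exact hi)
  exact lt_irrefl t (chainBd H hb e t (fun i => (S i).1) x (fun i hi => (hR i hi).1)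
    (fun i hi => ((hS i).1 (by rw [hidx]; exact hi)).1) (fun i hi => (hR i hi).2.1)
    (fun i hi => (hR i hi).2.2.1) (fun i hi => (hR i hi).2.2.2.1)
    (fun i hi => (hR i hi).2.2.2.2.1) (fun i hi => (hR i hi).2.2.2.2.2))

theorem finMod_closure_orb (hp : p.Prime) (hG : IsPGroup p G) {A M : Subgroup G} {a : G}
    (hA : M ≤ Nz A) (ha : a ∈ M) (h : FinMod A (orb a M)) :
    FinMod A (closure (orb a M) : Subgroup G) := by
  have : (A.subgroupOf (Nz A)).Normal :=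
    ⟨fun x hx g => Nz_conj' (A := A) (g := (g : G)) (h := (x : G)) g.2 hx⟩
  let π := QuotientGroup.mk' (A.subgroupOf (Nz A))
  have hsub : orb a M ⊆ M := by
    rintro _ ⟨g, hg, rfl⟩
    exact mul_mem (mul_mem (inv_mem hg) ha) hg
  let X : Set (Nz A ⧸ A.subgroupOf (Nz A)) := π '' {x | (x : G) ∈ orb a M}
  have hX : X.Finite := by
    obtain ⟨Φ, hΦ, hs, h⟩ := h.reps
    have hΦ' : {x : Nz A | (x : G) ∈ Φ}.Finite :=
      hΦ.preimage Subtype.val_injective.injOn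
    refine (hΦ'.image π).subset ?_
    rintro _ ⟨x, hx, rfl⟩
    obtain ⟨φ, hφ, h1⟩ := h x hx
    exact ⟨⟨φ, hA (hsub (hs hφ))⟩, hφ, QuotientGroup.eq.2 h1⟩
  have hfin := dietzmann hp ((hG.to_subgroup (Nz A)).to_quotient _) hX (by
    rintro _ ⟨x, ⟨g, hg, hx⟩, rfl⟩ _ ⟨y, hy, rfl⟩
    refine ⟨y⁻¹ * x * y, ⟨g * y, mul_mem hg (hsub hy), ?_⟩, by simp⟩
    simp only [Subgroup.coe_mul, Subgroup.coe_inv, hx]; group)
  refine ⟨_, hfin.image (fun q => ((Quotient.out q : Nz A) : G)),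
    fun x hx => ?_⟩
  have hle : closure (orb a M) ≤ Nz A := (closure_le _).2 fun y hy => hA (hsub hy)
  have hx' : π ⟨x, hle hx⟩ ∈ closure X := by
    induction hx using closure_induction with
    | mem x hx => exact subset_closure ⟨_, hx, rfl⟩
    | one => exact one_mem _
    | mul x y hx hy ihx ihy => exact mul_mem ihx ihy
    | inv x hx ih => exact inv_mem ih
  refine ⟨_, ⟨_, hx', rfl⟩, ?_⟩
  exact (QuotientGroup.eq (s := A.subgroupOf (Nz A)) (b := ⟨x, hle hx⟩)).1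
    (QuotientGroup.out_eq' (π ⟨x, hle hx⟩))

theorem exists_seq_not_finMod {L : Subgroup G} {X : Set G} (h : ¬ FinMod L X) :
    ∃ g : ℕ → G, (∀ i, g i ∈ X) ∧ ∀ i j, i ≠ j → (g i)⁻¹ * g j ∉ L := by
  obtain ⟨g, h1, h2⟩ := exists_seq_of_forall_finset_exists (fun x => x ∈ X)
    (fun x y => x⁻¹ * y ∉ L) (fun s _ => by
      by_contra hc
      push Not at hc
      exact h ⟨s, s.finite_toSet, fun x hx => hc x hx⟩)
  refine ⟨g, h1, fun i j hij => ?_⟩
  rcases lt_or_gt_of_ne hij with hlt | hlt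
  · exact h2 i j hlt
  · intro hc
    exact h2 j i hlt (by simpa using L.inv_mem hc)

theorem extC_uniform (H : Hyp p k D) {S : Set G} {a : G} {A C : Subgroup G}
    (E : ExtD p D S a A C)
    (hM : FinMod A (orb a (closure (orb a (closure S : Subgroup G)) : Subgroup G))) :
    ∃ n : ℕ, ∀ y ∈ orb a (closure S : Subgroup G), ∃ Q : Subgroup G, y ∈ Q ∧
      Q ≤ closure (orb a (closure S : Subgroup G)) ∧
      closure (orb a (closure S : Subgroup G)) ≤ Nz Q ∧ FMN A Q n := by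
  set Γ := closure S with hΓ
  set M := closure (orb a Γ) with hMdef
  have haΓ : a ∈ Γ := subset_closure E.mem
  have hMΓ : M ≤ Γ := (closure_le _).2 (by
    rintro _ ⟨g, hg, rfl⟩
    exact mul_mem (mul_mem (inv_mem hg) haΓ) hg)
  have haM : a ∈ M := subset_closure ⟨1, one_mem _, by simp⟩
  have hΓM : Γ ≤ Nz M := le_normalizer_closure_iff.2 (by
    rintro g hg _ ⟨h, hh, rfl⟩
    exact subset_closure ⟨h * g⁻¹, mul_mem hh (inv_mem hg), by group⟩)
  obtain ⟨n, hn⟩ := (finMod_closure_orb H.prime H.pgrp (hMΓ.trans E.nA) haM hM).fmn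
  have h1 : M ≤ Nz (closure (orb a M)) := le_normalizer_closure_iff.2 (by
    rintro g hg _ ⟨h, hh, rfl⟩
    exact subset_closure ⟨h * g⁻¹, mul_mem hh (inv_mem hg), by group⟩)
  have h2 : closure (orb a M) ≤ M := (closure_le _).2 (by
    rintro _ ⟨g, hg, rfl⟩
    exact mul_mem (mul_mem (inv_mem hg) haM) hg)
  refine ⟨n, ?_⟩
  rintro _ ⟨γ, hγ, rfl⟩
  refine ⟨cjs (closure (orb a M)) γ, conj_mem_cjs (subset_closure ⟨1, one_mem _, by simp⟩),
    fun x hx => ?_, fun g hg => ?_, hn.cjs (E.nA hγ)⟩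
  · simpa [mul_assoc] using Nz_conj (hΓM hγ) (h2 (mem_cjs.1 hx))
  · rw [← cjs_Nz, mem_cjs]
    exact h1 (Nz_conj' (hΓM hγ) hg)

theorem extH2 (H : Hyp p k D) {S : Set G} {a : G} {A C : Subgroup G} (E : ExtD p D S a A C)
    (hM : FinMod A (orb a (closure (orb a (closure S : Subgroup G)) : Subgroup G)))
    (I : Type) (r : Ultrafilter I) (b : I → G) (hb : ∀ᶠ l in r, b l ∈ S) :
    ∃ F : Set G, F.Finite ∧ F ⊆ orb a (closure S : Subgroup G) ∧
      ∀ y ∈ orb a (closure S : Subgroup G), ∃ f ∈ F,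
        y * f⁻¹ ∈ C ∧ ∀ᶠ l in r, rho (y * f⁻¹) (b l) ∈ A := by
  classical
  obtain ⟨n, hn⟩ := extC_uniform H E hM
  set Γ := closure S with hΓ
  set Y := orb a Γ with hY
  set M := closure Y with hMdef
  have haΓ : a ∈ Γ := subset_closure E.mem
  have hYΓ : Y ⊆ Γ := by
    rintro _ ⟨g, hg, rfl⟩
    exact mul_mem (mul_mem (inv_mem hg) haΓ) hg
  have hΓM : Γ ≤ Nz M := le_normalizer_closure_iff.2 (by
    rintro g hg _ ⟨h, hh, rfl⟩
    exact subset_closure ⟨h * g⁻¹, mul_mem hh (inv_mem hg), by group⟩)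
  have hMΓ : M ≤ Γ := (closure_le _).2 hYΓ
  let L : Subgroup G :=
    { carrier := {c | c ∈ C ∧ ∀ᶠ l in r, rho c (b l) ∈ A}
      one_mem' := ⟨one_mem _, by simp [rho]⟩
      mul_mem' := fun {c c'} hc hc' => ⟨mul_mem hc.1 hc'.1, by
        filter_upwards [hc.2, hc'.2] with l h1 h2
        have := mul_mem (Nz_conj (Cz_le_Nz A (E.CA hc'.1)) h1) h2
        convert this using 1
        unfold rho; group⟩
      inv_mem' := fun {c} hc => ⟨inv_mem hc.1, by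
        filter_upwards [hc.2] with l h1
        have := Nz_conj' (Cz_le_Nz A (E.CA hc.1)) (inv_mem h1)
        convert this using 1
        unfold rho; group⟩ }
  suffices hL : FinMod L Y⁻¹ by
    obtain ⟨Φ, hΦ, hs, h⟩ := hL.reps
    refine ⟨Φ⁻¹, hΦ.inv, fun f hf => by simpa using hs (Set.mem_inv.1 hf), fun y hy => ?_⟩
    obtain ⟨φ, hφ, h1⟩ := h y⁻¹ (by simpa using hy)
    refine ⟨φ⁻¹, by simpa using hφ, ?_⟩
    have := L.inv_mem h1
    simp only [mul_inv_rev, inv_inv] at this ⊢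
    exact this
  by_contra hL
  obtain ⟨g₀, hg₀, hne₀⟩ := exists_seq_not_finMod hL
  -- pass to a subsequence inside one coset of `C`
  obtain ⟨φ, hφ⟩ := ultra_finMod (hyperfilter ℕ) E.fin g₀
    (Eventually.of_forall fun i => by simpa using inv_mem (hYΓ (Set.mem_inv.1 (hg₀ i))))
  have hinf : {i | φ⁻¹ * g₀ i ∈ C}.Infinite := fun hf =>
    (Set.Finite.compl_mem_hyperfilter hf |> Ultrafilter.compl_mem_iff_notMem.1) hφ
  let ι := hinf.natEmbedding
  let g : ℕ → G := fun i => g₀ (ι i)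
  have hgC : ∀ i j, (g i)⁻¹ * g j ∈ C := fun i j => by
    have := C.mul_mem (C.inv_mem (ι i).2) (ι j).2
    simpa [mul_assoc] using this
  have hgY : ∀ i, (g i)⁻¹ ∈ Y := fun i => hg₀ _
  -- the common action on `A`
  obtain ⟨ψ, hψ⟩ := ultra_finMod r (E.fr.finMod_Cz H.prime H.odd H.pgrp) b
    (hb.mono fun l hl => E.nA (subset_closure hl))
  obtain ⟨l₀, hl₀, hl₀'⟩ := (hb.and hψ).exists
  have hb₀ : b l₀ ∈ Nz A := E.nA (subset_closure hl₀)
  set B := rhoIm (b l₀) A with hB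
  have TB : Tower (b l₀) B := tower_rhoIm E.fr.comm E.fr.div hb₀ (H.pow _ (E.sub hl₀))
  have hBA : B ≤ A := rhoIm_le hb₀
  have hCH : C ≤ QH (b l₀) B := fun c hc => mem_QH_of_Cz TB.norm (Cz_anti hBA (E.CA hc))
  let π := Qmk (b l₀) B
  let bar : Subgroup G → Subgroup (QG (b l₀) B) := fun X => (X.subgroupOf (QH (b l₀) B)).map π
  have hker : ∀ x : QH (b l₀) B, π x = 1 ↔ (x : G) ∈ B := fun x => QuotientGroup.eq_one_iff x
  have hcomm : ∀ x y : QH (b l₀) B, rho (x : G) y ∈ B ↔ Commute (π x) (π y) := fun x y => by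
    rw [← rho_eq_one_iff, show rho (π x) (π y) = π (rho x y) by simp [rho], hker]
    rfl
  have hAc : Comm (bar A) := by
    rintro _ ⟨x, hx, rfl⟩ _ ⟨y, hy, rfl⟩
    refine (hcomm x y).1 ?_
    rw [rho_eq_one_iff.2 (E.fr.comm (x : G) hx (y : G) hy)]
    exact one_mem _
  have hAf : (Om p (bar A)).Finite := by
    refine ((E.fr.fin.preimage (f := fun x : QH (b l₀) B => (x : G))
      Subtype.val_injective.injOn).image π).subset ?_
    rintro _ ⟨⟨x, hx, rfl⟩, hx'⟩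
    rw [← map_pow, hker] at hx'
    obtain ⟨β, hβ, hβ'⟩ := (TB.fr H (E.sub hl₀)).div _ hx'
    refine ⟨x * (⟨β, hCH (E.AC (hBA hβ))⟩ : QH (b l₀) B)⁻¹, ⟨mul_mem hx (inv_mem (hBA hβ)), ?_⟩, ?_⟩
    · change ((x : G) * β⁻¹) ^ p = 1
      rw [(E.fr.comm (x : G) hx _ (inv_mem (hBA hβ))).mul_pow, inv_pow, hβ']
      simp
    · rw [map_mul, map_inv, (hker ⟨β, _⟩).2 hβ]; simp
  obtain ⟨N, hN⟩ := unif_core p k (n * n) (Om p (bar A)).ncard
  have hθ : ∀ i, (g i)⁻¹ * g 0 ∈ QH (b l₀) B := fun i => hCH (hgC i 0)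
  have key : ∀ᶠ l in r, ∃ q : Fin (N + 1) × Fin (N + 1), q.1 ≠ q.2 ∧
      rho ((g q.1)⁻¹ * g q.2) (b l) ∈ A := by
    filter_upwards [hb, hψ] with l hl hl'
    have hpure : (b l₀)⁻¹ * b l ∈ Cz A := by
      simpa [mul_assoc] using mul_mem (inv_mem hl₀') hl'
    have hbH : b l ∈ QH (b l₀) B := mem_QH_of_pure TB.norm (Cz_anti hBA hpure)
    obtain ⟨i, j, hij, hc⟩ := hN (QG (b l₀) B) (QD D (b l₀) B) (quot_hyp H TB) (bar A) (bar (C ⊓ M))
      (π ⟨b l, hbH⟩) ⟨_, ⟨E.sub hl, Cz_anti hBA hpure⟩, rfl⟩ hAc hAf le_rfl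
      (mem_Cz.2 (by
        rintro _ ⟨x, hx, rfl⟩
        refine ((hcomm ⟨b l, hbH⟩ x).1 ?_).symm
        change rho (b l) x ∈ B
        rw [rho_congr (α := (x : G)) hb₀ hpure hx]
        exact subset_closure ⟨_, hx, rfl⟩))
      (by
        rintro _ ⟨x, hx, rfl⟩
        refine mem_Cz.2 ?_
        rintro _ ⟨y, hy, rfl⟩
        refine (hcomm y x).1 ?_
        rw [rho_eq_one_iff.2 (mem_Cz.1 (E.CA (x := (x : G)) hx.1) (y : G) hy)]
        exact one_mem _)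
      (le_normalizer_map π ⟨⟨b l, hbH⟩, le_normalizer_comap _
        (Nz_inf (E.nC (subset_closure hl)) (hΓM (subset_closure hl))), rfl⟩)
      (fun i => π ⟨_, hθ i⟩) (fun i => by
        obtain ⟨Q, h1, h2, h3, h4⟩ := hn _ (hgY i)
        obtain ⟨Q', h1', h2', h3', h4'⟩ := hn _ (hgY 0)
        refine ⟨bar ((Q ⊔ Q') ⊓ C), ⟨_, ⟨mul_mem (mem_sup_left h1)
          (mem_sup_right (by simpa using inv_mem h1')), hgC i 0⟩, rfl⟩, ?_, ?_, ?_⟩
        · exact map_mono (comap_mono fun x hx => ⟨hx.2, sup_le h2 h2' hx.1⟩)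
        · rintro _ ⟨x, hx, rfl⟩
          exact le_normalizer_map π ⟨x, le_normalizer_comap _
            (Nz_inf (Nz_sup (h3 hx.2) (h3' hx.2)) (E.nC (hMΓ hx.2))), rfl⟩
        · obtain ⟨Φ, hΦ, hs, h⟩ := (h4.sup h4' (h2'.trans h3) ((h2'.trans hMΓ).trans E.nA)).reps
            (Y := ((Q ⊔ Q') ⊓ C : Subgroup G)) (fun x hx => hx.1)
          refine ⟨Φ.attach.image fun φ => π ⟨φ.1, hCH (hs φ.1 φ.2).2⟩,
            Finset.card_image_le.trans (by simpa using hΦ), ?_⟩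
          rintro _ ⟨x, hx, rfl⟩
          obtain ⟨φ, hφ, h5⟩ := h x hx
          exact ⟨_, Finset.mem_image.2 ⟨⟨φ, hφ⟩, Finset.mem_attach _ _, rfl⟩,
            ⟨(⟨φ, hCH (hs φ hφ).2⟩ : QH (b l₀) B)⁻¹ * x, h5, by simp⟩⟩)
    refine ⟨(i, j), hij, hBA ?_⟩
    rw [← map_inv, ← map_mul] at hc
    have := (hcomm _ _).2 hc.symm
    simpa [mul_assoc] using this
  obtain ⟨q, hq⟩ := Ultrafilter.eventually_exists_iff.1 key
  obtain ⟨l, hl, -⟩ := hq.exists
  refine hne₀ (ι q.1) (ι q.2) (fun h => hl ?_) ⟨hgC _ _, hq.mono fun l h => h.2⟩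
  exact Fin.ext (ι.injective (Subtype.ext h))

end Pool.Agent.Lib.MP_7d7b85_al
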