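import Pool.Agent.Lib.MP_7d7b85_al.ExtA
import Pool.Agent.Lib.MP_7d7b85_al.ExtC

namespace Pool.Agent.Lib.MP_7d7b85_al

open Subgroup Filter

variable {G : Type} [Group G] {p k : ℕ} {D : Set G}

/-- A set theoretic description of the quotient map `Γ → Γ / A`. -/
structure ExtQ {G' : Type} [Group G'] (Γ A : Subgroup G) (F : G → G') : Prop where
  mul : ∀ g ∈ Γ, ∀ h ∈ Γ, F (g * h) = F g * F h
  eq : ∀ g ∈ Γ, ∀ h ∈ Γ, F g = F h ↔ g⁻¹ * h ∈ A
  surj : ∀ g', ∃ g ∈ Γ, F g = g'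

theorem ext_exists_quot (hG : IsPGroup p G) {Γ A : Subgroup G} (hn : Γ ≤ Nz A) :
    ∃ (G' : Type) (_ : Group G') (F : G → G'), IsPGroup p G' ∧ ExtQ Γ A F := by
  classical
  have hN : (A.subgroupOf Γ).Normal := ⟨fun x hx g => Nz_conj' (A := A) (hn g.2) hx⟩
  refine ⟨Γ ⧸ A.subgroupOf Γ, inferInstance,
    fun g => if hg : g ∈ Γ then QuotientGroup.mk ⟨g, hg⟩ else 1,
    (hG.to_subgroup Γ).to_quotient _, ?_, ?_, ?_⟩
  · intro g hg h hh
    simp only [dif_pos hg, dif_pos hh, dif_pos (Γ.mul_mem hg hh)]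
    rfl
  · intro g hg h hh
    simp only [dif_pos hg, dif_pos hh]
    exact QuotientGroup.eq
  · intro g'
    obtain ⟨g, rfl⟩ := QuotientGroup.mk_surjective g'
    exact ⟨g, g.2, by simp only [dif_pos g.2]⟩

section

variable {G' : Type} [Group G'] {Γ A : Subgroup G} {F : G → G'}

theorem ExtQ.one (q : ExtQ Γ A F) : F 1 = 1 := by
  have := q.mul 1 Γ.one_mem 1 Γ.one_mem
  simpa using this

theorem ExtQ.inv (q : ExtQ Γ A F) {g : G} (hg : g ∈ Γ) : F g⁻¹ = (F g)⁻¹ := by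
  rw [eq_inv_iff_mul_eq_one, ← q.mul _ (Γ.inv_mem hg) _ hg, inv_mul_cancel, q.one]

theorem ExtQ.conj (q : ExtQ Γ A F) {g h : G} (hg : g ∈ Γ) (hh : h ∈ Γ) :
    F (h⁻¹ * g * h) = (F h)⁻¹ * F g * F h := by
  rw [q.mul _ (Γ.mul_mem (Γ.inv_mem hh) hg) _ hh, q.mul _ (Γ.inv_mem hh) _ hg, q.inv hh]

/-- The image of a subgroup of `Γ`. -/
def ExtQ.im (q : ExtQ Γ A F) (K : Subgroup G) : Subgroup G' where
  carrier := F '' {x | x ∈ K ∧ x ∈ Γ}
  one_mem' := ⟨1, ⟨K.one_mem, Γ.one_mem⟩, q.one⟩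
  mul_mem' := by
    rintro _ _ ⟨x, hx, rfl⟩ ⟨y, hy, rfl⟩
    exact ⟨x * y, ⟨K.mul_mem hx.1 hy.1, Γ.mul_mem hx.2 hy.2⟩, q.mul _ hx.2 _ hy.2⟩
  inv_mem' := by
    rintro _ ⟨x, hx, rfl⟩
    exact ⟨x⁻¹, ⟨K.inv_mem hx.1, Γ.inv_mem hx.2⟩, q.inv hx.2⟩

theorem ExtQ.mem_im (q : ExtQ Γ A F) {K : Subgroup G} {z : G'} :
    z ∈ q.im K ↔ ∃ x, (x ∈ K ∧ x ∈ Γ) ∧ F x = z := Iff.rfl

theorem ExtQ.closure_image (q : ExtQ Γ A F) {X : Set G} (hX : X ⊆ Γ) :
    closure (F '' X) = q.im (closure X) := by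
  have hle : closure X ≤ Γ := (closure_le _).2 hX
  apply le_antisymm
  · refine (closure_le _).2 ?_
    rintro _ ⟨x, hx, rfl⟩
    exact ⟨x, ⟨subset_closure hx, hX hx⟩, rfl⟩
  · rintro _ ⟨x, ⟨hx, -⟩, rfl⟩
    induction hx using closure_induction with
    | mem y hy => exact subset_closure ⟨y, hy, rfl⟩
    | one => rw [q.one]; exact one_mem _
    | mul y z hy hz h1 h2 => rw [q.mul _ (hle hy) _ (hle hz)]; exact mul_mem h1 h2
    | inv y hy h1 => rw [q.inv (hle hy)]; exact inv_mem h1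

theorem ExtQ.orb_image (q : ExtQ Γ A F) {a : G} (ha : a ∈ Γ) {X : Set G} (hX : X ⊆ Γ) :
    orb (F a) (F '' X) = F '' orb a X := by
  ext z
  constructor
  · rintro ⟨_, ⟨x, hx, rfl⟩, rfl⟩
    exact ⟨_, ⟨x, hx, rfl⟩, q.conj ha (hX hx)⟩
  · rintro ⟨_, ⟨x, hx, rfl⟩, rfl⟩
    exact ⟨_, ⟨x, hx, rfl⟩, q.conj ha (hX hx)⟩

theorem ExtQ.image_top (q : ExtQ Γ A F) : F '' (Γ : Set G) = Set.univ :=
  Set.eq_univ_of_forall fun z => q.surj z

theorem ExtQ.finite_iff (q : ExtQ Γ A F) {X : Set G} (hX : X ⊆ Γ) :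
    (F '' X).Finite ↔ FinMod A X := by
  constructor
  · intro h
    choose s hs hs' using q.surj
    refine ⟨s '' (F '' X), h.image _, fun x hx => ⟨s (F x), ⟨_, ⟨x, hx, rfl⟩, rfl⟩, ?_⟩⟩
    exact (q.eq _ (hs _) _ (hX hx)).1 (hs' _)
  · intro h
    obtain ⟨Φ, hΦ, hΦX, hc⟩ := h.reps
    refine (hΦ.image F).subset ?_
    rintro _ ⟨x, hx, rfl⟩
    obtain ⟨φ, hφ, h1⟩ := hc x hx
    exact ⟨φ, hφ, (q.eq _ (hX (hΦX hφ)) _ (hX hx)).2 h1⟩

end

/-- The extension lemma. -/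
theorem ext_plus (H : Hyp p k D) {S : Set G} {a : G} {A C : Subgroup G} (E : ExtD p D S a A C)
    (h : FinMod A (orb a (orb a (closure S : Subgroup G) ∩ {b | a⁻¹ * b ∈ C}))) :
    FinMod A (orb a (closure S : Subgroup G)) := by
  obtain ⟨G', _, F, hG', q⟩ := ext_exists_quot H.pgrp E.nA
  have haG : a ∈ closure S := subset_closure E.mem
  have hSG : S ⊆ (closure S : Subgroup G) := subset_closure
  have hYG : orb a (closure S : Subgroup G) ⊆ (closure S : Subgroup G) := fun y hy => E.orb_G hy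
  have hMG : closure (orb a (closure S : Subgroup G)) ≤ closure S := (closure_le _).2 hYG
  have horb : ∀ X : Set G, X ⊆ (closure S : Subgroup G) → orb a X ⊆ (closure S : Subgroup G) := by
    rintro X hX _ ⟨x, hx, rfl⟩
    exact (closure S).mul_mem ((closure S).mul_mem ((closure S).inv_mem (hX hx)) haG) (hX hx)
  have hY : orb (F a) Set.univ = F '' orb a (closure S : Subgroup G) := by
    rw [← q.image_top, q.orb_image haG subset_rfl]
  have hM' : ((closure (orb (F a) Set.univ) : Subgroup G') : Set G') =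
      F '' (closure (orb a (closure S : Subgroup G)) : Subgroup G) := by
    rw [hY, q.closure_image hYG]
    ext z
    exact ⟨fun ⟨x, hx, e⟩ => ⟨x, hx.1, e⟩, fun ⟨x, hx, e⟩ => ⟨x, ⟨hx, hMG hx⟩, e⟩⟩
  have h1 : (orb (F a) (orb (F a) Set.univ)).Finite := by
    rw [hY, q.orb_image haG hYG, q.finite_iff (horb _ hYG)]
    exact extP H E h
  have h2 := bfc H.prime hG' (F a) h1
  have hM : FinMod A (orb a (closure (orb a (closure S : Subgroup G)) : Subgroup G)) := by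
    rwa [hM', q.orb_image haG hMG, q.finite_iff (horb _ hMG)] at h2
  have hS' : closure (F '' S) = ⊤ := by
    rw [q.closure_image hSG, eq_top_iff]
    intro z _
    obtain ⟨x, hx, e⟩ := q.surj z
    exact ⟨x, ⟨hx, hx⟩, e⟩
  have h3 := ext_core H.prime hG' hS' (by
      rintro _ ⟨s, hs, rfl⟩ g'
      obtain ⟨g, hg, rfl⟩ := q.surj g'
      exact ⟨_, E.inv s hs g hg, q.conj (hSG hs) hg⟩) (F a) (q.im C) h2 (by
      intro I r b' hb'
      have hex : ∀ l, ∃ s, b' l ∈ F '' S → s ∈ S ∧ F s = b' l := fun l => by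
        by_cases hl : b' l ∈ F '' S
        · obtain ⟨s, hs⟩ := hl
          exact ⟨s, fun _ => hs⟩
        · exact ⟨1, fun h => (hl h).elim⟩
      choose b hb using hex
      obtain ⟨Φ, hΦ, hΦY, hΦc⟩ := extH2 H E hM I r b (hb'.mono fun l hl => (hb l hl).1)
      rw [hY]
      refine ⟨F '' Φ, hΦ.image F, Set.image_mono hΦY, ?_⟩
      rintro _ ⟨y, hy, rfl⟩
      obtain ⟨f, hf, h4, h5⟩ := hΦc y hy
      have hyG := hYG hy
      have hfG := hYG (hΦY hf)
      have hz : y * f⁻¹ ∈ closure S := (closure S).mul_mem hyG ((closure S).inv_mem hfG)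
      have e : F y * (F f)⁻¹ = F (y * f⁻¹) := by
        rw [q.mul _ hyG _ ((closure S).inv_mem hfG), q.inv hfG]
      refine ⟨F f, ⟨f, hf, rfl⟩, ?_, ?_⟩
      · rw [e]
        exact ⟨_, ⟨h4, hz⟩, rfl⟩
      · filter_upwards [hb', h5] with l hl h6
        have hbG := hSG (hb l hl).1
        rw [e, ← (hb l hl).2, commute_iff_conj, ← q.conj hz hbG, eq_comm]
        exact (q.eq _ hz _ ((closure S).mul_mem ((closure S).mul_mem
          ((closure S).inv_mem hbG) hz) hbG)).2 h6) (by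
      obtain ⟨N, hN⟩ := extH3 H E hM
      refine ⟨N, ?_⟩
      intro e' he' Q' hQ' hQy
      rw [hY] at he'
      obtain ⟨e, he, rfl⟩ := he'
      have hex : ∀ j, ∃ x, j ≤ N → (x ∈ C ∧ x ∈ closure (orb a (closure S : Subgroup G))) ∧
          F x = Q' j := fun j => by
        by_cases hj : j ≤ N
        · obtain ⟨c, hc, e1⟩ := (hQ' j hj).1
          have h4 : Q' j ∈ F '' (closure (orb a (closure S : Subgroup G)) : Subgroup G) := by
            rw [← hM']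
            exact (hQ' j hj).2
          obtain ⟨m, hm, e2⟩ := h4
          refine ⟨m, fun _ => ⟨⟨?_, hm⟩, e2⟩⟩
          have h5 := E.AC ((q.eq _ hc.2 _ (hMG hm)).1 (e1.trans e2.symm))
          simpa using C.mul_mem hc.1 h5
        · exact ⟨1, fun h => (hj h).elim⟩
      choose Q hQ using hex
      have hQG : ∀ j ≤ N, Q j ∈ closure S := fun j hj => hMG (hQ j hj).1.2
      obtain ⟨i, j, hij, hj, h4⟩ := hN e he Q (fun j hj => (hQ j hj).1) (by
        intro i j hij hj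
        have hi : i ≤ N := hij.le.trans hj
        have h4 := hQy i j hij hj
        rw [hY] at h4
        obtain ⟨y, hy, e1⟩ := h4
        have hx : (Q i)⁻¹ * Q j ∈ closure S :=
          (closure S).mul_mem ((closure S).inv_mem (hQG i hi)) (hQG j hj)
        refine ⟨y, hy, (q.eq _ (hYG hy) _ ((closure S).mul_mem hx (hYG he))).1 ?_⟩
        rw [e1, q.mul _ hx _ (hYG he), q.mul _ ((closure S).inv_mem (hQG i hi)) _ (hQG j hj),
          q.inv (hQG i hi), (hQ i hi).2, (hQ j hj).2])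
      have hi : i ≤ N := hij.le.trans hj
      refine ⟨i, j, hij, hj, ?_⟩
      rw [← (hQ i hi).2, ← (hQ j hj).2]
      exact (q.eq _ (hQG i hi) _ (hQG j hj)).2 h4)
  rwa [hY, q.finite_iff hYG] at h3

end Pool.Agent.Lib.MP_7d7b85_al
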