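import Pool.Agent.Lib.MP_7d7b85_al.Misc

namespace Pool.Agent.Lib.MP_7d7b85_al

open Subgroup Filter

variable {G : Type} [Group G] {p k : ℕ} {D : Set G}

theorem extA_stab (hp : p.Prime) (hG : IsPGroup p G) {T F : Set G}
    (h : ∀ b ∈ F, ∀ y ∈ T, b⁻¹ * y * b ∈ T) : ∀ g ∈ closure F, ∀ y ∈ T, g⁻¹ * y * g ∈ T := by
  intro g hg
  induction hg using closure_induction with
  | mem x hx => exact h x hx
  | one => simp
  | mul x y _ _ hx hy =>
    intro z hz
    convert hy _ (hx z hz) using 1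
    group
  | inv x _ hx =>
    have key : ∀ n : ℕ, ∀ z ∈ T, (x ^ n)⁻¹ * z * x ^ n ∈ T := by
      intro n
      induction n with
      | zero => simp
      | succ n ih =>
        intro z hz
        convert hx _ (ih z hz) using 1
        rw [pow_succ]; group
    obtain ⟨s, hs⟩ := hG x
    have h1 : x ^ (p ^ s - 1) = x⁻¹ := by
      rw [eq_inv_iff_mul_eq_one, ← pow_succ, Nat.sub_add_cancel (Nat.one_le_pow _ _ hp.pos), hs]
    exact h1 ▸ key (p ^ s - 1)

theorem extA_conj (a g : G) {y : G} (hy : y ∈ orb a Set.univ) : g⁻¹ * y * g ∈ orb a Set.univ := by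
  obtain ⟨x, -, rfl⟩ := hy
  exact ⟨x * g, trivial, by group⟩

theorem extA_self (a : G) {H : Subgroup G} : a ∈ orb a H := ⟨1, H.one_mem, by simp⟩

theorem extA_clconj {T : Set G} {g : G} (h : ∀ y ∈ T, g⁻¹ * y * g ∈ T) :
    ∀ m ∈ closure T, g⁻¹ * m * g ∈ closure T := by
  intro m hm
  induction hm using closure_induction with
  | mem x hx => exact subset_closure (h x hx)
  | one => simp
  | mul x y _ _ hx hy => convert mul_mem hx hy using 1; group
  | inv x _ hx => convert inv_mem hx using 1; group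

theorem extA_transfer (a : G) {T : Set G} (hT : ∀ g : G, ∀ y ∈ T, g⁻¹ * y * g ∈ T)
    (h : (orb a T).Finite) {y : G} (hy : y ∈ orb a Set.univ) : (orb y T).Finite := by
  obtain ⟨x, -, rfl⟩ := hy
  refine (h.image fun z => x⁻¹ * z * x).subset ?_
  rintro _ ⟨b, hb, rfl⟩
  exact ⟨_, ⟨_, hT x⁻¹ b hb, rfl⟩, by group⟩

theorem extA_fg (hp : p.Prime) (hG : IsPGroup p G) {T : Set G} (hT : T.Finite)
    (hc : closure T = ⊤) (a : G) (h : ∀ g ∈ T, (orb g (orb a Set.univ)).Finite) :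
    (orb a Set.univ).Finite := by
  have hfg : Group.FG G := Group.fg_iff.2 ⟨T, hc, hT⟩
  let H0 : Subgroup G :=
    { carrier := {x | rho a x ∈ center G}
      one_mem' := by simp [rho]
      mul_mem' := fun {x y} hx hy => by
        have := mul_mem hy ((inferInstance : (center G).Normal).conj_mem _ hx y⁻¹)
        change rho a (x * y) ∈ center G
        convert this using 1
        unfold rho; group
      inv_mem' := fun {x} hx => by
        have := (inferInstance : (center G).Normal).conj_mem _ (inv_mem hx) x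
        change rho a x⁻¹ ∈ center G
        convert this using 1
        unfold rho; group }
  have := hT.to_subtype
  have hR : {f : T → G | ∀ g : T, f g ∈ orb (g : G) (orb a Set.univ)}.Finite :=
    Set.Finite.pi' fun g => h g g.2
  have := hR.to_subtype
  have hfi : H0.FiniteIndex := by
    refine finiteIndex_iff_finite_quotient.2 (Finite.of_injective (fun q : G ⧸ H0 =>
      (⟨fun g => (q.out * a * q.out⁻¹)⁻¹ * g * (q.out * a * q.out⁻¹),
        fun g => ⟨_, ⟨q.out⁻¹, trivial, by simp⟩, rfl⟩⟩ :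
        {f : T → G | ∀ g : T, f g ∈ orb (g : G) (orb a Set.univ)})) ?_)
    intro q q' e
    rw [← q.out_eq, ← q'.out_eq]
    refine QuotientGroup.eq.2 ?_
    have e1 : ∀ g ∈ T, (q.out * a * q.out⁻¹)⁻¹ * g * (q.out * a * q.out⁻¹)
        = (q'.out * a * q'.out⁻¹)⁻¹ * g * (q'.out * a * q'.out⁻¹) := fun g hg =>
      congrFun (congrArg Subtype.val e) ⟨g, hg⟩
    generalize q.out = x at e1 ⊢
    generalize q'.out = y at e1 ⊢
    have e2 : x * a * x⁻¹ * (y * a * y⁻¹)⁻¹ ∈ center G := by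
      rw [← centralizer_univ, ← coe_top, ← hc, centralizer_closure, mem_centralizer_iff]
      intro g hg
      calc g * (x * a * x⁻¹ * (y * a * y⁻¹)⁻¹)
          = x * a * x⁻¹ * ((x * a * x⁻¹)⁻¹ * g * (x * a * x⁻¹)) * (y * a * y⁻¹)⁻¹ := by group
        _ = _ := by rw [e1 g hg]; group
    have := (inferInstance : (center G).Normal).conj_mem _ e2 (a⁻¹ * y⁻¹)
    change rho a (x⁻¹ * y) ∈ center G
    convert this using 1
    unfold rho; group
  let : CommGroup (center G) := { mul_comm := fun a b => Subtype.ext (mem_center_iff.1 b.2 a) }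
  let φ : H0 →* center G := MonoidHom.mk' (fun x => ⟨rho a x, x.2⟩) fun x y => Subtype.ext (by
    have e := mem_center_iff.1 (show rho a x ∈ center G from x.2)
    change rho a (x * y) = rho a x * rho a y
    calc rho a (x * y) = a⁻¹ * (y : G)⁻¹ * a * (rho a x * y) := by unfold rho; group
      _ = a⁻¹ * (y : G)⁻¹ * a * y * rho a x := by rw [← e y, ← mul_assoc]
      _ = _ := by rw [e]; unfold rho; group)
  have hφ : Finite φ.range := by
    refine CommGroup.finite_of_fg_isMulTorsion _ fun x => ?_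
    obtain ⟨k, hk⟩ := ((hG.to_subgroup (center G)).to_subgroup φ.range) x
    exact isOfFinOrder_iff_pow_eq_one.2 ⟨p ^ k, pow_pos hp.pos k, hk⟩
  have : Finite (G ⧸ H0) := Subgroup.finite_quotient_of_finiteIndex
  refine (Set.finite_range fun z : (G ⧸ H0) × φ.range =>
    z.1.out * (a * ((z.2 : center G) : G)) * z.1.out⁻¹).subset ?_
  rintro _ ⟨g, -, rfl⟩
  obtain ⟨c, hc⟩ := QuotientGroup.mk_out_eq_mul H0 g⁻¹
  refine ⟨((g⁻¹ : G), ⟨φ c, _, rfl⟩), ?_⟩
  change ((g⁻¹ : G) : G ⧸ H0).out * (a * rho a c) * ((g⁻¹ : G) : G ⧸ H0).out⁻¹ = _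
  rw [hc]; unfold rho; group

/-- One step finiteness of a conjugacy class implies finiteness under the normal closure. -/
theorem bfc (hp : p.Prime) (hG : IsPGroup p G) (a : G)
    (h : (orb a (orb a Set.univ)).Finite) :
    (orb a (closure (orb a Set.univ) : Subgroup G)).Finite := by
  obtain ⟨T0, h0, h1, h2⟩ : ∃ T0 ⊆ orb a Set.univ, T0.Finite ∧
      orb a (orb a Set.univ) ⊆ (fun g => g⁻¹ * a * g) '' T0 := by
    obtain ⟨T0, h0, h1, h2⟩ := (Set.exists_subset_image_finite_and (f := fun g => g⁻¹ * a * g)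
      (s := orb a Set.univ) (p := fun t => t = orb a (orb a Set.univ))).1
      ⟨orb a (orb a Set.univ), fun _ ⟨g, hg, e⟩ => ⟨g, hg, e.symm⟩, h, rfl⟩
    exact ⟨T0, h0, h1, h2.ge⟩
  have ha : a ∈ orb a Set.univ := ⟨1, trivial, by simp⟩
  have hT : insert a T0 ⊆ orb a Set.univ := Set.insert_subset ha h0
  set H := closure (insert a T0) with hH
  have a1 : orb a (closure (orb a Set.univ) : Subgroup G) ⊆ orb a H := by
    rintro _ ⟨g, hg, rfl⟩
    refine extA_stab hp hG (T := orb a H) ?_ g hg a (extA_self a)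
    rintro b hb _ ⟨x, hx, rfl⟩
    obtain ⟨c, hc, e⟩ := h2 (mem_orb.2 ⟨_, extA_conj a x⁻¹ hb, rfl⟩)
    beta_reduce at e
    refine ⟨c * x, H.mul_mem (subset_closure (Set.mem_insert_of_mem _ hc)) hx, ?_⟩
    calc b⁻¹ * (x⁻¹ * a * x) * b = x⁻¹ * ((x⁻¹⁻¹ * b * x⁻¹)⁻¹ * a * (x⁻¹⁻¹ * b * x⁻¹)) * x := by group
      _ = _ := by rw [← e]; group
  have haH : a ∈ H := subset_closure (Set.mem_insert _ _)
  have a2 := extA_fg hp (hG.to_subgroup H) (T := Subtype.val ⁻¹' insert a T0)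
    ((h1.insert a).preimage Subtype.val_injective.injOn) closure_closure_coe_preimage ⟨a, haH⟩
    fun g hg => ((extA_transfer a (fun g _ => extA_conj a g) h (hT hg)).preimage
      Subtype.val_injective.injOn).subset (by
        rintro _ ⟨_, ⟨x, -, rfl⟩, rfl⟩
        exact ⟨_, ⟨x, trivial, rfl⟩, rfl⟩)
  refine (a2.image Subtype.val).subset (a1.trans ?_)
  rintro _ ⟨g, hg, rfl⟩
  exact ⟨_, ⟨⟨g, hg⟩, trivial, rfl⟩, rfl⟩

/-- A proper subgroup of a finite `p`-group generated by a normal set. -/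
theorem al_fin (hp : p.Prime) (hG : IsPGroup p G) [Finite G] {S : Set G} (hS : closure S = ⊤)
    (hc : ∀ s ∈ S, ∀ g : G, g⁻¹ * s * g ∈ S) {K : Subgroup G} (hK : K ≠ ⊤) :
    ∃ s ∈ S, s ∉ K ∧ s ∈ Nz (closure (S ∩ (K : Set G))) := by
  have : Fact p.Prime := ⟨hp⟩
  have : Group.IsNilpotent G := hG.isNilpotent
  obtain ⟨K1, h1, h2⟩ := (Set.toFinite {L : Subgroup G | S ∩ L = S ∩ K}).exists_maximal ⟨K, rfl⟩
  have h3 : K1 < ⊤ := lt_top_iff_ne_top.2 fun e => hK (top_le_iff.1 (hS ▸ (closure_le K).2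
    fun s hs => (h1.le (show s ∈ S ∩ K1 from ⟨hs, by simp [e]⟩)).2))
  have h4 := Group.normalizerCondition_of_isNilpotent K1 h3
  obtain ⟨s, hs, hn⟩ : ∃ s ∈ S ∩ (Nz K1 : Set G), s ∉ K := by
    by_contra h5
    push Not at h5
    refine h4.not_ge (h2 (Set.Subset.antisymm (fun s hs => ⟨hs.1, h5 s hs⟩) fun s hs => ?_) h4.le)
    exact ⟨hs.1, h4.le (h1.ge hs).2⟩
  refine ⟨s, hs.1, hn, mem_Nz_of_conj hp hG (extA_clconj fun y hy => ?_)⟩
  exact h1.le (show _ ∈ S ∩ K1 from ⟨hc y hy.1 s, Nz_conj hs.2 (h1.ge hy).2⟩)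

theorem extA_al (hp : p.Prime) (hG : IsPGroup p G) {S : Set G} (hS : closure S = ⊤)
    (hc : ∀ s ∈ S, ∀ g : G, g⁻¹ * s * g ∈ S) (a : G) (hf : (orb a Set.univ).Finite) {F : Set G}
    (hF : F ⊆ S) {b : G} (hb : ¬∀ y ∈ orb a (closure F : Subgroup G),
      b⁻¹ * y * b ∈ orb a (closure F : Subgroup G)) :
    ∃ s ∈ S, ∀ y ∈ orb a (closure F : Subgroup G), s⁻¹ * y * s ∉ orb a (closure F : Subgroup G) := by
  set O := orb a (closure F : Subgroup G) with hO
  let K : Subgroup G := closure {g | ∀ y ∈ O, g⁻¹ * y * g ∈ O}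
  have hK : ∀ g ∈ K, ∀ y ∈ O, g⁻¹ * y * g ∈ O := extA_stab hp hG fun _ h => h
  have hfi := finiteIndex_of_finite_conj a (hf.subset fun x hx => by
    obtain ⟨g, rfl⟩ := isConj_iff.1 hx
    exact ⟨g⁻¹, trivial, by simp⟩)
  set N := (centralizer ({a} : Set G)).normalCore with hN
  have hNK : N ≤ K := fun n hn => subset_closure (by
    rintro _ ⟨g, hg, rfl⟩
    refine ⟨g, hg, ?_⟩
    have := mem_centralizer_iff.1 (hn g) a rfl
    calc n⁻¹ * (g⁻¹ * a * g) * n = n⁻¹ * g⁻¹ * (a * (g * n * g⁻¹)) * g := by group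
      _ = _ := by rw [this]; group)
  have : Finite (G ⧸ N) := Subgroup.finite_quotient_of_finiteIndex
  have hmem : ∀ g : G, QuotientGroup.mk' N g ∈ K.map (QuotientGroup.mk' N) → g ∈ K := fun g hg => by
    rw [← Subgroup.mem_comap, Subgroup.comap_map_eq, QuotientGroup.ker_mk', sup_eq_left.2 hNK] at hg
    exact hg
  obtain ⟨_, ⟨s, hs, rfl⟩, h1, h2⟩ := al_fin hp (hG.to_quotient N) (S := QuotientGroup.mk' N '' S)
    (by rw [← MonoidHom.map_closure, hS]; exact map_top_of_surjective _ (QuotientGroup.mk'_surjective N))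
    (by
      rintro _ ⟨s, hs, rfl⟩ g
      obtain ⟨g, rfl⟩ := QuotientGroup.mk'_surjective N g
      exact ⟨_, hc s hs g, by simp⟩)
    (K := K.map (QuotientGroup.mk' N)) fun e => hb (hK b (hmem b (by simp [e])))
  have h3 : s ∈ Nz (closure (S ∩ (K : Set G))) :=
    mem_Nz_of_conj hp hG (extA_clconj fun y hy => ⟨hc y hy.1 s, hmem _ (by
      have := Nz_conj h2 (subset_closure ⟨⟨y, hy.1, rfl⟩, mem_map_of_mem _ hy.2⟩)
      simpa using (closure_le _).2 Set.inter_subset_right this)⟩)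
  have h4 : closure F ≤ closure (S ∩ (K : Set G)) := closure_mono fun f hf => ⟨hF hf,
    subset_closure (by
      rintro _ ⟨g, hg, rfl⟩
      exact ⟨g * f, mul_mem hg (subset_closure hf), by group⟩)⟩
  have h5 : closure (S ∩ (K : Set G)) ≤ K := (closure_le _).2 Set.inter_subset_right
  refine ⟨s, hs, ?_⟩
  rintro _ ⟨g, hg, rfl⟩ hy
  refine h1 (mem_map_of_mem _ (subset_closure ?_))
  rintro _ ⟨x, hx, rfl⟩
  convert hK _ (h5 (Nz_conj h3 (h4 (mul_mem (inv_mem hg) hx)))) _ hy using 1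
  group

/-- Some generator moves a given finite set of conjugates off itself. -/
theorem al (hp : p.Prime) (hG : IsPGroup p G) {S : Set G} (hS : closure S = ⊤)
    (hc : ∀ s ∈ S, ∀ g : G, g⁻¹ * s * g ∈ S) (a : G) (hinf : (orb a Set.univ).Infinite)
    (hfg : ∀ F : Set G, F.Finite → F ⊆ S → (orb a (closure F : Subgroup G)).Finite)
    {O : Set G} (hO : O.Finite) (hOY : O ⊆ orb a Set.univ) :
    ∃ b ∈ S, ∀ y ∈ O, b⁻¹ * y * b ∉ O := by
  have ex : ∀ g : G, ∃ F : Set G, F.Finite ∧ F ⊆ S ∧ g ∈ closure F := fun g => by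
    have hg : g ∈ closure S := by simp [hS]
    induction hg using closure_induction with
    | mem x hx => exact ⟨{x}, Set.finite_singleton x, by simpa, subset_closure rfl⟩
    | one => exact ⟨∅, Set.finite_empty, by simp, one_mem _⟩
    | mul x y _ _ hx hy =>
      obtain ⟨F, h1, h2, h3⟩ := hx
      obtain ⟨F', h4, h5, h6⟩ := hy
      exact ⟨F ∪ F', h1.union h4, Set.union_subset h2 h5, mul_mem
        (closure_mono Set.subset_union_left h3) (closure_mono Set.subset_union_right h6)⟩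
    | inv x _ hx => exact hx.imp fun F h => ⟨h.1, h.2.1, inv_mem h.2.2⟩
  obtain ⟨F, f1, f2, f3, f4⟩ : ∃ F : Set G, F.Finite ∧ F ⊆ S ∧ a ∈ closure F ∧
      O ⊆ orb a (closure F : Subgroup G) := by
    induction O, hO using Set.Finite.induction_on with
    | empty => exact (ex a).imp fun F h => ⟨h.1, h.2.1, h.2.2, by simp⟩
    | insert _ _ ih =>
      obtain ⟨F, h1, h2, h3, h4⟩ := ih ((Set.subset_insert _ _).trans hOY)
      obtain ⟨g, -, hg⟩ := hOY (Set.mem_insert _ _)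
      obtain ⟨F', h5, h6, h7⟩ := ex g
      refine ⟨F ∪ F', h1.union h5, Set.union_subset h2 h6, closure_mono Set.subset_union_left h3,
        Set.insert_subset ⟨g, closure_mono Set.subset_union_right h7, hg⟩ fun y hy => ?_⟩
      obtain ⟨x, hx, e⟩ := h4 hy
      exact ⟨x, closure_mono Set.subset_union_left hx, e⟩
  obtain ⟨b, hb, hb'⟩ : ∃ b ∈ S, ¬∀ y ∈ orb a (closure F : Subgroup G),
      b⁻¹ * y * b ∈ orb a (closure F : Subgroup G) := by
    by_contra h
    push Not at h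
    refine hinf ((hfg F f1 f2).subset ?_)
    rintro _ ⟨g, -, rfl⟩
    exact extA_stab hp hG h g (by simp [hS]) a (extA_self a)
  have hFb : insert b F ⊆ S := Set.insert_subset hb f2
  set P := closure (insert b F) with hP
  have hFP : closure F ≤ P := closure_mono (Set.subset_insert _ _)
  have hcl : ∀ g : P, g ∈ closure (Subtype.val ⁻¹' F : Set P) ↔ (g : G) ∈ closure F := fun g => by
    have : (closure (Subtype.val ⁻¹' F : Set P)).map P.subtype = closure F := by
      rw [MonoidHom.map_closure]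
      congr 1
      exact Set.image_preimage_eq_of_subset fun x hx => ⟨⟨x, hFP (subset_closure hx)⟩, rfl⟩
    rw [← this]
    exact (mem_map_iff_mem P.subtype_injective).symm
  have horb : ∀ y : P, y ∈ orb (⟨a, hFP f3⟩ : P) (closure (Subtype.val ⁻¹' F : Set P) : Subgroup P)
      ↔ (y : G) ∈ orb a (closure F : Subgroup G) := fun y =>
    ⟨fun ⟨g, hg, e⟩ => ⟨g, (hcl g).1 hg, congrArg Subtype.val e⟩,
      fun ⟨g, hg, e⟩ => ⟨⟨g, hFP hg⟩, (hcl _).2 hg, Subtype.ext e⟩⟩
  have hOP : ∀ y ∈ orb a (closure F : Subgroup G), y ∈ P := by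
    rintro _ ⟨g, hg, rfl⟩
    exact mul_mem (mul_mem (inv_mem (hFP hg)) (hFP f3)) (hFP hg)
  obtain ⟨s, hs, h⟩ := extA_al hp (hG.to_subgroup P) (S := Subtype.val ⁻¹' S)
    (top_le_iff.1 (closure_closure_coe_preimage.ge.trans (closure_mono (Set.preimage_mono hFb))))
    (fun s hs g => hc s hs g) ⟨a, hFP f3⟩
    (((hfg _ (f1.insert b) hFb).preimage Subtype.val_injective.injOn).subset (by
      rintro _ ⟨g, -, rfl⟩
      exact ⟨g, g.2, rfl⟩)) (Set.preimage_mono f2) (b := ⟨b, subset_closure (Set.mem_insert _ _)⟩)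
    fun h => hb' fun y hy => (horb _).1 (h ⟨y, hOP y hy⟩ ((horb _).2 hy))
  exact ⟨s, hs, fun y hy hy' => h ⟨y, hOP y (f4 hy)⟩ ((horb _).2 (f4 hy)) ((horb _).2 (f4 hy'))⟩

theorem extA_fc (a : G) (hM : (orb a (closure (orb a Set.univ) : Subgroup G)).Finite) :
    ∀ m ∈ closure (orb a Set.univ), (orb m (closure (orb a Set.univ) : Subgroup G)).Finite := by
  intro m hm
  induction hm using closure_induction with
  | mem x hx => exact extA_transfer a (fun g => extA_clconj fun _ => extA_conj a g) hM hx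
  | one => exact (Set.finite_singleton 1).subset (by rintro _ ⟨g, -, rfl⟩; simp)
  | mul x y _ _ hx hy =>
    refine (hx.mul hy).subset ?_
    rintro _ ⟨g, hg, rfl⟩
    exact ⟨_, ⟨g, hg, rfl⟩, _, ⟨g, hg, rfl⟩, by group⟩
  | inv x _ hx =>
    refine hx.inv.subset ?_
    rintro _ ⟨g, hg, rfl⟩
    exact ⟨g, hg, by group⟩

/-- The abstract extension lemma. -/
theorem ext_core (hp : p.Prime) (hG : IsPGroup p G) {S : Set G} (hS : closure S = ⊤)
    (hc : ∀ s ∈ S, ∀ g : G, g⁻¹ * s * g ∈ S) (a : G) (C : Subgroup G)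
    (hM : (orb a (closure (orb a Set.univ) : Subgroup G)).Finite)
    (h2 : ∀ (I : Type) (r : Ultrafilter I) (b : I → G), (∀ᶠ l in r, b l ∈ S) →
      ∃ F : Set G, F.Finite ∧ F ⊆ orb a Set.univ ∧ ∀ y ∈ orb a Set.univ, ∃ f ∈ F,
        y * f⁻¹ ∈ C ∧ ∀ᶠ l in r, Commute (y * f⁻¹) (b l))
    (h3 : ∃ N : ℕ, ∀ e ∈ orb a Set.univ, ∀ Q : ℕ → G,
      (∀ j ≤ N, Q j ∈ C ∧ Q j ∈ closure (orb a Set.univ)) →
      (∀ i j, i < j → j ≤ N → (Q i)⁻¹ * Q j * e ∈ orb a Set.univ) →
      ∃ i j, i < j ∧ j ≤ N ∧ Q i = Q j) :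
    (orb a Set.univ).Finite := by
  classical
  by_contra hinf
  have ha : a ∈ orb a Set.univ := ⟨1, trivial, by simp⟩
  set Y := orb a Set.univ with hY
  set M := closure Y with hM'
  have hfg : ∀ F : Set G, F.Finite → F ⊆ S → (orb a (closure F : Subgroup G)).Finite := by
    intro F f1 f2
    have r1 : ∀ b ∈ F, (rho b '' Y).Finite := fun b hb => by
      obtain ⟨F', g1, -, g3⟩ := h2 Unit (pure ()) (fun _ => b) (by simpa using f2 hb)
      refine (g1.image (rho b)).subset ?_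
      rintro _ ⟨y, hy, rfl⟩
      obtain ⟨f, hf, -, e⟩ := g3 y hy
      have e' : y * f⁻¹ * b = b * (y * f⁻¹) := e.exists.choose_spec
      refine ⟨f, hf, ?_⟩
      calc rho b f = b⁻¹ * y⁻¹ * (y * f⁻¹ * b) * f := by unfold rho; group
        _ = _ := by rw [e']; unfold rho; group
    have r2 : ∀ b, rho b '' Y ⊆ M := by
      rintro b _ ⟨y, hy, rfl⟩
      change rho b y ∈ M
      convert M.mul_mem (M.inv_mem (subset_closure (extA_conj a b hy))) (subset_closure hy) using 1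
      unfold rho; group
    have r3 : (⋃ b ∈ F, ⋃ z ∈ rho b '' Y, orb z M).Finite :=
      f1.biUnion fun b hb => (r1 b hb).biUnion fun z hz => extA_fc a hM z (r2 b hz)
    have r4 := dietzmann hp hG r3 fun x hx y hy => by
      simp only [Set.mem_iUnion] at hx hy ⊢
      obtain ⟨b, hb, z, hz, g, hg, rfl⟩ := hx
      obtain ⟨b', -, z', hz', g', hg', rfl⟩ := hy
      exact ⟨b, hb, z, hz, _, M.mul_mem hg (M.mul_mem (M.mul_mem (M.inv_mem hg') (r2 b' hz')) hg'),
        by group⟩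
    refine (r4.image (a * ·)).subset ?_
    rintro _ ⟨g, hg, rfl⟩
    have := extA_stab hp hG (T := {y | y ∈ Y ∧ a⁻¹ * y ∈ closure (⋃ b ∈ F, ⋃ z ∈ rho b '' Y, orb z M)})
      (fun b hb y hy => ⟨extA_conj a b hy.1, by
        have : rho b y ∈ closure (⋃ b ∈ F, ⋃ z ∈ rho b '' Y, orb z M) := subset_closure (by
          simp only [Set.mem_iUnion]
          exact ⟨b, hb, _, ⟨y, hy.1, rfl⟩, extA_self _⟩)
        convert mul_mem hy.2 (inv_mem this) using 1
        unfold rho; group⟩) g hg a ⟨ha, by simp⟩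
    exact ⟨_, this.2, by simp⟩
  choose b hb hb' using fun O : Finset G => al hp hG hS hc a hinf hfg
    (O.finite_toSet.inter_of_left Y) Set.inter_subset_right
  let r : Ultrafilter (Finset G) := Ultrafilter.of atTop
  have nc : ∀ y ∈ Y, ∀ z, ∀ᶠ l in r, (b l)⁻¹ * y * b l ≠ z := fun y hy z =>
    ((eventually_ge_atTop ({y, z} : Finset G)).filter_mono (Ultrafilter.of_le _)).mono
      fun l hl e => hb' l y ⟨hl (by simp), hy⟩ ⟨hl (by simp [e]), extA_conj a _ hy⟩
  obtain ⟨F, f1, f2, f3⟩ := h2 _ r b (Eventually.of_forall hb)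
  have key : ∀ t : ℕ, ∃ e ∈ Y, ∃ Q : ℕ → G,
      (∀ j ≤ t, Q j ∈ C ∧ Q j ∈ M ∧ ∀ᶠ l in r, Commute (Q j) (b l)) ∧
      ∀ i j, i < j → j ≤ t → (Q i)⁻¹ * Q j * e ∈ Y ∧ Q i ≠ Q j := by
    intro t
    induction t with
    | zero => exact ⟨a, ha, fun _ => 1, fun _ _ => ⟨one_mem _, one_mem _, by simp⟩, by omega⟩
    | succ t ih =>
      obtain ⟨e, he, Q, q1, q2⟩ := ih
      obtain ⟨f, hf, e1⟩ := (Ultrafilter.eventually_exists_mem_iff f1).1
        (Eventually.of_forall (f := r) fun l => f3 _ (extA_conj a (b l) he))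
      have e2 : ∀ᶠ l in r, ∀ j ∈ Set.Iic t, Commute (Q j) (b l) :=
        (eventually_all_finite (Set.finite_Iic t)).2 fun j hj => (q1 j hj).2.2
      obtain ⟨l0, u1, u2⟩ := (e1.and e2).exists
      have e3 : ∀ᶠ l in r, ∀ j ∈ Set.Iic t,
          (b l)⁻¹ * e * b l ≠ (Q t)⁻¹ * Q j * ((b l0)⁻¹ * e * b l0) :=
        (eventually_all_finite (Set.finite_Iic t)).2 fun j _ => nc e he _
      obtain ⟨l1, v1, v2, v3⟩ := (e1.and (e2.and e3)).exists
      have cj : ∀ l, (∀ j ∈ Set.Iic t, Commute (Q j) (b l)) → ∀ i ≤ t, ∀ j ≤ t,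
          (Q i)⁻¹ * Q j * ((b l)⁻¹ * e * b l) = (b l)⁻¹ * ((Q i)⁻¹ * Q j * e) * b l :=
        fun l hl i hi j hj => by
          have := ((hl i hi).inv_left.mul_left (hl j hj)).inv_right.eq
          calc _ = (Q i)⁻¹ * Q j * (b l)⁻¹ * (e * b l) := by group
            _ = _ := by rw [this]; group
      obtain ⟨c, hc⟩ : ∃ c, c = (b l1)⁻¹ * e * b l1 * f⁻¹ * ((b l0)⁻¹ * e * b l0 * f⁻¹)⁻¹ := ⟨_, rfl⟩
      have c1 : c * ((b l0)⁻¹ * e * b l0) = (b l1)⁻¹ * e * b l1 := by rw [hc]; group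
      refine ⟨_, extA_conj a (b l0) he, fun j => if j ≤ t then Q j else Q t * c, fun j _ => ?_,
        fun i j hij hj => ?_⟩
      · by_cases h : j ≤ t
        · simpa only [if_pos h] using q1 j h
        · simp only [if_neg h]
          refine ⟨mul_mem (q1 t le_rfl).1 (hc ▸ mul_mem v1.1 (inv_mem u1.1)),
            mul_mem (q1 t le_rfl).2.1 ?_, ?_⟩
          · rw [eq_mul_inv_of_mul_eq c1]
            exact mul_mem (subset_closure (extA_conj a _ he))
              (inv_mem (subset_closure (extA_conj a _ he)))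
          · filter_upwards [(q1 t le_rfl).2.2, u1.2, v1.2] with l w1 w2 w3
            exact w1.mul_left (hc ▸ w3.mul_left w2.inv_left)
      · have hi : i ≤ t := by omega
        by_cases h : j ≤ t
        · simp only [if_pos h, if_pos hi]
          exact ⟨cj l0 u2 i hi j h ▸ extA_conj a _ (q2 i j hij h).1, (q2 i j hij h).2⟩
        · simp only [if_neg h, if_pos hi]
          constructor
          · rw [← mul_assoc _ (Q t), mul_assoc _ c, c1, cj l1 v2 i hi t le_rfl]
            refine extA_conj a _ ?_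
            rcases hi.lt_or_eq with h' | h'
            · exact (q2 i t h' le_rfl).1
            · simpa [h'] using he
          · intro e'
            refine v3 i hi ?_
            rw [← c1, e']; group
  obtain ⟨N, hN⟩ := h3
  obtain ⟨e, he, Q, q1, q2⟩ := key N
  obtain ⟨i, j, hij, hj, e'⟩ := hN e he Q (fun j hj => ⟨(q1 j hj).1, (q1 j hj).2.1⟩)
    fun i j hij hj => (q2 i j hij hj).1
  exact (q2 i j hij hj).2 e'

end Pool.Agent.Lib.MP_7d7b85_al
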