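import Pool.Agent.Lib.MP_7d7b85_al.Quot
import Pool.Agent.Lib.MP_7d7b85_al.Chain

namespace Pool.Agent.Lib.MP_7d7b85_al

open Subgroup Filter

variable {G : Type} [Group G] {p k : ℕ} {D : Set G}

/-- The data of the extension lemma. -/
structure ExtD (p : ℕ) (D S : Set G) (a : G) (A C : Subgroup G) : Prop where
  sub : S ⊆ D
  inv : ∀ s ∈ S, ∀ g ∈ closure S, g⁻¹ * s * g ∈ S
  mem : a ∈ S
  fr : FR p A
  le : A ≤ closure S
  nA : closure S ≤ Nz A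
  AC : A ≤ C
  CA : C ≤ Cz A
  nC : closure S ≤ Nz C
  fin : FinMod C (closure S : Subgroup G)
  max : ∀ W, Tower a W → W ≤ closure S → W ≤ A

/-- A central series of `Γ` modulo `C`. -/
theorem extb_series (hp : p.Prime) (hG : IsPGroup p G) {Γ C : Subgroup G} (hn : Γ ≤ Nz C)
    (hf : FinMod C (Γ : Set G)) : ∃ (Z : ℕ → Subgroup G) (c : ℕ), Z 0 ≤ C ∧
      (∀ j, C ⊓ Γ ≤ Z j) ∧ (∀ j, ∀ g ∈ Z (j + 1), ∀ h ∈ Γ, rho g h ∈ Z j) ∧ Γ ≤ Z c := by
  have : Fact p.Prime := ⟨hp⟩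
  have hN : (C.subgroupOf Γ).Normal := ⟨fun x hx g => Nz_conj' (A := C) (hn g.2) hx⟩
  have hfi : (C.subgroupOf Γ).FiniteIndex := ⟨finMod_iff_relIndex.1 hf⟩
  have : Finite (Γ ⧸ C.subgroupOf Γ) := Subgroup.finite_quotient_of_finiteIndex
  have hP : IsPGroup p (Γ ⧸ C.subgroupOf Γ) := (hG.to_subgroup Γ).to_quotient _
  have hnil : Group.IsNilpotent (Γ ⧸ C.subgroupOf Γ) := hP.isNilpotent
  obtain ⟨c, hc⟩ := hnil.nilpotent'
  refine ⟨fun j => ((Subgroup.upperCentralSeries (Γ ⧸ C.subgroupOf Γ) j).comap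
    (QuotientGroup.mk' (C.subgroupOf Γ))).map Γ.subtype, c, ?_, ?_, ?_, ?_⟩
  · rintro _ ⟨x, hx, rfl⟩
    have h1 : QuotientGroup.mk' (C.subgroupOf Γ) x = 1 := by
      simpa [Subgroup.upperCentralSeries_zero] using hx
    exact (QuotientGroup.eq_one_iff x).1 h1
  · intro j x hx
    refine ⟨⟨x, hx.2⟩, ?_, rfl⟩
    have h1 : QuotientGroup.mk' (C.subgroupOf Γ) ⟨x, hx.2⟩ = 1 :=
      (QuotientGroup.eq_one_iff _).2 hx.1
    simp only [SetLike.mem_coe, Subgroup.mem_comap, h1]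
    exact Subgroup.one_mem _
  · rintro j _ ⟨x, hx, rfl⟩ h hh
    refine ⟨x⁻¹ * ((⟨h, hh⟩ : Γ)⁻¹ * x * ⟨h, hh⟩), ?_, rfl⟩
    have h1 := Subgroup.mem_upperCentralSeries_succ_iff.1
      ((Subgroup.upperCentralSeries _ (j + 1)).inv_mem hx)
      (QuotientGroup.mk' (C.subgroupOf Γ) ⟨h, hh⟩)⁻¹
    simp only [SetLike.mem_coe, Subgroup.mem_comap, map_mul, map_inv]
    simpa [commutatorElement_def, mul_assoc] using h1
  · intro x hx
    refine ⟨⟨x, hx⟩, ?_, rfl⟩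
    simp [hc]

theorem extb_finMod_conj {A : Subgroup G} {X Y : Set G} {g : G} (hg : g ∈ Nz A) (h : FinMod A X)
    (hY : ∀ y ∈ Y, g * y * g⁻¹ ∈ X) : FinMod A Y := by
  obtain ⟨Φ, hΦ, h⟩ := h
  refine ⟨(fun φ => g⁻¹ * φ * g) '' Φ, hΦ.image _, fun y hy => ?_⟩
  obtain ⟨φ, hφ, h1⟩ := h _ (hY y hy)
  refine ⟨_, ⟨φ, hφ, rfl⟩, ?_⟩
  convert Nz_conj hg h1 using 1
  group

theorem extb_evC_mul {I : Type} {r : Ultrafilter I} {e : I → G} {a b : G} (ha : EvC r e a)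
    (hb : EvC r e b) : EvC r e (a * b) := by
  obtain ⟨a', ha'⟩ := ha
  obtain ⟨b', hb'⟩ := hb
  refine ⟨a' * b', ?_⟩
  filter_upwards [ha', hb'] with l h1 h2
  rw [← h1, ← h2]; group

theorem extb_evC_inv {I : Type} {r : Ultrafilter I} {e : I → G} {a : G} (ha : EvC r e a) :
    EvC r e a⁻¹ := by
  obtain ⟨a', ha'⟩ := ha
  refine ⟨a'⁻¹, ?_⟩
  filter_upwards [ha'] with l h1
  rw [← h1]; group

section

variable {S : Set G} {a : G} {A C : Subgroup G}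

theorem ExtD.orb_S (E : ExtD p D S a A C) {y : G} (hy : y ∈ orb a (closure S : Subgroup G)) :
    y ∈ S := by
  obtain ⟨g, hg, rfl⟩ := hy
  exact E.inv a E.mem g hg

theorem ExtD.orb_G (E : ExtD p D S a A C) {y : G} (hy : y ∈ orb a (closure S : Subgroup G)) :
    y ∈ closure S := subset_closure (E.orb_S hy)

theorem extb_orb_conj {Γ : Subgroup G} {y g : G} (hy : y ∈ orb a (Γ : Set G)) (hg : g ∈ Γ) :
    g⁻¹ * y * g ∈ orb a (Γ : Set G) := by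
  obtain ⟨h, hh, rfl⟩ := hy
  exact ⟨h * g, Γ.mul_mem hh hg, by group⟩

theorem extb_orb_conj' {Γ : Subgroup G} {y g : G} (hy : y ∈ orb a (Γ : Set G)) (hg : g ∈ Γ) :
    g * y * g⁻¹ ∈ orb a (Γ : Set G) := by
  simpa using extb_orb_conj hy (Γ.inv_mem hg)

theorem ExtD.max' (E : ExtD p D S a A C) {y : G} (hy : y ∈ orb a (closure S : Subgroup G))
    {W : Subgroup G} (T : Tower y W) (hW : W ≤ closure S) : W ≤ A := by
  obtain ⟨g, hg, rfl⟩ := hy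
  have hg' : g ∈ closure S := hg
  have T' := T.cjs g⁻¹
  have e : g⁻¹⁻¹ * (g⁻¹ * a * g) * g⁻¹ = a := by group
  rw [e] at T'
  have h1 : cjs W g⁻¹ ≤ closure S := fun x hx => by
    have h2 := hW (mem_cjs.1 hx)
    have h3 := mul_mem (mul_mem hg' h2) (inv_mem hg')
    simpa [mul_assoc] using h3
  intro w hw
  have h2 := E.max _ T' h1 (conj_mem_cjs (g := g⁻¹) hw)
  have h3 := Nz_conj (E.nA hg') h2
  simpa [mul_assoc] using h3

/-- The inductive step of `extP`. -/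
theorem extb_step (H : Hyp p k D) (E : ExtD p D S a A C) {y b : G}
    (hy : y ∈ orb a (closure S : Subgroup G))
    (hb : b ∈ closure S)
    (ih : ∀ l ∈ orb a (closure S : Subgroup G), b⁻¹ * l ∈ C → ∀ s : ℕ,
      FinMod A (orb ((y ^ s)⁻¹ * l * y ^ s)
        (orb a (closure S : Subgroup G) ∩ {b' | b⁻¹ * b' ∈ C}))) :
    FinMod A (orb y (orb a (closure S : Subgroup G) ∩ {b' | b⁻¹ * b' ∈ C})) := by
  by_contra hno
  have hyD : y ∈ D := E.sub (E.orb_S hy)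
  have hyG : y ∈ closure S := E.orb_G hy
  have hyA : y ∈ Nz A := E.nA hyG
  have hyp : y ^ p = 1 := H.pow y hyD
  have TB : Tower y (rhoIm y A) := tower_rhoIm E.fr.comm E.fr.div hyA hyp
  have hBA : rhoIm y A ≤ A := rhoIm_le hyA
  obtain ⟨r, hr, hnc⟩ := exists_nonC (A := A) (fun l : G => l⁻¹ * y * l)
    (orb a (closure S : Subgroup G) ∩ {b' | b⁻¹ * b' ∈ C}) (fun h => hno (h.mono (by
      rintro _ ⟨g, hg, rfl⟩
      exact ⟨g, hg, rfl⟩)))
  obtain ⟨L, hyL, hLG, hL1, hL2⟩ := exists_inv_evC H.prime hyp r (fun l : G => l) (closure S) hyG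
  have hθ : ∀ l ∈ orb a (closure S : Subgroup G) ∩ {b' | b⁻¹ * b' ∈ C},
      ∀ l' ∈ orb a (closure S : Subgroup G) ∩ {b' | b⁻¹ * b' ∈ C}, l' * l⁻¹ ∈ C := by
    intro l hl l' hl'
    have h1 : b⁻¹ * l ∈ C := hl.2
    have h2 : b⁻¹ * l' ∈ C := hl'.2
    convert Nz_conj' (E.nC hb) (C.mul_mem h2 (C.inv_mem h1)) using 1
    group
  have hev : ∀ l ∈ orb a (closure S : Subgroup G) ∩ {b' | b⁻¹ * b' ∈ C},
      ∀ l' ∈ orb a (closure S : Subgroup G) ∩ {b' | b⁻¹ * b' ∈ C}, ∀ s : ℕ,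
      EvC r (fun l : G => l) ((y ^ s)⁻¹ * (l' * l⁻¹) * y ^ s) := by
    intro l hl l' hl' s
    have hys : y ^ s ∈ closure S := pow_mem hyG s
    obtain ⟨φ, hφ⟩ := ultra_finMod r (ih l hl.1 hl.2 s)
      (fun m => m⁻¹ * ((y ^ s)⁻¹ * l * y ^ s) * m) (hr.mono fun m hm => ⟨m, hm, rfl⟩)
    obtain ⟨φ', hφ'⟩ := ultra_finMod r (ih l' hl'.1 hl'.2 s)
      (fun m => m⁻¹ * ((y ^ s)⁻¹ * l' * y ^ s) * m) (hr.mono fun m hm => ⟨m, hm, rfl⟩)
    have hfin := finC H.pgrp E.fr.comm E.fr.fin ((y ^ s)⁻¹ * (l' * l⁻¹) * y ^ s)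
      (V := {x | (IsConj ((y ^ s)⁻¹ * (l' * l⁻¹) * y ^ s) x ∧ x ∈ Cz A) ∧
        (φ' * φ⁻¹)⁻¹ * x ∈ A}) (fun x hx => hx.1)
      ⟨{φ' * φ⁻¹}, Set.finite_singleton _, fun x hx => ⟨_, rfl, hx.2⟩⟩
    refine evC_of_finite r _ hfin ?_
    filter_upwards [hr, hφ, hφ'] with m hm h1 h2
    have hmG : m ∈ closure S := E.orb_G hm.1
    refine ⟨⟨isConj_iff.2 ⟨m⁻¹, by simp⟩, ?_⟩, ?_⟩
    · exact E.CA (Nz_conj (E.nC hmG) (Nz_conj (E.nC hys) (hθ l hl l' hl')))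
    · have hu : m⁻¹ * ((y ^ s)⁻¹ * l * y ^ s) * m ∈ Nz A := by
        refine E.nA (mul_mem (mul_mem (inv_mem hmG) ?_) hmG)
        exact mul_mem (mul_mem (inv_mem hys) (E.orb_G hl.1)) hys
      have hφN : φ ∈ Nz A := by
        have := mul_mem hu (inv_mem (le_Nz A h1))
        simpa [mul_assoc] using this
      have h5 := Nz_conj' hφN (A.mul_mem h2 (A.inv_mem h1))
      convert h5 using 1
      group
  obtain ⟨B', T', hlt, hle⟩ := cf H hyD TB r (fun l : G => l) L hyL hL1 (by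
      filter_upwards [hr] with l hl
      filter_upwards [hr] with l' hl'
      have hθG : l' * l⁻¹ ∈ closure S := mul_mem (E.orb_G hl'.1) (inv_mem (E.orb_G hl.1))
      refine ⟨Cz_anti hBA (E.CA (hθ l hl l' hl')), hL2 _ ?_ fun j => ?_⟩
      · exact rho_mem_of_Nz (le_Nz _ hyG) hθG
      · have h1 := extb_evC_mul (extb_evC_inv (hev l hl l' hl' (j + 1))) (hev l hl l' hl' j)
        convert h1 using 1
        rw [pow_succ']
        unfold rho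
        group) (by
      filter_upwards [hr] with l hl
      intro g
      filter_upwards [hnc (l⁻¹ * y * g * l)] with l' h1 h2
      apply h1
      convert Nz_conj (E.nA (E.orb_G hl.1)) (hBA h2) using 1
      unfold rho
      group)
  have h1 : B' ≤ A := E.max' hy T' (hle.trans (sup_le hLG (hBA.trans E.le)))
  exact hlt.not_ge (T'.le_rhoIm h1)

end

/-- From one class to all classes. -/
theorem extP (H : Hyp p k D) {S : Set G} {a : G} {A C : Subgroup G} (E : ExtD p D S a A C)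
    (h : FinMod A (orb a (orb a (closure S : Subgroup G) ∩ {b | a⁻¹ * b ∈ C}))) :
    FinMod A (orb a (orb a (closure S : Subgroup G))) := by
  obtain ⟨Z, c, hZ0, hZC, hZs, hZc⟩ := extb_series H.prime H.pgrp E.nC E.fin
  have key : ∀ j, ∀ y ∈ orb a (closure S : Subgroup G), ∀ b ∈ closure S, y⁻¹ * b ∈ Z j →
      FinMod A (orb y (orb a (closure S : Subgroup G) ∩ {b' | b⁻¹ * b' ∈ C})) := by
    intro j
    induction j with
    | zero =>
      rintro _ ⟨g, hg, rfl⟩ b - hb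
      have hg' : g ∈ closure S := hg
      refine extb_finMod_conj (E.nA hg') h ?_
      rintro _ ⟨l, hl, rfl⟩
      refine ⟨g * l * g⁻¹, ⟨extb_orb_conj' hl.1 hg', ?_⟩, by group⟩
      have h1 : b⁻¹ * l ∈ C := hl.2
      have h2 := Nz_conj' (E.nC hg') (C.mul_mem (hZ0 hb) h1)
      change a⁻¹ * (g * l * g⁻¹) ∈ C
      convert h2 using 1
      group
    | succ j ih =>
      intro y hy b hb hyb
      refine extb_step H E hy hb fun l hl hbl s => ?_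
      have hyG : y ∈ closure S := E.orb_G hy
      have hys : y ^ s ∈ closure S := pow_mem hyG s
      have hblG : b⁻¹ * l ∈ C ⊓ closure S := ⟨hbl, (closure S).mul_mem ((closure S).inv_mem hb) (E.orb_G hl)⟩
      refine ih _ (extb_orb_conj hl hys) b hb ?_
      have h1 := hZs j _ ((Z (j + 1)).mul_mem hyb (hZC (j + 1) hblG)) _ hys
      have h2 := (Z j).inv_mem ((Z j).mul_mem (hZC j hblG) h1)
      convert h2 using 1
      unfold rho
      group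
  obtain ⟨Φ, hΦ, hΦG, hΦc⟩ := E.fin.reps
  have haY : a ∈ orb a (closure S : Subgroup G) := ⟨1, one_mem (closure S), by simp⟩
  have h1 : ∀ φ ∈ Φ, FinMod A (orb a (orb a (closure S : Subgroup G) ∩ {b' | φ⁻¹ * b' ∈ C})) :=
    fun φ hφ => key c a haY φ (hΦG hφ) (hZc (mul_mem (inv_mem (E.orb_G haY)) (hΦG hφ)))
  choose! Ψ hΨ hΨc using h1
  refine ⟨⋃ φ ∈ Φ, Ψ φ, hΦ.biUnion hΨ, ?_⟩
  rintro _ ⟨l, hl, rfl⟩
  obtain ⟨φ, hφ, h2⟩ := hΦc l (E.orb_G hl)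
  obtain ⟨ψ, hψ, h3⟩ := hΨc φ hφ _ ⟨l, ⟨hl, h2⟩, rfl⟩
  exact ⟨ψ, Set.mem_biUnion hφ hψ, h3⟩

theorem extb_rhoIm_congr {A : Subgroup G} {d e : G} (hd : d ∈ Nz A) (h : d⁻¹ * e ∈ Cz A) :
    rhoIm e A = rhoIm d A := by
  unfold rhoIm
  rw [Set.image_congr fun α hα => rho_congr hd h hα]

theorem extb_rhoIm_conj {A : Subgroup G} {d g x : G} (hc : Comm A) (hd : d ∈ Nz A)
    (hg : g ∈ Nz A) (hx : x ∈ rhoIm d A) : g⁻¹ * x * g ∈ rhoIm (g⁻¹ * d * g) A := by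
  obtain ⟨α, hα, rfl⟩ := (mem_rhoIm hc hd).1 hx
  exact subset_closure ⟨g⁻¹ * α * g, Nz_conj hg hα, rho_conj d α g⟩

theorem extb_M_conj {Γ : Subgroup G} {a g x : G} (hg : g ∈ Γ)
    (hx : x ∈ closure (orb a (Γ : Set G))) : g * x * g⁻¹ ∈ closure (orb a (Γ : Set G)) := by
  induction hx using closure_induction with
  | mem y hy => exact subset_closure (extb_orb_conj' hy hg)
  | one => simp
  | mul y z _ _ h1 h2 =>
    convert mul_mem h1 h2 using 1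
    group
  | inv y _ h1 =>
    convert inv_mem h1 using 1
    group

theorem extH3 (H : Hyp p k D) {S : Set G} {a : G} {A C : Subgroup G} (E : ExtD p D S a A C)
    (hM : FinMod A (orb a (closure (orb a (closure S : Subgroup G)) : Subgroup G))) :
    ∃ N : ℕ, ∀ e ∈ orb a (closure S : Subgroup G), ∀ Q : ℕ → G,
      (∀ j ≤ N, Q j ∈ C ∧ Q j ∈ closure (orb a (closure S : Subgroup G))) →
      (∀ i j, i < j → j ≤ N → ∃ y ∈ orb a (closure S : Subgroup G),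
        y⁻¹ * ((Q i)⁻¹ * Q j * e) ∈ A) →
      ∃ i j, i < j ∧ j ≤ N ∧ (Q i)⁻¹ * Q j ∈ A := by
  classical
  have haG : a ∈ closure S := subset_closure E.mem
  have haD : a ∈ D := E.sub E.mem
  have hMG : closure (orb a (closure S : Subgroup G)) ≤ closure S :=
    (closure_le _).2 fun y hy => E.orb_G hy
  obtain ⟨Y, hY, hYX, hYc⟩ := dcapA H E.fr
    (X := orb a {q | q ∈ C ∧ q ∈ closure (orb a (closure S : Subgroup G))}) (by
      rintro _ ⟨q, hq, rfl⟩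
      have hqG := hMG hq.2
      exact ⟨H.conj a haD q, E.nA (mul_mem (mul_mem (inv_mem hqG) haG) hqG)⟩)
    (hM.mono (by
      rintro _ ⟨q, hq, rfl⟩
      exact ⟨q, hq.2, rfl⟩))
  have hYc' : ∀ q, q ∈ C → q ∈ closure (orb a (closure S : Subgroup G)) →
      ∃ y ∈ hY.toFinset, y⁻¹ * (q⁻¹ * a * q) ∈ rhoIm a A := by
    intro q hq hq'
    obtain ⟨y, hy, h1⟩ := hYc _ ⟨q, ⟨hq, hq'⟩, rfl⟩
    obtain ⟨q', hq'', rfl⟩ := hYX hy
    refine ⟨_, hY.mem_toFinset.2 hy, ?_⟩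
    rwa [extb_rhoIm_congr (E.nA haG) (E.CA (rho_mem_of_Nz (E.nC haG) hq''.1))] at h1
  choose! col hcol hcol' using hYc'
  refine ⟨hY.toFinset.card * (k + 1), ?_⟩
  rintro _ ⟨g, hg, rfl⟩ Q hQ hQy
  have hg' : g ∈ closure S := hg
  set e := g⁻¹ * a * g with he
  have heY : e ∈ orb a (closure S : Subgroup G) := ⟨g, hg, rfl⟩
  have heG : e ∈ closure S := E.orb_G heY
  have heD : e ∈ D := E.sub (E.orb_S heY)
  have heA : e ∈ Nz A := E.nA heG
  have hQ' : ∀ j ≤ hY.toFinset.card * (k + 1), g * (Q j)⁻¹ * g⁻¹ ∈ C ∧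
      g * (Q j)⁻¹ * g⁻¹ ∈ closure (orb a (closure S : Subgroup G)) := fun j hj =>
    ⟨Nz_conj' (E.nC hg') (inv_mem (hQ j hj).1), extb_M_conj hg' (inv_mem (hQ j hj).2)⟩
  obtain ⟨y₀, -, hcard⟩ := Finset.exists_lt_card_fiber_of_mul_lt_card_of_maps_to
    (s := Finset.range (hY.toFinset.card * (k + 1) + 1)) (t := hY.toFinset)
    (f := fun j => col (g * (Q j)⁻¹ * g⁻¹)) (n := k + 1)
    (fun j hj => by
      have hj' := Nat.lt_succ_iff.1 (Finset.mem_range.1 hj)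
      exact hcol _ (hQ' j hj').1 (hQ' j hj').2) (by simp)
  let ι := Finset.orderEmbOfCardLe _ (show k + 2 ≤ _ from hcard)
  have hι : ∀ t, ι t ≤ hY.toFinset.card * (k + 1) ∧ col (g * (Q (ι t))⁻¹ * g⁻¹) = y₀ := by
    intro t
    have h1 := Finset.mem_filter.1 (Finset.orderEmbOfCardLe_mem _ (show k + 2 ≤ _ from hcard) t)
    exact ⟨Nat.lt_succ_iff.1 (Finset.mem_range.1 h1.1), h1.2⟩
  have TB : Tower e (rhoIm e A) := tower_rhoIm E.fr.comm E.fr.div heA (H.pow e heD)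
  have hBA : rhoIm e A ≤ A := rhoIm_le heA
  have hB : ∀ t, (g⁻¹ * y₀ * g)⁻¹ * (Q (ι t) * e * (Q (ι t))⁻¹) ∈ rhoIm e A := by
    intro t
    have h1 := hcol' _ (hQ' _ (hι t).1).1 (hQ' _ (hι t).1).2
    rw [(hι t).2] at h1
    convert extb_rhoIm_conj E.fr.comm (E.nA haG) (E.nA hg') h1 using 1
    rw [he]; group
  have hy : ∀ t : Fin (k + 1), ∃ y ∈ orb a (closure S : Subgroup G),
      y⁻¹ * ((Q (ι 0))⁻¹ * Q (ι t.succ) * e) ∈ A := fun t =>
    hQy _ _ (ι.strictMono (Fin.succ_pos t)) (hι _).1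
  choose f hf hf' using hy
  obtain ⟨i, j, hij, h1⟩ := q2 H heD TB f (fun t => by
    have hq : (Q (ι 0))⁻¹ * Q (ι t.succ) ∈ C :=
      mul_mem (inv_mem (hQ _ (hι _).1).1) (hQ _ (hι _).1).1
    refine ⟨E.sub (E.orb_S (hf t)), Cz_anti hBA (E.CA ?_), ?_⟩
    · convert mul_mem (Nz_conj (E.nC heG) hq) (inv_mem (E.AC (hf' t))) using 1
      group
    · set α := (f t)⁻¹ * ((Q (ι 0))⁻¹ * Q (ι t.succ) * e) with hα
      have hfe : f t = (Q (ι 0))⁻¹ * Q (ι t.succ) * e * α⁻¹ := by rw [hα]; group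
      have hαA : α⁻¹ ∈ A := inv_mem (hf' t)
      set β := (Q (ι t.succ) * e * (Q (ι t.succ))⁻¹)⁻¹ * (Q (ι 0) * e * (Q (ι 0))⁻¹) with hβ
      have hβB : β ∈ rhoIm e A := by
        convert mul_mem (inv_mem (hB t.succ)) (hB 0) using 1
        rw [hβ]; group
      have c1 : (Q (ι t.succ))⁻¹ * β * Q (ι t.succ) = β :=
        commute_iff_conj.1 (mem_Cz.1 (E.CA (hQ _ (hι _).1).1) β (hBA hβB))
      have h2 : e⁻¹ * β * e ∈ rhoIm e A := Nz_conj TB.norm hβB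
      have c2 : α⁻¹⁻¹ * (e⁻¹ * β * e) * α⁻¹ = e⁻¹ * β * e :=
        commute_iff_conj.1 (E.fr.comm _ (hBA h2) _ hαA)
      have h3 : rho e α⁻¹ ∈ rhoIm e A := subset_closure ⟨_, hαA, rfl⟩
      have e1 : rho e (f t) = rho e α⁻¹ * (α⁻¹⁻¹ * (e⁻¹ *
          ((Q (ι t.succ))⁻¹ * β * Q (ι t.succ)) * e) * α⁻¹) := by
        rw [hfe, hβ]
        unfold rho
        group
      rw [e1, c1, c2]
      exact mul_mem h3 h2)
  have h2 : (Q (ι i.succ))⁻¹ * Q (ι j.succ) ∈ A := by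
    have h3 := Nz_conj' heA (mul_mem (mul_mem (inv_mem (hf' i)) (hBA h1)) (hf' j))
    convert h3 using 1
    group
  rcases lt_or_gt_of_ne hij with hlt | hlt
  · exact ⟨_, _, ι.strictMono (Fin.succ_lt_succ_iff.2 hlt), (hι _).1, h2⟩
  · exact ⟨_, _, ι.strictMono (Fin.succ_lt_succ_iff.2 hlt), (hι _).1, by simpa using inv_mem h2⟩

end Pool.Agent.Lib.MP_7d7b85_al
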