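import Pool.Agent.Lib.MP_7d7b85_al.Defs

namespace Pool.Agent.Lib.MP_7d7b85_al

open Subgroup Filter

variable {G : Type} [Group G] {p k : ℕ} {D : Set G}

theorem frk_cover {Y : Type} {S K : Set G} {T : Set Y} (hT : T.Finite) (hK : K.Finite) (f : G → Y)
    (hf : ∀ x ∈ S, f x ∈ T) (h : ∀ x ∈ S, ∀ y ∈ S, f x = f y → x⁻¹ * y ∈ K) :
    S.Finite ∧ S.ncard ≤ T.ncard * K.ncard := by
  have h1 : ∀ x ∈ S, (f x, (Function.invFunOn f S (f x))⁻¹ * x) ∈ T ×ˢ K := fun x hx =>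
    ⟨hf x hx, h _ (Function.invFunOn_apply_mem hx) x hx (Function.invFunOn_apply_eq hx)⟩
  have h2 : Set.InjOn (fun x => (f x, (Function.invFunOn f S (f x))⁻¹ * x)) S := by
    intro x _ y _ e
    simp only [Prod.mk.injEq] at e
    rw [e.1] at e
    exact mul_left_cancel e.2
  refine ⟨Set.Finite.of_injOn h1 h2 (hT.prod hK), ?_⟩
  rw [← Set.ncard_prod]
  exact Set.ncard_le_ncard_of_injOn _ h1 h2 (hT.prod hK)

theorem frk_colour {Y : Type} {A : Subgroup G} {X : Set G} {T : Set Y} (hT : T.Finite)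
    (R : G → Y → Prop) (h1 : ∀ x ∈ X, ∃ t ∈ T, R x t)
    (h2 : ∀ x ∈ X, ∀ y ∈ X, ∀ t, R x t → R y t → x⁻¹ * y ∈ A) : FinMod A X := by
  classical
  refine ⟨(fun t => if h : ∃ x ∈ X, R x t then h.choose else 1) '' T, hT.image _, fun x hx => ?_⟩
  obtain ⟨t, ht, hr⟩ := h1 x hx
  have h : ∃ x ∈ X, R x t := ⟨x, hx, hr⟩
  refine ⟨_, ⟨t, ht, rfl⟩, ?_⟩
  simp only [dif_pos h]
  exact h2 _ h.choose_spec.1 x hx t h.choose_spec.2 hr

theorem frk_div_mem {A : Subgroup G} (hc : Comm A) {x y : G} (hx : x ∈ A) (hy : y ∈ A) {n : ℕ}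
    (e : x ^ n = y ^ n) : x⁻¹ * y ∈ Om n A :=
  ⟨A.mul_mem (A.inv_mem hx) hy, by
    rw [(hc x hx y hy).inv_left.mul_pow, inv_pow, e, inv_mul_cancel]⟩

theorem frk_om_pow {A : Subgroup G} (hc : Comm A) (hf : (Om p A).Finite) (e : ℕ) :
    (Om (p ^ e) A).Finite ∧ (Om (p ^ e) A).ncard ≤ (Om p A).ncard ^ e := by
  induction e with
  | zero =>
    have : Om (p ^ 0) A ⊆ {1} := fun x hx => by simpa using hx.2
    exact ⟨(Set.finite_singleton 1).subset this,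
      by simpa using Set.ncard_le_ncard this (Set.finite_singleton 1)⟩
  | succ e ih =>
    have := frk_cover (S := Om (p ^ (e + 1)) A) ih.1 hf (fun x => x ^ p)
      (fun x hx => ⟨A.pow_mem hx.1 p, by rw [← pow_mul, ← pow_succ']; exact hx.2⟩)
      fun x hx y hy e => frk_div_mem hc hx.1 hy.1 e
    exact ⟨this.1, this.2.trans (by rw [pow_succ]; exact Nat.mul_le_mul_right _ ih.2)⟩

theorem om_pow_finite {A : Subgroup G} (hc : Comm A) (hf : (Om p A).Finite) (e : ℕ) :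
    (Om (p ^ e) A).Finite := (frk_om_pow hc hf e).1

theorem om_pow_ncard {A : Subgroup G} (hc : Comm A) (hf : (Om p A).Finite) (e : ℕ) :
    (Om (p ^ e) A).ncard ≤ (Om p A).ncard ^ e := (frk_om_pow hc hf e).2

theorem IsDiv.pow {A : Subgroup G} (h : IsDiv p A) (e : ℕ) {α : G} (hα : α ∈ A) :
    ∃ β ∈ A, β ^ p ^ e = α := by
  induction e with
  | zero => exact ⟨α, hα, by simp⟩
  | succ e ih =>
    obtain ⟨β, hβ, rfl⟩ := ih
    obtain ⟨γ, hγ, rfl⟩ := h β hβ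
    exact ⟨γ, hγ, by rw [pow_succ', pow_mul]⟩

theorem IsDiv.cjs {A : Subgroup G} (h : IsDiv p A) (g : G) : IsDiv p (cjs A g) := by
  intro α hα
  obtain ⟨β, hβ, e⟩ := h _ (mem_cjs.1 hα)
  refine ⟨_, conj_mem_cjs hβ, ?_⟩
  have := conj_pow (a := g⁻¹) (b := β) (i := p)
  rw [inv_inv] at this
  rw [this, e]; group

theorem Comm.cjs {A : Subgroup G} (h : Comm A) (g : G) : Comm (cjs A g) := by
  intro α hα β hβ
  have := (h _ (mem_cjs.1 hα) _ (mem_cjs.1 hβ)).eq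
  rw [conj_mul, conj_mul] at this
  exact mul_left_cancel (mul_right_cancel this)

theorem FR.cjs {A : Subgroup G} (h : FR p A) (g : G) : FR p (cjs A g) :=
  ⟨h.comm.cjs g, h.div.cjs g, Set.Finite.of_injOn (f := fun x => g * x * g⁻¹) (t := Om p A)
    (fun x hx => ⟨hx.1, by rw [conj_pow, hx.2]; group⟩)
    (fun _ _ _ _ e => mul_left_cancel (mul_right_cancel e)) h.fin⟩

theorem fr_bot : FR p (⊥ : Subgroup G) :=
  ⟨fun α hα β _ => by rw [Subgroup.mem_bot.1 hα]; exact Commute.one_left β,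
    fun α hα => ⟨1, one_mem _, by rw [Subgroup.mem_bot.1 hα, one_pow]⟩,
    (Set.finite_singleton 1).subset fun _ hx => Subgroup.mem_bot.1 hx.1⟩

theorem FR.of_le {A B : Subgroup G} (h : FR p A) (hB : B ≤ A) (hv : IsDiv p B) : FR p B :=
  ⟨h.comm.mono hB, hv, h.fin.subset fun _ hx => ⟨hB hx.1, hx.2⟩⟩

theorem frk_relIndex {A Γ : Subgroup G} : FinMod A Γ ↔ A.relIndex Γ ≠ 0 := by
  rw [relIndex, ← finiteIndex_iff, finiteIndex_iff_finite_quotient]
  constructor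
  · intro h
    obtain ⟨Φ, hΦ, hs, h⟩ := h.reps
    have := hΦ.to_subtype
    refine Finite.of_surjective
      (fun φ : Φ => (QuotientGroup.mk ⟨φ.1, hs φ.2⟩ : Γ ⧸ A.subgroupOf Γ)) fun q => ?_
    obtain ⟨x, rfl⟩ := QuotientGroup.mk_surjective q
    obtain ⟨φ, hφ, e⟩ := h x x.2
    exact ⟨⟨φ, hφ⟩, QuotientGroup.eq.2 e⟩
  · intro h
    refine frk_colour (Y := Γ ⧸ A.subgroupOf Γ) Set.finite_univ
      (fun x t => ∃ hx : x ∈ Γ, QuotientGroup.mk ⟨x, hx⟩ = t)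
      (fun x hx => ⟨_, Set.mem_univ _, hx, rfl⟩) ?_
    rintro x - y - t ⟨hx, e1⟩ ⟨hy, e2⟩
    exact QuotientGroup.eq (s := A.subgroupOf Γ).1 (e1.trans e2.symm)

/-- A divisible `p`-group has no proper subgroup of finite index. -/
theorem IsDiv.le_of_finMod (hp : p.Prime) (hG : IsPGroup p G) {W X : Subgroup G}
    (h : IsDiv p W) (hX : FinMod X W) : W ≤ X := by
  have : Fact p.Prime := ⟨hp⟩
  have : (X.subgroupOf W).FiniteIndex := ⟨frk_relIndex.1 hX⟩
  obtain ⟨s, hs⟩ := (hG.to_subgroup W).index (X.subgroupOf W).normalCore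
  intro w hw
  obtain ⟨v, hv, rfl⟩ := h.pow s hw
  have := (X.subgroupOf W).normalCore_le ((X.subgroupOf W).normalCore.pow_index_mem ⟨v, hv⟩)
  rwa [hs] at this

theorem IsDiv.eq_bot_of_finite (hp : p.Prime) (hG : IsPGroup p G) {W : Subgroup G}
    (h : IsDiv p W) (hf : (W : Set G).Finite) : W = ⊥ :=
  le_bot_iff.1 (h.le_of_finMod hp hG (finMod_bot.2 hf))

theorem frk_comm {x y g : G} (e : x * g * x⁻¹ = y * g * y⁻¹) : Commute g (x⁻¹ * y) := by
  change g * (x⁻¹ * y) = x⁻¹ * y * g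
  calc g * (x⁻¹ * y) = x⁻¹ * (x * g * x⁻¹) * y := by group
    _ = x⁻¹ * y * g := by rw [e]; group

theorem IsDiv.commute_of_finite_orb (hp : p.Prime) (hG : IsPGroup p G) {W : Subgroup G}
    (h : IsDiv p W) {g : G} (hf : (orb g W).Finite) : g ∈ Cz W := by
  have : W ≤ Cz (zpowers g) := h.le_of_finMod hp hG (frk_colour hf (fun x t => x * g * x⁻¹ = t)
    (fun x hx => ⟨_, ⟨x⁻¹, W.inv_mem hx, by rw [inv_inv]⟩, rfl⟩)
    fun x _ y _ t e1 e2 => mem_Cz_zpowers.2 (frk_comm (e1.trans e2.symm)))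
  exact le_Cz_comm.1 this (mem_zpowers g)

/-- If the conjugates of `g` under a divisible group normalising `A` meet finitely many cosets
of `A`, they lie in `g A`. -/
theorem IsDiv.rho_mem_of_finMod (hp : p.Prime) (hG : IsPGroup p G) {W A : Subgroup G}
    (h : IsDiv p W) (hW : W ≤ Nz A) {g : G} (hf : FinMod A (orb g W)) :
    ∀ β ∈ W, rho g β ∈ A := by
  let H : Subgroup G :=
    { carrier := {β | β ∈ Nz A ∧ rho g β ∈ A}
      one_mem' := ⟨one_mem _, by simp [rho]⟩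
      mul_mem' := fun {a b} ha hb => ⟨mul_mem ha.1 hb.1, by
        have : rho g (a * b) = rho g b * (b⁻¹ * rho g a * b) := by simp only [rho]; group
        rw [this]; exact A.mul_mem hb.2 (Nz_conj hb.1 ha.2)⟩
      inv_mem' := fun {a} ha => ⟨inv_mem ha.1, by
        have : rho g a⁻¹ = (a * rho g a * a⁻¹)⁻¹ := by simp only [rho]; group
        rw [this]; exact A.inv_mem (Nz_conj' ha.1 ha.2)⟩ }
  obtain ⟨Φ, hΦ, hf⟩ := hf
  have : W ≤ H := h.le_of_finMod hp hG (frk_colour hΦ (fun x φ => φ⁻¹ * (x * g * x⁻¹) ∈ A)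
    (fun x hx => hf _ ⟨x⁻¹, W.inv_mem hx, by rw [inv_inv]⟩)
    fun x hx y hy φ e1 e2 => ⟨hW (W.mul_mem (W.inv_mem hx) hy), by
      have : rho g (x⁻¹ * y) = y⁻¹ * ((φ⁻¹ * (y * g * y⁻¹))⁻¹ * (φ⁻¹ * (x * g * x⁻¹))) * y := by
        simp only [rho]; group
      rw [this]; exact Nz_conj (hW hy) (A.mul_mem (A.inv_mem e2) e1)⟩)
  exact fun β hβ => (this hβ).2

theorem IsDiv.le_Cz_of_finite (hp : p.Prime) (hG : IsPGroup p G) {W K : Subgroup G}
    (h : IsDiv p W) (hW : W ≤ Nz K) (hK : (K : Set G).Finite) : W ≤ Cz K :=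
  le_Cz_comm.1 fun g hg => h.commute_of_finite_orb hp hG (hK.subset (by
    rintro _ ⟨w, hw, rfl⟩
    exact Nz_conj (hW hw) hg))

theorem IsDiv.sup {A B : Subgroup G} (hA : IsDiv p A) (hB : IsDiv p B) (h : A ≤ Cz B) :
    IsDiv p (A ⊔ B) := by
  intro x hx
  obtain ⟨α, hα, β, hβ, rfl⟩ := (mem_sup_Nz' (h.trans (Cz_le_Nz B))).1 hx
  obtain ⟨a, ha, rfl⟩ := hA α hα
  obtain ⟨b, hb, rfl⟩ := hB β hβ
  exact ⟨a * b, mul_mem_sup ha hb, (mem_Cz.1 (h ha) b hb).symm.mul_pow p⟩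

theorem Comm.sup {A B : Subgroup G} (hA : Comm A) (hB : Comm B) (h : A ≤ Cz B) :
    Comm (A ⊔ B) :=
  comm_of_le_Cz (sup_le (fun _ hg => Cz_sup (hA.le_Cz hg) (h hg))
    fun _ hg => Cz_sup (le_Cz_comm.1 h hg) (hB.le_Cz hg))

theorem le_of_om_subset (hG : IsPGroup p G) {A B : Subgroup G} (hA : IsDiv p A) (hB : Comm B)
    (hAB : A ≤ B) (h : Om p B ⊆ A) : B ≤ A := by
  intro b hb
  obtain ⟨n, hn⟩ := hG b
  induction n generalizing b with
  | zero => rw [pow_zero, pow_one] at hn; rw [hn]; exact one_mem _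
  | succ n ih =>
    obtain ⟨a, ha, e⟩ := hA _ (ih (B.pow_mem hb p) (by rwa [← pow_mul, ← pow_succ']))
    simpa using A.mul_mem ha (h (frk_div_mem hB (hAB ha) hb e))

theorem om_lt (hG : IsPGroup p G) {A B : Subgroup G} (hA : IsDiv p A) (hB : FR p B)
    (hAB : A < B) : (Om p A).ncard < (Om p B).ncard :=
  Set.ncard_lt_ncard ⟨fun _ hx => ⟨hAB.le hx.1, hx.2⟩, fun h =>
    hAB.not_ge (le_of_om_subset hG hA hB.comm hAB.le fun _ hx => (h hx).1)⟩ hB.fin

theorem om_mono {A B : Subgroup G} (hB : (Om p B).Finite) (hAB : A ≤ B) :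
    (Om p A).ncard ≤ (Om p B).ncard :=
  Set.ncard_le_ncard (fun _ hx => ⟨hAB hx.1, hx.2⟩) hB

/-- The subgroup of `n`-th powers of an abelian subgroup. -/
def frkPow {X : Subgroup G} (hc : Comm X) (n : ℕ) : Subgroup G where
  carrier := {y | ∃ x ∈ X, x ^ n = y}
  one_mem' := ⟨1, one_mem _, one_pow n⟩
  mul_mem' := by
    rintro _ _ ⟨a, ha, rfl⟩ ⟨b, hb, rfl⟩
    exact ⟨a * b, mul_mem ha hb, (hc a ha b hb).mul_pow n⟩
  inv_mem' := by
    rintro _ ⟨a, ha, rfl⟩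
    exact ⟨a⁻¹, inv_mem ha, inv_pow a n⟩

theorem frkPow_le {X : Subgroup G} (hc : Comm X) (n : ℕ) : frkPow hc n ≤ X := by
  rintro _ ⟨a, ha, rfl⟩
  exact pow_mem ha n

theorem frkPow_anti {X : Subgroup G} (hc : Comm X) {m n : ℕ} (h : m ≤ n) :
    frkPow hc (p ^ n) ≤ frkPow hc (p ^ m) := by
  rintro _ ⟨a, ha, rfl⟩
  exact ⟨a ^ p ^ (n - m), pow_mem ha _, by rw [← pow_mul, ← pow_add, Nat.sub_add_cancel h]⟩

/-- The divisible part of an abelian `p`-group of finite rank. -/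
theorem exists_divPart (hp : p.Prime) (hG : IsPGroup p G) {X : Subgroup G} (hc : Comm X)
    (hf : (Om p X).Finite) :
    ∃ X₀ ≤ X, IsDiv p X₀ ∧ FinMod X₀ X ∧ Nz X ≤ Nz X₀ := by
  obtain ⟨n, hn⟩ : ∃ n, ∀ m, (Om p (frkPow hc (p ^ n))).ncard ≤ (Om p (frkPow hc (p ^ m))).ncard :=
    ⟨Function.argmin fun n => (Om p (frkPow hc (p ^ n))).ncard, fun m =>
      Function.argmin_le (fun n => (Om p (frkPow hc (p ^ n))).ncard) m⟩
  have h1 : ∀ m, n ≤ m → Om p (frkPow hc (p ^ m)) = Om p (frkPow hc (p ^ n)) := fun m hm =>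
    Set.eq_of_subset_of_ncard_le (fun _ hx => ⟨frkPow_anti hc hm hx.1, hx.2⟩) (hn m)
      (hf.subset fun _ hx => ⟨frkPow_le hc _ hx.1, hx.2⟩)
  have h2 : ∀ j m, n ≤ m → ∀ y ∈ frkPow hc (p ^ m), y ^ p ^ j = 1 → y ∈ frkPow hc (p ^ (m + 1)) := by
    intro j
    induction j with
    | zero => intro m _ y _ e; rw [pow_zero, pow_one] at e; rw [e]; exact one_mem _
    | succ j ih =>
      intro m hm y hy e
      have a1 : y ^ p ∈ frkPow hc (p ^ (m + 1)) := by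
        obtain ⟨x, hx, rfl⟩ := hy
        exact ⟨x, hx, by rw [← pow_mul, ← pow_succ]⟩
      obtain ⟨x, hx, e1⟩ := ih (m + 1) (by omega) _ a1 (by rwa [← pow_mul, ← pow_succ'])
      have a2 : x ^ p ^ (m + 1) ∈ frkPow hc (p ^ (m + 1)) := ⟨x, hx, rfl⟩
      have a3 := frk_div_mem (hc.mono (frkPow_le hc (p ^ m))) (frkPow_anti hc m.le_succ a2) hy
        (n := p) (by rw [← pow_mul, ← pow_succ, e1])
      rw [h1 m hm, ← h1 (m + 1) (by omega)] at a3
      simpa using mul_mem a2 a3.1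
  have h3 : IsDiv p (frkPow hc (p ^ n)) := fun y hy => by
    obtain ⟨j, hj⟩ := hG y
    obtain ⟨x, hx, rfl⟩ := h2 j n le_rfl y hy hj
    exact ⟨x ^ p ^ n, ⟨x, hx, rfl⟩, by rw [← pow_mul, ← pow_succ]⟩
  refine ⟨frkPow hc (p ^ n), frkPow_le hc _, h3, ⟨_, om_pow_finite hc hf n, fun x hx => ?_⟩,
    fun g hg => mem_Nz_of_conj hp hG ?_⟩
  · obtain ⟨v, hv, e⟩ := h3.pow n (α := x ^ p ^ n) ⟨x, hx, rfl⟩
    refine ⟨_, frk_div_mem hc (frkPow_le hc _ hv) hx e, ?_⟩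
    have : (v⁻¹ * x)⁻¹ * x = v := by
      rw [mul_inv_rev, inv_inv, mul_assoc, (hc v (frkPow_le hc _ hv) x hx).eq, inv_mul_cancel_left]
    rwa [this]
  · rintro _ ⟨x, hx, rfl⟩
    refine ⟨_, Nz_conj hg hx, ?_⟩
    have := conj_pow (a := g⁻¹) (b := x) (i := p ^ n)
    rwa [inv_inv] at this

theorem frk_fix {M : Type} [CommGroup M] (hp : p.Prime) (hodd : p ≠ 2) (hM : IsPGroup p M)
    (hv : ∀ x : M, ∃ y, y ^ p = x) (σ : M →* M) (hσ : ∀ x, σ^[p] x = x)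
    (hf : ∀ x, x ^ p = 1 → σ x = x) (x : M) : σ x = x := by
  have k1 : ∀ a : M, (a⁻¹ * σ a) ^ p = 1 → a⁻¹ * σ a = 1 := fun a ha => by
    obtain ⟨b, rfl⟩ := hv a
    obtain ⟨c, hc⟩ : ∃ c, c = b⁻¹ * σ b := ⟨_, rfl⟩
    have e1 : (b ^ p)⁻¹ * σ (b ^ p) = c ^ p := by rw [hc, mul_pow, inv_pow, map_pow]
    rw [e1] at ha ⊢
    obtain ⟨u, hu⟩ : ∃ u, u = c⁻¹ * σ c := ⟨_, rfl⟩
    have e2 : u ^ p = 1 := by rw [hu, mul_pow, inv_pow, ← map_pow, hf _ ha, inv_mul_cancel]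
    have e3 : σ b = b * c := by rw [hc, mul_inv_cancel_left]
    have e4 : σ c = c * u := by rw [hu, mul_inv_cancel_left]
    have e5 : ∀ i, σ^[i] b = b * c ^ i * u ^ i.choose 2 := fun i => by
      induction i with
      | zero => simp
      | succ i ih =>
        rw [Function.iterate_succ_apply', ih, map_mul, map_mul, map_pow, map_pow, e3, e4, hf u e2,
          Nat.choose_succ_succ' i 1, Nat.choose_one_right, mul_pow, pow_add u, pow_succ' c]
        simp only [mul_assoc]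
    have e6 := e5 p
    obtain ⟨m, hm⟩ := hp.dvd_choose_self (k := 2) (by norm_num)
      (lt_of_le_of_ne hp.two_le hodd.symm)
    rw [hσ, hm, pow_mul, e2, one_pow, mul_one] at e6
    exact (left_eq_mul.1 e6)
  obtain ⟨j, hj⟩ := hM (x⁻¹ * σ x)
  induction j with
  | zero => rw [pow_zero, pow_one, inv_mul_eq_one] at hj; exact hj.symm
  | succ j ih =>
    refine ih ?_
    have e : (x⁻¹ * σ x) ^ p ^ j = (x ^ p ^ j)⁻¹ * σ (x ^ p ^ j) := by rw [mul_pow, inv_pow, map_pow]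
    rw [e]
    exact k1 _ (by rwa [← e, ← pow_mul, ← pow_succ])

/-- For odd `p` an element fixing the socle centralises the whole group. -/
theorem cent_of_om (hp : p.Prime) (hodd : p ≠ 2) (hG : IsPGroup p G) {A : Subgroup G}
    (hc : Comm A) (hv : IsDiv p A) {g : G} (hg : g ∈ Nz A) (hf : ∀ α ∈ Om p A, Commute α g) :
    g ∈ Cz A := by
  obtain ⟨s, hs⟩ := hG g
  induction s generalizing g with
  | zero => rw [pow_zero, pow_one] at hs; rw [hs]; exact one_mem _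
  | succ s ih =>
    have h1 : g ^ p ∈ Cz A := ih (pow_mem hg p) (fun α hα => (hf α hα).pow_right p)
      (by rwa [← pow_mul, ← pow_succ'])
    let _ : CommGroup A := { mul_comm := fun a b => Subtype.ext (hc a a.2 b b.2) }
    let σ : A →* A :=
      { toFun := fun a => ⟨g⁻¹ * a * g, Nz_conj hg a.2⟩
        map_one' := Subtype.ext (by simp)
        map_mul' := fun a b => Subtype.ext (by simp only [coe_mul, MulMemClass.mk_mul_mk]; group) }
    have h2 : ∀ i (a : A), ((σ^[i] a : A) : G) = (g ^ i)⁻¹ * a * g ^ i := fun i a => by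
      induction i with
      | zero => simp
      | succ i ih =>
        rw [Function.iterate_succ_apply']
        change g⁻¹ * (σ^[i] a : A) * g = _
        rw [ih, pow_succ]; group
    refine mem_Cz.2 fun α hα => commute_iff_conj.2 ?_
    exact congrArg Subtype.val (frk_fix hp hodd (hG.to_subgroup A)
      (fun x => by
        obtain ⟨y, hy, e⟩ := hv x x.2
        exact ⟨⟨y, hy⟩, Subtype.ext e⟩) σ
      (fun x => Subtype.ext ((h2 p x).trans (commute_iff_conj.1 (mem_Cz.1 h1 x x.2))))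
      (fun x hx => Subtype.ext (commute_iff_conj.1 (hf x ⟨x.2, congrArg Subtype.val hx⟩))) ⟨α, hα⟩)

theorem frk_action {S X : Set G} (hS : S.Finite) (h : ∀ x ∈ X, ∀ α ∈ S, x * α * x⁻¹ ∈ S) :
    FinMod (centralizer S) X :=
  haveI := hS.to_subtype
  frk_colour (Y := S → S) Set.finite_univ (fun x t => ∀ α : S, x * α * x⁻¹ = t α)
    (fun x hx => ⟨fun α => ⟨_, h x hx α α.2⟩, Set.mem_univ _, fun _ => rfl⟩)
    fun _ _ _ _ _ e1 e2 => mem_centralizer_iff.2 fun α hα =>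
      frk_comm ((e1 ⟨α, hα⟩).trans (e2 ⟨α, hα⟩).symm)

theorem frk_inf {A B : Subgroup G} {X : Set G} (hA : FinMod A X) (hB : FinMod B X) :
    FinMod (A ⊓ B) X := by
  obtain ⟨Φ, hΦ, hA⟩ := hA
  obtain ⟨Ψ, hΨ, hB⟩ := hB
  refine frk_colour (hΦ.prod hΨ) (fun x t => t.1⁻¹ * x ∈ A ∧ t.2⁻¹ * x ∈ B) (fun x hx => ?_)
    fun x _ y _ t e1 e2 => ⟨?_, ?_⟩
  · obtain ⟨φ, h1, h2⟩ := hA x hx
    obtain ⟨ψ, h3, h4⟩ := hB x hx
    exact ⟨(φ, ψ), ⟨h1, h3⟩, h2, h4⟩
  · simpa [mul_assoc] using A.mul_mem (A.inv_mem e1.1) e2.1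
  · simpa [mul_assoc] using B.mul_mem (B.inv_mem e1.2) e2.2

/-- The normaliser of a finite rank divisible group acts through a finite group. -/
theorem FR.finMod_Cz (hp : p.Prime) (hodd : p ≠ 2) (hG : IsPGroup p G) {A : Subgroup G}
    (h : FR p A) : FinMod (Cz A) (Nz A : Set G) :=
  (frk_inf (B := Nz A) (frk_action h.fin fun x hx α hα =>
    ⟨Nz_conj' hx hα.1, by rw [conj_pow, hα.2]; group⟩)
    ⟨{1}, Set.finite_singleton 1, fun x hx => ⟨1, rfl, by simpa using hx⟩⟩).of_le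
    fun _ hg => cent_of_om hp hodd hG h.comm h.div hg.2 (mem_centralizer_iff.1 hg.1)

theorem FR.div_cent (hp : p.Prime) (hodd : p ≠ 2) (hG : IsPGroup p G) {A W : Subgroup G}
    (h : FR p A) (hW : IsDiv p W) (hn : W ≤ Nz A) : W ≤ Cz A :=
  hW.le_of_finMod hp hG ((h.finMod_Cz hp hodd hG).mono hn)

theorem finMod_Cz_of_finite {K : Subgroup G} (hK : (K : Set G).Finite) :
    FinMod (Cz K) (Nz K : Set G) :=
  frk_action hK fun _ hx _ hα => Nz_conj' hx hα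

theorem frk_image {M : Type} [CommGroup M] (hp : p.Prime) (hM : IsPGroup p M) (π : M →* G)
    (hf : {x : M | x ^ p = 1}.Finite) :
    (Om p π.range).Finite ∧ (Om p π.range).ncard ≤ {x : M | x ^ p = 1}.ncard := by
  have key : ∀ E : Set G, E.Finite → E ⊆ Om p π.range → E.ncard ≤ {x : M | x ^ p = 1}.ncard := by
    intro E hE hs
    have := hE.to_subtype
    choose s hs' using fun e : E => (hs e.2).1
    let F : Subgroup M := closure (Set.range s)
    have : Finite F := CommGroup.finite_of_fg_isMulTorsion F fun x => by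
      obtain ⟨n, hn⟩ := hM.to_subgroup F x
      exact isOfFinOrder_iff_pow_eq_one.2 ⟨_, pow_pos hp.pos n, hn⟩
    have h1 : F ≤ (π.comp (powMonoidHom p)).ker := (closure_le _).2 (by
      rintro _ ⟨e, rfl⟩
      change π (s e ^ p) = 1
      rw [map_pow, hs']; exact (hs e.2).2)
    have h2 : (powMonoidHom p : F →* F).range ≤ (π.comp F.subtype).ker := by
      rintro _ ⟨x, rfl⟩
      exact h1 x.2
    have h3 := index_antitone h2
    rw [index_ker, index_range] at h3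
    calc E.ncard ≤ ((π.comp F.subtype).range : Set G).ncard :=
          Set.ncard_le_ncard (fun e he => ⟨⟨s ⟨e, he⟩, subset_closure ⟨_, rfl⟩⟩, hs' ⟨e, he⟩⟩)
            (Set.finite_range _)
      _ ≤ ((powMonoidHom p : F →* F).ker : Set F).ncard := h3
      _ ≤ _ := Set.ncard_le_ncard_of_injOn (t := {x : M | x ^ p = 1}) Subtype.val
          (fun x hx => congrArg Subtype.val (show x ^ p = 1 from hx)) Subtype.val_injective.injOn hf
  have : (Om p π.range).Finite := by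
    by_contra h
    obtain ⟨E, h1, h2, h3⟩ := Set.Infinite.exists_subset_ncard_eq h ({x : M | x ^ p = 1}.ncard + 1)
    have := key E h2 h1
    omega
  exact ⟨this, key _ this subset_rfl⟩

theorem om_sup (hp : p.Prime) (hG : IsPGroup p G) {A B : Subgroup G} (hA : Comm A) (hB : Comm B)
    (h : A ≤ Cz B) (fA : (Om p A).Finite) (fB : (Om p B).Finite) :
    (Om p (A ⊔ B)).Finite ∧ (Om p (A ⊔ B)).ncard ≤ (Om p A).ncard * (Om p B).ncard := by
  let _ : CommGroup A := { mul_comm := fun a b => Subtype.ext (hA a a.2 b b.2) }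
  let _ : CommGroup B := { mul_comm := fun a b => Subtype.ext (hB a a.2 b b.2) }
  let π : A × B →* G := MonoidHom.noncommCoprod A.subtype B.subtype
    fun a b => (mem_Cz.1 (h a.2) b b.2).symm
  have h1 : π.range = A ⊔ B := by
    ext x
    rw [mem_sup_Nz' (h.trans (Cz_le_Nz B))]
    exact ⟨fun ⟨y, e⟩ => ⟨y.1, y.1.2, y.2, y.2.2, e.symm⟩,
      fun ⟨α, hα, β, hβ, e⟩ => ⟨(⟨α, hα⟩, ⟨β, hβ⟩), e.symm⟩⟩
  have h2 : ∀ x ∈ {x : A × B | x ^ p = 1}, ((x.1 : G), (x.2 : G)) ∈ Om p A ×ˢ Om p B := fun x hx =>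
    ⟨⟨x.1.2, congrArg (fun y : A × B => (y.1 : G)) hx⟩,
      ⟨x.2.2, congrArg (fun y : A × B => (y.2 : G)) hx⟩⟩
  have h3 : Set.InjOn (fun x : A × B => ((x.1 : G), (x.2 : G))) {x : A × B | x ^ p = 1} :=
    fun x _ y _ e => Prod.ext (Subtype.ext (congrArg Prod.fst e)) (Subtype.ext (congrArg Prod.snd e))
  have h4 := frk_image hp (M := A × B) (fun x => by
    obtain ⟨m, hm⟩ := hG x.1
    obtain ⟨n, hn⟩ := hG x.2
    refine ⟨m + n, Prod.ext (Subtype.ext ?_) (Subtype.ext ?_)⟩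
    · change (x.1 : G) ^ p ^ (m + n) = 1
      rw [pow_add, pow_mul, hm, one_pow]
    · change (x.2 : G) ^ p ^ (m + n) = 1
      rw [pow_add, pow_mul', hn, one_pow]) π (Set.Finite.of_injOn h2 h3 (fA.prod fB))
  rw [h1] at h4
  refine ⟨h4.1, h4.2.trans ?_⟩
  rw [← Set.ncard_prod]
  exact Set.ncard_le_ncard_of_injOn _ h2 h3 (fA.prod fB)

theorem FR.sup (hp : p.Prime) (hG : IsPGroup p G) {A B : Subgroup G} (hA : FR p A) (hB : FR p B)
    (h : A ≤ Cz B) : FR p (A ⊔ B) :=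
  ⟨hA.comm.sup hB.comm h, hA.div.sup hB.div h, (om_sup hp hG hA.comm hB.comm h hA.fin hB.fin).1⟩

/-- An abelian group which is finite modulo a finite rank subgroup has finite rank. -/
theorem om_finite_of_finMod {A X : Subgroup G} (hX : Comm X) (hA : (Om p A).Finite)
    (h : FinMod A X) : (Om p X).Finite := by
  obtain ⟨Φ, hΦ, h⟩ := h
  choose! f h1 h2 using h
  refine (frk_cover hΦ hA f (fun x hx => h1 x hx.1) fun x hx y hy e =>
    ⟨?_, (frk_div_mem hX hx.1 hy.1 (hx.2.trans hy.2.symm)).2⟩).1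
  simpa [mul_assoc, e] using A.mul_mem (A.inv_mem (h2 x hx.1)) (h2 y hy.1)

theorem FinMod.inf {A B : Subgroup G} {X : Set G} (hA : FinMod A X) (hB : FinMod B X) :
    FinMod (A ⊓ B) X := frk_inf hA hB

theorem FinMod.union {A : Subgroup G} {X Y : Set G} (hX : FinMod A X) (hY : FinMod A Y) :
    FinMod A (X ∪ Y) := by
  obtain ⟨Φ, hΦ, hX⟩ := hX
  obtain ⟨Ψ, hΨ, hY⟩ := hY
  refine ⟨_, hΦ.union hΨ, fun x hx => hx.elim (fun h => ?_) fun h => ?_⟩
  · exact (hX x h).imp fun _ e => ⟨Or.inl e.1, e.2⟩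
  · exact (hY x h).imp fun _ e => ⟨Or.inr e.1, e.2⟩

theorem FinMod.trans {A B : Subgroup G} {X : Set G} (hX : FinMod B X) (hB : FinMod A B) :
    FinMod A X := by
  obtain ⟨Φ, hΦ, hX⟩ := hX
  obtain ⟨Ψ, hΨ, hB⟩ := hB
  refine ⟨_, hΦ.mul hΨ, fun x hx => ?_⟩
  obtain ⟨φ, h1, h2⟩ := hX x hx
  obtain ⟨ψ, h3, h4⟩ := hB _ h2
  exact ⟨φ * ψ, ⟨φ, h1, ψ, h3, rfl⟩, by rwa [mul_inv_rev, mul_assoc]⟩

theorem finMod_of_finite (A : Subgroup G) {X : Set G} (h : X.Finite) : FinMod A X :=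
  (finMod_bot.2 h).of_le bot_le

theorem finMod_iff_relIndex {A Γ : Subgroup G} : FinMod A Γ ↔ A.relIndex Γ ≠ 0 := frk_relIndex

/-- If a subgroup `W` lies in finitely many cosets `φ A` after a translation, then `W` is finite
modulo `A`. -/
theorem FinMod.of_mul {A : Subgroup G} {X : Set G} (a : G) (h : FinMod A ((a * ·) '' X)) :
    FinMod A X := by
  obtain ⟨Φ, hΦ, h⟩ := h
  refine ⟨_, hΦ.image (a⁻¹ * ·), fun x hx => ?_⟩
  obtain ⟨φ, h1, h2⟩ := h _ ⟨x, hx, rfl⟩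
  exact ⟨a⁻¹ * φ, ⟨φ, h1, rfl⟩, by rwa [mul_inv_rev, inv_inv, mul_assoc]⟩

/-- A set which is not finite modulo `A` carries an ultrafilter avoiding all cosets of `A`. -/
theorem exists_nonC {I : Type} {A : Subgroup G} (f : I → G) (s : Set I)
    (h : ¬ FinMod A (f '' s)) : ∃ r : Ultrafilter I, (∀ᶠ l in r, l ∈ s) ∧ NonC r f A := by
  let F : Filter I :=
    { sets := {U | FinMod A (f '' (s \ U))}
      univ_sets := finMod_of_finite A (by simp)
      sets_of_superset := fun hU hUV =>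
        FinMod.mono hU (Set.image_mono (Set.sdiff_subset_sdiff_right hUV))
      inter_sets := fun hU hV => by
        change FinMod A _
        rw [Set.sdiff_inter, Set.image_union]
        exact FinMod.union hU hV }
  have : F.NeBot := ⟨fun e => h (by
    have : (∅ : Set I) ∈ F := empty_mem_iff_bot.2 e
    simpa using (show FinMod A (f '' (s \ ∅)) from this))⟩
  obtain ⟨r, hr⟩ := Ultrafilter.exists_le F
  refine ⟨r, hr (finMod_of_finite A (by simp) : FinMod A (f '' (s \ s))), fun g => hr ?_⟩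
  refine ⟨{g}, Set.finite_singleton g, ?_⟩
  rintro _ ⟨l, hl, rfl⟩
  exact ⟨g, rfl, not_not.1 hl.2⟩

end Pool.Agent.Lib.MP_7d7b85_al
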