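import Pool.Agent.Lib.MP_7d7b85_al.Step

namespace Pool.Agent.Lib.MP_7d7b85_al

open Subgroup Filter

variable {G : Type} [Group G] {p k : ℕ} {a : G}

theorem final_pow (hG : IsPGroup p G) {x : G} (hx : x ≠ 1) :
    ∃ n : ℕ, x ^ p ^ n ≠ 1 ∧ (x ^ p ^ n) ^ p = 1 := by
  classical
  have hex : ∃ n : ℕ, x ^ p ^ n = 1 := hG x
  have h1 := Nat.find_spec hex
  have h2 := fun m => Nat.find_min hex (m := m)
  generalize Nat.find hex = n at h1 h2
  cases n with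
  | zero => exact (hx (by simpa using h1)).elim
  | succ n => exact ⟨n, h2 n (Nat.lt_succ_self n), by rw [← pow_mul, ← pow_succ, h1]⟩

theorem final_inv_pow {s c : G} (h : s⁻¹ * c * s = c⁻¹) (m : ℕ) :
    s⁻¹ * c ^ m * s = (c ^ m)⁻¹ := by
  have : s⁻¹ * c ^ m * s⁻¹⁻¹ = (s⁻¹ * c * s⁻¹⁻¹) ^ m := conj_pow.symm
  rw [inv_inv, h] at this
  rw [this, inv_pow]

theorem final_dihedral {s w : G} (h : s⁻¹ * w * s = w⁻¹) (h2 : (w * w) * (w * w) = 1) :
    Commute s (w * w) ∧ w⁻¹ * s * w = s * (w * w) := by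
  have h3 : s⁻¹ * w⁻¹ * s = w := by
    have : s⁻¹ * w⁻¹ * s = (s⁻¹ * w * s)⁻¹ := by group
    rw [this, h, inv_inv]
  constructor
  · have h4 : s⁻¹ * (w * w) * s = w * w := by
      calc s⁻¹ * (w * w) * s = (s⁻¹ * w * s) * (s⁻¹ * w * s) := by group
        _ = (w * w)⁻¹ := by rw [h]; group
        _ = w * w := inv_eq_of_mul_eq_one_right h2
    exact (commute_iff_conj.2 h4).symm
  · calc w⁻¹ * s * w = s * (s⁻¹ * w⁻¹ * s) * w := by group
      _ = s * (w * w) := by rw [h3, mul_assoc]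

theorem center_two (hG : IsPGroup 2 G) (ha : orderOf a = 2)
    (h2 : ({x : G | Commute x a} ∩ {x : G | IsConj a x}).Finite) : center G ≠ ⊥ := by
  have ha1 : a ≠ 1 := by
    rintro rfl
    simp at ha
  have haa : a * a = 1 := by rw [← pow_two, ← ha, pow_orderOf_eq_one]
  set F := {x : G | Commute x a} ∩ {x : G | IsConj a x} with hF
  let U : Set G := (F ∪ (fun d => a⁻¹ * d) '' F) \ {1}
  have hU : U.Finite := (h2.union (h2.image _)).subset Set.sdiff_subset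
  refine center_ne_bot_of_returns Nat.prime_two hG hU (fun h => h.2 rfl) fun g => ?_
  by_cases hc : Commute a (g⁻¹ * a * g)
  · refine ⟨g⁻¹ * a * g, ⟨Or.inl ⟨hc.symm, isConj_iff.2 ⟨g⁻¹, by simp⟩⟩, fun e => ha1 ?_⟩, ?_⟩
    · simpa [mul_eq_one_iff_eq_inv] using e
    · have : g * (g⁻¹ * a * g) * g⁻¹ = a := by group
      rw [this]
      exact ⟨Or.inl ⟨Commute.refl a, IsConj.refl a⟩, ha1⟩
  obtain ⟨b, hb⟩ : ∃ b, b = g⁻¹ * a * g := ⟨_, rfl⟩
  rw [← hb] at hc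
  have hbb : b * b = 1 := by
    calc b * b = g⁻¹ * (a * a) * g := by rw [hb]; group
      _ = 1 := by rw [haa]; group
  have hai : a⁻¹ = a := inv_eq_of_mul_eq_one_right haa
  have hbi : b⁻¹ = b := inv_eq_of_mul_eq_one_right hbb
  have hci : (a * b)⁻¹ = b * a := by rw [mul_inv_rev, hai, hbi]
  have hc2 : (a * b) ^ 2 ≠ 1 := fun e => hc (by
    rw [pow_two] at e
    have := inv_eq_of_mul_eq_one_right e
    rw [hci] at this
    exact this.symm)
  obtain ⟨n, hn1, hn2⟩ := final_pow hG hc2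
  obtain ⟨w, hw⟩ : ∃ w, w = (a * b) ^ 2 ^ n := ⟨_, rfl⟩
  have hz : ((a * b) ^ 2) ^ 2 ^ n = w * w := by
    rw [hw, ← pow_two, ← pow_mul, ← pow_mul, mul_comm]
  rw [hz] at hn1 hn2
  rw [pow_two] at hn2
  have e1 : a⁻¹ * w * a = w⁻¹ := by
    rw [hw]
    refine final_inv_pow ?_ _
    rw [hci]; group
  have e2 : b⁻¹ * w * b = w⁻¹ := by
    rw [hw]
    refine final_inv_pow ?_ _
    rw [hci, hbi, mul_assoc, mul_assoc, hbb, mul_one]
  obtain ⟨c1, d1⟩ := final_dihedral e1 hn2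
  obtain ⟨c2, d2⟩ := final_dihedral e2 hn2
  refine ⟨w * w, ⟨Or.inr ⟨a * (w * w), ⟨((Commute.refl a).mul_right c1).symm,
    isConj_iff.2 ⟨w⁻¹, by rw [inv_inv, d1]⟩⟩, by simp⟩, hn1⟩,
    Or.inr ⟨a * (g * (w * w) * g⁻¹), ⟨?_, isConj_iff.2 ⟨g * w⁻¹ * g⁻¹, ?_⟩⟩, by simp⟩,
    fun e => hn1 (by simpa [mul_inv_eq_one] using e)⟩
  · refine ((Commute.refl a).mul_right ?_).symm
    have := c2.conj g
    rw [hb] at this
    simpa [mul_assoc] using this
  · calc g * w⁻¹ * g⁻¹ * a * (g * w⁻¹ * g⁻¹)⁻¹ = g * (w⁻¹ * b * w) * g⁻¹ := by rw [hb]; group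
      _ = a * (g * (w * w) * g⁻¹) := by rw [d2, hb]; group

/-- The normal closure of a class which is finite modulo `A` is finite modulo `A`. -/
theorem final_finMod (hp : p.Prime) (hG : IsPGroup p G) {N A : Subgroup G} (hN : N ≤ Nz A)
    {d : G} (hd : d ∈ N) (h : FinMod A (orb d N)) :
    FinMod A (closure (orb d N) : Subgroup G) := by
  classical
  have hnorm : (A.subgroupOf N).Normal :=
    ⟨fun x hx g => mem_subgroupOf.2 (Nz_conj' (hN g.2) (mem_subgroupOf.1 hx))⟩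
  have hsub : ∀ x ∈ orb d N, x ∈ N := by
    rintro _ ⟨g, hg, rfl⟩
    exact N.mul_mem (N.mul_mem (N.inv_mem hg) hd) hg
  let π : N →* N ⧸ A.subgroupOf N := QuotientGroup.mk' _
  let X : Set (N ⧸ A.subgroupOf N) := π '' {x : N | (x : G) ∈ orb d N}
  obtain ⟨Φ, hΦ, hΦs, hΦm⟩ := h.reps
  have hX : X.Finite := by
    have h1 : {x : N | (x : G) ∈ Φ}.Finite := hΦ.preimage Subtype.val_injective.injOn
    refine (h1.image π).subset ?_
    rintro _ ⟨x, hx, rfl⟩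
    obtain ⟨φ, hφ, hm⟩ := hΦm x hx
    exact ⟨⟨φ, hsub φ (hΦs hφ)⟩, hφ, QuotientGroup.eq.2 (mem_subgroupOf.2 hm)⟩
  have hfin := dietzmann hp ((hG.to_subgroup N).to_quotient (A.subgroupOf N)) hX (by
    rintro _ ⟨x, ⟨g, hg, hx⟩, rfl⟩ _ ⟨y, -, rfl⟩
    refine ⟨y⁻¹ * x * y, ⟨g * y, N.mul_mem hg y.2, ?_⟩, by simp⟩
    simp only [coe_mul, coe_inv, hx]
    group)
  refine ⟨(fun q : N ⧸ A.subgroupOf N => (q.out : G)) '' _, hfin.image _, fun z hz => ?_⟩
  have key : ∃ hz' : z ∈ N, π ⟨z, hz'⟩ ∈ closure X := by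
    refine closure_induction (p := fun z _ => ∃ hz' : z ∈ N, π ⟨z, hz'⟩ ∈ closure X) ?_ ?_ ?_ ?_ hz
    · exact fun x hx => ⟨hsub x hx, subset_closure ⟨⟨x, hsub x hx⟩, hx, rfl⟩⟩
    · exact ⟨N.one_mem, (closure X).one_mem⟩
    · rintro x y - - ⟨hx, hx'⟩ ⟨hy, hy'⟩
      exact ⟨N.mul_mem hx hy, (closure X).mul_mem hx' hy'⟩
    · rintro x - ⟨hx, hx'⟩
      exact ⟨N.inv_mem hx, (closure X).inv_mem hx'⟩
  obtain ⟨hz', hk⟩ := key
  refine ⟨_, ⟨π ⟨z, hz'⟩, hk, rfl⟩, ?_⟩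
  have : ((π ⟨z, hz'⟩).out : N)⁻¹ * ⟨z, hz'⟩ ∈ A.subgroupOf N :=
    QuotientGroup.eq.1 (QuotientGroup.out_eq' _)
  exact mem_subgroupOf.1 this

theorem final_conj_closure {N : Subgroup G} {d g : G} (hg : g ∈ Nz N) {z : G}
    (hz : z ∈ closure (orb d N)) : g⁻¹ * z * g ∈ closure (orb (g⁻¹ * d * g) N) := by
  refine closure_induction (p := fun z _ => g⁻¹ * z * g ∈ closure (orb (g⁻¹ * d * g) N))
    ?_ ?_ ?_ ?_ hz
  · rintro _ ⟨h, hh, rfl⟩
    exact subset_closure ⟨g⁻¹ * h * g, Nz_conj hg hh, by group⟩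
  · simp
  · intro x y _ _ hx hy
    have := mul_mem hx hy
    convert this using 1
    group
  · intro x _ hx
    have := inv_mem hx
    convert this using 1
    group

theorem final_Nz_closure (hp : p.Prime) (hG : IsPGroup p G) {N : Subgroup G} (d : G) :
    N ≤ Nz (closure (orb d N)) := fun g hg =>
  mem_Nz_of_conj hp hG fun z hz => by
    refine closure_mono ?_ (final_conj_closure (le_Nz N hg) hz)
    rintro _ ⟨h, hh, rfl⟩
    exact ⟨g * h, N.mul_mem hg hh, by group⟩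

/-- A nontrivial invariant subgroup which is finite modulo a finite rank invariant subgroup
contains a central element of order `p`. -/
theorem final_fix (hp : p.Prime) (hG : IsPGroup p G) {N A K : Subgroup G} (hA : FR p A)
    (hN : N ≤ Nz A) (hK : N ≤ Nz K) (h : FinMod A K) (hne : K ≠ ⊥) :
    ∃ z ∈ K, z ≠ 1 ∧ z ∈ Cz N ∧ z ^ p = 1 := by
  have hQ : ∃ Q : Subgroup G, Q ≤ K ∧ (Q : Set G).Finite ∧ Q ≠ ⊥ ∧ N ≤ Nz Q := by
    by_cases hb : A ⊓ K = ⊥
    · refine ⟨K, le_rfl, ?_, hne, hK⟩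
      have h1 : FinMod K K := ⟨{1}, Set.finite_singleton 1, fun x hx => ⟨1, rfl, by simpa using hx⟩⟩
      have h2 := h.inf h1
      rw [hb] at h2
      exact finMod_bot.1 h2
    · obtain ⟨⟨x, hx⟩, hx1⟩ := (ne_bot_iff_exists_ne_one).1 hb
      obtain ⟨n, hn1, hn2⟩ := final_pow hG (x := x) fun e => hx1 (Subtype.ext e)
      let Q : Subgroup G :=
        { carrier := Om p (A ⊓ K)
          one_mem' := ⟨one_mem _, one_pow p⟩
          mul_mem' := fun {x y} hx hy => ⟨mul_mem hx.1 hy.1, by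
            rw [(hA.comm x hx.1.1 y hy.1.1).mul_pow, hx.2, hy.2, one_mul]⟩
          inv_mem' := fun {x} hx => ⟨inv_mem hx.1, by rw [inv_pow, hx.2, inv_one]⟩ }
      refine ⟨Q, fun y hy => hy.1.2, hA.fin.subset fun y hy => ⟨hy.1.1, hy.2⟩, ?_, ?_⟩
      · exact (ne_bot_iff_exists_ne_one).2 ⟨⟨x ^ p ^ n, pow_mem hx _, hn2⟩,
          fun e => hn1 (congrArg Subtype.val e)⟩
      · intro g hg
        refine mem_Nz_of_conj hp hG fun y hy => ⟨Nz_conj (Nz_inf (hN hg) (hK hg)) hy.1, ?_⟩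
        have : (g⁻¹ * y * g⁻¹⁻¹) ^ p = g⁻¹ * y ^ p * g⁻¹⁻¹ := conj_pow
        rw [inv_inv, hy.2] at this
        rw [this]; group
  obtain ⟨Q, hQK, hQf, hQb, hQN⟩ := hQ
  obtain ⟨q, hq, hq1, hq2⟩ := fixMod hp hG (R := N) (K := ⊥) hQf (bot_lt_iff_ne_bot.2 hQb) hQN
    (by rw [show Nz (⊥ : Subgroup G) = ⊤ from normalizer_eq_top _]; exact le_top)
  obtain ⟨n, hn1, hn2⟩ := final_pow hG (x := q) fun e => hq1 (by rw [e]; exact one_mem _)
  refine ⟨q ^ p ^ n, pow_mem (hQK hq) _, hn1, pow_mem ?_ _, hn2⟩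
  exact mem_Cz.2 fun g hg => (rho_eq_one_iff.1 (mem_bot.1 (hq2 g hg))).symm

theorem center_odd (H : Hyp p k (orb (a : G) Set.univ)) (ha : a ≠ 1) : center G ≠ ⊥ := by
  have haD : a ∈ orb a Set.univ := ⟨1, trivial, by simp⟩
  set N : Subgroup G := closure (orb a Set.univ) with hNdef
  have hNz : ∀ g : G, g ∈ Nz N := fun g => mem_Nz_of_conj H.prime H.pgrp fun z hz => by
    refine closure_induction (p := fun z _ => g⁻¹ * z * g ∈ N) ?_ ?_ ?_ ?_ hz
    · exact fun x hx => subset_closure (H.conj x hx g)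
    · simp
    · intro x y _ _ hx hy
      have := mul_mem hx hy
      convert this using 1
      group
    · intro x _ hx
      have := inv_mem hx
      convert this using 1
      group
  have haN : a ∈ N := subset_closure haD
  obtain ⟨A, hA, -, hNA, hfm⟩ := main p k G _ H a haD
  have hM := final_finMod H.prime H.pgrp hNA haN hfm
  have hMN : closure (orb a N) ≤ N := (closure_le _).2 (by
    rintro _ ⟨g, hg, rfl⟩
    exact N.mul_mem (N.mul_mem (N.inv_mem hg) haN) hg)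
  have hΨ : (Om p (closure (orb a N) ⊓ Cz N)).Finite :=
    om_finite_of_finMod (fun x hx y hy => mem_Cz.1 hy.2 x (hMN hx.1)) hA.fin
      (hM.mono fun x hx => hx.1)
  let U : Set G := ((orb a Set.univ ∩ {e | Commute a e}) ∪ Om p (closure (orb a N) ⊓ Cz N)) \ {1}
  have hU : U.Finite := ((H.finite_comm haD).union hΨ).subset Set.sdiff_subset
  refine center_ne_bot_of_returns H.prime H.pgrp hU (fun h => h.2 rfl) fun g => ?_
  by_cases hc : Commute a (g⁻¹ * a * g)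
  · refine ⟨g⁻¹ * a * g, ⟨Or.inl ⟨⟨g, trivial, rfl⟩, hc⟩, fun e => ha ?_⟩, ?_⟩
    · simpa [mul_eq_one_iff_eq_inv] using e
    · have : g * (g⁻¹ * a * g) * g⁻¹ = a := by group
      rw [this]
      exact ⟨Or.inl ⟨haD, Commute.refl a⟩, ha⟩
  obtain ⟨b, hb⟩ : ∃ b, b = g⁻¹ * a * g := ⟨_, rfl⟩
  rw [← hb] at hc
  have hbN : b ∈ N := subset_closure ⟨g, trivial, hb⟩
  have hr : rho a b ∈ closure (orb a N) ⊓ closure (orb b N) := by
    refine mem_inf.2 ⟨?_, ?_⟩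
    · exact mul_mem (inv_mem (subset_closure ⟨1, N.one_mem, by simp⟩))
        (subset_closure ⟨b, hbN, rfl⟩)
    · have e : rho a b = (a⁻¹ * b * a)⁻¹ * b := by simp only [rho]; group
      rw [e]
      exact mul_mem (inv_mem (subset_closure ⟨a, haN, rfl⟩))
        (subset_closure ⟨1, N.one_mem, by simp⟩)
  obtain ⟨z, hz, hz1, hzc, hzp⟩ := final_fix H.prime H.pgrp hA hNA
    (K := closure (orb a N) ⊓ closure (orb b N))
    (fun x hx => Nz_inf (final_Nz_closure H.prime H.pgrp a hx)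
      (final_Nz_closure H.prime H.pgrp b hx))
    (hM.mono fun x hx => hx.1)
    (fun e => hc (rho_eq_one_iff.1 (by rw [e] at hr; exact mem_bot.1 hr)))
  refine ⟨z, ⟨Or.inr ⟨⟨hz.1, hzc⟩, hzp⟩, hz1⟩, Or.inr ⟨⟨?_, ?_⟩, ?_⟩,
    fun e => hz1 (by simpa [mul_inv_eq_one] using e)⟩
  · have h1 := final_conj_closure (hNz g⁻¹) hz.2
    have e : g⁻¹⁻¹ * b * g⁻¹ = a := by rw [hb]; group
    rw [e, inv_inv] at h1
    exact h1
  · exact Nz_conj' (Nz_Cz (hNz g)) hzc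
  · rw [conj_pow, hzp]; group

theorem center_ne_bot (p : ℕ) (hp : p.Prime) (G : Type) [Group G] (hG : IsPGroup p G) (a : G)
    (ha : orderOf a = p)
    (h1 : ∀ g : G, ((closure ({a, g⁻¹ * a * g} : Set G) : Subgroup G) : Set G).Finite)
    (h2 : ({x : G | Commute x a} ∩ {x : G | IsConj a x}).Finite) : center G ≠ ⊥ := by
  by_cases hodd : p = 2
  · subst hodd
    exact center_two hG ha h2
  have ha1 : a ≠ 1 := by
    rintro rfl
    rw [orderOf_one] at ha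
    exact hp.one_lt.ne ha
  have hap : a ^ p = 1 := by rw [← ha, pow_orderOf_eq_one]
  refine center_odd (p := p) (k := ({x : G | Commute x a} ∩ {x : G | IsConj a x}).ncard)
    ⟨hp, hodd, hG, ?_, ?_, ?_, ?_⟩ ha1
  · rintro _ ⟨h, -, rfl⟩ g
    exact ⟨h * g, trivial, by group⟩
  · rintro _ ⟨g, -, rfl⟩
    have : (g⁻¹ * a * g⁻¹⁻¹) ^ p = g⁻¹ * a ^ p * g⁻¹⁻¹ := conj_pow
    rw [inv_inv, hap] at this
    rw [this]; group
  · rintro _ ⟨g, -, rfl⟩ _ ⟨h, -, rfl⟩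
    refine ((h1 (h * g⁻¹)).image fun x => g⁻¹ * x * g).subset fun z hz => ?_
    refine ⟨g * z * g⁻¹, ?_, by group⟩
    have : closure ({g⁻¹ * a * g, h⁻¹ * a * h} : Set G) ≤
        cjs (closure ({a, (h * g⁻¹)⁻¹ * a * (h * g⁻¹)} : Set G)) g := by
      refine (closure_le _).2 ?_
      rintro _ (rfl | rfl)
      · exact conj_mem_cjs (subset_closure (Or.inl rfl))
      · have e : h⁻¹ * a * h = g⁻¹ * ((h * g⁻¹)⁻¹ * a * (h * g⁻¹)) * g := by group
        rw [e]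
        exact conj_mem_cjs (subset_closure (Or.inr rfl))
    exact mem_cjs.1 (this hz)
  · rintro _ ⟨g, -, rfl⟩
    rw [h2.cast_ncard_eq]
    refine le_trans (Set.encard_le_encard ?_) (Set.encard_image_le (fun x => g⁻¹ * x * g) _)
    rintro _ ⟨⟨h, -, rfl⟩, hc⟩
    refine ⟨g * (h⁻¹ * a * h) * g⁻¹, ⟨?_, isConj_iff.2 ⟨g * h⁻¹, by group⟩⟩, by group⟩
    have := (Commute.symm hc).conj g
    simpa [mul_assoc] using this

end Pool.Agent.Lib.MP_7d7b85_al
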