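import Pool.Agent.Lib.MP_7d7b85_al.Depth

namespace Pool.Agent.Lib.MP_7d7b85_al

open Subgroup Filter

variable {G : Type} [Group G] {p k : ℕ} {D : Set G}

/-- The limit of a family all of whose conjugation actions are eventually constant. -/
structure Lim (p k : ℕ) (D : Set G) {I : Type} (r : Ultrafilter I) (e : I → G) where
  Q : Type
  [grp : Group Q]
  D' : Set Q
  ι : G →* Q
  ε : Q
  Rep : Q → (I → G) → Prop
  hyp : Hyp p k D'
  inj : Function.Injective ι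
  rep_ι : ∀ g, Rep (ι g) (fun _ => g)
  rep_ε : Rep ε e
  rep_mul : ∀ {h h' f f'}, Rep h f → Rep h' f' → Rep (h * h') (fun l => f l * f' l)
  rep_inv : ∀ {h f}, Rep h f → Rep h⁻¹ (fun l => (f l)⁻¹)
  rep_eq : ∀ {h h' f f'}, Rep h f → Rep h' f' → (h = h' ↔ ∀ᶠ l in r, f l = f' l)
  rep_D : ∀ {h f}, Rep h f → (h ∈ D' ↔ ∀ᶠ l in r, f l ∈ D)
  nf : ∀ h, ∃ (g : G) (n : ℕ), h = ι g * ε ^ n

attribute [instance] Lim.grp

section abstract

variable {X : Type} [Group X] {c : G →* X} {ε : X} {τ : G → G} {T : Subgroup G}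

theorem limF_iter (hτ : ∀ t ∈ T, τ t ∈ T) (hc : ∀ t ∈ T, ε⁻¹ * c t * ε = c (τ t)) (n : ℕ) :
    ∀ t ∈ T, τ^[n] t ∈ T ∧ (ε ^ n)⁻¹ * c t * ε ^ n = c (τ^[n] t) := by
  induction n with
  | zero => intro t ht; simpa using ht
  | succ n ih =>
    intro t ht
    obtain ⟨h1, h2⟩ := ih t ht
    rw [Function.iterate_succ_apply']
    refine ⟨hτ _ h1, ?_⟩
    rw [← hc _ h1, ← h2, pow_succ]; group

theorem limF_inv_pow (hp : 0 < p) (hε : ε ^ p = 1) (n : ℕ) : (ε ^ n)⁻¹ = ε ^ (n * (p - 1)) := by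
  rw [eq_comm, eq_inv_iff_mul_eq_one, ← pow_add]
  have : n * (p - 1) + n = p * n := by
    obtain ⟨q, rfl⟩ : ∃ q, p = q + 1 := ⟨p - 1, by omega⟩
    simp; ring
  rw [this, pow_mul, hε, one_pow]

theorem limF_mul (hp : 0 < p) (hε : ε ^ p = 1) (hτ : ∀ t ∈ T, τ t ∈ T)
    (hc : ∀ t ∈ T, ε⁻¹ * c t * ε = c (τ t)) (t : G) {t' : G} (ht' : t' ∈ T) (n n' : ℕ) :
    c t * ε ^ n * (c t' * ε ^ n') = c (t * τ^[n * (p - 1)] t') * ε ^ (n + n') := by
  have h := (limF_iter hτ hc (n * (p - 1)) t' ht').2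
  rw [← limF_inv_pow hp hε] at h
  rw [map_mul, ← h, pow_add]; group

theorem limF_inv (hp : 0 < p) (hε : ε ^ p = 1) (hτ : ∀ t ∈ T, τ t ∈ T)
    (hc : ∀ t ∈ T, ε⁻¹ * c t * ε = c (τ t)) {t : G} (ht : t ∈ T) (n : ℕ) :
    (c t * ε ^ n)⁻¹ = c (τ^[n] t⁻¹) * ε ^ (n * (p - 1)) := by
  have h := (limF_iter hτ hc n t⁻¹ (T.inv_mem ht)).2
  rw [← limF_inv_pow hp hε, ← h, map_inv]; group

theorem limF_pow (hp : 0 < p) (hε : ε ^ p = 1) (hc : ∀ t, ε⁻¹ * c t * ε = c (τ t)) (t : G)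
    (n m : ℕ) : ∃ g, (c t * ε ^ n) ^ m = c g * ε ^ (n * m) := by
  induction m with
  | zero => exact ⟨1, by simp⟩
  | succ m ih =>
    obtain ⟨g, hg⟩ := ih
    refine ⟨g * τ^[n * m * (p - 1)] t, ?_⟩
    rw [pow_succ, hg, limF_mul (T := ⊤) hp hε (fun _ _ => trivial) (fun t _ => hc t) g trivial,
      Nat.mul_succ]

theorem limF_pow_p (hp : 0 < p) (hε : ε ^ p = 1) (hc : ∀ t, ε⁻¹ * c t * ε = c (τ t)) (t : G)
    (n : ℕ) : (c t * ε ^ n) ^ p ∈ c.range := by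
  obtain ⟨g, hg⟩ := limF_pow hp hε hc t n p
  refine ⟨g, ?_⟩
  rw [hg, mul_comm n p, pow_mul, hε, one_pow, mul_one]

end abstract

/-- The limit structure without the standing hypothesis. -/
structure PLim (D : Set G) {I : Type} (r : Ultrafilter I) (e : I → G) where
  Q : Type
  [grp : Group Q]
  D' : Set Q
  ι : G →* Q
  ε : Q
  Rep : Q → (I → G) → Prop
  inj : Function.Injective ι
  rep_ι : ∀ g, Rep (ι g) (fun _ => g)
  rep_ε : Rep ε e
  rep_mul : ∀ {h h' f f'}, Rep h f → Rep h' f' → Rep (h * h') (fun l => f l * f' l)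
  rep_inv : ∀ {h f}, Rep h f → Rep h⁻¹ (fun l => (f l)⁻¹)
  rep_eq : ∀ {h h' f f'}, Rep h f → Rep h' f' → (h = h' ↔ ∀ᶠ l in r, f l = f' l)
  rep_D : ∀ {h f}, Rep h f → (h ∈ D' ↔ ∀ᶠ l in r, f l ∈ D)
  nf : ∀ h, ∃ (g : G) (n : ℕ), h = ι g * ε ^ n

attribute [instance] PLim.grp

section plim

variable {I : Type} {r : Ultrafilter I} {e : I → G}

theorem PLim.rep_one (L : PLim D r e) : L.Rep 1 (fun _ => 1) := by
  simpa using L.rep_ι 1

theorem PLim.rep_pow (L : PLim D r e) {h : L.Q} {f : I → G} (hf : L.Rep h f) (n : ℕ) :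
    L.Rep (h ^ n) (fun l => f l ^ n) := by
  induction n with
  | zero => simpa using L.rep_one
  | succ n ih => simpa [pow_succ] using L.rep_mul ih hf

theorem PLim.rep_nf (L : PLim D r e) (g : G) (n : ℕ) :
    L.Rep (L.ι g * L.ε ^ n) (fun l => g * e l ^ n) :=
  L.rep_mul (L.rep_ι g) (L.rep_pow L.rep_ε n)

theorem PLim.exists_rep (L : PLim D r e) (h : L.Q) : ∃ f, L.Rep h f := by
  obtain ⟨g, n, rfl⟩ := L.nf h
  exact ⟨_, L.rep_nf g n⟩

theorem PLim.conj_ε (L : PLim D r e) {g g' : G} (h : ∀ᶠ l in r, (e l)⁻¹ * g * e l = g') :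
    L.ε⁻¹ * L.ι g * L.ε = L.ι g' :=
  (L.rep_eq (L.rep_mul (L.rep_mul (L.rep_inv L.rep_ε) (L.rep_ι g)) L.rep_ε) (L.rep_ι g')).2 h

theorem PLim.pow_eq_one (L : PLim D r e) {h : L.Q} {f : I → G} (hf : L.Rep h f) {n : ℕ}
    (hn : ∀ᶠ l in r, f l ^ n = 1) : h ^ n = 1 :=
  (L.rep_eq (L.rep_pow hf n) L.rep_one).2 hn

theorem PLim.pow_mem (L : PLim D r e) (he : ∀ᶠ l in r, e l ∈ D) (H : Hyp p k D)
    (hT : ∀ g, EvC r e g) (h : L.Q) : h ^ p ∈ L.ι.range := by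
  choose τ hτ using hT
  obtain ⟨g, n, rfl⟩ := L.nf h
  exact limF_pow_p H.prime.pos (L.pow_eq_one L.rep_ε (he.mono fun l hl => H.pow _ hl))
    (fun t => L.conj_ε (hτ t)) g n

theorem PLim.fin (L : PLim D r e) (he : ∀ᶠ l in r, e l ∈ D) (H : Hyp p k D)
    (hT : ∀ g, EvC r e g) {h₁ h₂ : L.Q} (m₁ : h₁ ∈ L.D') (m₂ : h₂ ∈ L.D') :
    ((closure ({h₁, h₂} : Set L.Q) : Subgroup L.Q) : Set L.Q).Finite := by
  choose τ hτ using hT
  have hp := H.prime.pos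
  have hε : L.ε ^ p = 1 := L.pow_eq_one L.rep_ε (he.mono fun l hl => H.pow _ hl)
  have hc : ∀ t, L.ε⁻¹ * L.ι t * L.ε = L.ι (τ t) := fun t => L.conj_ε (hτ t)
  have hτp : ∀ t, τ^[p] t = t := fun t => by
    have := (limF_iter (T := ⊤) (fun _ _ => trivial) (fun t _ => hc t) p t trivial).2
    rw [hε] at this
    exact L.inj (by simpa using this.symm)
  have hmul : ∀ s t, τ (s * t) = τ s * τ t := fun s t => L.inj (by
    rw [map_mul, ← hc, ← hc, ← hc, map_mul]; group)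
  obtain ⟨t₁, n₁, rfl⟩ := L.nf h₁
  obtain ⟨t₂, n₂, rfl⟩ := L.nf h₂
  set S : Set G := (fun q : ℕ × G => τ^[q.1] q.2) '' (Set.Iio p ×ˢ {t₁, t₂}) with hS
  have hSf : S.Finite := ((Set.finite_Iio p).prod (Set.toFinite _)).image _
  have hSτ : ∀ s ∈ S, τ s ∈ S := by
    rintro _ ⟨⟨j, t⟩, ⟨hj, ht⟩, rfl⟩
    by_cases hj' : j + 1 < p
    · exact ⟨(j + 1, t), ⟨hj', ht⟩, Function.iterate_succ_apply' _ _ _⟩
    · have hj2 : j + 1 = p := by
        have : j < p := hj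
        omega
      refine ⟨(0, t), ⟨hp, ht⟩, ?_⟩
      have := hτp t
      rw [← hj2, Function.iterate_succ_apply'] at this
      simpa using this.symm
  have ev : ∀ᶠ l in r, (∀ s ∈ S, (e l)⁻¹ * s * e l = τ s) ∧ e l ∈ D ∧ t₁ * e l ^ n₁ ∈ D ∧
      t₂ * e l ^ n₂ ∈ D :=
    ((eventually_all_finite hSf).2 fun s _ => hτ s).and (he.and
      (((L.rep_D (L.rep_nf t₁ n₁)).1 m₁).and ((L.rep_D (L.rep_nf t₂ n₂)).1 m₂)))
  obtain ⟨l, ha, hb, hd₁, hd₂⟩ := ev.exists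
  set e₀ := e l with he₀
  have he₀p : e₀ ^ p = 1 := H.pow _ hb
  let τh : G →* G := MonoidHom.mk' τ hmul
  have hT₁ : ∀ t ∈ closure S, τ t ∈ closure S ∧ e₀⁻¹ * (MonoidHom.id G) t * e₀ =
      (MonoidHom.id G) (τ t) := by
    intro t ht
    induction ht using closure_induction with
    | mem x hx => exact ⟨subset_closure (hSτ x hx), ha x hx⟩
    | one =>
      have : τ 1 = 1 := τh.map_one
      simp [this]
    | mul x y _ _ hx hy =>
      rw [hmul]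
      refine ⟨mul_mem hx.1 hy.1, ?_⟩
      simp only [MonoidHom.id_apply] at hx hy ⊢
      rw [← hx.2, ← hy.2]; group
    | inv x _ hx =>
      have : τ x⁻¹ = (τ x)⁻¹ := τh.map_inv x
      rw [this]
      refine ⟨inv_mem hx.1, ?_⟩
      simp only [MonoidHom.id_apply] at hx ⊢
      rw [← hx.2]; group
  have hT₂ : ∀ t ∈ closure S, τ t ∈ closure S := fun t ht => (hT₁ t ht).1
  have hT₃ := fun t ht => (hT₁ t ht).2
  have hT₄ : ∀ t ∈ closure S, L.ε⁻¹ * L.ι t * L.ε = L.ι (τ t) := fun t _ => hc t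
  set F : Subgroup G := closure ({t₁ * e₀ ^ n₁, t₂ * e₀ ^ n₂} : Set G) with hF
  have hFf : (F : Set G).Finite := H.fin _ hd₁ _ hd₂
  have key : ∀ h ∈ closure ({L.ι t₁ * L.ε ^ n₁, L.ι t₂ * L.ε ^ n₂} : Set L.Q),
      ∃ t ∈ closure S, ∃ n : ℕ, h = L.ι t * L.ε ^ n ∧ t * e₀ ^ n ∈ F := by
    intro h hh
    induction hh using closure_induction with
    | mem x hx =>
      rcases hx with rfl | rfl
      · exact ⟨t₁, subset_closure ⟨(0, t₁), ⟨hp, by simp⟩, rfl⟩, n₁, rfl,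
          subset_closure (by simp)⟩
      · exact ⟨t₂, subset_closure ⟨(0, t₂), ⟨hp, by simp⟩, rfl⟩, n₂, rfl,
          subset_closure (by simp)⟩
    | one => exact ⟨1, one_mem _, 0, by simp, by simp⟩
    | mul x y _ _ hx hy =>
      obtain ⟨t, ht, n, rfl, h1⟩ := hx
      obtain ⟨t', ht', n', rfl, h2⟩ := hy
      refine ⟨_, mul_mem ht (limF_iter hT₂ hT₄ (n * (p - 1)) t' ht').1, n + n',
        limF_mul hp hε hT₂ hT₄ t ht' n n', ?_⟩
      have := limF_mul hp he₀p hT₂ hT₃ t ht' n n'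
      simp only [MonoidHom.id_apply] at this
      rw [← this]
      exact mul_mem h1 h2
    | inv x _ hx =>
      obtain ⟨t, ht, n, rfl, h1⟩ := hx
      refine ⟨_, (limF_iter hT₂ hT₄ n t⁻¹ (inv_mem ht)).1, n * (p - 1),
        limF_inv hp hε hT₂ hT₄ ht n, ?_⟩
      have := limF_inv hp he₀p hT₂ hT₃ ht n
      simp only [MonoidHom.id_apply] at this
      rw [← this]
      exact inv_mem h1
  refine ((hFf.prod (Set.finite_Iio p)).image
    (fun q : G × ℕ => L.ι (q.1 * (e₀ ^ q.2)⁻¹) * L.ε ^ q.2)).subset fun h hh => ?_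
  obtain ⟨t, -, n, rfl, h1⟩ := key h hh
  refine ⟨(t * e₀ ^ n, n % p), ⟨h1, Nat.mod_lt _ hp⟩, ?_⟩
  simp only
  rw [← pow_eq_pow_mod n he₀p, ← pow_eq_pow_mod n hε]
  simp

theorem PLim.hyp (L : PLim D r e) (he : ∀ᶠ l in r, e l ∈ D) (H : Hyp p k D)
    (hT : ∀ g, EvC r e g) : Hyp p k L.D' where
  prime := H.prime
  odd := H.odd
  pgrp := fun h => by
    obtain ⟨g, hg⟩ := L.pow_mem he H hT h
    obtain ⟨s, hs⟩ := H.pgrp g
    refine ⟨s + 1, ?_⟩
    rw [pow_succ', pow_mul, ← hg, ← map_pow, hs, map_one]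
  conj := fun d hd g => by
    obtain ⟨f, hf⟩ := L.exists_rep d
    obtain ⟨f', hf'⟩ := L.exists_rep g
    exact (L.rep_D (L.rep_mul (L.rep_mul (L.rep_inv hf') hf) hf')).2
      (((L.rep_D hf).1 hd).mono fun l hl => H.conj _ hl _)
  pow := fun d hd => by
    obtain ⟨f, hf⟩ := L.exists_rep d
    exact L.pow_eq_one hf (((L.rep_D hf).1 hd).mono fun l hl => H.pow _ hl)
  fin := fun d hd d' hd' => L.fin he H hT hd hd'
  bnd := fun d hd => by
    by_contra hlt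
    have h1 : ((k + 1 : ℕ) : ℕ∞) ≤ (L.D' ∩ {e | Commute d e}).encard := by
      push_cast
      exact Order.add_one_le_of_lt (not_le.1 hlt)
    obtain ⟨t, ht, hk⟩ := Set.exists_subset_encard_eq h1
    have htf : t.Finite := Set.finite_of_encard_eq_coe hk
    choose f hf using L.exists_rep
    have e1 : ∀ᶠ l in r, ∀ h ∈ t, f h l ∈ D ∧ Commute (f d l) (f h l) :=
      (eventually_all_finite htf).2 fun h hh => ((L.rep_D (hf h)).1 (ht hh).1).and
        ((L.rep_eq (L.rep_mul (hf d) (hf h)) (L.rep_mul (hf h) (hf d))).1 (ht hh).2)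
    have e2 : ∀ᶠ l in r, ∀ h ∈ t, ∀ h' ∈ t, f h l = f h' l → h = h' :=
      (eventually_all_finite htf).2 fun h _ => (eventually_all_finite htf).2 fun h' _ => by
        by_cases hh : h = h'
        · exact Eventually.of_forall fun _ _ => hh
        · have := Ultrafilter.eventually_not.2 (mt (L.rep_eq (hf h) (hf h')).2 hh)
          exact this.mono fun l hl h2 => absurd h2 hl
    obtain ⟨l, h2, h3, h4⟩ := (e1.and (e2.and ((L.rep_D (hf d)).1 hd))).exists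
    have h5 : t.encard ≤ (D ∩ {e | Commute (f d l) e}).encard :=
      Set.encard_le_encard_of_injOn (f := fun h => f h l) (fun h hh => h2 h hh)
        (fun h hh h' hh' => h3 h hh h' hh')
    have h6 := h5.trans (H.bnd _ h4)
    rw [hk] at h6
    exact absurd (by exact_mod_cast h6 : k + 1 ≤ k) (by omega)

theorem limF_exists (H : Hyp p k D) (r : Ultrafilter I) (e : I → G)
    (he : ∀ᶠ l in r, e l ∈ D) (hT : ∀ g, EvC r e g) : Nonempty (PLim D r e) := by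
  choose τ hτ using hT
  let π : (I → G) →* Germ (r : Filter I) G := Germ.coeMulHom _
  have hπ : ∀ f f' : I → G, π f = π f' ↔ ∀ᶠ l in r, f l = f' l := fun f f' => Germ.coe_eq
  have hπs : ∀ x, ∃ f, π f = x := fun x => Germ.inductionOn x fun f => ⟨f, rfl⟩
  let c : G →* Germ (r : Filter I) G := π.comp (Pi.constMonoidHom I G)
  have hp := H.prime.pos
  have hε : π e ^ p = 1 := by
    rw [← map_pow, ← π.map_one, hπ]
    exact he.mono fun l hl => H.pow _ hl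
  have hc : ∀ t ∈ (⊤ : Subgroup G), (π e)⁻¹ * c t * π e = c (τ t) := fun t _ => by
    change (π e)⁻¹ * π _ * π e = π _
    rw [← map_inv, ← map_mul, ← map_mul, hπ]
    exact hτ t
  let Q : Subgroup (Germ (r : Filter I) G) :=
    { carrier := {h | ∃ (g : G) (n : ℕ), h = c g * π e ^ n}
      one_mem' := ⟨1, 0, by simp⟩
      mul_mem' := by
        rintro _ _ ⟨g, n, rfl⟩ ⟨g', n', rfl⟩
        exact ⟨_, _, limF_mul (T := ⊤) hp hε (fun _ _ => trivial) hc g trivial n n'⟩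
      inv_mem' := by
        rintro _ ⟨g, n, rfl⟩
        exact ⟨_, _, limF_inv (T := ⊤) hp hε (fun _ _ => trivial) hc trivial n⟩ }
  refine ⟨{
    Q := Q
    D' := {h | ∃ f, (h : Germ (r : Filter I) G) = π f ∧ ∀ᶠ l in r, f l ∈ D}
    ι := c.codRestrict Q fun g => ⟨g, 0, by simp⟩
    ε := ⟨π e, 1, 1, by simp⟩
    Rep := fun h f => (h : Germ (r : Filter I) G) = π f
    inj := fun g g' h => ?_
    rep_ι := fun g => rfl
    rep_ε := rfl
    rep_mul := fun {h h' f f'} h1 h2 => ?_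
    rep_inv := fun {h f} h1 => ?_
    rep_eq := fun {h h' f f'} h1 h2 => ?_
    rep_D := fun {h f} h1 => ⟨?_, fun h2 => ⟨f, h1, h2⟩⟩
    nf := fun h => ?_ }⟩
  · have : π (fun _ => g) = π (fun _ => g') := congrArg Subtype.val h
    exact ((hπ _ _).1 this).exists.choose_spec
  · change (h : Germ (r : Filter I) G) * h' = π (f * f')
    rw [map_mul, h1, h2]
  · change (h : Germ (r : Filter I) G)⁻¹ = π f⁻¹
    rw [map_inv, h1]
  · rw [Subtype.ext_iff, h1, h2, hπ]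
  · rintro ⟨f', h2, h3⟩
    filter_upwards [(hπ _ _).1 (h1.symm.trans h2), h3] with l h4 h5
    rwa [h4]
  · obtain ⟨g, n, hg⟩ := h.2
    exact ⟨g, n, Subtype.ext hg⟩

end plim

theorem exists_lim (H : Hyp p k D) {I : Type} (r : Ultrafilter I) (e : I → G)
    (he : ∀ᶠ l in r, e l ∈ D) (hT : ∀ g, EvC r e g) : Nonempty (Lim p k D r e) := by
  obtain ⟨L⟩ := limF_exists H r e he hT
  exact ⟨{ L with hyp := L.hyp he H hT }⟩

variable {I : Type} {r : Ultrafilter I} {e : I → G}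

/-- Forgetting the standing hypothesis. -/
abbrev Lim.pre (L : Lim p k D r e) : PLim D r e := { L with }

theorem Lim.conj_ε (L : Lim p k D r e) {g g' : G} (h : ∀ᶠ l in r, (e l)⁻¹ * g * e l = g') :
    L.ε⁻¹ * L.ι g * L.ε = L.ι g' :=
  L.pre.conj_ε h

theorem Lim.mem_D (L : Lim p k D r e) {g : G} : L.ι g ∈ L.D' ↔ g ∈ D := by
  rw [L.rep_D (L.rep_ι g)]
  exact eventually_const

theorem Lim.limF_mem (L : Lim p k D r e) {S : Subgroup G} (hS : (S : Set G).Finite) {h : L.Q}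
    {f : I → G} (hf : L.Rep h f) (hm : ∀ᶠ l in r, f l ∈ S) : h ∈ S.map L.ι := by
  obtain ⟨y, hy, h1⟩ := ultra_fin r hS f hm
  exact ⟨y, hy, ((L.rep_eq hf (L.rep_ι y)).2 h1).symm⟩

theorem Lim.limF_Nz (L : Lim p k D r e) {S : Subgroup G} (hS : (S : Set G).Finite) {h : L.Q}
    {f : I → G} (hf : L.Rep h f) (hm : ∀ᶠ l in r, f l ∈ Nz S) : h ∈ Nz (S.map L.ι) := by
  refine mem_Nz_of_conj L.hyp.prime L.hyp.pgrp ?_
  rintro _ ⟨s, hs, rfl⟩
  exact L.limF_mem hS (L.rep_mul (L.rep_mul (L.rep_inv hf) (L.rep_ι s)) hf)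
    (hm.mono fun l hl => Nz_conj hl hs)

theorem Lim.limF_Cz (L : Lim p k D r e) {S : Subgroup G} {h : L.Q}
    {f : I → G} (hf : L.Rep h f) (hm : ∀ᶠ l in r, f l ∈ Cz S) : h ∈ Cz (S.map L.ι) := by
  refine mem_Cz.2 ?_
  rintro _ ⟨s, hs, rfl⟩
  exact (L.rep_eq (L.rep_mul (L.rep_ι s) hf) (L.rep_mul hf (L.rep_ι s))).2
    (hm.mono fun l hl => mem_Cz.1 hl s hs)

theorem Lim.limF_phi (L : Lim p k D r e) (t : Dat G) (j : ℕ) {h : L.Q} {f : I → G}
    (hf : L.Rep h f) : L.Rep ((t.map L.ι).phi j h) (fun l => t.phi j (f l)) :=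
  L.rep_mul (L.rep_mul (L.rep_mul (L.rep_ι _) (L.rep_inv hf)) (L.rep_ι _)) (L.rep_ι _)

theorem Lim.good (L : Lim p k D r e) {K : Subgroup G} {t : Dat G} {h : L.Q} {f : I → G}
    (hf : L.Rep h f) (hg : ∀ᶠ l in r, Good p D K t (f l)) :
    Good p L.D' (K.map L.ι) (t.map L.ι) h := by
  obtain ⟨l₀, h₀⟩ := hg.exists
  have g₀ := h₀.map L.ι L.inj (D' := L.D') fun d hd => L.mem_D.2 hd
  have hS : ∀ j < t.m, ((t.S j : Subgroup G) : Set G).Finite := fun j hj =>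
    h₀.fin.subset (h₀.S_le j hj)
  exact { g₀ with
    mem := (L.rep_D hf).2 (hg.mono fun l hl => hl.mem)
    norm := L.limF_Nz h₀.fin hf (hg.mono fun l hl => hl.norm)
    norm_S := fun j hj => L.limF_Nz (hS j hj) hf (hg.mono fun l hl => hl.norm_S j hj)
    pure := fun j hj => L.limF_Cz (L.rep_mul (L.rep_inv (L.rep_ι _)) hf)
      (hg.mono fun l hl => hl.pure j hj)
    rho_a := fun j hj => L.limF_mem (hS j hj) (L.rep_mul (L.rep_inv (L.rep_ι _))
      (L.rep_mul (L.rep_mul (L.rep_inv hf) (L.rep_ι _)) hf)) (hg.mono fun l hl => hl.rho_a j hj)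
    phi_mem := fun j hj => (L.rep_D (L.limF_phi t j hf)).2 (hg.mono fun l hl => hl.phi_mem j hj)
    phi_pure := fun j hj => L.limF_Cz (L.rep_mul (L.rep_inv hf) (L.limF_phi t j hf))
      (hg.mono fun l hl => hl.phi_pure j hj)
    phi_phi := fun j j' h1 h2 => (L.rep_D (L.limF_phi t j (L.limF_phi t j' hf))).2
      (hg.mono fun l hl => hl.phi_phi j j' h1 h2)
    P_D := fun i j h1 h2 => (L.rep_D (L.rep_mul hf (L.rep_mul (L.rep_inv (L.rep_ι _))
      (L.rep_ι _)))).2 (hg.mono fun l hl => hl.P_D i j h1 h2)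
    P_e := fun j hj => by
      have h1 := L.rep_mul (L.rep_mul (L.rep_inv (L.rep_ι (t.P j))) hf) (L.rep_ι (t.P j))
      exact (L.rep_eq (L.rep_mul hf h1) (L.rep_mul h1 hf)).2 (hg.mono fun l hl => hl.P_e j hj) }

/-- `p`-th powers are constants. -/
theorem Lim.pow_mem (L : Lim p k D r e) (he : ∀ᶠ l in r, e l ∈ D) (H : Hyp p k D)
    (hT : ∀ g, EvC r e g) (h : L.Q) : h ^ p ∈ L.ι.range :=
  L.pre.pow_mem he H hT h

theorem Lim.ε_not_mem (L : Lim p k D r e) (hn : ∀ g, ∀ᶠ l in r, e l ≠ g) :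
    L.ε ∉ L.ι.range := by
  rintro ⟨g, hg⟩
  obtain ⟨l, h1, h2⟩ := (((L.rep_eq (L.rep_ι g) L.rep_ε).1 hg).and (hn g)).exists
  exact h2 h1.symm

theorem Lim.noCT (L : Lim p k D r e) (he : ∀ᶠ l in r, e l ∈ D) (H : Hyp p k D)
    (hT : ∀ g, EvC r e g) {K : Subgroup G} (h : NoCT r e K) :
    NoCT r (fun l => L.ι (e l)) (K.map L.ι) := by
  intro B hB hTw
  obtain ⟨l, h1, h2⟩ := (hTw.and he).exists
  have hFR := h1.fr L.hyp (L.mem_D.2 h2)
  have hle : B ≤ L.ι.range := fun b hb => by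
    obtain ⟨β, -, rfl⟩ := hFR.div b hb
    exact L.pow_mem he H hT β
  have h3 : B.comap L.ι = ⊥ := h _ (fun b hb => mem_Cz.2 fun α hα => L.inj (by
      rw [map_mul, map_mul]
      exact mem_Cz.1 (hB hb) _ ⟨α, hα, rfl⟩))
    (hTw.mono fun l hl => Tower.comap L.ι L.inj hl hle)
  refine (eq_bot_iff_forall _).2 fun b hb => ?_
  obtain ⟨g, rfl⟩ := hle hb
  have : g ∈ B.comap L.ι := hb
  rw [h3, Subgroup.mem_bot] at this
  rw [this, map_one]

end Pool.Agent.Lib.MP_7d7b85_al
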