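import Pool.Agent.Lib.MP_7d7b85_al.Ab
import Pool.Agent.Lib.MP_7d7b85_al.FRk

namespace Pool.Agent.Lib.MP_7d7b85_al

open Subgroup Filter

variable {G : Type} [Group G] {p k : ℕ} {D : Set G}

theorem misc_bd {A : Subgroup G} {x y : G} {q : ℕ} (hx : x ∈ Cz A) (hxq : x ^ q = 1)
    (hyq : y ^ q = 1) (h : x⁻¹ * y ∈ A) : x⁻¹ * y ∈ Om q A := by
  refine ⟨h, ?_⟩
  have hc : Commute x (x⁻¹ * y) := (mem_Cz.1 hx _ h).symm
  have e : y = x * (x⁻¹ * y) := by group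
  have := hc.mul_pow q
  rw [← e, hyq, hxq, one_mul] at this
  exact this.symm

theorem misc_conj_pow (g x : G) (n : ℕ) : (g⁻¹ * x * g) ^ n = g⁻¹ * x ^ n * g := by
  have := conj_pow (a := g⁻¹) (b := x) (i := n)
  simpa using this

/-- A set which is a finite union of translates of finite sets is finite. -/
theorem misc_finite_of_cover {X Φ : Set G} (hΦ : Φ.Finite) (F : G → Set G)
    (hF : ∀ φ ∈ Φ, (F φ).Finite) (h : ∀ x ∈ X, ∃ φ ∈ Φ, φ⁻¹ * x ∈ F φ) : X.Finite := by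
  refine (hΦ.biUnion fun φ hφ => (hF φ hφ).image (φ * ·)).subset fun x hx => ?_
  obtain ⟨φ, hφ, h1⟩ := h x hx
  exact Set.mem_biUnion hφ ⟨_, h1, by simp⟩

/-- Conjugates of `v` centralising `A` and lying in finitely many cosets of `A`. -/
theorem finC (hG : IsPGroup p G) {A : Subgroup G} (hc : Comm A) (hf : (Om p A).Finite) (v : G)
    {V : Set G} (hV : ∀ x ∈ V, IsConj v x ∧ x ∈ Cz A) (h : FinMod A V) : V.Finite := by
  obtain ⟨s, hs⟩ := hG v
  have hp : ∀ x ∈ V, x ^ p ^ s = 1 := fun x hx => by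
    obtain ⟨g, rfl⟩ := isConj_iff.1 (hV x hx).1
    rw [conj_pow, hs]; group
  obtain ⟨Φ, hΦ, hΦV, h⟩ := h.reps
  refine misc_finite_of_cover hΦ (fun _ => Om (p ^ s) A) (fun _ _ => om_pow_finite hc hf s)
    fun x hx => ?_
  obtain ⟨φ, hφ, h1⟩ := h x hx
  exact ⟨φ, hφ, misc_bd (hV φ (hΦV hφ)).2 (hp φ (hΦV hφ)) (hp x hx) h1⟩

/-- Quantitative form of `finC` for one coset. -/
theorem bd {A : Subgroup G} {x y : G} {q : ℕ} (hx : x ∈ Cz A) (hxq : x ^ q = 1) (hyq : y ^ q = 1)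
    (h : x⁻¹ * y ∈ A) : x⁻¹ * y ∈ Om q A :=
  misc_bd hx hxq hyq h

theorem misc_rhoIm_congr {A : Subgroup G} {d e : G} (hd : d ∈ Nz A) (h : d⁻¹ * e ∈ Cz A) :
    rhoIm e A = rhoIm d A := by
  unfold rhoIm
  congr 1
  exact Set.image_congr fun α hα => rho_congr hd h hα

/-- Points of `D` in finitely many cosets of `A` lie in finitely many cosets of towers. -/
theorem dcapA (H : Hyp p k D) {A : Subgroup G} (hA : FR p A) {X : Set G}
    (hX : ∀ x ∈ X, x ∈ D ∧ x ∈ Nz A) (h : FinMod A X) :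
    ∃ Y : Set G, Y.Finite ∧ Y ⊆ X ∧ ∀ x ∈ X, ∃ y ∈ Y, y⁻¹ * x ∈ rhoIm y A := by
  obtain ⟨Φ, hΦ, hΦX, h⟩ := h.reps
  have key : ∀ φ ∈ Φ, FinMod (rhoIm φ A) {x | x ∈ X ∧ φ⁻¹ * x ∈ A} := by
    intro φ hφ
    obtain ⟨hD, hN⟩ := hX φ (hΦX hφ)
    have hT := tower_rhoIm hA.comm hA.div hN (H.pow φ hD)
    have hW := hT.fr H hD
    refine ⟨(φ * ·) '' Om p A, hA.fin.image _, fun x hx => ?_⟩
    obtain ⟨hx, hα⟩ := hx
    obtain ⟨β, hβ, e⟩ := kerN hA.comm hN (H.pow φ hD) hα (by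
      rw [mul_inv_cancel_left]; exact H.pow x (hX x hx).1)
    obtain ⟨γ, hγ, e2⟩ := hW.div _ ((mem_rhoIm hA.comm hN).2 ⟨β, hβ, rfl⟩)
    have hγA : γ ∈ A := rhoIm_le hN hγ
    refine ⟨φ * (φ⁻¹ * x * γ⁻¹), ⟨_, ⟨A.mul_mem hα (A.inv_mem hγA), ?_⟩, rfl⟩, ?_⟩
    · rw [(hA.comm _ hα _ (A.inv_mem hγA)).mul_pow, inv_pow, e2, e, mul_inv_cancel]
    · have : (φ * (φ⁻¹ * x * γ⁻¹))⁻¹ * x = γ := by group
      rw [this]; exact hγ
  choose! Y hY hYX hYc using fun φ hφ => (key φ hφ).reps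
  refine ⟨⋃ φ ∈ Φ, Y φ, hΦ.biUnion hY, ?_, fun x hx => ?_⟩
  · intro y hy
    obtain ⟨φ, hφ, hy⟩ := Set.mem_iUnion₂.1 hy
    exact (hYX φ hφ hy).1
  · obtain ⟨φ, hφ, h1⟩ := h x hx
    obtain ⟨y, hy, h2⟩ := hYc φ hφ x ⟨hx, h1⟩
    refine ⟨y, Set.mem_biUnion hφ hy, ?_⟩
    rw [misc_rhoIm_congr (hX φ (hΦX hφ)).2 (hA.comm.le_Cz (hYX φ hφ hy).2)]
    exact h2

theorem Hyp.not_inj (H : Hyp p k D) {d : G} (hd : d ∈ D) (f : Fin (k + 1) → G)
    (hf : ∀ i, f i ∈ D ∧ Commute d (f i)) : ∃ i j, i ≠ j ∧ f i = f j := by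
  by_contra hne
  have hinj : Function.Injective f := fun i j e => by
    by_contra hij
    exact hne ⟨i, j, hij, e⟩
  have h1 : (Set.range f).encard ≤ k :=
    (Set.encard_le_encard (by rintro _ ⟨i, rfl⟩; exact hf i)).trans (H.bnd d hd)
  rw [← Set.image_univ, hinj.injOn.encard_image, Set.encard_univ] at h1
  simp only [ENat.card_eq_coe_fintype_card, Fintype.card_fin, Nat.cast_le] at h1
  omega

theorem q2 (H : Hyp p k D) {B : Subgroup G} {d : G} (hd : d ∈ D) (T : Tower d B)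
    (f : Fin (k + 1) → G) (hf : ∀ i, f i ∈ D ∧ d⁻¹ * f i ∈ Cz B ∧ rho d (f i) ∈ B) :
    ∃ i j, i ≠ j ∧ (f i)⁻¹ * f j ∈ B := by
  choose β hβ e using fun i => T.surj _ (hf i).2.2
  obtain ⟨i, j, hij, h⟩ := H.not_inj hd (fun i => f i * (β i)⁻¹) fun i => by
    refine ⟨(T.congr (hf i).2.1).mul_mem H (hf i).1 (B.inv_mem (hβ i)), ?_⟩
    have h1 : (β i)⁻¹ * d * β i = (f i)⁻¹ * d * f i := by
      rw [← mul_rho, ← mul_rho, e]
    rw [commute_iff_conj]
    calc (f i * (β i)⁻¹)⁻¹ * d * (f i * (β i)⁻¹) = β i * ((f i)⁻¹ * d * f i) * (β i)⁻¹ := by group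
      _ = d := by rw [← h1]; group
  refine ⟨i, j, hij, ?_⟩
  have : (f i)⁻¹ * f j = (β i)⁻¹ * β j := by
    calc (f i)⁻¹ * f j = (f i)⁻¹ * (f j * (β j)⁻¹) * β j := by group
      _ = (f i)⁻¹ * (f i * (β i)⁻¹) * β j := by rw [show f j * (β j)⁻¹ = f i * (β i)⁻¹ from h.symm]
      _ = (β i)⁻¹ * β j := by group
  rw [this]
  exact B.mul_mem (B.inv_mem (hβ i)) (hβ j)

/-- If `s ^ η = s * β` with `β` commuting with `η` then `s ^ (η ^ n) = s * β ^ n`. -/
theorem misc_conj_iter {s η β : G} (h : η⁻¹ * s * η = s * β) (hc : Commute β η) (n : ℕ) :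
    (η ^ n)⁻¹ * s * η ^ n = s * β ^ n := by
  induction n with
  | zero => simp
  | succ n ih =>
    have h1 : β ^ n * η = η * β ^ n := (hc.pow_left n).eq
    calc (η ^ (n + 1))⁻¹ * s * η ^ (n + 1) = η⁻¹ * ((η ^ n)⁻¹ * s * η ^ n) * η := by
          rw [pow_succ]; group
      _ = η⁻¹ * s * (β ^ n * η) := by rw [ih]; group
      _ = (η⁻¹ * s * η) * β ^ n := by rw [h1]; group
      _ = s * β ^ (n + 1) := by rw [h, pow_succ']; group

/-- Bilinear commutators on a divisible group vanish. -/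
theorem bil (hG : IsPGroup p G) {W Z : Subgroup G} (hW : IsDiv p W) (hWZ : W ≤ Cz Z) {α : G}
    (hα : α ∈ Cz Z) (h : ∀ β ∈ W, rho α β ∈ Z) : α ∈ Cz W := by
  obtain ⟨s, hs⟩ := hG α
  refine mem_Cz.2 fun β hβ => ?_
  obtain ⟨γ, hγ, rfl⟩ := hW.pow s hβ
  have h1 : γ⁻¹ * α * γ = α * rho α γ := (mul_rho α γ).symm
  have h2 := misc_conj_iter h1 (mem_Cz.1 (hWZ hγ) _ (h γ hγ)) (p ^ s)
  have h3 : rho α γ ^ p ^ s = 1 := by
    have h4 := (mem_Cz.1 hα _ (h γ hγ)).symm.mul_pow (p ^ s)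
    rw [← h1, misc_conj_pow, hs] at h4
    simpa using h4.symm
  rw [h3, mul_one] at h2
  exact (commute_iff_conj.2 h2).symm

/-- Dietzmann's lemma. -/
theorem dietzmann (hp : p.Prime) (hG : IsPGroup p G) {X : Set G} (hX : X.Finite)
    (h : ∀ x ∈ X, ∀ y ∈ X, y⁻¹ * x * y ∈ X) : ((closure X : Subgroup G) : Set G).Finite := by
  have hcl : ∀ g ∈ closure X, ∀ x ∈ X, g⁻¹ * x * g ∈ X := by
    intro g hg
    induction hg using closure_induction with
    | mem y hy => exact fun x hx => h x hx y hy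
    | one => simp
    | mul a b _ _ ha hb =>
      intro x hx
      have := hb _ (ha x hx)
      convert this using 1
      group
    | inv a _ ha =>
      have key : ∀ n : ℕ, ∀ x ∈ X, (a ^ n)⁻¹ * x * a ^ n ∈ X := by
        intro n
        induction n with
        | zero => simp
        | succ n ih =>
          intro x hx
          have := ha _ (ih x hx)
          convert this using 1
          rw [pow_succ]; group
      obtain ⟨s, hs⟩ := hG a
      have h1 : a ^ (p ^ s - 1) = a⁻¹ := by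
        rw [eq_inv_iff_mul_eq_one, ← pow_succ, Nat.sub_add_cancel (Nat.one_le_pow _ _ hp.pos), hs]
      rw [← h1]
      exact key _
  obtain ⟨M, hM⟩ : ∃ M, M = closure X := ⟨_, rfl⟩
  have hfg : Group.FG M := by
    have := hX.to_subtype
    rw [hM]
    exact Group.closure_finite_fg _
  have hXM : ∀ x ∈ X, x ∈ M := fun x hx => hM ▸ subset_closure hx
  rw [← hM] at hcl ⊢
  have hXf := hX.to_subtype
  have hfi : ∀ x : X, (centralizer ({(⟨x.1, hXM x.1 x.2⟩ : M)} : Set M)).FiniteIndex := by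
    intro x
    refine finiteIndex_of_finite_conj _ ?_
    refine Set.Finite.of_finite_image (f := Subtype.val) (hX.subset ?_) Subtype.val_injective.injOn
    rintro _ ⟨z, hz, rfl⟩
    obtain ⟨g, rfl⟩ := isConj_iff.1 hz
    have := hcl (g⁻¹ : M) (g⁻¹ : M).2 x.1 x.2
    simpa using this
  have hi := finiteIndex_iInf hfi
  have hle : (⨅ x : X, centralizer ({(⟨x.1, hXM x.1 x.2⟩ : M)} : Set M)) ≤ center M := by
    intro c hc
    rw [mem_center_iff]
    intro y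
    apply Subtype.ext
    have hy : M ≤ centralizer ({(c : G)} : Set G) := by
      refine hM.le.trans ((closure_le _).2 fun s hs => ?_)
      have h1 := mem_centralizer_singleton_iff.1 (mem_iInf.1 hc ⟨s, hs⟩)
      exact mem_centralizer_singleton_iff.2 (congrArg Subtype.val h1).symm
    exact (mem_centralizer_iff.1 (hy y.2) c rfl).symm
  have hci : (center M).FiniteIndex := finiteIndex_of_le hle
  have hMp : IsPGroup p M := hG.to_subgroup M
  have hcf : Finite (center M) := by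
    let : CommGroup (center M) := { mul_comm := fun a b => Subtype.ext (mem_center_iff.1 b.2 a) }
    refine CommGroup.finite_of_fg_isMulTorsion _ fun x => ?_
    obtain ⟨k, hk⟩ := (hMp.to_subgroup (center M)) x
    exact isOfFinOrder_iff_pow_eq_one.2 ⟨p ^ k, pow_pos hp.pos k, hk⟩
  have hMf : Finite M := by
    have : Finite (M ⧸ center M) := Subgroup.finite_quotient_of_finiteIndex
    exact Finite.of_subgroup_quotient (center M)
  exact Set.toFinite _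

/-- Fixed points of a `p`-group on a finite section. -/
theorem fixMod (hp : p.Prime) (hG : IsPGroup p G) {R Q K : Subgroup G}
    (hQ : (Q : Set G).Finite) (hKQ : K < Q) (hRQ : R ≤ Nz Q) (hRK : R ≤ Nz K) :
    ∃ q ∈ Q, q ∉ K ∧ ∀ g ∈ R, rho q g ∈ K := by
  have : Fact p.Prime := ⟨hp⟩
  have : Finite Q := hQ.to_subtype
  let act : MulAction R Q :=
    { smul := fun g q => ⟨g * q * g⁻¹, Nz_conj' (hRQ g.2) q.2⟩
      one_smul := fun q => Subtype.ext (by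
        change ((1 : R) : G) * q * ((1 : R) : G)⁻¹ = q
        simp)
      mul_smul := fun g g' q => Subtype.ext (by
        change ((g * g' : R) : G) * q * ((g * g' : R) : G)⁻¹ = g * (g' * q * (g' : G)⁻¹) * (g : G)⁻¹
        simp only [Subgroup.coe_mul]; group) }
  have hsm : ∀ (g : R) (q : Q), ((g • q : Q) : G) = g * q * (g : G)⁻¹ := fun _ _ => rfl
  have qa : MulAction.QuotientAction R (K.subgroupOf Q) := ⟨fun g a a' h => by
    rw [mem_subgroupOf] at h ⊢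
    have := Nz_conj' (hRK g.2) h
    simp only [Subgroup.coe_mul, Subgroup.coe_inv, hsm] at this ⊢
    convert this using 1
    group⟩
  have hdvd : p ∣ Nat.card (Q ⧸ K.subgroupOf Q) := by
    obtain ⟨n, hn⟩ := (hG.to_subgroup Q).index (K.subgroupOf Q)
    change p ∣ (K.subgroupOf Q).index
    rw [hn]
    refine dvd_pow_self p fun h0 => ?_
    rw [h0, pow_zero, index_eq_one, subgroupOf_eq_top] at hn
    exact hKQ.not_ge hn
  obtain ⟨b, hb, hne⟩ := (hG.to_subgroup R).exists_fixed_point_of_prime_dvd_card_of_fixed_point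
    (Q ⧸ K.subgroupOf Q) hdvd (a := ((1 : Q) : Q ⧸ K.subgroupOf Q)) (fun g => by
      rw [MulAction.Quotient.smul_coe]
      congr 1
      exact Subtype.ext (by rw [hsm]; simp))
  obtain ⟨q, rfl⟩ := QuotientGroup.mk_surjective b
  refine ⟨q, q.2, fun hq => hne (QuotientGroup.eq.2 ?_), fun g hg => ?_⟩
  · rw [mem_subgroupOf]; simpa using hq
  · have h1 := hb (⟨g, hg⟩ : R)⁻¹
    rw [MulAction.Quotient.smul_coe] at h1
    have h2 := QuotientGroup.eq.1 h1.symm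
    rw [mem_subgroupOf] at h2
    simp only [Subgroup.coe_mul, Subgroup.coe_inv, hsm, inv_inv] at h2
    exact h2

theorem misc_rho_map {G' : Type} [Group G'] (f : G →* G') (d x : G) :
    f (rho d x) = rho (f d) (f x) := by
  simp [rho]

theorem misc_rho_mem {A B : Subgroup G} {x d : G} (hx : x ∈ A) (hd : d ∈ B) :
    rho d x ∈ ⁅A, B⁆ := by
  have := (⁅A, B⁆ : Subgroup G).inv_mem
    (commutator_mem_commutator (A.inv_mem hx) (B.inv_mem hd))
  convert this using 1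
  simp only [rho, commutatorElement_def]; group

theorem misc_lcs_nil [hN : Group.IsNilpotent G] {S : Set G} (hS : closure S = ⊤) :
    (∀ s ∈ S, ∀ s' ∈ S, rho s s' = 1) ∨
      ∃ d ∈ S, ∃ x, (x ∈ ⁅(⊤ : Subgroup G), (⊤ : Subgroup G)⁆ ∨ x ∈ S) ∧ rho d x ≠ 1 ∧
        ∀ g, rho (rho d x) g = 1 := by
  classical
  by_cases h0 : ∀ s ∈ S, ∀ s' ∈ S, rho s s' = 1
  · exact Or.inl h0
  right
  push Not at h0
  obtain ⟨s, hs, s', hs', hss⟩ := h0
  have cen : ∀ n, (⊤ : Subgroup G).lowerCentralSeries (n + 1) = ⊥ →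
      ∀ z ∈ (⊤ : Subgroup G).lowerCentralSeries n, ∀ g, rho z g = 1 := by
    intro n hn z hz g
    rw [Subgroup.lowerCentralSeries_succ, commutator_eq_bot_iff_le_centralizer] at hn
    exact rho_eq_one_iff.2 (mem_centralizer_iff.1 (hn hz) g trivial).symm
  by_cases h2 : (⊤ : Subgroup G).lowerCentralSeries 2 = ⊥
  · exact ⟨s, hs, s', Or.inr hs', hss, cen 1 h2 _ (misc_rho_mem trivial trivial)⟩
  have hex : ∃ n, (⊤ : Subgroup G).lowerCentralSeries (n + 3) = ⊥ := by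
    obtain ⟨n, hn⟩ := Subgroup.nilpotent_iff_lowerCentralSeries.1 hN
    exact ⟨n, eq_bot_iff.2 (hn ▸ Subgroup.lowerCentralSeries_antitone _ (Nat.le_add_right n 3))⟩
  have h3 := Nat.find_spec hex
  have h4 : (⊤ : Subgroup G).lowerCentralSeries (Nat.find hex + 2) ≠ ⊥ := by
    cases hj : Nat.find hex with
    | zero => exact h2
    | succ j => exact Nat.find_min hex (m := j) (by omega)
  generalize Nat.find hex = j at h3 h4
  have h5 : ∃ d ∈ S, ∃ x ∈ (⊤ : Subgroup G).lowerCentralSeries (j + 1), rho d x ≠ 1 := by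
    by_contra hne
    push Not at hne
    apply h4
    rw [Subgroup.lowerCentralSeries_succ, commutator_eq_bot_iff_le_centralizer, le_centralizer_iff]
    nth_rewrite 1 [← hS]
    exact (closure_le _).2 fun d hd => mem_centralizer_iff.2 fun x hx =>
      (rho_eq_one_iff.1 (hne d hd x hx)).symm
  obtain ⟨d, hd, x, hx, hne⟩ := h5
  exact ⟨d, hd, x, Or.inl (Subgroup.lowerCentralSeries_antitone ⊤ (show 1 ≤ j + 1 by omega) hx), hne,
    cen (j + 2) h3 _ (misc_rho_mem hx trivial)⟩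

/-- A central direction in a group which is a finite `p`-group modulo `C`. -/
theorem lcs_dir (hp : p.Prime) (hG : IsPGroup p G) {S : Set G} {C : Subgroup G}
    (hn : closure S ≤ Nz C) (hf : FinMod C (closure S : Subgroup G)) :
    (∀ s ∈ S, ∀ s' ∈ S, rho s s' ∈ C) ∨
      ∃ d ∈ S, ∃ x, (x ∈ ⁅closure S, closure S⁆ ∨ x ∈ S) ∧ rho d x ∉ C ∧
        ∀ g ∈ closure S, rho (rho d x) g ∈ C := by
  have : Fact p.Prime := ⟨hp⟩
  have hcl : closure ((closure S).subtype ⁻¹' S) = ⊤ := closure_preimage_eq_top S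
  have hSP : ∀ s ∈ S, s ∈ closure S := fun s hs => subset_closure hs
  generalize closure S = P at *
  have hN : (C.subgroupOf P).Normal := ⟨fun x hx g => Nz_conj' (A := C) (hn g.2) hx⟩
  have hfi : (C.subgroupOf P).FiniteIndex := ⟨finMod_iff_relIndex.1 hf⟩
  have : Finite (P ⧸ C.subgroupOf P) := Subgroup.finite_quotient_of_finiteIndex
  have : Group.IsNilpotent (P ⧸ C.subgroupOf P) :=
    ((hG.to_subgroup P).to_quotient (C.subgroupOf P)).isNilpotent
  obtain ⟨π, hπ⟩ : ∃ π, π = QuotientGroup.mk' (C.subgroupOf P) := ⟨_, rfl⟩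
  have hsurj : Function.Surjective π := hπ ▸ QuotientGroup.mk'_surjective _
  have hker : ∀ x : P, π x = 1 ↔ (x : G) ∈ C := fun x => by
    rw [hπ, QuotientGroup.mk'_apply, QuotientGroup.eq_one_iff, mem_subgroupOf]
  have hrho : ∀ d x : P, ((rho d x : P) : G) = rho (d : G) x := fun d x =>
    misc_rho_map P.subtype d x
  have htop : closure (π '' (P.subtype ⁻¹' S)) = ⊤ := by
    rw [← MonoidHom.map_closure, hcl, map_top_of_surjective _ hsurj]
  rcases misc_lcs_nil htop with h | ⟨_, ⟨d, hd, rfl⟩, x, hx, hne, hc⟩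
  · left
    intro s hs s' hs'
    have := h _ ⟨⟨s, hSP s hs⟩, hs, rfl⟩ _ ⟨⟨s', hSP s' hs'⟩, hs', rfl⟩
    rw [← misc_rho_map, hker, hrho] at this
    exact this
  · right
    have hx' : ∃ y : P, π y = x ∧ ((y : G) ∈ ⁅P, P⁆ ∨ (y : G) ∈ S) := by
      rcases hx with hx | ⟨y, hy, rfl⟩
      · rw [← map_top_of_surjective _ hsurj, ← map_commutator] at hx
        obtain ⟨y, hy, rfl⟩ := hx
        refine ⟨y, rfl, Or.inl ?_⟩
        have h1 : P.subtype y ∈ (⁅(⊤ : Subgroup P), (⊤ : Subgroup P)⁆ : Subgroup P).map P.subtype :=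
          mem_map_of_mem _ hy
        rwa [map_commutator, ← MonoidHom.range_eq_map, range_subtype] at h1
      · exact ⟨y, rfl, Or.inr hy⟩
    obtain ⟨y, rfl, hy⟩ := hx'
    refine ⟨d, hd, y, hy, fun h => hne ?_, fun g hg => ?_⟩
    · rw [← misc_rho_map, hker, hrho]; exact h
    · have := hc (π ⟨g, hg⟩)
      rw [← misc_rho_map, ← misc_rho_map, hker, hrho, hrho] at this
      exact this

theorem misc_heis1 {u v w : G} (h : v * u = u * v * w) (h2 : Commute w v) (n : ℕ) :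
    v ^ n * u = u * v ^ n * w ^ n := by
  induction n with
  | zero => simp
  | succ n ih =>
    have h3 : w * v ^ n = v ^ n * w := (h2.pow_right n).eq
    calc v ^ (n + 1) * u = v * (v ^ n * u) := by rw [pow_succ']; group
      _ = (v * u) * v ^ n * w ^ n := by rw [ih]; group
      _ = u * v * (w * v ^ n) * w ^ n := by rw [h]; group
      _ = u * v ^ (n + 1) * w ^ (n + 1) := by rw [h3, pow_succ', pow_succ']; group

theorem misc_heis2 {u v w : G} (h : v * u = u * v * w) (h1 : Commute w u) (n : ℕ) :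
    v * u ^ n = u ^ n * v * w ^ n := by
  induction n with
  | zero => simp
  | succ n ih =>
    have h3 : w ^ n * u = u * w ^ n := (h1.pow_left n).eq
    calc v * u ^ (n + 1) = (v * u ^ n) * u := by rw [pow_succ]; group
      _ = u ^ n * v * (w ^ n * u) := by rw [ih]; group
      _ = u ^ n * (v * u) * w ^ n := by rw [h3]; group
      _ = u ^ (n + 1) * v * w ^ (n + 1) := by rw [h, pow_succ, pow_succ']; group

theorem misc_heis3 {u v w : G} (h : v * u = u * v * w) (h1 : Commute w u) (h2 : Commute w v)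
    (n : ℕ) : (u * v) ^ n = u ^ n * v ^ n * w ^ n.choose 2 := by
  induction n with
  | zero => simp
  | succ n ih =>
    have h3 : w ^ n.choose 2 * (u * v) = (u * v) * w ^ n.choose 2 :=
      ((h1.mul_right h2).pow_left _).eq
    have h4 : w ^ n * v = v * w ^ n := (h2.pow_left n).eq
    have h5 : (n + 1).choose 2 = n + n.choose 2 := by
      rw [Nat.choose_succ_succ' n 1, Nat.choose_one_right]
    calc (u * v) ^ (n + 1) = u ^ n * v ^ n * (w ^ n.choose 2 * (u * v)) := by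
          rw [pow_succ, ih]; group
      _ = u ^ n * (v ^ n * u) * v * w ^ n.choose 2 := by rw [h3]; group
      _ = u ^ n * u * v ^ n * (w ^ n * v) * w ^ n.choose 2 := by rw [misc_heis1 h h2]; group
      _ = u ^ (n + 1) * v ^ (n + 1) * w ^ (n + 1).choose 2 := by
          rw [h4, h5, pow_add w, pow_succ, pow_succ]; simp only [mul_assoc]

theorem cls2 (hp : p.Prime) (hodd : p ≠ 2) {e e' c : G} (he : e ^ p = 1) (he' : e' ^ p = 1)
    (h : e'⁻¹ * e * e' = e * c) (h1 : Commute c e) (h2 : Commute c e') (j : ℕ) :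
    ((e ^ j)⁻¹ * e' ^ j) ^ p = 1 := by
  have hc : c ^ p = 1 := by
    have h4 := h1.symm.mul_pow p
    rw [← h, misc_conj_pow, he] at h4
    simpa using h4.symm
  have h3 : e' * e⁻¹ = e⁻¹ * e' * c := by
    calc e' * e⁻¹ = e⁻¹ * e' * (e'⁻¹ * e * e') * e⁻¹ := by group
      _ = e⁻¹ * e' * (e * c) * e⁻¹ := by rw [h]
      _ = e⁻¹ * e' * (c * e) * e⁻¹ := by rw [h1.eq]
      _ = e⁻¹ * e' * c := by group
  have h4 := misc_heis1 h3 h2 j
  have h5 := misc_heis2 h4 (h1.inv_right.pow_left j) j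
  have h6 := misc_heis3 h5 (((h1.inv_right.pow_left j).pow_left j).pow_right j)
    (((h2.pow_left j).pow_left j).pow_right j) p
  obtain ⟨m, hm⟩ := hp.dvd_choose_self two_ne_zero (lt_of_le_of_ne hp.two_le (Ne.symm hodd))
  rw [← inv_pow, h6, hm, ← pow_mul, ← pow_mul, ← pow_mul, ← pow_mul, mul_comm j p, pow_mul,
    pow_mul, inv_pow, he, he', show j * (j * (p * m)) = p * (j * j * m) by ring, pow_mul, hc]
  simp

/-- An ultrafilter containing no coset of a subgroup of infinite index. -/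
theorem exists_NG (W : Subgroup G) : ∃ r : Ultrafilter G, (∀ᶠ x in r, x ∈ W) ∧
    ∀ (X : Subgroup G) (g : G), (∀ᶠ x in r, g⁻¹ * x ∈ X) → FinMod X W := by
  classical
  let F : Filter G :=
    { sets := {U | ∃ t : Finset (Subgroup G × G), (∀ q ∈ t, ¬ FinMod q.1 W) ∧
        ∀ x ∈ W, x ∉ U → ∃ q ∈ t, q.2⁻¹ * x ∈ q.1}
      univ_sets := ⟨∅, by simp, by simp⟩
      sets_of_superset := fun ⟨t, h1, h2⟩ hUV => ⟨t, h1, fun x hx hV => h2 x hx fun hU => hV (hUV hU)⟩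
      inter_sets := fun {U V} ⟨t, h1, h2⟩ ⟨t', h1', h2'⟩ => ⟨t ∪ t', fun q hq => by
        rcases Finset.mem_union.1 hq with hq | hq
        exacts [h1 q hq, h1' q hq], fun x hx hUV => by
        by_cases hU : x ∈ U
        · obtain ⟨q, hq, h⟩ := h2' x hx fun hV => hUV ⟨hU, hV⟩
          exact ⟨q, Finset.mem_union_right _ hq, h⟩
        · obtain ⟨q, hq, h⟩ := h2 x hx hU
          exact ⟨q, Finset.mem_union_left _ hq, h⟩⟩ }
  have hF : F.NeBot := by
    refine ⟨fun h0 => ?_⟩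
    obtain ⟨t, h1, h2⟩ : (∅ : Set G) ∈ F := empty_mem_iff_bot.2 h0
    let w : Subgroup G × G → W := fun q =>
      if hq : ∃ x : W, q.2⁻¹ * x ∈ q.1 then hq.choose else 1
    obtain ⟨q, hq, hfi⟩ := exists_finiteIndex_of_leftCoset_cover (s := t)
      (H := fun q => q.1.subgroupOf W) (g := w) (by
        refine Set.eq_univ_of_forall fun x => ?_
        obtain ⟨q, hq, h⟩ := h2 x x.2 (Set.notMem_empty _)
        refine Set.mem_biUnion (x := q) hq ?_
        have hex : ∃ x : W, q.2⁻¹ * x ∈ q.1 := ⟨x, h⟩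
        rw [mem_leftCoset_iff, SetLike.mem_coe, mem_subgroupOf]
        simp only [w, dif_pos hex, Subgroup.coe_mul, Subgroup.coe_inv]
        have := q.1.mul_mem (q.1.inv_mem hex.choose_spec) h
        convert this using 1
        group)
    exact h1 q hq (finMod_iff_relIndex.2 hfi.index_ne_zero)
  refine ⟨Ultrafilter.of F, Ultrafilter.of_le F ⟨∅, by simp, fun x hx h => (h hx).elim⟩,
    fun X g h => ?_⟩
  by_contra hX
  have h2 : ∀ᶠ x in Ultrafilter.of F, g⁻¹ * x ∉ X :=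
    Ultrafilter.of_le F ⟨{(X, g)}, by simpa using hX, fun x _ h => ⟨(X, g), by simp, not_not.1 h⟩⟩
  obtain ⟨x, h3, h4⟩ := (h.and h2).exists
  exact h4 h3

theorem seq_of_step {α β : Type} (Q : α → Prop) (R : α → β → α → Prop) (s₀ : α) (h₀ : Q s₀)
    (h : ∀ s, Q s → ∃ x s', Q s' ∧ R s x s') :
    ∃ (S : ℕ → α) (x : ℕ → β), S 0 = s₀ ∧ ∀ i, Q (S i) ∧ R (S i) (x i) (S (i + 1)) := by
  choose f g hg hR using h
  let T : ℕ → {s // Q s} := fun n =>
    Nat.rec ⟨s₀, h₀⟩ (fun _ s => ⟨g s.1 s.2, hg s.1 s.2⟩) n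
  exact ⟨fun n => (T n).1, fun n => f (T n).1 (T n).2, rfl,
    fun i => ⟨(T i).2, hR (T i).1 (T i).2⟩⟩

open Pointwise in
theorem misc_mul_pow {Γ : Subgroup G} {e u : G} (he : e ∈ Γ) (n : ℕ) :
    (e ^ n)⁻¹ * (e * u) ^ n ∈ (orb u Γ) ^ n := by
  induction n with
  | zero => simp
  | succ n ih =>
    rw [pow_succ' (orb u Γ)]
    refine ⟨(e ^ n)⁻¹ * u * e ^ n, ⟨e ^ n, Γ.pow_mem he n, rfl⟩, _, ih, ?_⟩
    beta_reduce
    rw [pow_succ' e, pow_succ' (e * u)]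
    generalize (e * u) ^ n = w
    group

open Pointwise in
theorem misc_pow_finite {X : Set G} (hX : X.Finite) (n : ℕ) : (X ^ n).Finite := by
  induction n with
  | zero => simp
  | succ n ih => rw [pow_succ]; exact ih.mul hX

theorem misc_root_finite {A : Subgroup G} (hc : Comm A) (hf : (Om p A).Finite) {Y : Set G}
    (hY : Y.Finite) : {β | β ∈ A ∧ β ^ p ∈ Y}.Finite := by
  refine (hY.biUnion (t := fun y => {β | β ∈ A ∧ β ^ p = y}) fun y _ => ?_).subset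
    fun β hβ => Set.mem_biUnion hβ.2 ⟨hβ.1, rfl⟩
  rcases Set.eq_empty_or_nonempty {β | β ∈ A ∧ β ^ p = y} with h | ⟨β₀, h0, e0⟩
  · rw [h]; exact Set.finite_empty
  · refine (hf.image (β₀ * ·)).subset fun β hβ => ⟨β₀⁻¹ * β, ⟨A.mul_mem (A.inv_mem h0) hβ.1, ?_⟩, by simp⟩
    rw [(hc _ (A.inv_mem h0) _ hβ.1).mul_pow, inv_pow, e0, hβ.2, inv_mul_cancel]

open Pointwise in
/-- `Align0`. -/
theorem align0 (H : Hyp p k D) {Γ A : Subgroup G} (hA : FR p A) (hAΓ : A ≤ Γ) (hΓ : Γ ≤ Nz A)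
    {y : G} (hy : y ∈ Γ) (h : FinMod A (orb y Γ)) :
    (orb y {e | e ∈ Γ ∧ e ∈ Cz A ∧ e ^ p = 1}).Finite := by
  have hyΓ : ∀ x ∈ orb y Γ, x ∈ Γ := by
    rintro _ ⟨g, hg, rfl⟩
    exact Γ.mul_mem (Γ.mul_mem (Γ.inv_mem hg) hy) hg
  have hq : FinMod A {z | ∃ x ∈ orb y Γ, ∃ x' ∈ orb y Γ, z = x⁻¹ * x'} := by
    obtain ⟨Φ, hΦ, hΦX, h⟩ := h.reps
    refine ⟨Φ⁻¹ * Φ, hΦ.inv.mul hΦ, ?_⟩
    rintro _ ⟨x, hx, x', hx', rfl⟩
    obtain ⟨φ, hφ, h1⟩ := h x hx
    obtain ⟨φ', hφ', h2⟩ := h x' hx'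
    refine ⟨φ⁻¹ * φ', Set.mul_mem_mul (Set.inv_mem_inv.2 hφ) hφ', ?_⟩
    have h3 := Nz_conj (hΓ (Γ.mul_mem (Γ.inv_mem (hyΓ φ (hΦX hφ))) (hyΓ φ' (hΦX hφ'))))
      (A.inv_mem h1)
    have := A.mul_mem h3 h2
    convert this using 1
    group
  have hv : ∀ e ∈ Cz A, rho y e ∈ Cz A := fun e he => rho_mem_of_Nz (Nz_Cz (hΓ hy)) he
  obtain ⟨Φ, hΦ, hΦX, h⟩ := (h.mono (X := orb y {e | e ∈ Γ ∧ e ∈ Cz A ∧ e ^ p = 1})
    (by rintro _ ⟨e, he, rfl⟩; exact ⟨e, he.1, rfl⟩)).reps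
  refine misc_finite_of_cover hΦ (fun φ => {β | β ∈ A ∧ β ^ p ∈ (orb (φ⁻¹ * y) Γ) ^ p})
    (fun φ hφ => misc_root_finite hA.comm hA.fin (misc_pow_finite ?_ p)) fun x hx => ?_
  · obtain ⟨e₀, he₀, rfl⟩ := hΦX hφ
    refine finC H.pgrp hA.comm hA.fin ((e₀⁻¹ * y * e₀)⁻¹ * y) ?_ (hq.mono ?_)
    · rintro _ ⟨g, hg, rfl⟩
      refine ⟨isConj_iff.2 ⟨g⁻¹, by rw [inv_inv]⟩, Nz_conj (Nz_Cz (hΓ hg)) ?_⟩
      have := (Cz A).inv_mem (hv e₀ he₀.2.1)
      convert this using 1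
      simp only [rho]; group
    · rintro _ ⟨g, hg, rfl⟩
      exact ⟨(e₀ * g)⁻¹ * y * (e₀ * g), ⟨_, Γ.mul_mem he₀.1 hg, rfl⟩, g⁻¹ * y * g, ⟨g, hg, rfl⟩,
        by group⟩
  · obtain ⟨φ, hφ, h1⟩ := h x hx
    refine ⟨φ, hφ, h1, ?_⟩
    obtain ⟨e₀, he₀, rfl⟩ := hΦX hφ
    obtain ⟨e, he, rfl⟩ := hx
    have hu : (e₀⁻¹ * y * e₀)⁻¹ * y ∈ Cz A := by
      have := (Cz A).inv_mem (hv e₀ he₀.2.1)
      convert this using 1
      simp only [rho]; group
    obtain ⟨u, hu'⟩ : ∃ u, u = (e₀⁻¹ * y * e₀)⁻¹ * y := ⟨_, rfl⟩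
    obtain ⟨β, hβ⟩ : ∃ β, β = (e₀⁻¹ * y * e₀)⁻¹ * (e⁻¹ * y * e) := ⟨_, rfl⟩
    have e1 : y⁻¹ * e * y = e * (β⁻¹ * u) := by rw [hu', hβ]; group
    rw [← hu'] at hu ⊢
    rw [← hβ] at h1 ⊢
    have c1 : Commute β⁻¹ u := mem_Cz.1 hu _ (A.inv_mem h1)
    have c2 : Commute β⁻¹ (e * u) := mem_Cz.1 ((Cz A).mul_mem he.2.1 hu) _ (A.inv_mem h1)
    have e2 : (e * u) ^ p * (β ^ p)⁻¹ = 1 := by
      rw [← inv_pow, ← c2.symm.mul_pow, mul_assoc, ← c1.eq, ← e1, misc_conj_pow, he.2.2]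
      simp
    have := misc_mul_pow (u := u) he.1 p
    rw [he.2.2, inv_one, one_mul, mul_inv_eq_one.1 e2] at this
    exact this

theorem misc_evC {I : Type} (r : Ultrafilter I) (θ : I → G) {s : G} {X : Set G}
    (hX : X.Finite) (hs : ∀ᶠ l in r, (θ l)⁻¹ * s * θ l ∈ X) : EvC r θ s := by
  obtain ⟨y, -, h⟩ := ultra_fin r hX _ hs
  exact ⟨y, h⟩

/-- `ConstLem`. -/
theorem constLem (hp : p.Prime) (hodd : p ≠ 2) (hG : IsPGroup p G) {A : Subgroup G} (hA : FR p A)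
    {I : Type} (r : Ultrafilter I) (θ : I → G) (hθ : ∀ᶠ l in r, θ l ∈ Nz A) {s : G} {X : Set G}
    (hX : FinMod A X) (hs : ∀ᶠ l in r, (θ l)⁻¹ * s * θ l ∈ X)
    (hη : ∀ᶠ l in r, ∀ᶠ l' in r, ((θ l)⁻¹ * θ l') ^ p = 1) : EvC r θ s := by
  obtain ⟨ψ, hψ⟩ := ultra_finMod r (hA.finMod_Cz hp hodd hG) θ hθ
  obtain ⟨φ, hφ⟩ := ultra_finMod r hX _ hs
  obtain ⟨l, ⟨h1, h2⟩, h3⟩ := ((hψ.and hφ).and hη).exists
  refine misc_evC r θ (hA.fin.image (((θ l)⁻¹ * s * θ l) * ·)) ?_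
  filter_upwards [hψ, hφ, h3] with l' h4 h5 h6
  have hη' : (θ l)⁻¹ * θ l' ∈ Cz A := by
    have := (Cz A).mul_mem ((Cz A).inv_mem h1) h4
    convert this using 1
    group
  have hβ : ((θ l)⁻¹ * s * θ l)⁻¹ * ((θ l')⁻¹ * s * θ l') ∈ A := by
    have := A.mul_mem (A.inv_mem h2) h5
    convert this using 1
    group
  refine ⟨_, ⟨hβ, ?_⟩, mul_inv_cancel_left _ _⟩
  have := misc_conj_iter (s := (θ l)⁻¹ * s * θ l) (η := (θ l)⁻¹ * θ l')
    (β := ((θ l)⁻¹ * s * θ l)⁻¹ * ((θ l')⁻¹ * s * θ l')) (by group) (mem_Cz.1 hη' _ hβ) p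
  rw [h6, inv_one, one_mul, mul_one] at this
  exact left_eq_mul.1 this

theorem evC_of_finite {I : Type} (r : Ultrafilter I) (θ : I → G) {s : G} {X : Set G}
    (hX : X.Finite) (hs : ∀ᶠ l in r, (θ l)⁻¹ * s * θ l ∈ X) : EvC r θ s :=
  misc_evC r θ hX hs

/-- Without common towers most members of the family centralise a given finite rank group. -/
theorem centFR (H : Hyp p k D) {I : Type} {r : Ultrafilter I} {e : I → G} {K A : Subgroup G}
    (h : NoCT r e K) (hA : FR p A) (hAK : A ≤ Cz K) (he : ∀ᶠ l in r, e l ∈ D ∧ e l ∈ Nz A) :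
    ∀ᶠ l in r, e l ∈ Cz A := by
  obtain ⟨ψ, hψ⟩ := ultra_finMod r (hA.finMod_Cz H.prime H.odd H.pgrp) e (he.mono fun _ h => h.2)
  obtain ⟨l, ⟨hD, hN⟩, h1⟩ := (he.and hψ).exists
  have h2 : ∀ᶠ l' in r, (e l)⁻¹ * e l' ∈ Cz A := by
    filter_upwards [hψ] with l' h4
    have := (Cz A).mul_mem ((Cz A).inv_mem h1) h4
    convert this using 1
    group
  have hT := tower_rhoIm hA.comm hA.div hN (H.pow _ hD)
  have hb := h _ ((rhoIm_le hN).trans hAK)
    (h2.mono fun l' h3 => hT.congr (Cz_anti (rhoIm_le hN) h3))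
  have h3 : e l ∈ Cz A := mem_Cz.2 fun α hα => by
    have : rho (e l) α ∈ rhoIm (e l) A := (mem_rhoIm hA.comm hN).2 ⟨α, hα, rfl⟩
    rw [hb, Subgroup.mem_bot] at this
    exact (rho_eq_one_iff.1 this).symm
  filter_upwards [h2] with l' h4
  simpa using (Cz A).mul_mem h3 h4

end Pool.Agent.Lib.MP_7d7b85_al
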