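import Pool.Agent.Lib.MP_7d7b85_al.Basic

/-!
In a nilpotent group an element commuting with only finitely many of its conjugates has only
finitely many conjugates. The proof uses an idempotent ultrafilter.
-/

namespace Pool.Agent.Lib.MP_7d7b85_al

open Subgroup Filter

attribute [local instance] Ultrafilter.mul Ultrafilter.semigroup

/-- An idempotent ultrafilter giving no mass to the left cosets of a subgroup of infinite index. -/
theorem exists_idem {X : Type*} [Group X] (T : Subgroup X) (hT : ¬ T.FiniteIndex) :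
    ∃ q : Ultrafilter X, q * q = q ∧ ∀ c : X ⧸ T, ∀ᶠ x : X in q, (x : X ⧸ T) ≠ c := by
  have hinf : Infinite (X ⧸ T) := by
    by_contra h
    rw [not_infinite_iff_finite] at h
    exact hT (finiteIndex_iff_finite_quotient.2 h)
  have h1 : (⋂ c : X ⧸ T, {q : Ultrafilter X | {x : X | (x : X ⧸ T) ≠ c} ∈ q}).Nonempty := by
    refine ⟨(hyperfilter (X ⧸ T)).map Quotient.out, Set.mem_iInter.2 fun c => ?_⟩
    simp only [Set.mem_ofPred_eq, Ultrafilter.mem_map, Set.preimage_ofPred_eq,
      QuotientGroup.out_eq']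
    exact (Set.finite_singleton c).compl_mem_hyperfilter
  have h2 : IsCompact (⋂ c : X ⧸ T, {q : Ultrafilter X | {x : X | (x : X ⧸ T) ≠ c} ∈ q}) :=
    (isClosed_iInter fun c => ultrafilter_isClosed_basic _).isCompact
  obtain ⟨q, hq, hqq⟩ := exists_idempotent_in_compact_subsemigroup
    (M := Ultrafilter X) Ultrafilter.continuous_mul_left _ h1 h2 (by
      intro q _ q' hq'
      refine Set.mem_iInter.2 fun c => ?_
      change ∀ᶠ x : X in ↑(q * q'), (x : X ⧸ T) ≠ c
      rw [Ultrafilter.eventually_mul]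
      refine Eventually.of_forall fun x => ?_
      have := Set.mem_iInter.1 hq' (x⁻¹ • c)
      filter_upwards [this] with y hy e
      apply hy
      rw [← e]
      change _ = ((x⁻¹ * (x * y) : X) : X ⧸ T)
      simp)
  exact ⟨q, hqq, fun c => Set.mem_iInter.1 hq c⟩

theorem ultra_const {X Y : Type*} (q : Ultrafilter X) {s : Set Y} (hs : s.Finite) (f : X → Y)
    (hf : ∀ᶠ x in q, f x ∈ s) : ∃ y ∈ s, ∀ᶠ x in q, f x = y := by
  have : ∀ᶠ x in q, ∃ y ∈ s, f x = y := hf.mono fun x hx => ⟨_, hx, rfl⟩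
  exact (Ultrafilter.eventually_exists_mem_iff hs).1 this

/-- Recurrence along an idempotent ultrafilter. -/
theorem recurrence {X : Type*} [Group X] (T : Subgroup X) [hT : T.Normal] (D : Set X)
    (hD : D.Finite) (hDT : ∀ d ∈ D, ∀ t ∈ T, t⁻¹ * d * t ∈ D) (q : Ultrafilter X)
    (hq : q * q = q) (j : ℕ) : ∀ y ∈ T, y ∈ Subgroup.upperCentralSeries X j → ∀ d ∈ D,
      ∀ᶠ x in q, (x⁻¹ * y * x)⁻¹ * d * (x⁻¹ * y * x) = y⁻¹ * d * y := by
  induction j with
  | zero =>
    intro y _ hy d _
    rw [Subgroup.upperCentralSeries_zero, Subgroup.mem_bot] at hy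
    simp [hy]
  | succ j ih =>
    intro y hyT hy
    have hc : ∀ x, x⁻¹ * y * x ∈ T := fun x => by simpa using hT.conj_mem y hyT x⁻¹
    have hex : ∀ d ∈ D, ∃ e ∈ D, ∀ᶠ x in q, (x⁻¹ * y * x)⁻¹ * d * (x⁻¹ * y * x) = e :=
      fun d hd => ultra_const q hD _ (Eventually.of_forall fun x => hDT d hd _ (hc x))
    intro d hd
    obtain ⟨e, he, h1⟩ := hex d hd
    have h2 : ∀ᶠ x in q, ∀ᶠ x' in q,
        ((x * x')⁻¹ * y * (x * x'))⁻¹ * d * ((x * x')⁻¹ * y * (x * x')) = e := by
      rw [← Ultrafilter.eventually_mul q q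
        (fun x => (x⁻¹ * y * x)⁻¹ * d * (x⁻¹ * y * x) = e), hq]
      exact h1
    have h3 : ∀ᶠ x in q, (y⁻¹ * (x⁻¹ * y * x))⁻¹ * e * (y⁻¹ * (x⁻¹ * y * x)) = e := by
      filter_upwards [h2] with x hx
      have hw : y⁻¹ * (x⁻¹ * y * x) ∈ Subgroup.upperCentralSeries X j := by
        have := Subgroup.mem_upperCentralSeries_succ_iff.1
          ((Subgroup.upperCentralSeries X (j + 1)).inv_mem hy) x⁻¹
        simpa [commutatorElement_def, mul_assoc] using this
      have h4 := ih _ (T.mul_mem (T.inv_mem hyT) (hc x)) hw e he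
      obtain ⟨x', h5, h6, h7⟩ := (hx.and (h1.and h4)).exists
      calc (y⁻¹ * (x⁻¹ * y * x))⁻¹ * e * (y⁻¹ * (x⁻¹ * y * x))
          = (x'⁻¹ * (y⁻¹ * (x⁻¹ * y * x)) * x')⁻¹ * e * (x'⁻¹ * (y⁻¹ * (x⁻¹ * y * x)) * x') :=
            h7.symm
        _ = (x'⁻¹ * (y⁻¹ * (x⁻¹ * y * x)) * x')⁻¹ * ((x'⁻¹ * y * x')⁻¹ * d * (x'⁻¹ * y * x')) *
            (x'⁻¹ * (y⁻¹ * (x⁻¹ * y * x)) * x') := by rw [h6]
        _ = ((x * x')⁻¹ * y * (x * x'))⁻¹ * d * ((x * x')⁻¹ * y * (x * x')) := by group
        _ = e := h5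
    obtain ⟨x, h5, h6⟩ := (h3.and h1).exists
    have h7 : y * e * y⁻¹ = d := by
      have h8 : (x⁻¹ * y * x)⁻¹ * (y * e * y⁻¹) * (x⁻¹ * y * x) =
          (x⁻¹ * y * x)⁻¹ * d * (x⁻¹ * y * x) := by
        rw [h6]
        conv_rhs => rw [← h5]
        group
      exact mul_left_cancel (mul_right_cancel h8)
    have h9 : e = y⁻¹ * d * y := by rw [← h7]; group
    rwa [← h9]

theorem core {X : Type*} [Group X] [hX : Group.IsNilpotent X] (T : Subgroup X) [hT : T.Normal]
    (a : X) (hC : centralizer ({a} : Set X) ≤ T)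
    (hfin : {d : X | ∃ t ∈ T, d = t⁻¹ * a * t}.Finite)
    (hF : ({x : X | Commute x a} ∩ {x : X | IsConj a x}).Finite) : T.FiniteIndex := by
  by_contra hni
  obtain ⟨q, hq, hnull⟩ := exists_idem T hni
  obtain ⟨c, hc⟩ := hX.nilpotent'
  have haT : a ∈ T := hC (mem_centralizer_singleton_iff.2 rfl)
  have h1 := recurrence T _ hfin (by
    rintro _ ⟨t, ht, rfl⟩ t' ht'
    exact ⟨t * t', T.mul_mem ht ht', by group⟩) q hq c a haT (by rw [hc]; trivial) a
    ⟨1, T.one_mem, by simp⟩
  obtain ⟨f, -, h2⟩ := ultra_const q hF (fun x => x⁻¹ * a * x) (by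
    filter_upwards [h1] with x hx
    refine ⟨?_, isConj_iff.2 ⟨x⁻¹, by simp⟩⟩
    change x⁻¹ * a * x * a = a * (x⁻¹ * a * x)
    calc x⁻¹ * a * x * a = x⁻¹ * a * x * (a⁻¹ * a * a) := by group
      _ = x⁻¹ * a * x * ((x⁻¹ * a * x)⁻¹ * a * (x⁻¹ * a * x)) := by rw [hx]
      _ = a * (x⁻¹ * a * x) := by group)
  obtain ⟨x0, hx0⟩ := h2.exists
  obtain ⟨x, hx, hne⟩ := (h2.and (hnull (QuotientGroup.mk x0))).exists
  apply hne
  refine QuotientGroup.eq.2 ?_
  have h3 : x * x0⁻¹ ∈ T := by
    refine hC (mem_centralizer_singleton_iff.2 ?_)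
    calc x * x0⁻¹ * a = x * (x0⁻¹ * a * x0) * x0⁻¹ := by group
      _ = x * (x⁻¹ * a * x) * x0⁻¹ := by rw [hx0, hx]
      _ = a * (x * x0⁻¹) := by group
  have := hT.conj_mem _ (T.inv_mem h3) x⁻¹
  simpa [mul_assoc] using this

/-- In a nilpotent group, an element commuting with finitely many of its conjugates has finitely
many conjugates. -/
theorem finite_conj_of_nilpotent {N : Type*} [Group N] [hN : Group.IsNilpotent N] (a : N)
    (hF : ({x : N | Commute x a} ∩ {x : N | IsConj a x}).Finite) :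
    {x : N | IsConj a x}.Finite := by
  let H : ℕ → Subgroup N := fun j =>
    centralizer ({a} : Set N) ⊔ Subgroup.upperCentralSeries N j
  have key : ∀ j, (centralizer ({a} : Set N)).relIndex (H j) ≠ 0 := by
    intro j
    induction j with
    | zero =>
      simp [H]
    | succ j ih =>
      have hle : H j ≤ H (j + 1) :=
        sup_le_sup_left (Subgroup.upperCentralSeries_mono N (Nat.le_succ j)) _
      have hCle : centralizer ({a} : Set N) ≤ H j := le_sup_left
      have hnorm : H (j + 1) ≤ normalizer (H j : Set N) := by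
        refine sup_le (le_trans hCle le_normalizer) fun z hz => ?_
        have hz' : ∀ z ∈ Subgroup.upperCentralSeries N (j + 1), ∀ h ∈ H j,
            z * h * z⁻¹ ∈ H j := fun z hz h hh => by
          have h1 : z * h * z⁻¹ * h⁻¹ ∈ H j :=
            (le_sup_right : Subgroup.upperCentralSeries N j ≤ H j)
              (Subgroup.mem_upperCentralSeries_succ_iff.1 hz h)
          have := (H j).mul_mem h1 hh
          simpa using this
        rw [mem_normalizer_iff]
        intro h
        refine ⟨hz' z hz h, fun hh => ?_⟩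
        simpa [mul_assoc] using hz' z⁻¹ (inv_mem hz) _ hh
      have hN' : ((H j).subgroupOf (H (j + 1))).Normal :=
        (normal_subgroupOf_iff_le_normalizer hle).2 hnorm
      let a' : H (j + 1) := ⟨a, hle (hCle (mem_centralizer_singleton_iff.2 rfl))⟩
      have hfi : ((H j).subgroupOf (H (j + 1))).FiniteIndex := by
        refine core _ a' (fun x hx => ?_) ?_ ?_
        · exact hCle (mem_centralizer_singleton_iff.2
            (congrArg Subtype.val (mem_centralizer_singleton_iff.1 hx)))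
        · let a'' : H j := ⟨a, hCle (mem_centralizer_singleton_iff.2 rfl)⟩
          have hfi' : (centralizer ({a''} : Set (H j))).FiniteIndex := by
            have : (centralizer ({a} : Set N)).subgroupOf (H j) =
                centralizer ({a''} : Set (H j)) := by
              ext x
              simp [mem_subgroupOf, mem_centralizer_singleton_iff, Subtype.ext_iff, a'']
            rw [← this]
            exact ⟨ih⟩
          refine Set.Finite.of_finite_image (f := Subtype.val)
            (((finite_conj_of_finiteIndex a'').image Subtype.val).subset ?_)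
            Subtype.val_injective.injOn
          rintro _ ⟨_, ⟨t, ht, rfl⟩, rfl⟩
          exact ⟨(⟨t, ht⟩ : H j)⁻¹ * a'' * ⟨t, ht⟩, isConj_iff.2 ⟨(⟨t, ht⟩ : H j)⁻¹, by simp⟩, rfl⟩
        · refine Set.Finite.of_finite_image (f := Subtype.val) (hF.subset ?_)
            Subtype.val_injective.injOn
          rintro _ ⟨x, ⟨h1, h2⟩, rfl⟩
          exact ⟨congrArg Subtype.val h1, (H (j + 1)).subtype.map_isConj h2⟩
      rw [← relIndex_mul_relIndex _ _ _ hCle hle]
      exact mul_ne_zero ih hfi.1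
  obtain ⟨c, hc⟩ := hN.nilpotent'
  have : (centralizer ({a} : Set N)).FiniteIndex := ⟨by simpa [H, hc] using key c⟩
  exact finite_conj_of_finiteIndex a

end Pool.Agent.Lib.MP_7d7b85_al
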