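import Pool.Agent.Lib.MP_7d7b85_al.COl

namespace Pool.Agent.Lib.MP_7d7b85_al

open Subgroup Filter

variable {G : Type} [Group G] {p k : ℕ} {D : Set G}

/-- Elements normalising `B` and commuting with the action of `a` on `B`. -/
def QH (a : G) (B : Subgroup G) : Subgroup G where
  carrier := {h | h ∈ Nz B ∧ rho a h ∈ Cz B}
  one_mem' := ⟨one_mem _, by simp [rho]⟩
  mul_mem' := fun {h h'} hh hh' => ⟨mul_mem hh.1 hh'.1, by
    have := mul_mem hh'.2 (Nz_conj (Nz_Cz hh'.1) hh.2)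
    convert this using 1
    unfold rho; group⟩
  inv_mem' := fun {h} hh => ⟨inv_mem hh.1, by
    have := Nz_conj' (Nz_Cz hh.1) (inv_mem hh.2)
    convert this using 1
    unfold rho; group⟩

instance QH_normal (a : G) (B : Subgroup G) : (B.subgroupOf (QH a B)).Normal :=
  ⟨fun x hx g => Nz_conj' (A := B) (g := (g : G)) (h := (x : G)) g.2.1 hx⟩

/-- The quotient by a tower. -/
abbrev QG (a : G) (B : Subgroup G) : Type := QH a B ⧸ B.subgroupOf (QH a B)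

/-- The quotient map. -/
abbrev Qmk (a : G) (B : Subgroup G) : QH a B →* QG a B := QuotientGroup.mk' _

/-- The points of the quotient. -/
def QD (D : Set G) (a : G) (B : Subgroup G) : Set (QG a B) :=
  Qmk a B '' {d | (d : G) ∈ D ∧ a⁻¹ * d ∈ Cz B}

theorem mem_QH_of_Cz {a h : G} {B : Subgroup G} (ha : a ∈ Nz B) (hh : h ∈ Cz B) :
    h ∈ QH a B := by
  refine ⟨Cz_le_Nz B hh, ?_⟩
  have := mul_mem (Nz_conj (Nz_Cz ha) (inv_mem hh)) hh
  convert this using 1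
  unfold rho; group

theorem mem_QH_of_pure {a h : G} {B : Subgroup G} (ha : a ∈ Nz B) (hh : a⁻¹ * h ∈ Cz B) :
    h ∈ QH a B := by
  have h1 : a ∈ QH a B := ⟨ha, by simp [rho]⟩
  simpa using mul_mem h1 (mem_QH_of_Cz ha hh)

theorem quot_map_rho {G' : Type} [Group G'] (f : G →* G') (d y : G) :
    f (rho d y) = rho (f d) (f y) := by
  simp [rho]

theorem quot_coe_rho {L : Subgroup G} (d y : L) : ((rho d y : L) : G) = rho (d : G) y := rfl

theorem quot_mk_eq {a : G} {B : Subgroup G} {x y : QH a B} :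
    Qmk a B x = Qmk a B y ↔ (x : G)⁻¹ * y ∈ B :=
  QuotientGroup.eq

theorem quot_mk_eq_one {a : G} {B : Subgroup G} {x : QH a B} :
    Qmk a B x = 1 ↔ (x : G) ∈ B :=
  QuotientGroup.eq_one_iff x

theorem quot_pure_conj {a : G} {B : Subgroup G} {d : G} (hd : a⁻¹ * d ∈ Cz B) (g : QH a B) :
    a⁻¹ * ((g : G)⁻¹ * d * g) ∈ Cz B := by
  have := mul_mem g.2.2 (Nz_conj (Nz_Cz g.2.1) hd)
  convert this using 1
  unfold rho; group

theorem quot_rho_cent {a : G} {B : Subgroup G} {y : G} (hy : a⁻¹ * y ∈ Cz B) (g : QH a B) :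
    rho y g ∈ Cz B := by
  have := mul_mem (inv_mem hy) (quot_pure_conj hy g)
  convert this using 1
  unfold rho; group

theorem quot_encard_val {L : Subgroup G} (S : Set G) :
    ((Subtype.val : L → G) ⁻¹' S).encard ≤ S.encard := by
  rw [← Subtype.val_injective.encard_image]
  exact Set.encard_le_encard (Set.image_preimage_subset _ _)

theorem quot_hyp_of_bnd (H : Hyp p k D) {a : G} {B : Subgroup G} {k' : ℕ}
    (hb : ∀ d ∈ QD D a B, (QD D a B ∩ {e | Commute d e}).encard ≤ k') :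
    Hyp p k' (QD D a B) where
  prime := H.prime
  odd := H.odd
  pgrp := (H.pgrp.to_subgroup _).to_quotient _
  conj := by
    rintro _ ⟨d, hd, rfl⟩ g
    obtain ⟨g, rfl⟩ := QuotientGroup.mk'_surjective _ g
    exact ⟨g⁻¹ * d * g, ⟨H.conj d hd.1 g, quot_pure_conj hd.2 g⟩, by simp⟩
  pow := by
    rintro _ ⟨d, hd, rfl⟩
    rw [← map_pow]
    have : d ^ p = 1 := Subtype.ext (H.pow d hd.1)
    rw [this, map_one]
  fin := by
    rintro _ ⟨d, hd, rfl⟩ _ ⟨e, he, rfl⟩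
    rw [← Set.image_pair, ← MonoidHom.map_closure, coe_map]
    refine Set.Finite.image _ ?_
    refine Set.Finite.of_finite_image (f := (QH a B).subtype) ?_
      (QH a B).subtype_injective.injOn
    rw [← coe_map, MonoidHom.map_closure, Set.image_pair]
    exact H.fin d hd.1 e he.1
  bnd := hb

theorem quot_lift (H : Hyp p k D) {a : G} {B : Subgroup G} (T : Tower a B) {d : QH a B}
    (_hd : (d : G) ∈ D) (hd' : a⁻¹ * d ∈ Cz B) :
    QD D a B ∩ {e | Commute (Qmk a B d) e} ⊆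
      Qmk a B '' (Subtype.val ⁻¹' (D ∩ {e | Commute (d : G) e})) := by
  rintro _ ⟨⟨e, he, rfl⟩, hc⟩
  have h1 : rho (d : G) e ∈ B := by
    rw [← quot_coe_rho, ← quot_mk_eq_one, quot_map_rho]
    exact rho_eq_one_iff.2 hc
  obtain ⟨β, hβ, h2⟩ := (T.congr hd').surj _ h1
  have hβ' : β ∈ QH a B := mem_QH_of_Cz T.norm (T.comm.le_Cz hβ)
  refine ⟨e * (⟨β, hβ'⟩ : QH a B)⁻¹, ⟨(T.congr he.2).mul_mem H he.1 (inv_mem hβ), ?_⟩, ?_⟩
  · change Commute (d : G) (e * β⁻¹)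
    rw [← rho_eq_one_iff]
    have h3 : rho (d : G) (e * β⁻¹) = (d : G)⁻¹ * β * d * rho (d : G) e * β⁻¹ := by
      unfold rho; group
    rw [h3, ← h2]
    unfold rho; group
  · rw [map_mul, map_inv, (quot_mk_eq_one (x := ⟨β, hβ'⟩)).2 hβ, inv_one, mul_one]

theorem quot_hyp (H : Hyp p k D) {a : G} {B : Subgroup G} (T : Tower a B) :
    Hyp p k (QD D a B) := by
  refine quot_hyp_of_bnd H ?_
  rintro _ ⟨d, hd, rfl⟩
  exact ((Set.encard_le_encard (quot_lift H T hd.1 hd.2)).trans (Set.encard_image_le _ _)).trans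
    ((quot_encard_val _).trans (H.bnd d hd.1))

theorem quot_hyp' (H : Hyp p k D) {a : G} (ha : a ∈ D) {B : Subgroup G} (T : Tower a B)
    (hB : B ≠ ⊥) : ∃ k' < k, Hyp p k' (QD D a B) := by
  have hk : 1 ≤ k := by
    have h1 : (1 : ℕ∞) ≤ (D ∩ {e | Commute a e}).encard :=
      Set.one_le_encard_iff_nonempty.2 ⟨a, ha, Commute.refl a⟩
    exact_mod_cast h1.trans (H.bnd a ha)
  refine ⟨k - 1, by omega, quot_hyp_of_bnd H ?_⟩
  rintro _ ⟨d, hd, rfl⟩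
  obtain ⟨z, hz, hz1, hzc⟩ := (T.congr hd.2).exists_ker H hd.1 hB
  have hz' : z ∈ QH a B := mem_QH_of_Cz T.norm (T.comm.le_Cz hz)
  let P : Set (QH a B) := Subtype.val ⁻¹' (D ∩ {e | Commute (d : G) e})
  have h1 : d * ⟨z, hz'⟩ ∈ P :=
    ⟨(T.congr hd.2).mul_mem H hd.1 hz, (Commute.refl (d : G)).mul_right hzc⟩
  have h2 : QD D a B ∩ {e | Commute (Qmk a B d) e} ⊆ Qmk a B '' (P \ {d * ⟨z, hz'⟩}) := by
    intro s hs
    obtain ⟨e, he, rfl⟩ := quot_lift H T hd.1 hd.2 hs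
    by_cases h : e = d * ⟨z, hz'⟩
    · refine ⟨d, ⟨⟨hd.1, Commute.refl (d : G)⟩, fun h3 => hz1 ?_⟩, ?_⟩
      · have h4 : (⟨z, hz'⟩ : QH a B) = 1 := left_eq_mul.1 h3
        exact congrArg Subtype.val h4
      · rw [h, map_mul, (quot_mk_eq_one (x := ⟨z, hz'⟩)).2 hz, mul_one]
    · exact ⟨e, ⟨he, h⟩, rfl⟩
  have h3 : (P \ {d * ⟨z, hz'⟩}).encard + 1 ≤ k := by
    rw [Set.encard_sdiff_singleton_add_one h1]
    exact (quot_encard_val _).trans (H.bnd d hd.1)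
  refine ((Set.encard_le_encard h2).trans (Set.encard_image_le _ _)).trans ?_
  obtain ⟨j, rfl⟩ : ∃ j, k = j + 1 := ⟨k - 1, by omega⟩
  rw [Nat.add_sub_cancel]
  push_cast at h3
  exact (WithTop.add_le_add_iff_right WithTop.one_ne_top).1 h3

/-- Two towers centralising a nontrivial tower commute. -/
theorem uq (hP : Prev p k) (H : Hyp p k D) {a : G} (ha : a ∈ D) {C W W' : Subgroup G}
    (TC : Tower a C) (hC : C ≠ ⊥) (T : Tower a W) (T' : Tower a W') (h : W ≤ Cz C)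
    (h' : W' ≤ Cz C) : W ≤ Cz W' := by
  obtain ⟨k', hk, H'⟩ := quot_hyp' H ha TC hC
  have ha0 : a ∈ QH a C := mem_QH_of_pure TC.norm (by simp)
  have ha1 : Qmk a C ⟨a, ha0⟩ ∈ QD D a C := ⟨_, ⟨ha, by simp⟩, rfl⟩
  have key : ∀ V : Subgroup G, Tower a V → V ≤ Cz C →
      Tower (Qmk a C ⟨a, ha0⟩) ((V.comap (QH a C).subtype).map (Qmk a C)) ∧
        (V.comap (QH a C).subtype).map (Qmk a C) ≤ closure (QD D a C) := by
    intro V TV hV
    have T1 : Tower (Qmk a C ⟨a, ha0⟩) ((V.comap (QH a C).subtype).map (Qmk a C)) :=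
      Tower.map _ (Tower.comap (QH a C).subtype (QH a C).subtype_injective (d := ⟨a, ha0⟩) TV
        fun v hv => ⟨⟨v, mem_QH_of_Cz TC.norm (hV hv)⟩, rfl⟩)
    refine ⟨T1, T1.le_of_orb ?_⟩
    rintro _ ⟨g, -, rfl⟩
    exact subset_closure (H'.conj _ ha1 g)
  have h1 := CO.towers_comm H' ha1 (hP k' hk _ _ H' _ ha1) (key W T h).1 (key W' T' h').1
    (key W T h).2 (key W' T' h').2
  intro α hα
  refine bil H.pgrp (T'.fr H ha).div h' (h hα) fun β hβ => ?_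
  have hα' : α ∈ QH a C := mem_QH_of_Cz TC.norm (h hα)
  have hβ' : β ∈ QH a C := mem_QH_of_Cz TC.norm (h' hβ)
  have h2 := mem_Cz.1 (h1 (mem_map_of_mem (Qmk a C) (x := ⟨α, hα'⟩) hα)) _
    (mem_map_of_mem (Qmk a C) (x := ⟨β, hβ'⟩) hβ)
  have h3 := rho_eq_one_iff.2 h2.symm
  rw [← quot_map_rho, quot_mk_eq_one] at h3
  exact h3

/-- The preimage of a tower of the quotient is a tower. -/
theorem quot_tower_lift {k' : ℕ} (H : Hyp p k D) {a : G} {B : Subgroup G}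
    (H' : Hyp p k' (QD D a B)) (T : Tower a B) {y : QH a B} (hy : (y : G) ∈ D)
    (hy' : a⁻¹ * y ∈ Cz B) {W : Subgroup (QG a B)} (TW : Tower (Qmk a B y) W) :
    Tower (y : G) ((W.comap (Qmk a B)).map (QH a B).subtype) := by
  have TB : Tower (y : G) B := T.congr hy'
  have hBW : B ≤ (W.comap (Qmk a B)).map (QH a B).subtype := fun β hβ =>
    ⟨⟨β, mem_QH_of_Cz T.norm (T.comm.le_Cz hβ)⟩, by
      change Qmk a B _ ∈ W
      rw [quot_mk_eq_one.2 hβ]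
      exact one_mem _, rfl⟩
  have hs : ∀ w : QH a B, Qmk a B w ∈ W → ∃ v : QH a B, Qmk a B v ∈ W ∧
      (rho (y : G) v)⁻¹ * w ∈ B := by
    intro w hw
    obtain ⟨v, hv, e⟩ := TW.surj _ hw
    obtain ⟨v, rfl⟩ := QuotientGroup.mk'_surjective _ v
    rw [← quot_map_rho] at e
    exact ⟨v, hv, quot_mk_eq.1 e⟩
  have hC : (W.comap (Qmk a B)).map (QH a B).subtype ≤ Cz B := by
    rintro _ ⟨w, hw, rfl⟩
    obtain ⟨v, -, e⟩ := hs w hw
    simpa using mul_mem (quot_rho_cent hy' v) (T.comm.le_Cz e)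
  have hv : IsDiv p ((W.comap (Qmk a B)).map (QH a B).subtype) := by
    rintro _ ⟨w, hw, rfl⟩
    obtain ⟨v, hv, e⟩ := (TW.fr H' ⟨y, ⟨hy, hy'⟩, rfl⟩).div _ hw
    obtain ⟨v, rfl⟩ := QuotientGroup.mk'_surjective _ v
    rw [← map_pow] at e
    obtain ⟨γ, hγ, e'⟩ := (TB.fr H hy).div _ (quot_mk_eq.1 e)
    have hvW : (v : G) ∈ (W.comap (Qmk a B)).map (QH a B).subtype := ⟨v, hv, rfl⟩
    refine ⟨v * γ, mul_mem hvW (hBW hγ), ?_⟩
    rw [(mem_Cz.1 (hC hvW) γ hγ).symm.mul_pow, e']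
    simp
  have hc : Comm ((W.comap (Qmk a B)).map (QH a B).subtype) := by
    refine comm_of_le_Cz fun α hα => bil H.pgrp hv hC (hC hα) fun β hβ => ?_
    obtain ⟨α, hα, rfl⟩ := hα
    obtain ⟨β, hβ, rfl⟩ := hβ
    have h3 := rho_eq_one_iff.2 (TW.comm _ hα _ hβ)
    rw [← quot_map_rho, quot_mk_eq_one] at h3
    exact h3
  have hn : (y : G) ∈ Nz ((W.comap (Qmk a B)).map (QH a B).subtype) := by
    refine mem_Nz_of_conj H.prime H.pgrp ?_
    rintro _ ⟨w, hw, rfl⟩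
    refine ⟨y⁻¹ * w * y, ?_, rfl⟩
    change Qmk a B _ ∈ W
    rw [map_mul, map_mul, map_inv]
    exact Nz_conj TW.norm hw
  refine ⟨hc, hn, ?_⟩
  rintro _ ⟨w, hw, rfl⟩
  obtain ⟨v, hv, e⟩ := hs w hw
  obtain ⟨γ, hγ, e'⟩ := TB.surj _ e
  have hvW : (v : G) ∈ (W.comap (Qmk a B)).map (QH a B).subtype := ⟨v, hv, rfl⟩
  refine ⟨v * γ, mul_mem hvW (hBW hγ), ?_⟩
  rw [rho_mul hc hn hvW (hBW hγ), e']
  simp

/-- Lifting the conclusion for smaller `k`. -/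
theorem liftCO (hP : Prev p k) (H : Hyp p k D) {a : G} {B : Subgroup G} (T : Tower a B)
    (hB : B ≠ ⊥) {X : Set G} (haX : a ∈ X) (hX : ∀ x ∈ X, x ∈ D ∧ a⁻¹ * x ∈ Cz B) :
    ∃ Y : Set G, Y.Finite ∧ Y ⊆ orb a (closure X : Subgroup G) ∧
      ∀ x ∈ orb a (closure X : Subgroup G), ∃ y ∈ Y, ∃ W, Tower y W ∧ W ≤ closure X ⊔ B ∧
        y⁻¹ * x ∈ W := by
  classical
  have ha : a ∈ D := (hX a haX).1
  obtain ⟨k', hk, H'⟩ := quot_hyp' H ha T hB
  have ha0 : a ∈ QH a B := mem_QH_of_pure T.norm (by simp)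
  have ha1 : Qmk a B ⟨a, ha0⟩ ∈ QD D a B := ⟨_, ⟨ha, by simp⟩, rfl⟩
  have hXQ : (closure X : Subgroup G) ≤ QH a B :=
    (closure_le _).2 fun x hx => mem_QH_of_pure T.norm (hX x hx).2
  let Γ : Subgroup (QG a B) := ((closure X).comap (QH a B).subtype).map (Qmk a B)
  have hΓ : Γ ≤ closure (QD D a B) := by
    rintro _ ⟨⟨g, hg0⟩, hg, rfl⟩
    change g ∈ closure X at hg
    induction hg using closure_induction with
    | mem x hx => exact subset_closure ⟨_, hX x hx, rfl⟩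
    | one => exact one_mem _
    | mul x y hx hy ihx ihy => exact mul_mem (ihx (hXQ hx)) (ihy (hXQ hy))
    | inv x hx ih => exact inv_mem (ih (hXQ hx))
  obtain ⟨Y, hY, hYo, hYc⟩ := CO.can H' ha1 (hP k' hk _ _ H' _ ha1) hΓ
    (mem_map_of_mem (Qmk a B) (x := ⟨a, ha0⟩) (subset_closure haX))
  have hlift : ∀ y ∈ Y, ∃ g : QH a B, (g : G) ∈ closure X ∧
      Qmk a B (g⁻¹ * ⟨a, ha0⟩ * g) = y := by
    intro y hy
    obtain ⟨_, ⟨g, hg, rfl⟩, rfl⟩ := hYo hy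
    exact ⟨g, hg, by simp⟩
  choose! g hg1 hg2 using hlift
  refine ⟨(fun y => ((g y : G))⁻¹ * a * g y) '' Y, hY.image _, ?_, ?_⟩
  · rintro _ ⟨y, hy, rfl⟩
    exact ⟨g y, hg1 y hy, rfl⟩
  · rintro _ ⟨h, hh, rfl⟩
    obtain ⟨y, hy, W, TW, hW, hyW⟩ := hYc (Qmk a B ((⟨h, hXQ hh⟩ : QH a B)⁻¹ * ⟨a, ha0⟩ *
      ⟨h, hXQ hh⟩)) ⟨Qmk a B ⟨h, hXQ hh⟩, mem_map_of_mem _ hh, by simp⟩
    rw [← hg2 y hy] at TW hyW
    refine ⟨_, ⟨y, hy, rfl⟩, (W.comap (Qmk a B)).map (QH a B).subtype, ?_, ?_, ?_⟩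
    · exact quot_tower_lift H H' T (y := (g y)⁻¹ * ⟨a, ha0⟩ * g y) (H.conj a ha _)
        (quot_pure_conj (d := a) (by simp) (g y)) TW
    · rintro _ ⟨w, hw, rfl⟩
      obtain ⟨γ, hγ, e⟩ := hW hw
      have h1 : (w : G) = γ * ((γ : G)⁻¹ * w) := by group
      change (w : G) ∈ _
      rw [h1]
      exact mul_mem (mem_sup_left hγ) (mem_sup_right (quot_mk_eq.1 e))
    · rw [← map_inv, ← map_mul] at hyW
      exact ⟨_, hyW, rfl⟩

end Pool.Agent.Lib.MP_7d7b85_al
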