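import Pool.Agent.Lib.MP_7d7b85_al.Quot

namespace Pool.Agent.Lib.MP_7d7b85_al

open Subgroup Filter

variable {G : Type} [Group G] {p k : ℕ} {D : Set G}

/-- A geometric sum in a nontrivial power of `ν` kills `1 - ν`. -/
theorem sl2_geom {R : Type} [Ring R] (hp : p.Prime) {ν : R} (hν : ν ^ p = 1) {j : ℕ}
    (hj0 : 0 < j) (hjp : j < p) : (∑ i ∈ Finset.range p, (ν ^ j) ^ i) * (1 - ν) = 0 := by
  have hcop : Nat.Coprime j p := (Nat.coprime_of_lt_prime hj0.ne' hjp hp).symm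
  obtain ⟨m, -, hm⟩ := Nat.exists_mul_mod_eq_one_of_coprime hcop hp.one_lt
  have h1 : (ν ^ j) ^ m = ν := by
    rw [← pow_mul, ← Nat.div_add_mod (j * m) p, hm, pow_add, pow_mul, hν, one_pow, one_mul,
      pow_one]
  have h2 : (∑ i ∈ Finset.range p, (ν ^ j) ^ i) * (1 - ν ^ j) = 0 := by
    rw [geom_sum_mul_neg, ← pow_mul, mul_comm j p, pow_mul, hν, one_pow, sub_self]
  have h3 : (1 - ν ^ j) * ∑ i ∈ Finset.range m, (ν ^ j) ^ i = 1 - ν := by
    rw [mul_neg_geom_sum, h1]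
  rw [← h3, ← mul_assoc, h2, zero_mul]

theorem sl2_sum {R : Type} [Ring R] (hp : p.Prime) {σ ν : R} (hc : Commute σ ν)
    (hν : ν ^ p = 1) :
    ∑ i ∈ Finset.range p, (∑ j ∈ Finset.range p, (σ * ν ^ i) ^ j) * (1 - ν) = p • (1 - ν) := by
  have h1 : ∀ i j : ℕ, (σ * ν ^ i) ^ j = σ ^ j * (ν ^ j) ^ i := fun i j => by
    rw [(hc.pow_right i).mul_pow, ← pow_mul, ← pow_mul, mul_comm i j]
  simp only [h1, Finset.sum_mul]
  rw [Finset.sum_comm]
  rw [Finset.sum_eq_single 0]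
  · simp [mul_sub]
  · intro j hj hj0
    have := sl2_geom hp hν (Nat.pos_of_ne_zero hj0) (Finset.mem_range.1 hj)
    simp only [mul_assoc]
    rw [← Finset.mul_sum, ← Finset.sum_mul, this, mul_zero]
  · intro h
    exact absurd (Finset.mem_range.2 hp.pos) h

/-- The module theoretic core of `sl2_end`. -/
theorem sl2_core {M : Type} [AddCommGroup M] (hp : p.Prime) {σ ν : Module.End ℤ M}
    (hc : Commute σ ν) (hσ : σ ^ p = 1) (hν : ν ^ p = 1) (hdiv : ∀ x : M, ∃ y, p • y = x)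
    (hne : ν ≠ 1) : ∃ (i : ℕ) (C : Submodule ℤ M), C ≠ ⊥ ∧ (∀ x ∈ C, ∃ y ∈ C, p • y = x) ∧
      (∀ x ∈ C, σ x ∈ C) ∧ ∀ x ∈ C, (σ * ν ^ i) x = x := by
  have hs := sl2_sum hp hc hν
  obtain ⟨i, hi⟩ : ∃ i : ℕ, (∑ j ∈ Finset.range p, (σ * ν ^ i) ^ j) * (1 - ν) ≠ 0 := by
    by_contra hcon
    push Not at hcon
    simp only [hcon, Finset.sum_const_zero] at hs
    apply hne
    symm
    rw [← sub_eq_zero]
    ext x
    obtain ⟨y, rfl⟩ := hdiv x
    have := congrArg (fun f : Module.End ℤ M => f y) hs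
    simp only [LinearMap.zero_apply, LinearMap.smul_apply] at this
    rw [map_nsmul, ← this, LinearMap.zero_apply]
  set τ := σ * ν ^ i with hτ
  set T := (∑ j ∈ Finset.range p, τ ^ j) * (1 - ν) with hT
  have hτp : τ ^ p = 1 := by
    rw [hτ, (hc.pow_right i).mul_pow, hσ, ← pow_mul, mul_comm i p, pow_mul, hν, one_pow, one_mul]
  have hστ : Commute σ τ := (Commute.refl σ).mul_right (hc.pow_right i)
  have hσT : Commute σ T :=
    (Commute.sum_right _ _ _ fun j _ => hστ.pow_right j).mul_right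
      ((Commute.one_right σ).sub_right hc)
  have hτT : τ * T = T := by
    have h0 : (τ - 1) * ∑ j ∈ Finset.range p, τ ^ j = 0 := by
      rw [mul_geom_sum, hτp, sub_self]
    have h1 : (τ - 1) * T = 0 := by rw [hT, ← mul_assoc, h0, zero_mul]
    rw [sub_mul, one_mul, sub_eq_zero] at h1
    exact h1
  refine ⟨i, LinearMap.range T, fun h => hi (LinearMap.range_eq_bot.1 h), ?_, ?_, ?_⟩
  · rintro _ ⟨x, rfl⟩
    obtain ⟨y, rfl⟩ := hdiv x
    exact ⟨T y, ⟨y, rfl⟩, (map_nsmul T p y).symm⟩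
  · rintro _ ⟨x, rfl⟩
    exact ⟨σ x, (congrArg (fun f : Module.End ℤ M => f x) hσT.eq).symm⟩
  · rintro _ ⟨x, rfl⟩
    exact congrArg (fun f : Module.End ℤ M => f x) hτT

/-- An abelian subgroup written additively. -/
def SL2Ab {A : Subgroup G} (_ : Comm A) : Type := Additive A

instance {A : Subgroup G} (hc : Comm A) : AddCommGroup (SL2Ab hc) :=
  { (inferInstance : AddGroup (Additive A)) with
    add_comm := fun a b => Additive.toMul.injective
      (Subtype.ext (hc _ (Additive.toMul a).2 _ (Additive.toMul b).2)) }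

/-- The underlying group element. -/
def sl2val {A : Subgroup G} {hc : Comm A} (x : SL2Ab hc) : G := (Additive.toMul x : A)

/-- The additive element attached to a member of `A`. -/
def sl2mk {A : Subgroup G} (hc : Comm A) (x : G) (hx : x ∈ A) : SL2Ab hc :=
  Additive.ofMul (⟨x, hx⟩ : A)

theorem sl2val_mem {A : Subgroup G} {hc : Comm A} (x : SL2Ab hc) : sl2val x ∈ A :=
  (Additive.toMul x : A).2

theorem sl2val_mk {A : Subgroup G} (hc : Comm A) (x : G) (hx : x ∈ A) :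
    sl2val (sl2mk hc x hx) = x := rfl

theorem sl2val_inj {A : Subgroup G} {hc : Comm A} {x y : SL2Ab hc} (h : sl2val x = sl2val y) :
    x = y := Additive.toMul.injective (Subtype.ext h)

theorem sl2val_add {A : Subgroup G} {hc : Comm A} (x y : SL2Ab hc) :
    sl2val (x + y) = sl2val x * sl2val y := rfl

theorem sl2val_zero {A : Subgroup G} {hc : Comm A} : sl2val (0 : SL2Ab hc) = 1 := rfl

theorem sl2val_neg {A : Subgroup G} {hc : Comm A} (x : SL2Ab hc) :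
    sl2val (-x) = (sl2val x)⁻¹ := rfl

theorem sl2val_nsmul {A : Subgroup G} {hc : Comm A} (n : ℕ) (x : SL2Ab hc) :
    sl2val (n • x) = sl2val x ^ n := by
  induction n with
  | zero => rw [zero_nsmul, pow_zero, sl2val_zero]
  | succ n ih => rw [succ_nsmul, sl2val_add, ih, pow_succ]

/-- Conjugation action of the normaliser. -/
def sl2act {A : Subgroup G} (hc : Comm A) : Nz A →* Module.End ℤ (SL2Ab hc) where
  toFun g := AddMonoidHom.toIntLinearMap
    { toFun := fun x => sl2mk hc (g * sl2val x * (g : G)⁻¹) (Nz_conj' g.2 (sl2val_mem x))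
      map_zero' := sl2val_inj (by simp [sl2val_mk, sl2val_zero])
      map_add' := fun x y => sl2val_inj (by simp [sl2val_mk, sl2val_add, mul_assoc]) }
  map_one' := LinearMap.ext fun x => sl2val_inj (by simp [sl2val_mk])
  map_mul' g h := LinearMap.ext fun x => sl2val_inj (by simp [sl2val_mk, mul_assoc])

theorem sl2val_act {A : Subgroup G} (hc : Comm A) (g : Nz A) (x : SL2Ab hc) :
    sl2val (sl2act hc g x) = g * sl2val x * (g : G)⁻¹ := rfl

theorem sl2act_eq_one {A : Subgroup G} (hc : Comm A) (g : Nz A) :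
    sl2act hc g = 1 ↔ (g : G) ∈ Cz A := by
  constructor
  · intro h
    refine mem_Cz.2 fun α hα => ?_
    have := congrArg (fun f : Module.End ℤ (SL2Ab hc) => sl2val (f (sl2mk hc α hα))) h
    simp only [sl2val_act, sl2val_mk, Module.End.one_apply] at this
    rw [mul_inv_eq_iff_eq_mul] at this
    exact this.symm
  · intro h
    refine LinearMap.ext fun x => sl2val_inj ?_
    rw [sl2val_act, Module.End.one_apply, ← (mem_Cz.1 h _ (sl2val_mem x)).eq]
    simp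

theorem sl2act_comm {A : Subgroup G} (hc : Comm A) {g v : G} (hg : g ∈ Nz A) (hv : v ∈ Nz A)
    (h : rho g v ∈ Cz A) : Commute (sl2act hc ⟨g, hg⟩) (sl2act hc ⟨v, hv⟩) := by
  have h1 : sl2act hc (⟨g, hg⟩⁻¹ * (⟨v, hv⟩⁻¹ * ⟨g, hg⟩ * ⟨v, hv⟩)) = 1 :=
    (sl2act_eq_one hc _).2 h
  change _ * _ = _ * _
  rw [← map_mul, ← map_mul]
  have h2 : (⟨g, hg⟩ * ⟨v, hv⟩ : Nz A) = (⟨v, hv⟩ * ⟨g, hg⟩) *
      (⟨g, hg⟩⁻¹ * (⟨v, hv⟩⁻¹ * ⟨g, hg⟩ * ⟨v, hv⟩)) := by group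
  rw [h2, map_mul _ (_ * _), h1, mul_one]

/-- If `g` and `g * v` have order dividing `p` and act commutatively then `v ^ p` acts
trivially. -/
theorem sl2_pow_cent {A : Subgroup G} (hc : Comm A) {g v : G} (hg : g ∈ Nz A) (hv : v ∈ Nz A)
    (h : rho g v ∈ Cz A) (h1 : g ^ p = 1) (h2 : (g * v) ^ p = 1) : v ^ p ∈ Cz A := by
  have hcm := sl2act_comm hc hg hv h
  have e1 : (⟨g, hg⟩ : Nz A) ^ p = 1 := Subtype.ext h1
  have e2 : (⟨g, hg⟩ * ⟨v, hv⟩ : Nz A) ^ p = 1 := Subtype.ext h2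
  have e3 := congrArg (sl2act hc) e2
  rw [map_pow, map_mul, hcm.mul_pow, ← map_pow, e1, map_one, one_mul, ← map_pow] at e3
  exact (sl2act_eq_one hc _).1 e3

theorem sl2_rho_swap (x y : G) : rho x y = (rho y x)⁻¹ := by
  simp only [rho]; group

theorem sl2_rho_pow {K : Subgroup G} {c v : G} (hv : v ∈ Nz K) (h : rho c v ∈ K) (i : ℕ) :
    rho c (v ^ i) ∈ K := by
  induction i with
  | zero => simp [rho]
  | succ i ih =>
    have := K.mul_mem h (Nz_conj hv ih)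
    convert this using 1
    rw [pow_succ]; simp only [rho]; group

/-- The end of the argument: an element acting trivially two levels deep acts trivially. -/
theorem sl2_end (H : Hyp p k D) {g v : G} (hg : g ∈ D) {A K : Subgroup G} (T : Tower g A)
    (hK : (K : Set G).Finite) (hgK : g ∈ Nz K) (hv : v ∈ Nz A) (hvp : v ^ p ∈ Cz A)
    (hc : rho g v ∈ Cz A) (h : ∀ α ∈ A, rho g (rho g α) ∈ K → rho α v ∈ K) (hvK : v ∈ Cz K) :
    v ∈ Cz A := by
  by_contra hcon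
  have hA := T.comm
  have hσ : sl2act hA ⟨g, T.norm⟩ ^ p = 1 := by
    rw [← map_pow, show (⟨g, T.norm⟩ : Nz A) ^ p = 1 from Subtype.ext (H.pow g hg), map_one]
  have hν : sl2act hA ⟨v, hv⟩ ^ p = 1 := by
    rw [← map_pow]
    exact (sl2act_eq_one hA _).2 hvp
  have hdiv : ∀ x : SL2Ab hA, ∃ y, p • y = x := fun x => by
    obtain ⟨β, hβ, e⟩ := (T.fr H hg).div _ (sl2val_mem x)
    exact ⟨sl2mk hA β hβ, sl2val_inj (by rw [sl2val_nsmul, sl2val_mk, e])⟩
  obtain ⟨i, C₀, hne, hCd, hCσ, hCf⟩ := sl2_core H.prime (sl2act_comm hA T.norm hv hc) hσ hν hdiv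
    (fun e => hcon ((sl2act_eq_one hA _).1 e))
  let C : Subgroup G :=
    { carrier := {x | ∃ y ∈ C₀, sl2val y = x}
      one_mem' := ⟨0, C₀.zero_mem, rfl⟩
      mul_mem' := by
        rintro _ _ ⟨x, hx, rfl⟩ ⟨y, hy, rfl⟩
        exact ⟨x + y, C₀.add_mem hx hy, rfl⟩
      inv_mem' := by
        rintro _ ⟨x, hx, rfl⟩
        exact ⟨-x, C₀.neg_mem hx, rfl⟩ }
  have hCA : C ≤ A := by
    rintro _ ⟨x, -, rfl⟩
    exact sl2val_mem x
  have hCv : IsDiv p C := by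
    rintro _ ⟨x, hx, rfl⟩
    obtain ⟨y, hy, rfl⟩ := hCd x hx
    exact ⟨sl2val y, ⟨y, hy, rfl⟩, (sl2val_nsmul p y).symm⟩
  have hCn : g ∈ Nz C := by
    rw [← inv_mem_iff]
    refine mem_Nz_of_conj H.prime H.pgrp ?_
    rintro _ ⟨x, hx, rfl⟩
    exact ⟨_, hCσ x hx, by rw [sl2val_act, inv_inv]⟩
  have hCfix : ∀ c ∈ C, g * v ^ i * c * (g * v ^ i)⁻¹ = c := by
    rintro _ ⟨x, hx, rfl⟩
    have := congrArg sl2val (hCf x hx)
    rw [← map_pow, ← map_mul, sl2val_act] at this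
    exact this
  have TC : Tower g C := T.of_div_le H hg hCA hCv hCn
  obtain ⟨c₀, hc₀, hc₀K⟩ : ∃ c ∈ C, c ∉ K := by
    by_contra hall
    push Not at hall
    have hbot := hCv.eq_bot_of_finite H.prime H.pgrp (hK.subset hall)
    apply hne
    rw [eq_bot_iff]
    intro x hx
    have : sl2val x ∈ C := ⟨x, hx, rfl⟩
    rw [hbot, Subgroup.mem_bot] at this
    exact (Submodule.mem_bot ℤ).2 (sl2val_inj this)
  obtain ⟨j, hj1, hj2⟩ := exists_last H hg K hc₀K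
  obtain ⟨c, hcC, hce⟩ := TC.surj _ (rho_iter_mem hCn hc₀ j)
  rw [← hce] at hj1 hj2
  have hvN : v ∈ Nz K := Cz_le_Nz K hvK
  have h1 := sl2_rho_pow hvN (h c (hCA hcC) hj2) i
  apply hj1
  have h2 := Nz_conj' (pow_mem hvN i) h1
  convert h2 using 1
  have h3 : g⁻¹ * c⁻¹ * g = v ^ i * c⁻¹ * (v ^ i)⁻¹ := by
    conv_lhs => rw [← hCfix c hcC]
    group
  have h4 : rho g c = g⁻¹ * c⁻¹ * g * c := by simp only [rho]; group
  rw [h4, h3]
  simp only [rho]; group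

/-- An infinite invariant subgroup of a tower contains a nontrivial tower. -/
theorem sl2_tower_of_infinite (H : Hyp p k D) {g : G} (hg : g ∈ D) {A X : Subgroup G}
    (T : Tower g A) (hX : X ≤ A) (hn : g ∈ Nz X) (hi : (X : Set G).Infinite) :
    ∃ C, Tower g C ∧ C ≠ ⊥ ∧ C ≤ X := by
  obtain ⟨X₀, h1, h2, h3, h4⟩ := exists_divPart H.prime H.pgrp (T.comm.mono hX)
    ((T.fr H hg).fin.subset fun x hx => ⟨hX hx.1, hx.2⟩)
  refine ⟨X₀, T.of_div_le H hg (h1.trans hX) h2 (h4 hn), ?_, h1⟩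
  rintro rfl
  exact hi (finMod_bot.1 h3)

/-- The preimage of a subgroup under `rho g` inside a tower. -/
def sl2pre {g : G} {A : Subgroup G} (T : Tower g A) (X : Subgroup G) : Subgroup G where
  carrier := {α | α ∈ A ∧ rho g α ∈ X}
  one_mem' := ⟨A.one_mem, by simp [rho]⟩
  mul_mem' := fun {a b} ha hb => ⟨A.mul_mem ha.1 hb.1, by
    rw [rho_mul T.comm T.norm ha.1 hb.1]; exact X.mul_mem ha.2 hb.2⟩
  inv_mem' := fun {a} ha => ⟨A.inv_mem ha.1, by
    rw [rho_inv T.comm T.norm ha.1]; exact X.inv_mem ha.2⟩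

theorem mem_sl2pre {g : G} {A : Subgroup G} (T : Tower g A) {X : Subgroup G} {α : G} :
    α ∈ sl2pre T X ↔ α ∈ A ∧ rho g α ∈ X := Iff.rfl

/-- Commutators of first level elements lie in both towers. -/
theorem sl2_comm_mem {A B : Subgroup G} {u v : G} (hu : u ∈ A) (hv : v ∈ B) (hu' : u ∈ Nz B)
    (hv' : v ∈ Nz A) : rho u v ∈ A ∧ rho u v ∈ B :=
  ⟨rho_mem_of_Nz' hv' hu, rho_mem_of_Nz hu' hv⟩

theorem sl2_rho_rho {A : Subgroup G} (hc : Comm A) {g v x : G} (hg : g ∈ Nz A) (hv : v ∈ Nz A)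
    (h : rho g v ∈ Cz A) (hx : x ∈ A) : rho g (rho v x) = rho v (rho g x) := by
  have h1 : v⁻¹ * x * v ∈ A := Nz_conj hv hx
  have h2 : g⁻¹ * x * g ∈ A := Nz_conj hg hx
  have h3 : g⁻¹ * (v⁻¹ * x * v) * g ∈ A := Nz_conj hg h1
  have e0 : v⁻¹ * (g⁻¹ * x * g) * v = g⁻¹ * (v⁻¹ * x * v) * g := by
    have := (mem_Cz.1 h _ h3).eq
    have e : v⁻¹ * (g⁻¹ * x * g) * v =
        (rho g v)⁻¹ * (g⁻¹ * (v⁻¹ * x * v) * g * rho g v) := by simp only [rho]; group
    rw [e, this]; group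
  have e1 : rho g (rho v x) = (g⁻¹ * x * g)⁻¹ * (g⁻¹ * (v⁻¹ * x * v) * g) *
      ((v⁻¹ * x * v)⁻¹ * x) := by simp only [rho]; group
  have e2 : rho v (rho g x) = (v⁻¹ * x * v)⁻¹ * (v⁻¹ * (g⁻¹ * x * g) * v) *
      ((g⁻¹ * x * g)⁻¹ * x) := by simp only [rho]; group
  rw [e1, e2, e0]
  set a := g⁻¹ * x * g
  set b := v⁻¹ * x * v
  set c := g⁻¹ * b * g
  have c1 : Commute a⁻¹ c := hc _ (A.inv_mem h2) _ h3
  have c2 : Commute a⁻¹ b⁻¹ := hc _ (A.inv_mem h2) _ (A.inv_mem h1)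
  have c3 : Commute c b⁻¹ := hc _ h3 _ (A.inv_mem h1)
  calc a⁻¹ * c * (b⁻¹ * x) = a⁻¹ * (c * b⁻¹) * x := by group
    _ = (c * b⁻¹) * a⁻¹ * x := by rw [(c1.mul_right c2).eq]
    _ = b⁻¹ * c * (a⁻¹ * x) := by rw [c3.eq]; group

/-- Second level elements of one tower normalise the group generated by the first levels. -/
theorem sl2_norm (H : Hyp p k D) {g : G} {A B : Subgroup G} (TA : Tower g A) (TB : Tower g B)
    (hA : ∀ α ∈ A, rho g α ∈ Cz B → α ∈ Nz B) (hB : ∀ β ∈ B, rho g β ∈ Cz A → β ∈ Nz A) :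
    sl2pre TA (sl2pre TA (A ⊓ Cz B)) ≤ Nz (sl2pre TA (A ⊓ Cz B) ⊔ sl2pre TB (B ⊓ Cz A)) := by
  intro x hx
  refine mem_Nz_of_conj H.prime H.pgrp ?_
  have key : sl2pre TA (A ⊓ Cz B) ⊔ sl2pre TB (B ⊓ Cz A) ≤
      cjs (sl2pre TA (A ⊓ Cz B) ⊔ sl2pre TB (B ⊓ Cz A)) x⁻¹ := by
    refine sup_le (fun u hu => ?_) (fun v hv => ?_)
    · rw [mem_cjs, inv_inv, commute_iff_conj.1 (TA.comm u hu.1 x hx.1)]
      exact mem_sup_left hu
    · rw [mem_cjs, inv_inv, ← mul_rho]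
      refine mul_mem (mem_sup_right hv) (mem_sup_left ?_)
      have hvN : v ∈ Nz A := hB v hv.1 hv.2.2
      refine ⟨rho_mem_of_Nz hvN hx.1, ?_⟩
      rw [sl2_rho_rho TA.comm TA.norm hvN hv.2.2 hx.1, sl2_rho_swap]
      have := sl2_comm_mem hx.2.1 hv.1 (hA _ hx.2.1 hx.2.2.2) hvN
      exact inv_mem ⟨this.1, TB.comm.le_Cz this.2⟩
  intro α hα
  simpa using key hα

/-- A first level element which moves the second level of the other tower only inside `K`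
centralises the other tower. -/
theorem sl2_cent (H : Hyp p k D) {g : G} (hg : g ∈ D) {A B K : Subgroup G} (TA : Tower g A)
    (TB : Tower g B) (hB : ∀ β ∈ B, rho g β ∈ Cz A → β ∈ Nz A) (hK : (K : Set G).Finite)
    (hgK : g ∈ Nz K) (hKB : K ≤ Cz B) {v : G} (hv : v ∈ sl2pre TB (B ⊓ Cz A))
    (h : ∀ x ∈ sl2pre TA (sl2pre TA (A ⊓ Cz B)), rho v x ∈ K) : v ∈ Cz A := by
  have hvN : v ∈ Nz A := hB v hv.1 hv.2.2
  refine sl2_end H hg TA hK hgK hvN ?_ hv.2.2 ?_ (le_Cz_comm.1 hKB hv.1)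
  · exact sl2_pow_cent TA.comm TA.norm hvN hv.2.2 (H.pow g hg)
      (H.pow _ (TB.mul_mem H hg hv.1))
  · intro α hα h2
    rw [sl2_rho_swap]
    have h1 := rho_mem_of_Nz TA.norm hα
    exact inv_mem (h α ⟨hα, h1, rho_mem_of_Nz TA.norm h1, hKB h2⟩)

theorem sl2_inf (hP : Prev p k) (H : Hyp p k D) {g : G} (hg : g ∈ D) {A B : Subgroup G}
    (TA : Tower g A) (TB : Tower g B) (hi : ((A ⊓ Cz B : Subgroup G) : Set G).Infinite) :
    A ≤ Cz B := by
  obtain ⟨C, TC, hC, hle⟩ := sl2_tower_of_infinite H hg TA inf_le_left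
    (Nz_inf TA.norm (Nz_Cz TB.norm)) hi
  exact uq hP H hg TC hC TA TB (TA.comm.le_Cz.trans (Cz_anti (hle.trans inf_le_left)))
    (le_Cz_comm.1 (hle.trans inf_le_right))

theorem sl2 (hP : Prev p k) (H : Hyp p k D) {g : G} (hg : g ∈ D) {A B : Subgroup G}
    (TA : Tower g A) (TB : Tower g B) (hA : ∀ α ∈ A, rho g α ∈ Cz B → α ∈ Nz B)
    (hB : ∀ β ∈ B, rho g β ∈ Cz A → β ∈ Nz A) : A ≤ Cz B := by
  by_contra hcon
  have fA : ((A ⊓ Cz B : Subgroup G) : Set G).Finite := by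
    by_contra hi
    exact hcon (sl2_inf hP H hg TA TB hi)
  have fB : ((B ⊓ Cz A : Subgroup G) : Set G).Finite := by
    by_contra hi
    exact hcon (le_Cz_comm.1 (sl2_inf hP H hg TB TA hi))
  have nA : g ∈ Nz (A ⊓ Cz B) := Nz_inf TA.norm (Nz_Cz TB.norm)
  have nB : g ∈ Nz (B ⊓ Cz A) := Nz_inf TB.norm (Nz_Cz TA.norm)
  set KA := A ⊓ Cz B with hKA
  set KB := B ⊓ Cz A with hKB
  set U := sl2pre TA KA with hU
  set V := sl2pre TB KB with hV
  have hKcB : KA ⊔ KB ≤ Cz B := sup_le inf_le_right (inf_le_left.trans TB.comm.le_Cz)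
  have hKcA : KA ⊔ KB ≤ Cz A := sup_le (inf_le_left.trans TA.comm.le_Cz) inf_le_right
  have hKfin : ((KA ⊔ KB : Subgroup G) : Set G).Finite :=
    finite_sup ((inf_le_right.trans (Cz_anti inf_le_left)).trans (Cz_le_Nz _)) fA fB
  have hgK : g ∈ Nz (KA ⊔ KB) := Nz_sup nA nB
  have hKU : KA ≤ U := fun x hx => ⟨hx.1, rho_mem_of_Nz nA hx⟩
  have hKV : KB ≤ V := fun x hx => ⟨hx.1, rho_mem_of_Nz nB hx⟩
  have hVU : V ≤ Nz U := fun v hv => mem_Nz_of_conj H.prime H.pgrp fun u hu => by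
    rw [← mul_rho]
    have := sl2_comm_mem hu.1 hv.1 (hA _ hu.1 hu.2.2) (hB _ hv.1 hv.2.2)
    exact mul_mem hu (hKU ⟨this.1, TB.comm.le_Cz this.2⟩)
  have hQfin : ((U ⊔ V : Subgroup G) : Set G).Finite :=
    finite_sup hVU (TA.finite_preimage H hg fA) (TB.finite_preimage H hg fB)
  have hlt : KA ⊔ KB < U ⊔ V := by
    refine lt_of_le_of_ne (sup_le_sup hKU hKV) fun e => ?_
    obtain ⟨α, hα, hα'⟩ := SetLike.not_le_iff_exists.1 hcon
    obtain ⟨j, hj1, hj2⟩ := exists_last H hg KA (x := α) fun h => hα' h.2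
    have hm := rho_iter_mem TA.norm hα j
    have : (rho g)^[j] α ∈ U ⊔ V := mem_sup_left ⟨hm, hj2⟩
    rw [← e] at this
    exact hj1 ⟨hm, hKcB this⟩
  have hRQ : sl2pre TA U ⊔ sl2pre TB V ≤ Nz (U ⊔ V) := by
    refine sup_le (sl2_norm H TA TB hA hB) ?_
    rw [sup_comm U V]
    exact sl2_norm H TB TA hB hA
  have hRK : sl2pre TA U ⊔ sl2pre TB V ≤ Nz (KA ⊔ KB) :=
    sup_le (fun x hx => Cz_le_Nz _ (le_Cz_comm.1 hKcA hx.1))
      (fun x hx => Cz_le_Nz _ (le_Cz_comm.1 hKcB hx.1))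
  obtain ⟨q, hq, hqK, hfix⟩ := fixMod H.prime H.pgrp hQfin hlt hRQ hRK
  obtain ⟨u, hu, v, hv, rfl⟩ := (mem_sup_Nz hVU).1 hq
  have hvA : v ∈ Cz A := by
    refine sl2_cent H hg TA TB hB hKfin hgK hKcB hv fun x hx => ?_
    have := hfix x (mem_sup_left hx)
    convert this using 1
    have e := commute_iff_conj.1 (TA.comm u hu.1 x hx.1)
    have e2 : rho (u * v) x = v⁻¹ * u⁻¹ * (x⁻¹ * u * x) * (x⁻¹ * v * x) := by
      simp only [rho]; group
    rw [e2, e]; simp only [rho]; group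
  have huB : u ∈ Cz B := by
    refine sl2_cent H hg TB TA hA hKfin hgK hKcA hu fun y hy => ?_
    have := Nz_conj' (Cz_le_Nz _ (le_Cz_comm.1 hKcB hv.1)) (hfix y (mem_sup_right hy))
    convert this using 1
    have e := commute_iff_conj.1 (TB.comm v hv.1 y hy.1)
    have e2 : rho (u * v) y = v⁻¹ * u⁻¹ * (y⁻¹ * u * y) * (y⁻¹ * v * y) := by
      simp only [rho]; group
    rw [e2, e]; simp only [rho]; group
  exact hqK (mul_mem (mem_sup_left ⟨hu.1, huB⟩) (mem_sup_right ⟨hv.1, hvA⟩))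

/-- An infinite invariant subgroup of a tower contains a nontrivial tower. -/
theorem tower_of_infinite (H : Hyp p k D) {g : G} (hg : g ∈ D) {A X : Subgroup G} (T : Tower g A)
    (hX : X ≤ A) (hn : g ∈ Nz X) (hi : (X : Set G).Infinite) :
    ∃ C, Tower g C ∧ C ≠ ⊥ ∧ C ≤ X :=
  sl2_tower_of_infinite H hg T hX hn hi

theorem sl2_tower_MT (H : Hyp p k D) {y : G} (hy : y ∈ D) {L : Subgroup G} (hn : y ∈ Nz L)
    (h : CO p (Gam D L) y) : Tower y (MT (Cz L) y) :=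
  tower_sSup (fun _ hW => hW.1) fun _ hW _ hW' =>
    h.towers_comm H hy hW.1 hW'.1 (hW.1.le_Gam H hy hn (hW.2.trans (Cz_le_Nz _)))
      (hW'.1.le_Gam H hy hn (hW'.2.trans (Cz_le_Nz _)))

theorem sl2_Cz_cjs {A : Subgroup G} {z g : G} (hz : z ∈ Cz A) : g⁻¹ * z * g ∈ Cz (cjs A g) := by
  rw [← cjs_Cz]
  exact conj_mem_cjs hz

theorem znon (hP : Prev p k) (H : Hyp p k D) {a x : G} (ha : a ∈ D) {K W B : Subgroup G}
    (hK : (K : Set G).Finite) (hn : a ∈ Nz K) (T : Tower a W) (hW : W ≤ Cz K) (hx : x ∈ W)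
    (hr : rho a (rho a x) ∈ K) (h1 : CO p (Gam D (ext K (rho a x))) a)
    (h2 : CO p (Gam D (ext K a)) (x⁻¹ * a * x)) (TB : Tower (x⁻¹ * a * x) B)
    (hB : B ≤ Cz (ext K a)) : B = ⊥ := by
  have heD : x⁻¹ * a * x ∈ D := H.conj a ha x
  have hu : rho a x ∈ W := rho_mem_of_Nz T.norm hx
  rw [← mul_rho] at heD h2 TB
  set u := rho a x with hudef
  have hau : a ∈ Nz (ext K u) := by
    refine mem_Nz_ext H.prime H.pgrp hn ?_
    have e : a⁻¹ * u * a = u * (rho a u)⁻¹ := by simp only [rho]; group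
    rw [e]
    exact mul_mem (mem_sup_right (mem_zpowers u)) (mem_sup_left (inv_mem hr))
  have hea : a * u ∈ Nz (ext K a) := by
    refine mem_Nz_ext H.prime H.pgrp (mul_mem hn (Cz_le_Nz K (hW hu))) ?_
    have e : (a * u)⁻¹ * a * (a * u) = a * rho a u := by simp only [rho]; group
    rw [e]
    exact mul_mem (mem_sup_right (mem_zpowers a)) (mem_sup_left hr)
  have TW := sl2_tower_MT H ha hau h1
  have TB' := sl2_tower_MT H heD hea h2
  set Ws := MT (Cz (ext K u)) a with hWs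
  set Bs := MT (Cz (ext K a)) (a * u) with hBs
  have hWle : W ≤ Ws := le_MT T fun w hw => mem_Cz_ext.2 ⟨hW hw, T.comm u hu w hw⟩
  have hWc : Ws ≤ Cz (ext K u) := MT_le _ _
  have hBc : Bs ≤ Cz (ext K a) := MT_le _ _
  have huC : a⁻¹ * (a * u) ∈ Cz Ws := by
    rw [inv_mul_cancel_left]
    exact TW.comm.le_Cz (hWle hu)
  have TWe : Tower (a * u) Ws := TW.congr huC
  have hWK : Ws ≤ Cz K := hWc.trans (Cz_anti le_sup_left)
  have hBK : Bs ≤ Cz K := hBc.trans (Cz_anti le_sup_left)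
  have haB : a ∈ Cz Bs := le_Cz_comm.1 hBc (mem_sup_right (mem_zpowers a))
  have huW : u ∈ Cz Ws := le_Cz_comm.1 hWc (mem_sup_right (mem_zpowers u))
  have hKc : ∀ {A : Subgroup G} {g : G}, A ≤ Cz K → g ∈ Cz K → K ≤ Cz (cjs A g) := by
    intro A g hA hg z hz
    have := sl2_Cz_cjs (g := g) (le_Cz_comm.1 hA hz)
    rwa [commute_iff_conj.1 (mem_Cz.1 hg z hz)] at this
  have main : Ws ≤ Cz Bs := by
    refine sl2 hP H heD TWe TB' (fun α hα hκ => ?_) (fun v hv hκ => ?_)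
    · have hκW : rho (a * u) α ∈ Ws := rho_mem_of_Nz TWe.norm hα
      have hκ' := sl2_Cz_cjs (g := α) hκ
      rw [commute_iff_conj.1 (TW.comm _ hκW α hα)] at hκ'
      have T1 : Tower (a * u) (cjs Bs α) := by
        refine (TB'.cjs α).congr ?_
        rw [← mul_rho (a * u) α]
        convert inv_mem hκ' using 1
        group
      have ha' := sl2_Cz_cjs (g := α) haB
      rw [← mul_rho a α, ← rho_congr TW.norm huC hα] at ha'
      have ha'' : a ∈ Cz (cjs Bs α) := by simpa using mul_mem ha' (inv_mem hκ')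
      have hle : cjs Bs α ≤ Bs :=
        le_MT T1 (le_Cz_comm.1 (sup_le (hKc hBK (hWK hα)) (zpowers_le.2 ha'')))
      exact mem_Nz_of_conj H.prime H.pgrp fun β hβ => hle (conj_mem_cjs hβ)
    · have hκB : rho (a * u) v ∈ Bs := rho_mem_of_Nz TB'.norm hv
      have hκ' := sl2_Cz_cjs (g := v) hκ
      rw [commute_iff_conj.1 (TB'.comm _ hκB v hv)] at hκ'
      have hav : v⁻¹ * a * v = a := commute_iff_conj.1 (mem_Cz.1 haB v hv).symm
      have T1 : Tower a (cjs Ws v) := by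
        have := TW.cjs v
        rwa [hav] at this
      have hu' := sl2_Cz_cjs (g := v) huW
      have e : v⁻¹ * u * v = u * rho (a * u) v := by
        have e1 : rho (a * u) v = u⁻¹ * a⁻¹ * (v⁻¹ * a * v) * (v⁻¹ * u * v) := by
          simp only [rho]; group
        rw [e1, hav]; group
      rw [e] at hu'
      have hu'' : u ∈ Cz (cjs Ws v) := by simpa using mul_mem hu' (inv_mem hκ')
      have hle : cjs Ws v ≤ Ws :=
        le_MT T1 (le_Cz_comm.1 (sup_le (hKc hWK (hBK hv)) (zpowers_le.2 hu'')))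
      exact mem_Nz_of_conj H.prime H.pgrp fun β hβ => hle (conj_mem_cjs hβ)
  have hbot : Bs = ⊥ := TB'.eq_bot (mul_mem haB (main (hWle hu)))
  exact le_bot_iff.1 (hbot ▸ le_MT TB hB)

end Pool.Agent.Lib.MP_7d7b85_al
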