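import Pool.Agent.Lib.MP_7d7b85_al.COl
import Pool.Agent.Lib.MP_7d7b85_al.Chain

namespace Pool.Agent.Lib.MP_7d7b85_al

open Subgroup Filter

variable {G : Type} [Group G] {p k : ℕ} {D : Set G}

theorem sz_le_cjs_ext {K L : Subgroup G} {w g : G} (hK : K ≤ cjs L g⁻¹) (hw : g⁻¹ * w * g ∈ L) :
    ext K w ≤ cjs L g⁻¹ :=
  sup_le hK (zpowers_le.2 (by simpa using hw))

theorem sz_mem_ext_right (K : Subgroup G) (w : G) : w ∈ ext K w :=
  mem_sup_right (mem_zpowers w)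

theorem sz_mem_ext_left {K : Subgroup G} (w : G) {x : G} (hx : x ∈ K) : x ∈ ext K w :=
  mem_sup_left hx

/-- An element normalising `K` and moving `d` and `w` inside the double extension normalises
the double extension. -/
theorem sz_Nz_ext2 (H : Hyp p k D) {K : Subgroup G} {d w g : G} (hg : g ∈ Nz K)
    (h1 : g⁻¹ * d * g ∈ ext (ext K d) w) (h2 : g⁻¹ * w * g ∈ ext (ext K d) w) :
    g ∈ Nz (ext (ext K d) w) := by
  refine mem_Nz_of_conj H.prime H.pgrp fun α hα => ?_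
  have hK : K ≤ cjs (ext (ext K d) w) g⁻¹ := fun κ hκ => by
    simpa using sz_mem_ext_left w (sz_mem_ext_left d (Nz_conj hg hκ))
  simpa using sz_le_cjs_ext (sz_le_cjs_ext hK h1) h2 hα

theorem sz_rho_swap (d w : G) : rho d w = (rho w d)⁻¹ := by
  simp only [rho]; group

/-- A direction inside a tower is realised by a point. -/
theorem ftype_tower (H : Hyp p k D) {a x : G} (ha : a ∈ D) {K W : Subgroup G} (hn : a ∈ Nz K)
    (T : Tower a W) (hW : W ≤ Cz K) (hx : x ∈ W) (hr : rho a (rho a x) ∈ K) :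
    FType D a K (rho a x) := by
  have _ := hr
  have haL : a ∈ ext (ext K a) (rho a x) := sz_mem_ext_left _ (sz_mem_ext_right K a)
  have hwL : rho a x ∈ ext (ext K a) (rho a x) := sz_mem_ext_right _ _
  refine ⟨a * x, T.mul_mem H ha hx, mul_mem hn (Cz_le_Nz K (hW hx)),
    mul_mem (le_Nz _ haL) (sz_Nz_ext2 H (Cz_le_Nz K (hW hx)) ?_ ?_), ?_⟩
  · rw [← mul_rho]
    exact mul_mem haL hwL
  · rw [commute_iff_conj.1 (T.comm _ (rho_mem_of_Nz T.norm hx) x hx)]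
    exact hwL
  · have : (a * rho a x)⁻¹ * ((a * x)⁻¹ * a * (a * x)) = 1 := by
      simp only [rho]; group
    rw [this]
    exact one_mem K

/-- The type of a direction only depends on its coset. -/
theorem sz_ftype_congr {d w w' : G} {K : Subgroup G} (h : FType D d K w) (hw : w⁻¹ * w' ∈ K) :
    FType D d K w' := by
  obtain ⟨f, hf, h1, h2, h3⟩ := h
  have e : ext (ext K d) w' = ext (ext K d) w := by
    refine le_antisymm (sup_le le_sup_left (zpowers_le.2 ?_)) (sup_le le_sup_left (zpowers_le.2 ?_))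
    · have := mul_mem (sz_mem_ext_right (ext K d) w) (sz_mem_ext_left w (sz_mem_ext_left d hw))
      simpa using this
    · have := mul_mem (sz_mem_ext_right (ext K d) w')
        (sz_mem_ext_left w' (sz_mem_ext_left d (inv_mem hw)))
      simpa using this
  refine ⟨f, hf, h1, e ▸ h2, ?_⟩
  have := mul_mem (inv_mem hw) h3
  convert this using 1
  group

/-- Transport of the tower at `a * α` to a tower at `a`. -/
theorem sz_data (H : Hyp p k D) {a α : G} (ha : a ∈ D) {K A B : Subgroup G} (T : Tower a A)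
    (hA : A ≤ Cz K) (hα : α ∈ A) (TB : Tower (a * α) B) (hB : B ≠ ⊥) (hBK : B ≤ Cz (ext K a)) :
    ∃ t ∈ A, rho a t = α ∧ ∃ B', Tower a B' ∧ B' ≤ Cz (ext K (t * a * t⁻¹)) ∧
      ∃ x ∈ B', rho a (rho a x) ≠ 1 ∧ Commute a (rho a (rho a x)) := by
  obtain ⟨t, ht, rfl⟩ := T.surj α hα
  have T' : Tower a (cjs B t⁻¹) := by
    have := TB.cjs t⁻¹
    rw [mul_rho] at this
    convert this using 1
    group
  refine ⟨t, ht, rfl, cjs B t⁻¹, T', ?_, ?_⟩
  · have := cjs_mono hBK t⁻¹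
    rwa [cjs_Cz, cjs_ext, cjs_eq_of_Nz (inv_mem (Cz_le_Nz K (hA ht))), inv_inv] at this
  · obtain ⟨z, hz, hz1, hc⟩ := T'.exists_ker H ha (fun h => hB (cjs_eq_bot.1 h))
    obtain ⟨z₂, hz₂, rfl⟩ := T'.surj z hz
    obtain ⟨x, hx, rfl⟩ := T'.surj z₂ hz₂
    exact ⟨x, hx, hz1, hc⟩

/-- A decreasing family of sets of pairwise joinable nontrivial bounded groups has a common
nontrivial member. -/
theorem sz_common (hG : IsPGroup p G) (n : ℕ) (𝒯 : ℕ → Set (Subgroup G))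
    (hanti : ∀ i j, i ≤ j → 𝒯 j ⊆ 𝒯 i) (hfr : ∀ j, ∀ C ∈ 𝒯 j, FR p C ∧ (Om p C).ncard ≤ n)
    (hsup : ∀ j, ∀ C ∈ 𝒯 j, ∀ C' ∈ 𝒯 j, C ⊔ C' ∈ 𝒯 j) (hne : ∀ j, ∃ C ∈ 𝒯 j, C ≠ ⊥) :
    ∃ B, B ≠ ⊥ ∧ ∀ j, B ∈ 𝒯 j := by
  classical
  have hmax : ∀ j, ∃ M ∈ 𝒯 j, ∀ C ∈ 𝒯 j, C ≤ M := by
    intro j
    obtain ⟨C₀, hC₀, -⟩ := hne j
    have hb : BddAbove ((fun C => (Om p C).ncard) '' 𝒯 j) :=
      ⟨n, by rintro _ ⟨C, hC, rfl⟩; exact (hfr j C hC).2⟩
    obtain ⟨M, hM, hMe⟩ := Nat.sSup_mem (Set.Nonempty.image _ ⟨C₀, hC₀⟩) hb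
    refine ⟨M, hM, fun C hC => ?_⟩
    by_contra hlt
    have h1 : M < M ⊔ C := left_lt_sup.2 hlt
    have h2 := om_lt hG (hfr j M hM).1.div (hfr j _ (hsup j M hM C hC)).1 h1
    have h3 := le_csSup hb ⟨M ⊔ C, hsup j M hM C hC, rfl⟩
    simp only at hMe h3
    omega
  choose M hM hM' using hmax
  obtain ⟨j₀, hj₀⟩ : ∃ j₀, ∀ j, (Om p (M j₀)).ncard ≤ (Om p (M j)).ncard :=
    ⟨Function.argmin fun j => (Om p (M j)).ncard, fun j => Function.argmin_le (fun j => (Om p (M j)).ncard) j⟩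
  refine ⟨M j₀, ?_, fun j => ?_⟩
  · obtain ⟨C, hC, hC'⟩ := hne j₀
    exact fun h => hC' (le_bot_iff.1 (h ▸ hM' j₀ C hC))
  · have h1 : M (max j j₀) ≤ M j₀ := hM' j₀ _ (hanti _ _ (le_max_right _ _) (hM _))
    have h2 : M (max j j₀) = M j₀ := by
      by_contra hne'
      have := om_lt hG (hfr _ _ (hM (max j j₀))).1.div (hfr _ _ (hM j₀)).1 (lt_of_le_of_ne h1 hne')
      have := hj₀ (max j j₀)
      omega
    exact hanti _ _ (le_max_left _ _) (h2 ▸ hM (max j j₀))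

theorem sz_ultra {J : Set ℕ} (hJ : J.Infinite) :
    ∃ r : Ultrafilter ℕ, (∀ᶠ m in r, m ∈ J) ∧ ∀ j : ℕ, ∀ᶠ m in (r : Filter ℕ), j ≤ m := by
  have hne : (atTop ⊓ 𝓟 J).NeBot :=
    frequently_mem_iff_neBot.1 (Nat.frequently_atTop_iff_infinite.2 hJ)
  refine ⟨Ultrafilter.of (atTop ⊓ 𝓟 J), ?_, fun j => ?_⟩
  · exact (Ultrafilter.of_le _).trans inf_le_right (mem_principal_self J)
  · exact (Ultrafilter.of_le _).trans inf_le_left (eventually_ge_atTop j)

/-- Lemma Z. -/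
theorem lemZ (H : Hyp p k D) {a : G} (ha : a ∈ D) {K₀ : Subgroup G} (hD : Dich p D K₀ a)
    (hM : MTwo p D K₀ a) (S : ℕ → Subgroup G) (h0 : K₀ ≤ S 0) (hm : ∀ i, S i ≤ S (i + 1))
    (hf : ∀ i, (S i : Set G).Finite) (hn : ∀ i, a ∈ Nz (S i)) {A : Subgroup G} (T : Tower a A)
    (hA : ∀ i, A ≤ Cz (S i)) (hA' : ∀ α ∈ A, ∃ i, α ∈ S i) {J : Set ℕ} (hJ : J.Infinite)
    (h : ∀ m ∈ J, ∃ α ∈ A, α ∉ S m ∧ rho a α ∈ S m ∧ ∃ B, Tower (a * α) B ∧ B ≠ ⊥ ∧
      B ≤ Cz (ext (S m) a)) : False := by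
  have hmono : Monotone S := monotone_nat_of_le_succ hm
  have hdata : ∀ m ∈ J, ∃ t ∈ A, rho a t ∉ S m ∧ rho a (rho a t) ∈ S m ∧ ∃ B', Tower a B' ∧
      B' ≤ Cz (ext (S m) (t * a * t⁻¹)) ∧
      ∃ x ∈ B', rho a (rho a x) ≠ 1 ∧ Commute a (rho a (rho a x)) := by
    intro m hmJ
    obtain ⟨α, hα, h1, h2, B, TB, hB, hBK⟩ := h m hmJ
    obtain ⟨t, ht, rfl, h3⟩ := sz_data H ha T (hA m) hα TB hB hBK
    exact ⟨t, ht, h1, h2, h3⟩
  choose! t ht ht1 ht2 B TB hB x hx hx1 hx2 using hdata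
  obtain ⟨r, hr, hr'⟩ := sz_ultra hJ
  have hz2 : ∀ m ∈ J, rho a (x m) ∈ B m := fun m hm => rho_mem_of_Nz (TB m hm).norm (hx m hm)
  have hz1 : ∀ m ∈ J, rho a (rho a (x m)) ∈ B m :=
    fun m hm => rho_mem_of_Nz (TB m hm).norm (hz2 m hm)
  have hBS : ∀ m ∈ J, B m ≤ Cz (S m) := fun m hm => (hB m hm).trans (Cz_anti le_sup_left)
  have hBa : ∀ m ∈ J, ∀ β ∈ B m, Commute (t m * a * (t m)⁻¹) β :=
    fun m hm β hβ => (mem_Cz_ext.1 (hB m hm hβ)).2
  -- the last image is constant along `r`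
  obtain ⟨z, hz⟩ : ∃ z, ∀ᶠ m in r, rho a (rho a (x m)) = z := by
    obtain ⟨y, -, hy⟩ := ultra_fin r (H.finite_comm ha) (fun m => a * rho a (rho a (x m)))
      (hr.mono fun m hm => ⟨(TB m hm).mul_mem H ha (hz1 m hm),
        (Commute.refl a).mul_right (hx2 m hm)⟩)
    exact ⟨a⁻¹ * y, hy.mono fun m hm => by rw [← hm]; group⟩
  have hza : Commute a z := by
    obtain ⟨m, h1, h2⟩ := (hr.and hz).exists
    exact h2 ▸ hx2 m h1
  have hzS : ∀ j, z ∈ Cz (S j) := fun j => by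
    obtain ⟨m, ⟨h1, h2⟩, h3⟩ := ((hr.and hz).and (hr' j)).exists
    exact Cz_anti (hmono h3) (h2 ▸ hBS m h1 (hz1 m h1))
  have hNf : ∀ j, ((ext (S j) z : Subgroup G) : Set G).Finite :=
    fun j => finite_ext H.prime H.pgrp (Cz_le_Nz _ (hzS j)) (hf j)
  have hNa : ∀ j, a ∈ Nz (ext (S j) z) := fun j =>
    mem_Nz_ext H.prime H.pgrp (hn j)
      (by rw [commute_iff_conj.1 hza.symm]; exact sz_mem_ext_right _ _)
  have hN0 : ∀ j, K₀ ≤ ext (S j) z := fun j => h0.trans ((hmono (Nat.zero_le j)).trans le_sup_left)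
  have hBN : ∀ j, ∀ᶠ m in r, B m ≤ Cz (ext (S j) z) := fun j => by
    filter_upwards [hr, hz, hr' j] with m h1 h2 h3 β hβ
    exact mem_Cz_ext.2 ⟨Cz_anti (hmono h3) (hBS m h1 hβ),
      (TB m h1).comm _ (h2 ▸ hz1 m h1) β hβ⟩
  -- the middle images avoid all cosets
  have hNon : ∀ j, NonC r (fun m => rho a (x m)) (ext (S j) z) := by
    intro j g
    by_contra hcon
    have hcon' : ∀ᶠ m in r, g⁻¹ * rho a (x m) ∈ ext (S j) z := by
      simpa using Ultrafilter.eventually_not.2 hcon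
    obtain ⟨m₀, h1, h2⟩ := (hr.and hcon').exists
    have hα : rho a (t m₀) ∈ A := rho_mem_of_Nz T.norm (ht m₀ h1)
    obtain ⟨i, hi⟩ := hA' _ hα
    obtain ⟨m, ⟨h3, h4⟩, h5⟩ := ((hr.and hcon').and (hr' i)).exists
    have c1 : Commute (rho a (t m₀)) (rho a (x m)) :=
      mem_Cz.1 (hBS m h3 (hz2 m h3)) _ (hmono h5 hi)
    have c2 : rho a (t m₀) ∈ Cz (ext (S j) z) :=
      mem_Cz_ext.2 ⟨hA j hα, (mem_Cz.1 (hzS i) _ hi).symm⟩
    have c3 : Commute (rho a (t m₀)) ((rho a (x m))⁻¹ * rho a (x m₀)) := by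
      have := mul_mem (inv_mem h4) h2
      have e : (g⁻¹ * rho a (x m))⁻¹ * (g⁻¹ * rho a (x m₀)) =
          (rho a (x m))⁻¹ * rho a (x m₀) := by group
      rw [e] at this
      exact (mem_Cz.1 c2 _ this).symm
    have c4 : Commute (rho a (t m₀)) (rho a (x m₀)) := by
      simpa using c1.mul_right c3
    have c5 := (hBa m₀ h1 _ (hz2 m₀ h1)).mul_left c4
    have e : t m₀ * a * (t m₀)⁻¹ * rho a (t m₀) = a := by
      have := T.comm _ (ht m₀ h1) _ hα
      calc t m₀ * a * (t m₀)⁻¹ * rho a (t m₀) = t m₀ * a * (rho a (t m₀) * (t m₀)⁻¹) := by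
            rw [mul_assoc (t m₀ * a), this.inv_left.eq]
        _ = a := by simp only [rho]; group
    rw [e] at c5
    exact hx1 m₀ h1 (rho_eq_one_iff.2 c5)
  have hPD : ∀ j, ∀ᶠ m in r, PD a (ext (S j) z) (x m) := fun j => by
    filter_upwards [hr, hz, hBN j, hNon j 1] with m h1 h2 h3 h4
    refine ⟨h3 (hx m h1), by simpa using h4, h2 ▸ sz_mem_ext_right _ _, ?_⟩
    rw [rho_eq_one_iff.2 ((TB m h1).comm _ (hz2 m h1) _ (hx m h1))]
    exact one_mem _
  have e1 : (1 : G)⁻¹ * a * 1 = a := by simp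
  have hxD : ∀ m, (x m)⁻¹ * a * x m ∈ D := fun m => H.conj a ha _
  -- the common towers
  obtain ⟨B₁, hB₁, hB₁'⟩ := sz_common H.pgrp (k ^ p)
    (fun j => {C | C ≤ Cz (ext (ext (S j) z) a) ∧ ∀ᶠ m in r, Tower ((x m)⁻¹ * a * x m) C})
    (fun i j hij C hC => ⟨hC.1.trans
      (Cz_anti (sup_le_sup_right (sup_le_sup_right (hmono hij) _) _)), hC.2⟩)
    (fun j C hC => by
      obtain ⟨m, hm⟩ := hC.2.exists
      exact ⟨hm.fr H (hxD m), hm.om_le H (hxD m)⟩)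
    (fun j C hC C' hC' => by
      refine ⟨sup_le hC.1 hC'.1, ?_⟩
      filter_upwards [hC.2, hC'.2, hPD j] with m h1 h2 h3
      have hco := hM 1 (one_mem _) _ (hN0 j) (hNf j) (by rw [e1]; exact hNa j) (x m)
        (by rw [e1]; exact h3)
      rw [e1] at hco
      have hN := (h3.norm_ext H (hNa j)).2.1
      exact h1.sup h2 (hco.towers_comm H (hxD m) h1 h2
        (h1.le_Gam H (hxD m) hN (hC.1.trans (Cz_le_Nz _)))
        (h2.le_Gam H (hxD m) hN (hC'.1.trans (Cz_le_Nz _)))))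
    (fun j => by
      have := hD 1 (one_mem _) _ (hN0 j) (hNf j) (by rw [e1]; exact hNa j) ℕ r x
        (by
          rw [e1]
          filter_upwards [hr, hBN j, hPD j] with m h1 h2 h3
          exact ⟨h3, Or.inl (ftype_tower H ha (hNa j) (TB m h1) h2 (hx m h1) h3.rho_mem)⟩)
        (by rw [e1]; exact hNon j)
      rw [e1] at this
      simp only [NoCT, not_forall] at this
      obtain ⟨C, h1, h2, h3⟩ := this
      exact ⟨C, ⟨h1, h2⟩, h3⟩)
  have hB₁S : ∀ j, B₁ ≤ Cz (S j) :=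
    fun j => (hB₁' j).1.trans (Cz_anti (le_sup_left.trans le_sup_left))
  have hB₁a : ∀ β ∈ B₁, Commute a β := fun β hβ => (mem_Cz_ext.1 ((hB₁' 0).1 hβ)).2
  obtain ⟨m, h1, h2⟩ := (hr.and (hB₁' 0).2).exists
  have T₁ : Tower a (cjs B₁ (x m)⁻¹) := by
    have := h2.cjs (x m)⁻¹
    convert this using 1
    group
  have hB₁t : B₁ ≤ Cz (ext (S m) (t m * a * (t m)⁻¹)) := fun β hβ => by
    obtain ⟨i, hi⟩ := hA' _ (ht m h1)
    have c := mem_Cz.1 (hB₁S i hβ) _ hi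
    exact mem_Cz_ext.2 ⟨hB₁S m hβ, (c.mul_left (hB₁a β hβ)).mul_left c.inv_left⟩
  have hT₁ : cjs B₁ (x m)⁻¹ ≤ Cz (ext (S m) (t m * a * (t m)⁻¹)) := by
    have := cjs_mono hB₁t (x m)⁻¹
    rwa [cjs_eq_of_Nz (inv_mem (le_Nz _ (hB m h1 (hx m h1))))] at this
  have e2 : (t m)⁻¹⁻¹ * a * (t m)⁻¹ = t m * a * (t m)⁻¹ := by rw [inv_inv]
  have e3 : (t m)⁻¹ * (t m * a * (t m)⁻¹) * t m = a := by group
  have htn : t m ∈ Nz (S m) := Cz_le_Nz _ (hA m (ht m h1))
  have hn' : t m * a * (t m)⁻¹ ∈ Nz (S m) := mul_mem (mul_mem htn (hn m)) (inv_mem htn)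
  have hα : rho a (t m) ∈ A := rho_mem_of_Nz T.norm (ht m h1)
  have e4 : ∀ β ∈ A, rho (t m * a * (t m)⁻¹) β = rho a β := fun β hβ => by
    refine rho_congr T.norm (T.comm.le_Cz ?_) hβ
    have := rho_mem_of_Nz T.norm (inv_mem (ht m h1))
    simpa [rho] using this
  have hP : PD (t m * a * (t m)⁻¹) (S m) (t m) := by
    refine ⟨hA m (ht m h1), ?_, ?_, ?_⟩
    · rw [e4 _ (ht m h1)]; exact ht1 m h1
    · rw [e4 _ (ht m h1), e4 _ hα]; exact ht2 m h1
    · rw [e4 _ (ht m h1), rho_eq_one_iff.2 (T.comm _ hα _ (ht m h1))]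
      exact one_mem _
  have hco := hM (t m)⁻¹ (inv_mem (Cz_anti h0 (hA 0 (ht m h1)))) (S m)
    (h0.trans (hmono (Nat.zero_le m))) (hf m) (by rw [e2]; exact hn') (t m) (by rw [e2]; exact hP)
  have hP' : PD (t m * a * (t m)⁻¹) (S m) (t m) := hP
  have hN := (hP'.norm_ext (p := p) (k := k) (D := D) H hn').2.1
  rw [e2, e3] at hco
  rw [e3] at hN
  have hc := hco.towers_comm H ha (TB m h1) T₁
    ((TB m h1).le_Gam H ha hN ((hB m h1).trans (Cz_le_Nz _)))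
    (T₁.le_Gam H ha hN (hT₁.trans (Cz_le_Nz _)))
  have e5 : cjs B₁ (x m)⁻¹ = B₁ := by
    have := cjs_eq_of_Nz (Cz_le_Nz _ (hc (hx m h1)))
    rw [cjs_cjs, inv_mul_cancel, cjs_one] at this
    exact this.symm
  rw [e5] at T₁
  exact hB₁ (T₁.eq_bot (mem_Cz.2 fun β hβ => (hB₁a β hβ).symm))

theorem exists_szero (H : Hyp p k D) {a : G} (ha : a ∈ D) {K : Subgroup G}
    (hK : (K : Set G).Finite) (hn : a ∈ Nz K) (hl : ¬ CO p (Gam D K) a) (hD : Dich p D K a)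
    (hM : MTwo p D K a) : ∃ K₀, K ≤ K₀ ∧ (K₀ : Set G).Finite ∧ a ∈ Nz K₀ ∧
      ¬ CO p (Gam D K₀) a ∧ SZero p D K₀ a := by
  by_contra hcon
  obtain ⟨S', y, hS0, hS⟩ := seq_of_step (α := Subgroup G) (β := Subgroup G × G)
    (fun L => K ≤ L ∧ (L : Set G).Finite ∧ a ∈ Nz L ∧ ¬ CO p (Gam D L) a)
    (fun L y L' => L ≤ y.1 ∧ (y.1 : Set G).Finite ∧ a ∈ Nz y.1 ∧ PD a y.1 y.2 ∧
      L' = ext y.1 (rho a y.2) ∧ (FType D a y.1 (rho a y.2) →
        ∃ B, Tower (y.2⁻¹ * a * y.2) B ∧ B ≤ Cz (ext y.1 a) ∧ B ≠ ⊥))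
    K ⟨le_rfl, hK, hn, hl⟩ (fun L hL => by
      have hs : ¬ SZero p D L a := fun hs => hcon ⟨L, hL.1, hL.2.1, hL.2.2.1, hL.2.2.2, hs⟩
      simp only [SZero, not_forall] at hs
      obtain ⟨K', h1, h2, h3, x, h4, h5, h6⟩ := hs
      refine ⟨(K', x), ext K' (rho a x), ⟨hL.1.trans (h1.trans le_sup_left),
        finite_ext H.prime H.pgrp (Cz_le_Nz _ (h4.rho_cent h3)) h2, (h4.norm_ext H h3).1, h5⟩,
        h1, h2, h3, h4, rfl, fun hF => ?_⟩
      by_contra hB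
      exact h6 ⟨fun B hB1 hB2 => by_contra fun hB3 => hB ⟨B, hB1, hB2, hB3⟩, hF⟩)
  obtain ⟨S, hSe⟩ : ∃ S : ℕ → Subgroup G, ∀ i, S i = (y i).1 := ⟨_, fun _ => rfl⟩
  obtain ⟨x, hxe⟩ : ∃ x : ℕ → G, ∀ i, x i = (y i).2 := ⟨_, fun _ => rfl⟩
  simp only [← hSe, ← hxe] at hS
  have hext : ∀ i, ext (S i) (rho a (x i)) ≤ S (i + 1) :=
    fun i => (hS i).2.2.2.2.2.1 ▸ (hS (i + 1)).2.1
  have hm : ∀ i, S i ≤ S (i + 1) := fun i => le_sup_left.trans (hext i)
  have hmono : Monotone S := monotone_nat_of_le_succ hm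
  have hf : ∀ i, (S i : Set G).Finite := fun i => (hS i).2.2.1
  have hSn : ∀ i, a ∈ Nz (S i) := fun i => (hS i).2.2.2.1
  have hP : ∀ i, PD a (S i) (x i) := fun i => (hS i).2.2.2.2.1
  have hw : ∀ i, rho a (x i) ∈ S (i + 1) := fun i => hext i (sz_mem_ext_right _ _)
  have hwc : ∀ i, rho a (x i) ∈ Cz (S i) := fun i => (hP i).rho_cent (hSn i)
  have hCb : ∀ g : G, g ∈ Cz (⊥ : Subgroup G) := fun g => mem_Cz.2 fun α hα => by
    rw [Subgroup.mem_bot.1 hα]; exact Commute.one_left g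
  obtain ⟨A, φ, T, -, -, hJ, hL, i₀, hφ⟩ := chain H ha (tower_bot a) S x hm hSn
    (fun i g _ => hCb g) (fun i => ⟨(hP i).cent, hCb _⟩) hw
    (fun i => by rw [sup_bot_eq]; exact (hP i).notMem)
    (fun i => by rw [sup_bot_eq]; exact (hP i).rho_mem)
  have hA : ∀ i, A ≤ Cz (S i) := fun i =>
    hL _ (Nz_Cz (hSn i)) bot_le ⟨i, fun j hj => Cz_anti (hmono hj) (hwc j)⟩
  have hA' : ∀ α ∈ A, ∃ i, α ∈ S i := by
    have hdir : Directed (· ≤ ·) S := hmono.directed_le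
    have := hL (⨆ i, S i) (mem_Nz_of_conj H.prime H.pgrp fun α hα => by
      obtain ⟨i, hi⟩ := (mem_iSup_of_directed hdir).1 hα
      exact (mem_iSup_of_directed hdir).2 ⟨i, Nz_conj (hSn i) hi⟩) bot_le
      ⟨0, fun i _ => (mem_iSup_of_directed hdir).2 ⟨i + 1, hw i⟩⟩
    exact fun α hα => (mem_iSup_of_directed hdir).1 (this hα)
  refine lemZ H ha hD hM S ((hS 0).1.1.trans (hS 0).2.1) hm hf hSn T hA hA'
    (hJ.sdiff (Set.finite_le_nat i₀)) fun m hmJ => ?_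
  obtain ⟨hα, hmi⟩ := hmJ
  have hφm : φ ∈ S m := hφ ▸ hmono (Nat.succ_le_of_lt (not_le.1 hmi)) (hw i₀)
  have hwn : rho a (x m) ∈ Nz (S m) := Cz_le_Nz _ (hwc m)
  have hr : rho a (φ⁻¹ * rho a (x m)) ∈ S m := by
    have := mul_mem (hP m).rho_mem (Nz_conj hwn (rho_mem_of_Nz (hSn m) (inv_mem hφm)))
    convert this using 1
    generalize rho a (x m) = w
    simp only [rho]; group
  have hk : (φ⁻¹ * rho a (x m))⁻¹ * rho a (x m) ∈ S m := by
    have := Nz_conj hwn hφm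
    convert this using 1
    group
  refine ⟨φ⁻¹ * rho a (x m), hα, fun h => (hP m).notMem ?_, hr, ?_⟩
  · simpa using mul_mem hφm h
  · obtain ⟨t, ht, hte⟩ := T.surj _ hα
    have hF := ftype_tower H ha (hSn m) T (hA m) ht (hte ▸ hr)
    rw [hte] at hF
    obtain ⟨B, TB, hB, hB'⟩ := (hS m).2.2.2.2.2.2 (sz_ftype_congr hF hk)
    refine ⟨B, TB.congr ?_, hB', hB⟩
    have h1 : S m ≤ Cz B := le_Cz_comm.1 (hB.trans (Cz_anti le_sup_left))
    have := h1 (inv_mem hk)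
    rw [← mul_rho]
    convert this using 1
    group

theorem SZero.ok {a x : G} {K₀ K : Subgroup G} (h : SZero p D K₀ a) (hK : K₀ ≤ K)
    (hf : (K : Set G).Finite) (hn : a ∈ Nz K) (hx : PD a K x)
    (hc : FType D a K (rho a x) ∨ CType D a K (rho a x)) : OK p D a K (rho a x) := by
  rcases hc with hc | hc
  · exact Or.inl hc
  · by_cases hco : CO p (Gam D (ext K (rho a x))) a
    · exact Or.inr ⟨hco, hc⟩
    · exact Or.inl (h K hK hf hn x hx hco).2

/-- If the generators commute modulo a normalised subgroup, the derived subgroup lies in it. -/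
theorem sz_comm_le {S : Set G} {N : Subgroup G} (hn : closure S ≤ Nz N)
    (h : ∀ s ∈ S, ∀ s' ∈ S, rho s s' ∈ N) : ⁅closure S, closure S⁆ ≤ N := by
  have step : ∀ g : G, (∀ s ∈ S, rho g s ∈ N) → ∀ u ∈ closure S, rho g u ∈ N := by
    intro g hg u hu
    induction hu using closure_induction with
    | mem s hs => exact hg s hs
    | one => simp [rho]
    | mul u v hu hv ihu ihv =>
      have := mul_mem ihv (Nz_conj (hn hv) ihu)
      convert this using 1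
      simp only [rho]; group
    | inv u hu ihu =>
      have := inv_mem (Nz_conj' (hn hu) ihu)
      convert this using 1
      simp only [rho]; group
  refine commutator_le.2 fun g hg u hu => ?_
  have := step g⁻¹ (fun s hs => by
    rw [sz_rho_swap]
    exact inv_mem (step s (h s hs) _ (inv_mem hg))) _ (inv_mem hu)
  convert this using 1
  simp only [rho, commutatorElement_def]; group

theorem sz_Nz_closure_orb (H : Hyp p k D) (d : G) (P : Subgroup G) :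
    P ≤ Nz (closure (orb d P)) := fun g hg => by
  refine mem_Nz_of_conj H.prime H.pgrp fun α hα => ?_
  have : closure (orb d P) ≤ cjs (closure (orb d P)) g⁻¹ := by
    refine (closure_le _).2 ?_
    rintro _ ⟨u, hu, rfl⟩
    refine mem_cjs.2 (subset_closure ⟨u * g, mul_mem hu hg, ?_⟩)
    group
  simpa using this hα

/-- The central direction of a pure pair. -/
theorem cd (H : Hyp p k D) {y b : G} (hy : y ∈ D) (hb : b ∈ D) {K : Subgroup G}
    (hn : y ∈ Nz K) (hp : y⁻¹ * b ∈ Cz K) :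
    rho y b ∈ K ∨ ∃ d ∈ ({y, b} : Set G), ∃ x ∈ closure ({y, b} : Set G), PD d K x ∧
      (FType D d K (rho d x) ∨ CType D d K (rho d x)) ∧
      rho (rho d x) y ∈ K ∧ rho (rho d x) b ∈ K := by
  have hbn : b ∈ Nz K := by simpa using mul_mem hn (Cz_le_Nz K hp)
  have hSD : ∀ s ∈ ({y, b} : Set G), s ∈ D ∧ s ∈ Nz K := by
    rintro s (rfl | rfl)
    · exact ⟨hy, hn⟩
    · exact ⟨hb, hbn⟩
  have hP : closure ({y, b} : Set G) ≤ Nz K := (closure_le _).2 fun s hs => (hSD s hs).2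
  have hyP : y ∈ closure ({y, b} : Set G) := subset_closure (by simp)
  have hbP : b ∈ closure ({y, b} : Set G) := subset_closure (by simp)
  have hpure : ∀ s ∈ ({y, b} : Set G), ∀ s' ∈ ({y, b} : Set G), s⁻¹ * s' ∈ Cz K := by
    rintro s (rfl | rfl) s' (rfl | rfl)
    · simp
    · exact hp
    · simpa using inv_mem hp
    · simp
  rcases lcs_dir H.prime H.pgrp hP (finMod_of_finite K (H.fin y hy b hb)) with h | h
  · exact Or.inl (h y (by simp) b (by simp))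
  obtain ⟨d, hd, x, hx, h1, h2⟩ := h
  have hdP : d ∈ closure ({y, b} : Set G) := subset_closure hd
  have hdd : rho d (rho d x) ∈ K := by
    rw [sz_rho_swap]
    exact inv_mem (h2 d hdP)
  have hw : ∀ g ∈ closure ({y, b} : Set G), g⁻¹ * rho d x * g ∈ ext K (rho d x) := fun g hg => by
    rw [← mul_rho]
    exact mul_mem (sz_mem_ext_right _ _) (sz_mem_ext_left _ (h2 g hg))
  right
  rcases hx with hx | hx
  · have hxP : x ∈ closure ({y, b} : Set G) :=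
      sz_comm_le (le_Nz _) (fun s hs s' hs' =>
        rho_mem_of_Nz (le_Nz _ (subset_closure hs)) (subset_closure hs')) hx
    have hxC : x ∈ Cz K := by
      refine sz_comm_le (fun g hg => Nz_Cz (hP hg)) (fun s hs s' hs' => ?_) hx
      have := rho_mem_of_Nz (Nz_Cz (hSD s hs).2) (hpure s hs s' hs')
      convert this using 1
      simp only [rho]; group
    have hxO : x ∈ closure (orb d (closure ({y, b} : Set G) : Subgroup G)) := by
      have hdO : d ∈ closure (orb d (closure ({y, b} : Set G) : Subgroup G)) :=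
        subset_closure ⟨1, one_mem _, by simp⟩
      have hN := sz_Nz_closure_orb H d (closure ({y, b} : Set G))
      have key : ∀ s ∈ ({y, b} : Set G),
          rho d s ∈ closure (orb d (closure ({y, b} : Set G) : Subgroup G)) :=
        fun s hs => rho_mem_of_Nz' (hN (subset_closure hs)) hdO
      refine sz_comm_le hN (fun s hs s' hs' => ?_) hx
      by_cases e1 : s = d
      · exact e1 ▸ key s' hs'
      by_cases e2 : s' = d
      · rw [sz_rho_swap, e2]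
        exact inv_mem (key s hs)
      have e3 : s = s' := by
        simp only [Set.mem_insert_iff, Set.mem_singleton_iff] at hs hs' hd
        rcases hs with rfl | rfl <;> rcases hs' with rfl | rfl <;> rcases hd with rfl | rfl <;>
          simp_all
      rw [e3, rho_eq_one_iff.2 (Commute.refl s')]
      exact one_mem _
    have hG : closure ({y, b} : Set G) ≤ Gam D (ext K (rho d x)) :=
      (closure_le _).2 fun s hs => mem_Gam (hSD s hs).1
        (mem_Nz_ext H.prime H.pgrp (hSD s hs).2 (hw s (subset_closure hs)))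
    refine ⟨d, hd, x, hxP, ⟨hxC, h1, hdd, h2 x hxP⟩, Or.inr ⟨x, closure_mono ?_ hxO, ?_⟩,
      h2 y hyP, h2 b hbP⟩
    · rintro _ ⟨g, hg, rfl⟩
      exact ⟨⟨g, hG hg, rfl⟩, mul_mem (mul_mem (inv_mem (hP hg)) (hP hdP)) (hP hg)⟩
    · rw [mul_rho, inv_mul_cancel]
      exact one_mem K
  · have hxP : x ∈ closure ({y, b} : Set G) := subset_closure hx
    have e : rho d (d⁻¹ * x) = rho d x := by simp only [rho]; group
    have hx' : d⁻¹ * x ∈ closure ({y, b} : Set G) := mul_mem (inv_mem hdP) hxP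
    refine ⟨d, hd, d⁻¹ * x, hx', ⟨hpure d hd x hx, ?_, ?_, ?_⟩, Or.inl ?_, ?_, ?_⟩ <;> rw [e]
    · exact h1
    · exact hdd
    · exact h2 _ hx'
    · refine ⟨x, (hSD x hx).1, (hSD x hx).2, sz_Nz_ext2 H (hSD x hx).2 ?_ ?_, ?_⟩
      · rw [← mul_rho]
        exact mul_mem (sz_mem_ext_left _ (sz_mem_ext_right _ _)) (sz_mem_ext_right _ _)
      · exact (sup_le_sup_right le_sup_left _ : ext K (rho d x) ≤ ext (ext K d) (rho d x))
          (hw x hxP)
      · rw [mul_rho, inv_mul_cancel]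
        exact one_mem K
    · exact h2 y hyP
    · exact h2 b hbP

end Pool.Agent.Lib.MP_7d7b85_al
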