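import Pool.Agent.Lib.MP_7d7b85_al.Term
import Pool.Agent.Lib.MP_7d7b85_al.Dicho

namespace Pool.Agent.Lib.MP_7d7b85_al

open Subgroup Filter

variable {G : Type} [Group G] {p k : ℕ} {D : Set G}

theorem ts_step (hP : Prev p k) {n : ℕ} (hT : TS p k (n + 1)) : TS p k n := by
  intro G _ D H K t a hg hn
  by_contra hl
  obtain ⟨K₀, hle, hf, hn₀, hl₀, hZ⟩ := exists_szero H hg.mem hg.fin hg.norm hl
    (dich hT H hg hn) (mtwo hT H hg hn)
  have hD := (dich hT H hg hn).mono hle
  have hM := (mtwo hT H hg hn).mono hle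
  by_cases hB : MT (Cz K₀) a = ⊥
  · exact hl₀ (term_case H hg.mem hf hn₀ hD hZ hB)
  · exact hl₀ (tower_case hP H hg.mem hf hn₀ (nice hP H hg.mem hf hn₀ hD hM hZ) hB)

theorem ts_zero (hP : Prev p k) : TS p k 0 := by
  have h0 : TS p k (2 * k * (k + 1) + k * k + 1) := fun G _ D H K t a hg hn => by
    have := hg.m_le H
    have := hg.n_le H
    omega
  exact Nat.decreasingInduction (motive := fun n _ => TS p k n) (fun n _ h => ts_step hP h) h0
    (Nat.zero_le _)

theorem main (p k : ℕ) : Main p k := by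
  induction k using Nat.strong_induction_on with
  | _ k ih =>
    intro G _ D H a ha
    obtain ⟨t, ht⟩ := exists_good_bot H ha
    have := ts_zero (p := p) (k := k) ih G D H ⊥ t a ht (Nat.zero_le _)
    have e : Gam D (⊥ : Subgroup G) = closure D := by
      have : Nz (⊥ : Subgroup G) = ⊤ := normalizer_eq_top _
      simp [Gam, this]
    rwa [e] at this

end Pool.Agent.Lib.MP_7d7b85_al
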