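import Pool.Agent.Lib.MP_7d7b85_al.Final

/-! The structure of the normal closure of the special element. -/

namespace Pool.Agent.Lib.MP_7d7b85_al

open Subgroup
open scoped commutatorElement

variable {G : Type} [Group G] {p : ℕ} {a : G}

/-- A finite normal subgroup of a `p`-group lies in a term of the upper central series. -/
theorem st_le_ucs (hp : p.Prime) (hG : IsPGroup p G) (M : Subgroup G) [M.Normal]
    (hM : (M : Set G).Finite) : ∃ c, M ≤ Subgroup.upperCentralSeries G c := by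
  have key : ∀ j, M ≤ Subgroup.upperCentralSeries G j ∨
      j ≤ ((M ⊓ Subgroup.upperCentralSeries G j : Subgroup G) : Set G).ncard := by
    intro j
    induction j with
    | zero => exact Or.inr (Nat.zero_le _)
    | succ j ih =>
      have hmono := Subgroup.upperCentralSeries_mono G (Nat.le_succ j)
      by_cases h : M ≤ Subgroup.upperCentralSeries G j
      · exact Or.inl (h.trans hmono)
      right
      have hlt : M ⊓ Subgroup.upperCentralSeries G j < M :=
        lt_of_le_of_ne inf_le_left fun e => h (inf_eq_left.1 e)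
      obtain ⟨q, hq, hq1, hq2⟩ := fixMod hp hG (R := ⊤) hM hlt
        (by rw [show Nz M = ⊤ from normalizer_eq_top _])
        (by rw [show Nz (M ⊓ Subgroup.upperCentralSeries G j) = ⊤ from normalizer_eq_top _])
      have hq3 : q ∈ Subgroup.upperCentralSeries G (j + 1) := by
        rw [← inv_mem_iff, Subgroup.mem_upperCentralSeries_succ_iff]
        intro y
        have := (hq2 y⁻¹ trivial).2
        simpa [rho, commutatorElement_def, mul_assoc] using this
      have hss : ((M ⊓ Subgroup.upperCentralSeries G j : Subgroup G) : Set G) ⊂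
          ((M ⊓ Subgroup.upperCentralSeries G (j + 1) : Subgroup G) : Set G) :=
        ⟨fun x hx => ⟨hx.1, hmono hx.2⟩, fun hc => hq1 (hc ⟨hq, hq3⟩)⟩
      have := Set.ncard_lt_ncard hss (hM.subset fun x hx => hx.1)
      have := ih.resolve_left h
      omega
  rcases key ((M : Set G).ncard + 1) with h | h
  · exact ⟨_, h⟩
  · have := Set.ncard_le_ncard (s := ((M ⊓ Subgroup.upperCentralSeries G ((M : Set G).ncard + 1) :
      Subgroup G) : Set G)) (t := (M : Set G)) (fun x hx => hx.1) hM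
    omega

/-- If `a` has finitely many conjugates in its normal closure, the latter is nilpotent. -/
theorem st_nilpotent (hp : p.Prime) (hG : IsPGroup p G)
    (h : (orb a (normalClosure ({a} : Set G))).Finite) :
    Group.IsNilpotent (normalClosure ({a} : Set G)) := by
  set N := normalClosure ({a} : Set G) with hN
  let b : N := ⟨a, subset_normalClosure rfl⟩
  have hX : (Group.conjugatesOfSet ({b} : Set N)).Finite := by
    refine Set.Finite.of_finite_image (f := Subtype.val) (h.subset ?_)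
      Subtype.val_injective.injOn
    rintro _ ⟨x, hx, rfl⟩
    have hc : IsConj b x := by simpa using Group.mem_conjugatesOfSet_iff.1 hx
    obtain ⟨g, rfl⟩ := isConj_iff.1 hc
    exact ⟨(g : G)⁻¹, N.inv_mem g.2, by simp [b]⟩
  have hM : ((normalClosure ({b} : Set N) : Subgroup N) : Set N).Finite :=
    dietzmann hp (hG.to_subgroup N) hX fun x hx y _ => by
      simpa using Group.conj_mem_conjugatesOfSet (c := y⁻¹) hx
  obtain ⟨c, hc⟩ := st_le_ucs hp (hG.to_subgroup N) _ hM
  have h1 : N ≤ (Subgroup.upperCentralSeries N c).map N.subtype :=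
    normalClosure_le_normal (by
      rintro _ rfl
      exact ⟨b, hc (subset_normalClosure rfl), rfl⟩)
  refine ⟨c, eq_top_iff.2 fun x _ => ?_⟩
  obtain ⟨y, hy, e⟩ := h1 x.2
  exact (Subtype.ext e : y = x) ▸ hy

theorem st_pow_closure (L : Subgroup G) [L.Normal] {T : Set G} (hT : ∀ t ∈ T, t ^ p ∈ L)
    (hc : ∀ x ∈ closure T, ∀ y ∈ closure T, ⁅x, y⁆ ∈ L) : ∀ x ∈ closure T, x ^ p ∈ L := by
  intro x hx
  refine closure_induction (p := fun x _ => x ^ p ∈ L) hT (by simp) ?_ ?_ hx
  · intro x y hx hy h1 h2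
    have h3 : Commute (QuotientGroup.mk' L x) (QuotientGroup.mk' L y) := by
      rw [← commutatorElement_eq_one_iff_commute, ← map_commutatorElement]
      exact (QuotientGroup.eq_one_iff _).2 (hc x hx y hy)
    rw [← QuotientGroup.eq_one_iff] at h1 h2 ⊢
    change QuotientGroup.mk' L _ = 1 at h1 h2 ⊢
    rw [map_pow] at h1 h2
    rw [map_pow, map_mul, h3.mul_pow, h1, h2, one_mul]
  · intro x _ h1
    rw [inv_pow]
    exact L.inv_mem h1

/-- In a normal subgroup generated by elements killed by `p` all lower central factors are killed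
by `p`. -/
theorem st_pow_lcs (N : Subgroup G) [N.Normal] {S : Set G} (hS : closure S = N)
    (h : ∀ s ∈ S, s ^ p = 1) (i : ℕ) :
    ∀ x ∈ N.lowerCentralSeries i, x ^ p ∈ N.lowerCentralSeries (i + 1) := by
  induction i with
  | zero =>
    intro x hx
    refine st_pow_closure (T := S) _ (fun t ht => by rw [h t ht]; exact one_mem _)
      (fun x hx y hy => ?_) x (hS ▸ hx)
    rw [hS] at hx hy
    exact commutator_mem_commutator hx hy
  | succ i ih =>
    intro x hx
    refine st_pow_closure (N.lowerCentralSeries (i + 1 + 1))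
      (T := {x | ∃ u ∈ N.lowerCentralSeries i, ∃ v ∈ N, ⁅u, v⁆ = x}) ?_
      (fun x hx y hy => commutator_mem_commutator hx
        (lowerCentralSeries_le_self N (i + 1) hy)) x hx
    rintro _ ⟨u, hu, v, hv, rfl⟩
    set L := N.lowerCentralSeries (i + 1 + 1) with hL
    have h1 : ⁅⁅u, v⁆, u⁆ ∈ L := commutator_mem_commutator (commutator_mem_commutator hu hv)
      (lowerCentralSeries_le_self N i hu)
    have h2 : ⁅u ^ p, v⁆ ∈ L := commutator_mem_commutator (ih u hu) hv
    rw [← QuotientGroup.eq_one_iff] at h1 h2 ⊢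
    change QuotientGroup.mk' L _ = 1 at h1 h2 ⊢
    simp only [map_pow, map_commutatorElement] at h1 h2 ⊢
    generalize QuotientGroup.mk' L u = s at h1 h2 ⊢
    generalize QuotientGroup.mk' L v = t at h1 h2 ⊢
    have h3 : Commute s (t * s⁻¹ * t⁻¹) := by
      have h4 := (commutatorElement_eq_one_iff_commute.1 h1).symm
      have e : t * s⁻¹ * t⁻¹ = s⁻¹ * ⁅s, t⁆ := by rw [commutatorElement_def]; group
      rw [e]
      exact (Commute.refl s).inv_right.mul_right h4
    have e : ⁅s, t⁆ = s * (t * s⁻¹ * t⁻¹) := by rw [commutatorElement_def]; group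
    rw [e, h3.mul_pow, conj_pow, ← h2, commutatorElement_def, inv_pow]
    group

theorem st_pow (N : Subgroup G) [N.Normal] {S : Set G} (hS : closure S = N)
    (h : ∀ s ∈ S, s ^ p = 1) (c : ℕ) : ∀ x ∈ N, x ^ p ^ c ∈ N.lowerCentralSeries c := by
  induction c with
  | zero => simp
  | succ c ih =>
    intro x hx
    rw [pow_succ, pow_mul]
    exact st_pow_lcs N hS h c _ (ih x hx)

theorem st_image (B : Subgroup G) [B.Normal] {X : Set G} :
    FinMod B X ↔ (QuotientGroup.mk' B '' X).Finite := by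
  constructor
  · rintro ⟨Φ, hΦ, h⟩
    refine (hΦ.image (QuotientGroup.mk' B)).subset ?_
    rintro _ ⟨x, hx, rfl⟩
    obtain ⟨φ, hφ, hm⟩ := h x hx
    exact ⟨φ, hφ, QuotientGroup.eq.2 hm⟩
  · intro h
    refine ⟨(fun q : G ⧸ B => q.out) '' _, h.image _, fun x hx => ⟨_, ⟨_, ⟨x, hx, rfl⟩, rfl⟩, ?_⟩⟩
    exact QuotientGroup.eq.1 (QuotientGroup.out_eq' _)

/-- Local finiteness from finite classes modulo an abelian normal subgroup. -/
theorem st_locFin (hp : p.Prime) (hG : IsPGroup p G) {N : Subgroup G} (B : Subgroup G) [B.Normal]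
    (hB : Comm B) (h : ∀ x ∈ N, FinMod B (orb x N)) {S : Set G} (hS : S.Finite) (hSN : S ⊆ N) :
    Finite (closure S : Subgroup G) := by
  let π := QuotientGroup.mk' B
  have hX : (⋃ s ∈ S, π '' orb s N).Finite :=
    hS.biUnion fun s hs => (st_image B).1 (h s (hSN hs))
  have hfin := dietzmann hp (hG.to_quotient B) hX (by
    intro x hx y hy
    simp only [Set.mem_iUnion] at hx hy ⊢
    obtain ⟨s, hs, _, ⟨g, hg, rfl⟩, rfl⟩ := hx
    obtain ⟨t, ht, y, hy, rfl⟩ := hy
    refine ⟨s, hs, _, ⟨g * y, N.mul_mem hg (col_orb_subset (hSN ht) (le_Nz N) hy), rfl⟩, ?_⟩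
    simp only [map_mul, map_inv]
    group)
  have h1 : FinMod B (closure S : Subgroup G) := by
    refine (st_image B).2 (hfin.subset ?_)
    rw [← coe_map, MonoidHom.map_closure]
    refine closure_mono ?_
    rintro _ ⟨s, hs, rfl⟩
    exact Set.mem_biUnion hs ⟨s, ⟨1, N.one_mem, by simp⟩, rfl⟩
  set H : Subgroup G := closure S with hH
  have hfg : Group.FG H := by
    have := hS.to_subtype
    exact Group.closure_finite_fg _
  have hfi : (B.subgroupOf H).FiniteIndex := ⟨finMod_iff_relIndex.1 h1⟩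
  have hcf : Finite (B.subgroupOf H) := by
    let : CommGroup (B.subgroupOf H) :=
      { mul_comm := fun x y => Subtype.ext (Subtype.ext (hB _ x.2 _ y.2)) }
    refine CommGroup.finite_of_fg_isMulTorsion _ fun x => ?_
    obtain ⟨k, hk⟩ := ((hG.to_subgroup H).to_subgroup (B.subgroupOf H)) x
    exact isOfFinOrder_iff_pow_eq_one.2 ⟨p ^ k, pow_pos hp.pos k, hk⟩
  have : Finite (H ⧸ B.subgroupOf H) := Subgroup.finite_quotient_of_finiteIndex
  exact Finite.of_subgroup_quotient (B.subgroupOf H)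

theorem st_orb : closure (orb a Set.univ) = normalClosure ({a} : Set G) := by
  unfold normalClosure
  congr 1
  ext x
  rw [Group.mem_conjugatesOfSet_iff]
  simp only [Set.mem_singleton_iff, exists_eq_left, isConj_iff]
  exact ⟨fun ⟨g, _, e⟩ => ⟨g⁻¹, by simp [e]⟩, fun ⟨g, e⟩ => ⟨g⁻¹, trivial, by simp [← e]⟩⟩

theorem st_hyp (hp : p.Prime) (hodd : p ≠ 2) (hG : IsPGroup p G) (hap : a ^ p = 1)
    (h1 : ∀ g : G, ((closure ({a, g⁻¹ * a * g} : Set G) : Subgroup G) : Set G).Finite)
    (h2 : ({x : G | Commute x a} ∩ {x : G | IsConj a x}).Finite) :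
    Hyp p ({x : G | Commute x a} ∩ {x : G | IsConj a x}).ncard (orb a Set.univ) := by
  refine ⟨hp, hodd, hG, ?_, ?_, ?_, ?_⟩
  · rintro _ ⟨h, -, rfl⟩ g
    exact ⟨h * g, trivial, by group⟩
  · rintro _ ⟨g, -, rfl⟩
    rw [misc_conj_pow, hap]; group
  · rintro _ ⟨g, -, rfl⟩ _ ⟨h, -, rfl⟩
    refine ((h1 (h * g⁻¹)).image fun x => g⁻¹ * x * g).subset fun z hz => ?_
    refine ⟨g * z * g⁻¹, ?_, by group⟩
    have : closure ({g⁻¹ * a * g, h⁻¹ * a * h} : Set G) ≤
        cjs (closure ({a, (h * g⁻¹)⁻¹ * a * (h * g⁻¹)} : Set G)) g := by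
      refine (closure_le _).2 ?_
      rintro _ (rfl | rfl)
      · exact conj_mem_cjs (subset_closure (Or.inl rfl))
      · have e : h⁻¹ * a * h = g⁻¹ * ((h * g⁻¹)⁻¹ * a * (h * g⁻¹)) * g := by group
        rw [e]
        exact conj_mem_cjs (subset_closure (Or.inr rfl))
    exact mem_cjs.1 (this hz)
  · rintro _ ⟨g, -, rfl⟩
    rw [h2.cast_ncard_eq]
    refine le_trans (Set.encard_le_encard ?_) (Set.encard_image_le (fun x => g⁻¹ * x * g) _)
    rintro _ ⟨⟨h, -, rfl⟩, hc⟩
    refine ⟨g * (h⁻¹ * a * h) * g⁻¹, ⟨?_, isConj_iff.2 ⟨g * h⁻¹, by group⟩⟩, by group⟩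
    have := (Commute.symm hc).conj g
    simpa [mul_assoc] using this

/-- The structure theorem. -/
theorem structure_thm {k : ℕ} (H : Hyp p k (orb a Set.univ)) (N : Subgroup G)
    (hN : N = normalClosure ({a} : Set G)) :
    (∀ S : Set G, S.Finite → S ⊆ N → Finite (closure S : Subgroup G)) ∧
    ∃ B : Subgroup G, B.Normal ∧ B ≤ N ∧ Comm B ∧ IsDiv p B ∧
      (∃ c : ℕ, N.lowerCentralSeries c ≤ B ∧ ∀ x ∈ N, x ^ p ^ c ∈ B) ∧
      ∀ x ∈ N, B.relIndex (closure (orb x N)) ≠ 0 ∧ (Om p (B ⊓ closure (orb x N))).Finite := by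
  have hcl : closure (orb a Set.univ) = N := hN ▸ st_orb
  have hnorm : N.Normal := hN ▸ inferInstance
  have hCO : ∀ x ∈ N, CO p N x := by
    obtain ⟨L, hL⟩ := exists_COsub H.prime H.odd H.pgrp N
    have : N ≤ L := by
      rw [← hcl]
      refine (closure_le _).2 fun d hd => (hL d).2 ⟨hcl ▸ subset_closure hd, ?_⟩
      exact hcl ▸ main p k G _ H d hd
    exact fun x hx => ((hL x).1 (this hx)).2
  let s : Set (Subgroup G) := {W | IsDiv p W ∧ W ≤ N}
  have hBN : sSup s ≤ N := sSup_le fun W hW => hW.2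
  have hBc : Comm (sSup s) := uniq_comm_sSup fun W hW W' hW' =>
    divCC H.prime H.odd H.pgrp hW.1 hW'.1 hW.2 hW'.2 fun α hα => hCO α (hW.2 hα)
  have hBd : IsDiv p (sSup s) := col_div_sSup hBc fun W hW => hW.1
  have hBn : (sSup s).Normal := ⟨fun x hx g => by
    have : sSup s ≤ cjs (sSup s) g := sSup_le fun W hW y hy => by
      have hm : cjs W g⁻¹ ∈ s := ⟨hW.1.cjs _, fun z hz => by
        have := hnorm.conj_mem _ (hW.2 (mem_cjs.1 hz)) g
        simpa [mul_assoc] using this⟩
      exact mem_cjs.2 (le_sSup hm (by simpa [mul_assoc] using hy))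
    exact mem_cjs.1 (this hx)⟩
  have hfm : ∀ x ∈ N, FinMod (sSup s) (orb x N) := fun x hx => by
    obtain ⟨A, h1, h2, -, h4⟩ := hCO x hx
    exact h4.of_le (le_sSup ⟨h1.div, h2⟩)
  refine ⟨fun S hS hSN => st_locFin H.prime H.pgrp _ hBc hfm hS hSN,
    sSup s, hBn, hBN, hBc, hBd, ?_, fun x hx => ?_⟩
  · let π := QuotientGroup.mk' (sSup s)
    have e : N.map π = normalClosure ({π a} : Set (G ⧸ sSup s)) := by
      rw [hN, map_normalClosure _ _ (QuotientGroup.mk'_surjective _), Set.image_singleton]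
    have hnil := st_nilpotent (a := π a) H.prime (H.pgrp.to_quotient (sSup s)) (by
      refine ((st_image _).1 (hfm a (hN ▸ subset_normalClosure rfl))).subset ?_
      rw [← e]
      rintro _ ⟨_, ⟨g, hg, rfl⟩, rfl⟩
      exact ⟨_, ⟨g, hg, rfl⟩, by simp [π]⟩)
    obtain ⟨c, hc⟩ := (isNilpotent_iff_lowerCentralSeries _).1 hnil
    rw [← e, ← map_lowerCentralSeries, Subgroup.map_eq_bot_iff, QuotientGroup.ker_mk'] at hc
    exact ⟨c, hc, fun x hx => hc (st_pow N hcl H.pow c x hx)⟩
  · obtain ⟨A, h1, h2, h3, h4⟩ := hCO x hx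
    have h5 := final_finMod H.prime H.pgrp h3 hx h4
    exact ⟨finMod_iff_relIndex.1 (h5.of_le (le_sSup ⟨h1.div, h2⟩)),
      om_finite_of_finMod (hBc.mono inf_le_left) h1.fin (h5.mono fun y hy => hy.2)⟩

end Pool.Agent.Lib.MP_7d7b85_al
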