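import Pool.Agent.Lib.MP_7d7b85_al.Uniq
import Pool.Agent.Lib.MP_7d7b85_al.Ext

namespace Pool.Agent.Lib.MP_7d7b85_al

open Subgroup Filter

variable {G : Type} [Group G] {p k : ℕ} {D : Set G}

theorem term_Cz_bot (g : G) : g ∈ Cz (⊥ : Subgroup G) :=
  mem_Cz.2 fun α hα => by rw [Subgroup.mem_bot.1 hα]; exact Commute.one_left _

theorem term_evC_mul {I : Type} {r : Ultrafilter I} {e : I → G} {y y' : G} (h : EvC r e y)
    (h' : EvC r e y') : EvC r e (y' * y⁻¹) := by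
  obtain ⟨z, hz⟩ := h
  obtain ⟨z', hz'⟩ := h'
  refine ⟨z' * z⁻¹, ?_⟩
  filter_upwards [hz, hz'] with l h1 h2
  rw [← h1, ← h2]; group

/-- Two families of conjugates: most quotients of the first have constant conjugates. -/
theorem term_pairs {a : G} {Φ : Set G} (hΦ : Φ.Finite) {I : Type} (r : Ultrafilter I)
    (γ δ y b : I → G) (hy : ∀ᶠ l in r, y l = (γ l)⁻¹ * a * γ l)
    (hb : ∀ᶠ l in r, b l = (δ l)⁻¹ * a * δ l)
    (h : ∀ᶠ i in r, ∀ᶠ m in r,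
      ((δ m * (γ i)⁻¹)⁻¹ * a * (δ m * (γ i)⁻¹))⁻¹ * a * ((δ m * (γ i)⁻¹)⁻¹ * a * (δ m * (γ i)⁻¹)) ∈ Φ ∨
      ((δ m * (γ i)⁻¹) * a * (δ m * (γ i)⁻¹)⁻¹)⁻¹ * a * ((δ m * (γ i)⁻¹) * a * (δ m * (γ i)⁻¹)⁻¹) ∈ Φ) :
    ∀ᶠ l in r, ∀ᶠ l' in r, EvC r b (y l' * (y l)⁻¹) := by
  rcases Ultrafilter.eventually_or.1 (h.mono fun i hi => Ultrafilter.eventually_or.1 hi) with h | h
  · have key : ∀ᶠ i in r, EvC r b (y i) := by
      filter_upwards [h, hy] with i h1 h2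
      refine evC_of_finite r b (hΦ.image fun φ => (γ i)⁻¹ * φ * γ i) ?_
      filter_upwards [h1, hb] with m h3 h4
      exact ⟨_, h3, by rw [h2, h4]; group⟩
    exact key.mono fun l h1 => key.mono fun l' h2 => term_evC_mul h1 h2
  · obtain ⟨φ, -, h⟩ := (Ultrafilter.eventually_exists_mem_iff hΦ).1
      (h.mono fun i hi => ultra_fin r hΦ _ hi)
    have key : ∀ᶠ i in r, ∀ᶠ m in r, (y i)⁻¹ * b m * y i = (δ m)⁻¹ * φ * δ m := by
      filter_upwards [h, hy] with i h1 h2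
      filter_upwards [h1, hb] with m h3 h4
      rw [← h3, h2, h4]; group
    refine key.mono fun l h1 => key.mono fun l' h2 => ⟨y l' * (y l)⁻¹, ?_⟩
    filter_upwards [h1, h2] with m h3 h4
    calc (b m)⁻¹ * (y l' * (y l)⁻¹) * b m
        = (b m)⁻¹ * y l' * ((y l)⁻¹ * b m * y l) * (y l)⁻¹ := by group
      _ = (b m)⁻¹ * y l' * ((y l')⁻¹ * b m * y l') * (y l)⁻¹ := by rw [h3, h4]
      _ = y l' * (y l)⁻¹ := by group

/-- The terminal lemma. -/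
theorem tl (H : Hyp p k D) {a : G} (ha : a ∈ D) {Γ C : Subgroup G} (haΓ : a ∈ Γ)
    (hC : Γ ≤ Nz C) (hT : ∀ W, Tower a W → W ≤ Γ → W = ⊥) {Φ : Set G} (hΦ : Φ.Finite)
    (h : ∀ g ∈ Γ, a⁻¹ * (g⁻¹ * a * g) ∈ C →
      (g⁻¹ * a * g)⁻¹ * a * (g⁻¹ * a * g) ∈ Φ ∨ (g * a * g⁻¹)⁻¹ * a * (g * a * g⁻¹) ∈ Φ) :
    (orb a (orb a Γ ∩ {b | a⁻¹ * b ∈ C})).Finite := by
  classical
  by_contra hinf
  obtain ⟨r, hr, hN⟩ := exists_nonC (A := ⊥) (fun b : G => b⁻¹ * a * b)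
    (orb a Γ ∩ {b | a⁻¹ * b ∈ C}) fun hf =>
      hinf ((finMod_bot.1 hf).subset fun _ ⟨g, hg, e⟩ => ⟨g, hg, e.symm⟩)
  obtain ⟨δ, hδ⟩ : ∃ δ : G → G, ∀ b ∈ orb a Γ, δ b ∈ Γ ∧ b = (δ b)⁻¹ * a * δ b :=
    ⟨fun b => if hb : b ∈ orb a Γ then hb.choose else 1, fun b hb => by
      simp only [dif_pos hb]; exact hb.choose_spec⟩
  have hΓ : ∀ b ∈ orb a Γ, b ∈ Γ := fun b ⟨g, hg, e⟩ => e ▸ mul_mem (mul_mem (inv_mem hg) haΓ) hg
  obtain ⟨L, hL, hLΓ, hLE, hLm⟩ := exists_inv_evC H.prime (H.pow a ha) r (fun b : G => b) Γ haΓ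
  have key : ∀ j : ℕ, ∀ᶠ l in r, ∀ᶠ l' in r,
      EvC r (fun b : G => b) ((a ^ j)⁻¹ * (l' * l⁻¹) * a ^ j) := fun j => by
    have := term_pairs (a := a) hΦ r (fun i => δ i * a ^ j) δ (fun i => (a ^ j)⁻¹ * i * a ^ j)
      (fun b => b) (hr.mono fun i hi => by
        conv_lhs => rw [(hδ i hi.1).2]
        group) (hr.mono fun i hi => (hδ i hi.1).2) (by
        filter_upwards [hr] with i hi
        filter_upwards [hr] with m hm
        have a1 : δ i * a ^ j ∈ Γ := mul_mem (hδ i hi.1).1 (pow_mem haΓ j)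
        refine h _ (mul_mem (hδ m hm.1).1 (inv_mem a1)) ?_
        have a2 := Nz_conj' (hC a1)
          (mul_mem (inv_mem (Nz_conj (hC (pow_mem haΓ j)) hi.2)) hm.2)
        have e1 := (hδ i hi.1).2
        have e2 := (hδ m hm.1).2
        generalize δ i = u at *
        generalize δ m = v at *
        rw [e1, e2] at a2
        convert a2 using 1
        group)
    exact this.mono fun l h1 => h1.mono fun l' h2 => by convert h2 using 1; group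
  have key2 : ∀ᶠ l in r, ∀ᶠ l' in r, ∀ j ∈ Finset.range p,
      EvC r (fun b : G => b) ((a ^ j)⁻¹ * (l' * l⁻¹) * a ^ j) :=
    ((eventually_all_finset _).2 fun j _ => key j).mono fun l hl => (eventually_all_finset _).2 hl
  obtain ⟨B, TB, h1, h2⟩ := cf H ha (tower_bot a) r (fun b : G => b) L hL hLE (by
      filter_upwards [hr, key2] with l a1 a2
      filter_upwards [hr, a2] with l' a3 a4
      refine ⟨term_Cz_bot _, rho_mem_of_Nz hL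
        (hLm _ (mul_mem (hΓ _ a3.1) (inv_mem (hΓ _ a1.1))) fun j => ?_)⟩
      rw [pow_eq_pow_mod j (H.pow a ha)]
      exact a4 _ (Finset.mem_range.2 (Nat.mod_lt _ H.prime.pos)))
    (Eventually.of_forall fun l g => by
      filter_upwards [hN (l⁻¹ * (a * g) * l)] with l' a1 a2
      refine a1 ?_
      rw [Subgroup.mem_bot, inv_mul_eq_one] at a2 ⊢
      rw [a2]; simp only [rho]; group)
  exact h1.ne' (hT B TB (h2.trans (sup_le hLΓ bot_le)))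

theorem term_le_MT (H : Hyp p k D) {a : G} (ha : a ∈ D) {K K' W : Subgroup G} (hK : K ≤ K')
    (hf : (K' : Set G).Finite) (T : Tower a W) (hW : W ≤ Gam D K') : W ≤ MT (Cz K) a :=
  le_MT T (((T.fr H ha).div.le_Cz_of_finite H.prime H.pgrp (hW.trans (Gam_le_Nz D K')) hf).trans
    (Cz_anti hK))

theorem term_inv (H : Hyp p k D) (K : Subgroup G) : ∀ s ∈ D ∩ (Nz K : Set G),
    ∀ g ∈ closure (D ∩ (Nz K : Set G)), g⁻¹ * s * g ∈ D ∩ (Nz K : Set G) := fun s hs g hg =>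
  ⟨H.conj s hs.1 g, mul_mem (mul_mem (inv_mem (Gam_le_Nz D K hg)) hs.2) (Gam_le_Nz D K hg)⟩

theorem tower_case (hP : Prev p k) (H : Hyp p k D) {a : G} (ha : a ∈ D) {K : Subgroup G}
    (hK : (K : Set G).Finite) (hn : a ∈ Nz K) (h : Nice p K a) (hB : MT (Cz K) a ≠ ⊥) :
    CO p (Gam D K) a := by
  have TB : Tower a (MT (Cz K) a) :=
    tower_sSup (fun W hW => hW.1) fun W hW W' hW' => h.uniq W W' hW.1 hW'.1 hW.2 hW'.2
  have haΓ : a ∈ Gam D K := mem_Gam ha hn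
  have BΓ : MT (Cz K) a ≤ Gam D K := TB.le_Gam H ha hn ((MT_le _ _).trans (Cz_le_Nz K))
  have hc : Comm (ncl (MT (Cz K) a) (Gam D K)) :=
    comm_ncl fun g hg => climb H ha hK hn h (Gam_le_Nz D K hg)
  have hA : FR p (ncl (MT (Cz K) a) (Gam D K)) := rankBound H Set.inter_subset_left ha haΓ TB hc
  have AΓ : ncl (MT (Cz K) a) (Gam D K) ≤ Gam D K :=
    ncl_le fun g hg => (cjs_mono BΓ g).trans (cjs_eq_of_Nz (le_Nz _ hg)).le
  have nA := le_Nz_ncl (MT (Cz K) a) (Gam D K)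
  have BA := le_ncl (MT (Cz K) a) (Gam D K)
  generalize ncl (MT (Cz K) a) (Gam D K) = A at hc hA AΓ nA BA
  have mx : ∀ W, Tower a W → W ≤ Gam D K → W ≤ A := fun W T hW =>
    (term_le_MT H ha le_rfl hK T hW).trans BA
  refine ⟨A, hA, AΓ, nA, ext_plus H (C := Cz A) ⟨Set.inter_subset_left, term_inv H K, ⟨ha, hn⟩, hA,
    AΓ, nA, hc.le_Cz, le_rfl, fun g hg => Nz_Cz (nA hg),
    (hA.finMod_Cz H.prime H.odd H.pgrp).mono nA, mx⟩ ?_⟩
  change FinMod A (orb a (orb a (Gam D K) ∩ {b | a⁻¹ * b ∈ Cz A}))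
  have XΓ : closure (orb a (Gam D K) ∩ {b | a⁻¹ * b ∈ Cz A}) ≤ Gam D K :=
    (closure_le _).2 fun b ⟨⟨g, hg, e⟩, _⟩ => e ▸ mul_mem (mul_mem (inv_mem hg) haΓ) hg
  obtain ⟨Y, hY, hYX, hx⟩ := liftCO hP H TB hB (X := orb a (Gam D K) ∩ {b | a⁻¹ * b ∈ Cz A})
    ⟨⟨1, one_mem _, by simp⟩, by simp⟩ fun b ⟨⟨g, _, e⟩, hb⟩ => ⟨e ▸ H.conj a ha g, Cz_anti BA hb⟩
  refine ⟨Y, hY, fun x ⟨b, hb, e⟩ => ?_⟩
  obtain ⟨y, hy, W, T, hW, hxy⟩ := hx x ⟨b, subset_closure hb, e⟩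
  refine ⟨y, hy, ?_⟩
  obtain ⟨g, hg, rfl⟩ := hYX hy
  have hg' := XΓ hg
  have T' : Tower a (cjs W g⁻¹) := by
    have := T.cjs g⁻¹
    rwa [show g⁻¹⁻¹ * (g⁻¹ * a * g) * g⁻¹ = a by group] at this
  have h1 := cjs_mono (mx _ T' ((cjs_mono (hW.trans (sup_le XΓ BΓ)) g⁻¹).trans
    (cjs_eq_of_Nz (le_Nz _ (inv_mem hg'))).le)) g
  rw [cjs_cjs, inv_mul_cancel, cjs_one, cjs_eq_of_Nz (nA hg')] at h1
  exact h1 hxy

/-- A node all of whose children have property `CO` has property `CO`. -/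
theorem term_node (H : Hyp p k D) {a : G} (ha : a ∈ D) {K S : Subgroup G} (hD : Dich p D K a)
    (hB : MT (Cz K) a = ⊥) (hKS : K ≤ S) (hS : (S : Set G).Finite) (hn : a ∈ Nz S)
    (hch : ∀ x, PD a S x → CO p (Gam D (ext S (rho a x))) a) : CO p (Gam D S) a := by
  have noT : ∀ {K' : Subgroup G}, K ≤ K' → (K' : Set G).Finite → ∀ W, Tower a W → W ≤ Gam D K' →
      W = ⊥ := fun h1 h2 W T hW => le_bot_iff.1 (hB ▸ term_le_MT H ha h1 h2 T hW)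
  have hfin : FinMod S (rho a ''
      {x | PD a S x ∧ (FType D a S (rho a x) ∨ CType D a S (rho a x))}) := by
    by_contra hc
    obtain ⟨r, hr, hN⟩ := exists_nonC (rho a) _ hc
    have := hD 1 (one_mem _) S hKS hS
    simp only [inv_one, one_mul, mul_one] at this
    refine this hn G r (fun x => x)
      (hr.mono fun x hx => ⟨hx.1, hx.2.imp id fun h => ⟨hch x hx.1, h⟩⟩) hN fun B hBC hT => ?_
    obtain ⟨x, hx, T⟩ := (hr.and hT).exists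
    have T' : Tower a (cjs B x⁻¹) := by
      have := T.cjs x⁻¹
      rwa [show x⁻¹⁻¹ * (x⁻¹ * a * x) * x⁻¹ = a by group] at this
    have h1 := cjs_mono (hBC.trans (Cz_anti (le_sup_left (b := zpowers a)))) x⁻¹
    rw [cjs_eq_of_Nz (Nz_Cz (Cz_le_Nz _ (inv_mem hx.1.cent)))] at h1
    exact cjs_eq_bot.1 (le_bot_iff.1 (hB ▸ le_MT T' (h1.trans (Cz_anti hKS))))
  obtain ⟨Ψ, hΨ, hΨX, hrep⟩ := hfin.reps
  have hΦ : ((a * ·) '' (S : Set G) ∪ ⋃ ψ ∈ Ψ, orb a (Gam D (ext S ψ))).Finite := by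
    refine (hS.image _).union (hΨ.biUnion fun ψ hψ => ?_)
    obtain ⟨x, hx, rfl⟩ := hΨX hψ
    exact (hch x hx.1).finite H ha (mem_Gam ha (hx.1.norm_ext H hn).1) (noT (hKS.trans le_sup_left)
      (finite_ext H.prime H.pgrp (Cz_le_Nz _ (hx.1.rho_cent hn)) hS))
  have key : ∀ b ∈ D, b ∈ Nz S → ∀ x, PD a S x → FType D a S (rho a x) ∨ CType D a S (rho a x) →
      rho (rho a x) b ∈ S →
      b⁻¹ * a * b ∈ (a * ·) '' (S : Set G) ∪ ⋃ ψ ∈ Ψ, orb a (Gam D (ext S ψ)) := by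
    intro b bD bN x hx ht hb
    obtain ⟨ψ, hψ, h1⟩ := hrep _ ⟨x, ⟨hx, ht⟩, rfl⟩
    refine Or.inr (Set.mem_biUnion hψ ⟨b, mem_Gam bD (mem_Nz_ext H.prime H.pgrp bN ?_), rfl⟩)
    have h2 : ψ * (ψ⁻¹ * rho a x * rho (rho a x) b * (b⁻¹ * (ψ⁻¹ * rho a x) * b)⁻¹) ∈ ext S ψ :=
      mul_mem (mem_sup_right (mem_zpowers ψ))
        (mem_sup_left (mul_mem (mul_mem h1 hb) (inv_mem (Nz_conj bN h1))))
    convert h2 using 1
    generalize rho a x = w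
    simp only [rho]; group
  have haΓ : a ∈ Gam D S := mem_Gam ha hn
  have nC : Gam D S ≤ Nz (Cz S) := fun g hg => Nz_Cz (Gam_le_Nz D S hg)
  refine ⟨⊥, fr_bot, bot_le, fun g _ => Cz_le_Nz _ (term_Cz_bot g), ext_plus H (C := Cz S)
    ⟨Set.inter_subset_left, term_inv H S, ⟨ha, hn⟩, fr_bot, bot_le,
      fun g _ => Cz_le_Nz _ (term_Cz_bot g), bot_le, fun g _ => term_Cz_bot g, nC,
      (finMod_Cz_of_finite hS).mono (Gam_le_Nz D S), fun W T hW => (noT hKS hS W T hW).le⟩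
    (finMod_bot.2 (tl H ha haΓ nC (noT hKS hS) hΦ fun g hg hp => ?_))⟩
  have gN := Gam_le_Nz D S hg
  rcases cd H ha (H.conj a ha g) hn hp with h1 | ⟨d, hd, x, -, h1, h2, h3, h4⟩
  · exact Or.inl (Or.inl ⟨_, h1, mul_rho _ _⟩)
  rcases hd with rfl | rfl
  · exact Or.inl (key _ (H.conj d ha g) (mul_mem (mul_mem (inv_mem gN) hn) gN) x h1 h2 h4)
  · have e1 : g⁻¹⁻¹ * (g⁻¹ * a * g) * g⁻¹ = a := by group
    have e2 : cjs S g⁻¹ = S := cjs_eq_of_Nz (inv_mem gN)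
    have e3 := rho_conj (g⁻¹ * a * g) x g⁻¹
    rw [e1] at e3
    have b1 := h1.cjs g⁻¹
    have b2 := h2.imp (fun h => h.cjs H g⁻¹) fun h => h.cjs H g⁻¹
    rw [e1, e2] at b1 b2
    rw [← e3] at b2
    refine Or.inr (key _ (by simpa using H.conj a ha g⁻¹) (mul_mem (mul_mem gN hn) (inv_mem gN)) _
      b1 b2 ?_)
    have b3 := Nz_conj (inv_mem gN) h3
    rw [← rho_conj, ← e3] at b3
    simpa using b3

theorem term_case (H : Hyp p k D) {a : G} (ha : a ∈ D) {K : Subgroup G}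
    (hK : (K : Set G).Finite) (hn : a ∈ Nz K) (hD : Dich p D K a) (hZ : SZero p D K a)
    (hB : MT (Cz K) a = ⊥) : CO p (Gam D K) a := by
  by_contra hl
  obtain ⟨S, x, -, hS⟩ := seq_of_step
    (fun S : Subgroup G => K ≤ S ∧ (S : Set G).Finite ∧ a ∈ Nz S ∧ ¬ CO p (Gam D S) a)
    (fun S x S' => PD a S x ∧ S' = ext S (rho a x)) K ⟨le_rfl, hK, hn, hl⟩ fun S ⟨h1, h2, h3, h4⟩ => by
      by_contra hc
      refine h4 (term_node H ha hD hB h1 h2 h3 fun x hx => ?_)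
      by_contra h5
      exact hc ⟨x, _, ⟨h1.trans le_sup_left,
        finite_ext H.prime H.pgrp (Cz_le_Nz _ (hx.rho_cent h3)) h2, (hx.norm_ext H h3).1, h5⟩, hx, rfl⟩
  obtain ⟨A, φ, T, h1, -, -, h2, -⟩ := chain H ha (tower_bot a) S x
    (fun i => (hS i).2.2 ▸ le_sup_left) (fun i => (hS i).1.2.2.1) (fun i g _ => term_Cz_bot g)
    (fun i => ⟨(hS i).2.1.cent, term_Cz_bot _⟩)
    (fun i => (hS i).2.2 ▸ mem_sup_right (mem_zpowers _))
    (fun i => by rw [sup_bot_eq]; exact (hS i).2.1.notMem)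
    (fun i => by rw [sup_bot_eq]; exact (hS i).2.1.rho_mem)
  exact h1.ne' (le_bot_iff.1 (hB ▸ le_MT T (h2 (Cz K) (Nz_Cz hn) bot_le
    ⟨0, fun i _ => Cz_anti (hS i).1.1 ((hS i).2.1.rho_cent (hS i).1.2.2.1)⟩)))

end Pool.Agent.Lib.MP_7d7b85_al
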