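import Pool.Agent.Lib.MP_7d7b85_al.SL2
import Pool.Agent.Lib.MP_7d7b85_al.SZ
import Pool.Agent.Lib.MP_7d7b85_al.Rank

namespace Pool.Agent.Lib.MP_7d7b85_al

open Subgroup Filter

variable {G : Type} [Group G] {p k : ℕ} {D : Set G}

theorem uniq_conj_eq {a g : G} (h : Commute a g) : g⁻¹ * a * g = a := commute_iff_conj.1 h

theorem uniq_cjs_Cz {K : Subgroup G} {g : G} (hg : g ∈ Nz K) : cjs (Cz K) g = Cz K := by
  rw [cjs_Cz, cjs_eq_of_Nz hg]

theorem uniq_cjs_le_Cz {W K : Subgroup G} {g : G} (hW : W ≤ Cz K) (hg : g ∈ Nz K) :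
    cjs W g ≤ Cz K := by
  have := cjs_mono hW g
  rwa [uniq_cjs_Cz hg] at this

/-- The dichotomy at the point itself. -/
theorem uniq_dich {a : G} {K₀ K : Subgroup G} (hD : Dich p D K₀ a) (hK₀ : K₀ ≤ K)
    (hK : (K : Set G).Finite) (hn : a ∈ Nz K) {I : Type} (r : Ultrafilter I) (x : I → G)
    (h1 : ∀ᶠ l in r, PD a K (x l) ∧ OK p D a K (rho a (x l)))
    (h2 : NonC r (fun l => rho a (x l)) K) :
    ∃ B : Subgroup G, B ≠ ⊥ ∧ B ≤ Cz (ext K a) ∧ ∀ᶠ l in r, Tower ((x l)⁻¹ * a * x l) B := by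
  have := hD 1 (one_mem _) K hK₀ hK (by simpa using hn) I r x (by simpa using h1)
    (by simpa using h2)
  simp only [inv_one, one_mul, mul_one, NoCT, not_forall] at this
  obtain ⟨B, h3, h4, h5⟩ := this
  exact ⟨B, h5, h3, h4⟩

theorem nprime (hP : Prev p k) (H : Hyp p k D) {a : G} (ha : a ∈ D) {K₀ : Subgroup G}
    (hD : Dich p D K₀ a) (hM : MTwo p D K₀ a) (hZ : SZero p D K₀ a) {K B W : Subgroup G}
    (hK₀ : K₀ ≤ K) (hK : (K : Set G).Finite) (hn : a ∈ Nz K) (hv : IsDiv p B) (hB : B ≤ Cz K)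
    (haB : a ∈ Cz B) (T : Tower a W) (hW : W ≤ Cz K) : B ≤ Cz W := by
  have hfix : ∀ β ∈ B, β⁻¹ * a * β = a := fun β hβ => uniq_conj_eq (mem_Cz.1 haB β hβ).symm
  have hTβ : ∀ β ∈ B, Tower a (cjs W β) := fun β hβ => by
    have := T.cjs β
    rwa [hfix β hβ] at this
  have hnW : a ∈ Nz (W ⊓ Cz B) := Nz_inf T.norm (Nz_Cz (Cz_le_Nz B haB))
  by_cases hfin : ((W ⊓ Cz B : Subgroup G) : Set G).Finite
  · by_contra hBW
    have hWB : ¬ W ≤ W ⊓ Cz B := fun h => hBW (le_Cz_comm.1 (h.trans inf_le_right))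
    obtain ⟨y, hyW, hy⟩ := SetLike.not_le_iff_exists.1 hWB
    obtain ⟨j, hj1, hj2⟩ := exists_last H ha (W ⊓ Cz B) hy
    obtain ⟨x, hxW, hx⟩ := T.surj _ (rho_iter_mem T.norm hyW j)
    rw [← hx] at hj1 hj2
    have huW : rho a x ∈ W := rho_mem_of_Nz T.norm hxW
    set K' : Subgroup G := K ⊔ (W ⊓ Cz B) with hK'
    have hK'f : (K' : Set G).Finite :=
      finite_sup ((inf_le_left.trans hW).trans (Cz_le_Nz K)) hK hfin
    have hn' : a ∈ Nz K' := Nz_sup hn hnW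
    have hBK' : B ≤ Cz K' :=
      le_Cz_comm.1 (sup_le (le_Cz_comm.1 hB) inf_le_right)
    have hWK' : W ≤ Cz K' :=
      le_Cz_comm.1 (sup_le (le_Cz_comm.1 hW) (inf_le_left.trans T.comm.le_Cz))
    have hu' : rho a x ∉ K' := fun h => hj1 ⟨huW, le_Cz_comm.1 hBK' h⟩
    have hr' : rho a (rho a x) ∈ K' := (le_sup_right : W ⊓ Cz B ≤ K') hj2
    have hPD : PD a K' x := ⟨hWK' hxW, hu', hr', by
      rw [rho_eq_one_iff.2 (T.comm _ huW _ hxW)]; exact one_mem _⟩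
    have hnf : ¬ FinMod K' ((fun β => rho a (β⁻¹ * x * β)) '' (B : Set G)) := fun h => by
      have h1 := h.finite hK'f
      have h2 : (orb (rho a x) B).Finite := h1.subset (by
        rintro _ ⟨β, hβ, rfl⟩
        refine ⟨β, hβ, ?_⟩
        have := rho_conj a x β
        rw [hfix β hβ] at this
        exact this)
      exact hj1 ⟨huW, hv.commute_of_finite_orb H.prime H.pgrp h2⟩
    obtain ⟨r, hr1, hr2⟩ := exists_nonC _ _ hnf
    obtain ⟨B', hB1, hB2, hB3⟩ := uniq_dich hD (hK₀.trans le_sup_left) hK'f hn' r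
      (fun β => β⁻¹ * x * β) (hr1.mono fun β hβ => by
        have hβn : β ∈ Nz K' := Cz_le_Nz _ (hBK' hβ)
        have h1 := hPD.cjs β
        rw [hfix β hβ, cjs_eq_of_Nz hβn] at h1
        exact ⟨h1, Or.inl (ftype_tower H ha hn' (hTβ β hβ) (uniq_cjs_le_Cz hWK' hβn)
          (conj_mem_cjs hxW) h1.rho_mem)⟩) hr2
    obtain ⟨β, hβ, hT'⟩ := (hr1.and hB3).exists
    have hT'' := hT'.cjs β⁻¹
    have e : β⁻¹⁻¹ * ((β⁻¹ * x * β)⁻¹ * a * (β⁻¹ * x * β)) * β⁻¹ = x⁻¹ * a * x := by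
      have h1 := hfix β⁻¹ (inv_mem hβ)
      calc _ = x⁻¹ * (β⁻¹⁻¹ * a * β⁻¹) * x := by group
        _ = _ := by rw [h1]
    rw [e] at hT''
    have hβe : β⁻¹ ∈ Nz (ext K' a) := inv_mem (Cz_le_Nz _
      (mem_Cz_ext.2 ⟨hBK' hβ, (mem_Cz.1 haB β hβ).symm⟩))
    have hC : cjs B' β⁻¹ ≤ Cz (ext K' a) := uniq_cjs_le_Cz hB2 hβe
    apply hB1
    rw [← cjs_eq_bot (g := β⁻¹)]
    by_cases hco : CO p (Gam D (ext K' (rho a x))) a
    · have h2 := hM 1 (one_mem _) K' (hK₀.trans le_sup_left) hK'f (by simpa using hn') x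
        (by simpa using hPD)
      simp only [inv_one, one_mul, mul_one] at h2
      exact znon hP H ha hK'f hn' T hWK' hxW hr' hco h2 hT'' hC
    · exact (hZ K' (hK₀.trans le_sup_left) hK'f hn' x hPD hco).1 _ hT'' hC
  · obtain ⟨C, TC, hC, hCle⟩ := tower_of_infinite H ha T inf_le_left hnW hfin
    have hWC : ∀ β ∈ B, cjs W β ≤ Cz C := fun β hβ =>
      uniq_cjs_le_Cz (le_Cz_comm.1 ((hCle.trans inf_le_left).trans T.comm.le_Cz))
        (Cz_le_Nz _ (le_Cz_comm.1 (hCle.trans inf_le_right) hβ))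
    have TV : Tower a (sSup {X | ∃ β ∈ B, X = cjs W β}) := by
      refine tower_sSup ?_ ?_
      · rintro _ ⟨β, hβ, rfl⟩
        exact hTβ β hβ
      · rintro _ ⟨β, hβ, rfl⟩ _ ⟨β', hβ', rfl⟩
        exact uq hP H ha TC hC (hTβ β hβ) (hTβ β' hβ') (hWC β hβ) (hWC β' hβ')
    have hBN : B ≤ Nz (sSup {X | ∃ β ∈ B, X = cjs W β}) := fun β hβ => by
      refine mem_Nz_of_conj H.prime H.pgrp fun α hα => ?_
      have : sSup {X | ∃ β ∈ B, X = cjs W β} ≤ cjs (sSup {X | ∃ β ∈ B, X = cjs W β}) β⁻¹ := by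
        refine sSup_le ?_
        rintro _ ⟨β', hβ', rfl⟩ z hz
        rw [mem_cjs, inv_inv]
        refine (le_sSup (s := {X | ∃ β ∈ B, X = cjs W β}) ⟨β' * β, mul_mem hβ' hβ, rfl⟩ :
          cjs W (β' * β) ≤ _) ?_
        rw [mem_cjs] at hz ⊢
        convert hz using 1
        group
      have h1 := this hα
      rwa [mem_cjs, inv_inv] at h1
    have := (TV.fr H ha).div_cent H.prime H.odd H.pgrp hv hBN
    refine this.trans (Cz_anti ?_)
    exact le_sSup (s := {X | ∃ β ∈ B, X = cjs W β}) ⟨1, one_mem _, (cjs_one W).symm⟩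

theorem genCoset (H : Hyp p k D) {a : G} (ha : a ∈ D) {A : Subgroup G} (T : Tower a A)
    {r : Ultrafilter G} (h1 : ∀ᶠ x in r, x ∈ A)
    (h2 : ∀ (X : Subgroup G) (g : G), (∀ᶠ x in r, g⁻¹ * x ∈ X) → FinMod X A) {L : Subgroup G}
    (h : ∀ᶠ x in r, x⁻¹ * a * x ∈ L) : a ∈ L ∧ A ≤ L := by
  obtain ⟨x₀, hx₀, hL₀⟩ := (h1.and h).exists
  let X : Subgroup G :=
    { carrier := {α | α ∈ A ∧ rho a α ∈ L}
      one_mem' := ⟨one_mem _, by simp [rho]⟩
      mul_mem' := fun {α β} hα hβ => ⟨mul_mem hα.1 hβ.1, by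
        rw [rho_mul T.comm T.norm hα.1 hβ.1]; exact mul_mem hα.2 hβ.2⟩
      inv_mem' := fun {α} hα => ⟨inv_mem hα.1, by
        rw [rho_inv T.comm T.norm hα.1]; exact inv_mem hα.2⟩ }
  have hX : FinMod X A := h2 X x₀ ((h1.and h).mono fun x hx => ⟨mul_mem (inv_mem hx₀) hx.1, by
    rw [rho_mul T.comm T.norm (inv_mem hx₀) hx.1, rho_inv T.comm T.norm hx₀]
    have := mul_mem (inv_mem hL₀) hx.2
    convert this using 1
    rw [← mul_rho, ← mul_rho]; group⟩)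
  have hAX : A ≤ X := (T.fr H ha).div.le_of_finMod H.prime H.pgrp hX
  have hAL : A ≤ L := fun α hα => by
    obtain ⟨β, hβ, rfl⟩ := T.surj α hα
    exact (hAX hβ).2
  refine ⟨?_, hAL⟩
  have := mul_mem hL₀ (inv_mem (hAX hx₀).2)
  rw [← mul_rho] at this
  simpa using this

/-- The stabiliser in the normaliser of `K` of the coset `w K`. -/
def uniqCM (K : Subgroup G) (w : G) : Subgroup G where
  carrier := {g | g ∈ Nz K ∧ rho w g ∈ K}
  one_mem' := ⟨one_mem _, by simp [rho]⟩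
  mul_mem' := fun {g h} hg hh => ⟨mul_mem hg.1 hh.1, by
    have := mul_mem hh.2 (Nz_conj hh.1 hg.2)
    convert this using 1
    unfold rho; group⟩
  inv_mem' := fun {g} hg => ⟨inv_mem hg.1, by
    have := Nz_conj' hg.1 (inv_mem hg.2)
    convert this using 1
    unfold rho; group⟩

theorem mem_uniqCM {K : Subgroup G} {w g : G} : g ∈ uniqCM K w ↔ g ∈ Nz K ∧ rho w g ∈ K :=
  Iff.rfl

theorem uniqCM_congr {K : Subgroup G} {w w' g : G} (h : w⁻¹ * w' ∈ K) (hg : g ∈ uniqCM K w') :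
    g ∈ uniqCM K w := by
  refine ⟨hg.1, ?_⟩
  have := mul_mem (mul_mem h hg.2) (Nz_conj hg.1 (inv_mem h))
  convert this using 1
  unfold rho; group

theorem uniqCM_conj {K : Subgroup G} {w g h : G} (hh : h ∈ Nz K) (hg : g ∈ uniqCM K w) :
    h⁻¹ * g * h ∈ uniqCM K (h⁻¹ * w * h) :=
  ⟨mul_mem (mul_mem (inv_mem hh) hg.1) hh, by rw [rho_conj]; exact Nz_conj hh hg.2⟩

theorem uniqCM_cent (H : Hyp p k D) {K A : Subgroup G} (hK : (K : Set G).Finite) (hv : IsDiv p A)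
    {w : G} (h : A ≤ uniqCM K w) : w ∈ Cz A := by
  refine hv.commute_of_finite_orb H.prime H.pgrp ((hK.image (w * ·)).subset ?_)
  rintro _ ⟨α, hα, rfl⟩
  exact ⟨_, (h hα).2, mul_rho _ _⟩

/-- Passing from the inverse conjugate to the conjugate. -/
theorem uniqCM_flip {K A : Subgroup G} {a α φ : G} (T : Tower a A) (hα : α ∈ A) (hαK : α ∈ Nz K)
    (h1 : a ∈ uniqCM K φ) (h2 : a ∈ uniqCM K (α⁻¹ * φ * α)) : α⁻¹ * a * α ∈ uniqCM K φ := by
  have h3 := uniqCM_conj (inv_mem hαK) h2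
  have e : α⁻¹⁻¹ * (α⁻¹ * φ * α) * α⁻¹ = φ := by group
  rw [e, ← mul_rho, rho_inv T.comm T.norm hα] at h3
  have h4 := inv_mem (mul_mem (inv_mem h1) h3)
  rw [← mul_rho]
  refine mul_mem h1 ?_
  simpa using h4

/-- Two towers over a subgroup with finitely many directions, none centralised by both. -/
theorem uniq_core (H : Hyp p k D) {a : G} (ha : a ∈ D) {K A A' : Subgroup G}
    (hK : (K : Set G).Finite) (hn : a ∈ Nz K) (T : Tower a A) (T' : Tower a A')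
    (hA : A ≤ Cz K) (hA' : A' ≤ Cz K)
    (hfin : FinMod K {w | ∃ x ∈ zpowers a ⊔ A ⊔ A', PD a K x ∧ w = rho a x ∧
      (FType D a K w ∨ CType D a K w)})
    (hterm : ∀ x, PD a K x → rho a x ∈ Cz A → rho a x ∉ Cz A') : A ≤ Cz A' := by
  obtain ⟨r, hr1, hr2⟩ := exists_NG A
  obtain ⟨r', hr1', hr2'⟩ := exists_NG A'
  obtain ⟨Φ, hΦ, hΦs, hΦc⟩ := hfin.reps
  have hv := (T.fr H ha).div
  have hv' := (T'.fr H ha).div
  set L : Subgroup G := zpowers a ⊔ A ⊔ A' with hL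
  have haL : a ∈ L := (le_sup_left.trans le_sup_left : zpowers a ≤ L) (mem_zpowers a)
  have hAL : A ≤ L := le_sup_right.trans le_sup_left
  have hAL' : A' ≤ L := le_sup_right
  -- conjugating a direction back to `a`
  have back : ∀ α ∈ L, α ∈ Nz K → ∀ x ∈ L, PD (α⁻¹ * a * α) K x →
      (FType D (α⁻¹ * a * α) K (rho (α⁻¹ * a * α) x) ∨
        CType D (α⁻¹ * a * α) K (rho (α⁻¹ * a * α) x)) →
      ∃ φ ∈ Φ, (α⁻¹ * φ * α)⁻¹ * rho (α⁻¹ * a * α) x ∈ K := by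
    intro α hα hαK x hx hPD hty
    have e1 : α⁻¹⁻¹ * (α⁻¹ * a * α) * α⁻¹ = a := by group
    have e2 : cjs K α⁻¹ = K := cjs_eq_of_Nz (inv_mem hαK)
    have e3 : rho a (α⁻¹⁻¹ * x * α⁻¹) = α⁻¹⁻¹ * rho (α⁻¹ * a * α) x * α⁻¹ := by
      have := rho_conj (α⁻¹ * a * α) x α⁻¹
      rwa [e1] at this
    have h1 := hPD.cjs α⁻¹
    rw [e1, e2] at h1
    obtain ⟨φ, hφ, h2⟩ := hΦc (rho a (α⁻¹⁻¹ * x * α⁻¹)) ⟨_,
      mul_mem (mul_mem (inv_mem (inv_mem hα)) hx) (inv_mem hα), h1, rfl, by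
        rw [e3]
        rcases hty with h | h
        · have := h.cjs H α⁻¹
          rw [e1, e2] at this
          exact Or.inl this
        · have := h.cjs H α⁻¹
          rw [e1, e2] at this
          exact Or.inr this⟩
    refine ⟨φ, hφ, ?_⟩
    have := Nz_conj hαK h2
    rw [e3] at this
    convert this using 1
    group
  have key : ∀ α ∈ A, ∀ α' ∈ A', α'⁻¹ * a * α' ∈ uniqCM K (α⁻¹ * a * α) ∨ ∃ φ ∈ Φ,
      (α'⁻¹ * a * α' ∈ uniqCM K (α⁻¹ * φ * α)) ∨ (α⁻¹ * a * α ∈ uniqCM K (α'⁻¹ * φ * α')) := by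
    intro α hα α' hα'
    have hαK : α ∈ Nz K := Cz_le_Nz K (hA hα)
    have hαK' : α' ∈ Nz K := Cz_le_Nz K (hA' hα')
    have hy : α⁻¹ * a * α ∈ Nz K := mul_mem (mul_mem (inv_mem hαK) hn) hαK
    have hb : α'⁻¹ * a * α' ∈ Nz K := mul_mem (mul_mem (inv_mem hαK') hn) hαK'
    have hp : (α⁻¹ * a * α)⁻¹ * (α'⁻¹ * a * α') ∈ Cz K := by
      have := mul_mem (inv_mem (hA (rho_mem_of_Nz T.norm hα))) (hA' (rho_mem_of_Nz T'.norm hα'))
      convert this using 1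
      unfold rho; group
    have hcl : closure ({α⁻¹ * a * α, α'⁻¹ * a * α'} : Set G) ≤ L := by
      refine (closure_le _).2 ?_
      rintro _ (rfl | rfl)
      · exact mul_mem (mul_mem (inv_mem (hAL hα)) haL) (hAL hα)
      · exact mul_mem (mul_mem (inv_mem (hAL' hα')) haL) (hAL' hα')
    rcases cd H (H.conj a ha α) (H.conj a ha α') hy hp with h | ⟨d, hd, x, hx, hPD, hty, h1, h2⟩
    · exact Or.inl ⟨hb, h⟩
    · right
      rcases hd with rfl | rfl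
      · obtain ⟨φ, hφ, h3⟩ := back α (hAL hα) hαK x (hcl hx) hPD hty
        exact ⟨φ, hφ, Or.inl (uniqCM_congr h3 ⟨hb, h2⟩)⟩
      · obtain ⟨φ, hφ, h3⟩ := back α' (hAL' hα') hαK' x (hcl hx) hPD hty
        exact ⟨φ, hφ, Or.inr (uniqCM_congr h3 ⟨hy, h1⟩)⟩
  have hΦa : ∀ φ ∈ Φ, a ∈ uniqCM K φ ∧ (φ ∈ Cz A → φ ∉ Cz A') := fun φ hφ => by
    obtain ⟨x, -, hPD, rfl, -⟩ := hΦs hφ
    refine ⟨⟨hn, ?_⟩, hterm x hPD⟩
    have := inv_mem hPD.rho_mem
    convert this using 1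
    generalize rho a x = u
    unfold rho; group
  have key2 : ∀ᶠ α in r, (∀ᶠ α' in r', α'⁻¹ * a * α' ∈ uniqCM K (α⁻¹ * a * α)) ∨ ∃ φ ∈ Φ,
      (∀ᶠ α' in r', α'⁻¹ * a * α' ∈ uniqCM K (α⁻¹ * φ * α)) ∨
      (∀ᶠ α' in r', α⁻¹ * a * α ∈ uniqCM K (α'⁻¹ * φ * α')) := by
    filter_upwards [hr1] with α hα
    have h1 := hr1'.mono fun α' hα' => key α hα α' hα'
    rcases Ultrafilter.eventually_or.1 h1 with h | h
    · exact Or.inl h
    · obtain ⟨φ, hφ, h2⟩ := (Ultrafilter.eventually_exists_mem_iff hΦ).1 h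
      exact Or.inr ⟨φ, hφ, Ultrafilter.eventually_or.1 h2⟩
  rcases Ultrafilter.eventually_or.1 key2 with h | h
  · refine (genCoset H ha T hr1 hr2 (h.mono fun α hα => ?_)).2
    exact uniqCM_cent H hK hv' (genCoset H ha T' hr1' hr2' hα).2
  exfalso
  obtain ⟨φ, hφ, h2⟩ := (Ultrafilter.eventually_exists_mem_iff hΦ).1 h
  obtain ⟨haφ, hφt⟩ := hΦa φ hφ
  rcases Ultrafilter.eventually_or.1 h2 with h3 | h3
  · have h4 : ∀ᶠ α in r, α⁻¹ * a * α ∈ uniqCM K φ := by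
      filter_upwards [hr1, h3] with α hα h5
      exact uniqCM_flip T hα (Cz_le_Nz K (hA hα)) haφ (genCoset H ha T' hr1' hr2' h5).1
    have h5 : φ ∈ Cz A := uniqCM_cent H hK hv (genCoset H ha T hr1 hr2 h4).2
    obtain ⟨α, hα, h6⟩ := (hr1.and h3).exists
    rw [uniq_conj_eq (mem_Cz.1 h5 α hα).symm] at h6
    exact hφt h5 (uniqCM_cent H hK hv' (genCoset H ha T' hr1' hr2' h6).2)
  · let Hs : Subgroup G :=
      { carrier := {g | ∀ᶠ α' in r', g ∈ uniqCM K (α'⁻¹ * φ * α')}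
        one_mem' := Eventually.of_forall fun _ => one_mem _
        mul_mem' := fun {g h} hg hh => (hg.and hh).mono fun _ h1 => mul_mem h1.1 h1.2
        inv_mem' := fun {g} hg => hg.mono fun _ h1 => inv_mem h1 }
    obtain ⟨h4, h5⟩ := genCoset H ha T hr1 hr2 (L := Hs) h3
    have h6 : ∀ᶠ α' in r', α'⁻¹ * a * α' ∈ uniqCM K φ := by
      filter_upwards [hr1', h4] with α' hα' h7
      exact uniqCM_flip T' hα' (Cz_le_Nz K (hA' hα')) haφ h7
    have h7 : φ ∈ Cz A' := uniqCM_cent H hK hv' (genCoset H ha T' hr1' hr2' h6).2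
    refine hφt (uniqCM_cent H hK hv fun α hα => ?_) h7
    obtain ⟨α', hα', h8⟩ := (hr1'.and (h5 hα)).exists
    rwa [uniq_conj_eq (mem_Cz.1 h7 α' hα').symm] at h8

theorem nice (hP : Prev p k) (H : Hyp p k D) {a : G} (ha : a ∈ D) {K₀ : Subgroup G}
    (hK : (K₀ : Set G).Finite) (hn : a ∈ Nz K₀) (hD : Dich p D K₀ a) (hM : MTwo p D K₀ a)
    (hZ : SZero p D K₀ a) : Nice p K₀ a := by
  refine ⟨fun W W' T T' hW hW' => ?_, fun B W _ hv hB haB T hW =>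
    nprime hP H ha hD hM hZ le_rfl hK hn hv hB haB T hW⟩
  by_cases hterm : ∃ K : Subgroup G, (K₀ ≤ K ∧ (K : Set G).Finite ∧ a ∈ Nz K ∧ W ≤ Cz K ∧
      W' ≤ Cz K) ∧ ∀ x, PD a K x → rho a x ∈ Cz W → rho a x ∉ Cz W'
  · obtain ⟨K, ⟨h0, hf, hnK, hWK, hWK'⟩, hterm⟩ := hterm
    refine uniq_core H ha hf hnK T T' hWK hWK' ?_ hterm
    by_contra hnf
    have e : {w | ∃ x ∈ zpowers a ⊔ W ⊔ W', PD a K x ∧ w = rho a x ∧
        (FType D a K w ∨ CType D a K w)} = rho a '' {x | x ∈ zpowers a ⊔ W ⊔ W' ∧ PD a K x ∧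
        (FType D a K (rho a x) ∨ CType D a K (rho a x))} := by
      ext w
      constructor
      · rintro ⟨x, h1, h2, rfl, h3⟩
        exact ⟨x, ⟨h1, h2, h3⟩, rfl⟩
      · rintro ⟨x, ⟨h1, h2, h3⟩, rfl⟩
        exact ⟨x, h1, h2, rfl, h3⟩
    rw [e] at hnf
    obtain ⟨r, hr1, hr2⟩ := exists_nonC _ _ hnf
    obtain ⟨B, hB1, hB2, hB3⟩ := uniq_dich hD h0 hf hnK r (fun x => x)
      (hr1.mono fun x hx => ⟨hx.2.1, hZ.ok h0 hf hnK hx.2.1 hx.2.2⟩) hr2
    obtain ⟨x, hx, TB⟩ := (hr1.and hB3).exists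
    have hv := (TB.fr H (H.conj a ha x)).div
    have hBK : B ≤ Cz K := hB2.trans (Cz_anti le_sup_left)
    have haB : a ∈ Cz B := le_Cz_comm.1 hB2 ((le_sup_right : zpowers a ≤ ext K a) (mem_zpowers a))
    have h1 := nprime hP H ha hD hM hZ h0 hf hnK hv hBK haB T hWK
    have h2 := nprime hP H ha hD hM hZ h0 hf hnK hv hBK haB T' hWK'
    have h3 : x ∈ Cz B := (sup_le (sup_le (zpowers_le.2 haB) (le_Cz_comm.1 h1))
      (le_Cz_comm.1 h2) : zpowers a ⊔ W ⊔ W' ≤ Cz B) hx.1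
    exact hB1 (TB.eq_bot (mul_mem (mul_mem (inv_mem h3) haB) h3))
  · obtain ⟨S, x, hS0, hS⟩ := seq_of_step
      (fun K : Subgroup G => K₀ ≤ K ∧ (K : Set G).Finite ∧ a ∈ Nz K ∧ W ≤ Cz K ∧ W' ≤ Cz K)
      (fun K (x : G) K' => PD a K x ∧ rho a x ∈ Cz W ∧ rho a x ∈ Cz W' ∧ K' = ext K (rho a x))
      K₀ ⟨le_rfl, hK, hn, hW, hW'⟩ (fun K hQ => by
        by_contra hno
        refine hterm ⟨K, hQ, fun x hx h1 h2 => hno ⟨x, ext K (rho a x), ?_, hx, h1, h2, rfl⟩⟩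
        obtain ⟨h0, hf, hnK, hWK, hWK'⟩ := hQ
        exact ⟨h0.trans le_sup_left,
          finite_ext H.prime H.pgrp (Cz_le_Nz K (hx.rho_cent hnK)) hf, (hx.norm_ext H hnK).1,
          fun α hα => mem_Cz_ext.2 ⟨hWK hα, (mem_Cz.1 h1 α hα).symm⟩,
          fun α hα => mem_Cz_ext.2 ⟨hWK' hα, (mem_Cz.1 h2 α hα).symm⟩⟩)
    obtain ⟨A, φ, TA, hA, -, -, hL, -⟩ := chain H ha (tower_bot a) S x
      (fun i => by rw [(hS i).2.2.2.2]; exact le_sup_left) (fun i => (hS i).1.2.2.1)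
      (fun i g _ => mem_Cz.2 fun α hα => by rw [Subgroup.mem_bot.1 hα]; exact Commute.one_left g)
      (fun i => ⟨(hS i).2.1.cent, mem_Cz.2 fun α hα => by
        rw [Subgroup.mem_bot.1 hα]; exact Commute.one_left _⟩)
      (fun i => by
        rw [(hS i).2.2.2.2]
        exact (le_sup_right : zpowers _ ≤ ext (S i) _) (mem_zpowers _))
      (fun i => by rw [sup_bot_eq]; exact (hS i).2.1.notMem)
      (fun i => by rw [sup_bot_eq]; exact (hS i).2.1.rho_mem)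
    have h1 := hL (Cz W ⊓ Cz W') (Nz_inf (Nz_Cz T.norm) (Nz_Cz T'.norm)) bot_le
      ⟨0, fun i _ => ⟨(hS i).2.2.1, (hS i).2.2.2.1⟩⟩
    exact uq hP H ha TA hA.ne' T T' (le_Cz_comm.1 (h1.trans inf_le_left))
      (le_Cz_comm.1 (h1.trans inf_le_right))

theorem uniq_tower_MT {K : Subgroup G} {y : G} (h : Nice p K y) : Tower y (MT (Cz K) y) :=
  tower_sSup (fun _ hW => hW.1) fun W hW W' hW' => h.uniq W W' hW.1 hW'.1 hW.2 hW'.2

/-- An invariant abelian divisible subgroup centralises the maximal tower. -/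
theorem uniq_inv_cent (H : Hyp p k D) {y : G} (hy : y ∈ D) {K V : Subgroup G} (h : Nice p K y)
    (hc : Comm V) (hv : IsDiv p V) (hV : V ≤ Cz K) (hn : y ∈ Nz V) : V ≤ Cz (MT (Cz K) y) := by
  obtain ⟨B, hB, hBv, hyB, hle⟩ := split_div hc hv hn (H.pow y hy)
  refine hle.trans (sup_le ?_ ?_)
  · exact h.cent B _ (hc.mono hB) hBv (hB.trans hV) hyB (uniq_tower_MT h) (MT_le _ _)
  · exact (le_MT (tower_rhoIm hc hv hn (H.pow y hy)) ((rhoIm_le hn).trans hV)).trans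
      (uniq_tower_MT h).comm.le_Cz

theorem uniq_comm_sSup {s : Set (Subgroup G)} (hc : ∀ W ∈ s, ∀ W' ∈ s, W ≤ Cz W') :
    Comm (sSup s) :=
  comm_of_le_Cz (sSup_le fun W hW => le_Cz_comm.1 (sSup_le fun W' hW' => hc W' hW' W hW))

theorem uniq_div_sSup {s : Set (Subgroup G)} (hv : ∀ W ∈ s, IsDiv p W) (hc : Comm (sSup s)) :
    IsDiv p (sSup s) := by
  let X : Subgroup G :=
    { carrier := {α | ∃ β ∈ sSup s, β ^ p = α}
      one_mem' := ⟨1, one_mem _, one_pow _⟩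
      mul_mem' := by
        rintro _ _ ⟨β, hβ, rfl⟩ ⟨γ, hγ, rfl⟩
        exact ⟨β * γ, mul_mem hβ hγ, (hc β hβ γ hγ).mul_pow p⟩
      inv_mem' := by
        rintro _ ⟨β, hβ, rfl⟩
        exact ⟨β⁻¹, inv_mem hβ, inv_pow _ _⟩ }
  have : sSup s ≤ X := sSup_le fun W hW α hα => by
    obtain ⟨β, hβ, e⟩ := hv W hW α hα
    exact ⟨β, (le_sSup hW : W ≤ sSup s) hβ, e⟩
  exact fun α hα => this hα

theorem climb (H : Hyp p k D) {a : G} (ha : a ∈ D) {K : Subgroup G} (hK : (K : Set G).Finite)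
    (hn : a ∈ Nz K) (h : Nice p K a) {g : G} (hg : g ∈ Nz K) :
    cjs (MT (Cz K) a) g ≤ Cz (MT (Cz K) a) := by
  have hfact : Fact p.Prime := ⟨H.prime⟩
  set P : Subgroup G := closure ({a, g⁻¹ * a * g} : Set G) with hP
  have hPf : Finite P := (H.fin a ha _ (H.conj a ha g)).to_subtype
  have hnil : Group.IsNilpotent P := (H.pgrp.to_subgroup P).isNilpotent
  obtain ⟨n, hn0⟩ := (isNilpotent_iff_lowerCentralSeries P).1 hnil
  have hPK : P ≤ Nz K := by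
    refine (closure_le _).2 ?_
    rintro _ (rfl | rfl)
    · exact hn
    · exact mul_mem (mul_mem (inv_mem hg) hn) hg
  let Y : Set G := {y | y ∈ P ∧ y ∈ D ∧ Nice p K y}
  have hY : ∀ y ∈ Y, ∀ u ∈ P, u⁻¹ * y * u ∈ Y := fun y hy u hu =>
    ⟨mul_mem (mul_mem (inv_mem hu) hy.1) hu, H.conj y hy.2.1 u, hy.2.2.conj (hPK hu)⟩
  have main : ∀ j ≤ n, ∀ y ∈ Y, ∀ y' ∈ Y, y⁻¹ * y' ∈ P.lowerCentralSeries j →
      MT (Cz K) y ≤ Cz (MT (Cz K) y') := by
    intro j hj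
    induction hj using Nat.decreasingInduction with
    | self =>
      intro y hy y' _ hyy
      rw [hn0, Subgroup.mem_bot, inv_mul_eq_one] at hyy
      subst hyy
      exact (uniq_tower_MT hy.2.2).comm.le_Cz
    | of_succ j _ ih =>
      intro y hy y' hy' hyy
      let s : Set (Subgroup G) :=
        {X | ∃ z ∈ Y, y⁻¹ * z ∈ P.lowerCentralSeries (j + 1) ∧ X = MT (Cz K) z}
      have hc : Comm (sSup s) := by
        refine uniq_comm_sSup ?_
        rintro _ ⟨z, hz, h1, rfl⟩ _ ⟨z', hz', h2, rfl⟩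
        refine ih z hz z' hz' ?_
        have := mul_mem (inv_mem h1) h2
        simpa [mul_assoc] using this
      have hv : IsDiv p (sSup s) := by
        refine uniq_div_sSup ?_ hc
        rintro _ ⟨z, hz, -, rfl⟩
        exact ((uniq_tower_MT hz.2.2).fr H hz.2.1).div
      have hV : sSup s ≤ Cz K := by
        refine sSup_le ?_
        rintro _ ⟨z, -, -, rfl⟩
        exact MT_le _ _
      have hnV : y' ∈ Nz (sSup s) := by
        refine mem_Nz_of_conj H.prime H.pgrp fun α hα => ?_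
        have : sSup s ≤ cjs (sSup s) y'⁻¹ := by
          refine sSup_le ?_
          rintro _ ⟨z, hz, h1, rfl⟩ w hw
          rw [mem_cjs, inv_inv]
          have h2 : y⁻¹ * (y'⁻¹ * z * y') ∈ P.lowerCentralSeries (j + 1) := by
            have h3 : (y⁻¹ * y')⁻¹ * y * (y⁻¹ * y')⁻¹⁻¹ * y⁻¹ ∈ P.lowerCentralSeries (j + 1) :=
              commutator_mem_commutator (inv_mem hyy) hy.1
            have h4 := Nz_conj (P.self_le_normalizer_lowerCentralSeries (j + 1) hy.1) h3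
            have h5 := Nz_conj (P.self_le_normalizer_lowerCentralSeries (j + 1) hy'.1) h1
            convert mul_mem h4 h5 using 1
            group
          refine (le_sSup (s := s) ⟨_, hY z hz y' hy'.1, h2, rfl⟩ :
            MT (Cz K) (y'⁻¹ * z * y') ≤ _) ?_
          rw [← uniq_cjs_Cz (hPK hy'.1), ← cjs_MT]
          exact conj_mem_cjs hw
        have h1 := this hα
        rwa [mem_cjs, inv_inv] at h1
      refine le_trans ?_ (uniq_inv_cent H hy'.2.1 hy'.2.2 hc hv hV hnV)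
      exact le_sSup (s := s) ⟨y, hy, by simp, rfl⟩
  have haP : a ∈ P := subset_closure (by simp)
  have hbP : g⁻¹ * a * g ∈ P := subset_closure (by simp)
  rw [cjs_MT, uniq_cjs_Cz hg]
  exact main 0 (Nat.zero_le n) _ ⟨hbP, H.conj a ha g, h.conj hg⟩ a ⟨haP, ha, h⟩
    (mul_mem (inv_mem hbP) haP)

end Pool.Agent.Lib.MP_7d7b85_al
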