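import Pool.Agent.Lib.MP_7d7b85_al.Final

/-! Reduction of the statement for groups in any universe to countable groups. -/

namespace Pool.Agent.Lib.MP_7d7b85_al

open Subgroup

universe u

theorem univ_countable_closure {G : Type u} [Group G] {S : Set G} (hS : S.Countable) :
    ((closure S : Subgroup G) : Set G).Countable := by
  have := hS.to_subtype
  have h : (closure S : Subgroup G) = (FreeGroup.lift (Subtype.val : S → G)).range := by
    rw [FreeGroup.range_lift_eq_closure, Subtype.range_coe]
  rw [h]
  exact Set.countable_range _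

/-- A group with trivial centre has a countable subgroup with trivial centre through any given
element. -/
theorem univ_exists_countable {G : Type u} [Group G] (h : center G = ⊥) (a : G) :
    ∃ H : Subgroup G, a ∈ H ∧ (H : Set G).Countable ∧ center H = ⊥ := by
  have hw : ∀ x : G, ∃ g : G, x ≠ 1 → g * x ≠ x * g := fun x => by
    by_contra hc
    push Not at hc
    have : x ∈ center G := mem_center_iff.2 fun g => (hc g).2
    rw [h, Subgroup.mem_bot] at this
    exact (hc 1).1 this
  choose w hw using hw
  obtain ⟨S, hS0, hS⟩ : ∃ S : ℕ → Subgroup G, S 0 = closure {a} ∧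
      ∀ n, S (n + 1) = closure ((S n : Set G) ∪ w '' (S n : Set G)) :=
    ⟨fun n => Nat.rec (closure {a}) (fun _ K => closure ((K : Set G) ∪ w '' (K : Set G))) n,
      rfl, fun _ => rfl⟩
  have hm : Monotone S := monotone_nat_of_le_succ fun n x hx => by
    rw [hS]; exact subset_closure (Or.inl hx)
  have hc : ∀ n, (S n : Set G).Countable := fun n => by
    induction n with
    | zero => rw [hS0]; exact univ_countable_closure (Set.countable_singleton a)
    | succ n ih => rw [hS]; exact univ_countable_closure (ih.union (ih.image w))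
  refine ⟨⨆ n, S n, le_iSup S 0 (by rw [hS0]; exact subset_closure rfl), ?_, ?_⟩
  · rw [coe_iSup_of_directed hm.directed_le]
    exact Set.countable_iUnion hc
  · refine eq_bot_iff.2 fun x hx => ?_
    obtain ⟨n, hn⟩ := (mem_iSup_of_directed hm.directed_le).1 x.2
    have h1 : w x ∈ ⨆ n, S n := le_iSup S (n + 1) (by
      rw [hS]; exact subset_closure (Or.inr ⟨x, hn, rfl⟩))
    by_contra hne
    exact hw x (fun e => hne (Subgroup.mem_bot.2 (Subtype.ext e)))
      (congrArg Subtype.val (mem_center_iff.1 hx ⟨_, h1⟩))

theorem univ_transfer {G : Type u} [Group G] {K : Type} [Group K] (f : K →* G)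
    (hf : Function.Injective f) {p : ℕ} (hp : p.Prime) (hG : IsPGroup p G) (b : K)
    (ha : orderOf (f b) = p)
    (h1 : ∀ g : G, ((closure ({f b, g⁻¹ * f b * g} : Set G) : Subgroup G) : Set G).Finite)
    (h2 : ({x : G | Commute x (f b)} ∩ {x : G | IsConj (f b) x}).Finite) : center K ≠ ⊥ := by
  refine center_ne_bot p hp K (hG.of_injective f hf) b (by rwa [orderOf_injective f hf] at ha)
    (fun g => ?_) ?_
  · refine Set.Finite.of_finite_image (f := f) ((h1 (f g)).subset ?_) hf.injOn
    rw [← coe_map, MonoidHom.map_closure]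
    simp [Set.image_pair]
  · refine Set.Finite.of_finite_image (f := f) (h2.subset ?_) hf.injOn
    rintro _ ⟨x, ⟨h3, h4⟩, rfl⟩
    exact ⟨Commute.map h3 f, f.map_isConj h4⟩

theorem center_ne_bot_univ (p : ℕ) (hp : p.Prime) (G : Type u) [Group G] (hG : IsPGroup p G)
    (a : G) (ha : orderOf a = p)
    (h1 : ∀ g : G, ((closure ({a, g⁻¹ * a * g} : Set G) : Subgroup G) : Set G).Finite)
    (h2 : ({x : G | Commute x a} ∩ {x : G | IsConj a x}).Finite) : center G ≠ ⊥ := by
  intro h
  obtain ⟨H, haH, hc, hH⟩ := univ_exists_countable h a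
  have : Countable H := hc.to_subtype
  let e : Shrink.{0} H ≃* H := Shrink.mulEquiv
  let f : Shrink.{0} H →* G := H.subtype.comp e.toMonoidHom
  have hb : f (e.symm ⟨a, haH⟩) = a := by simp [f]
  refine univ_transfer f (H.subtype_injective.comp e.injective) hp hG (e.symm ⟨a, haH⟩)
    (by rwa [hb]) (by rwa [hb]) (by rwa [hb]) ?_
  refine eq_bot_iff.2 fun x hx => ?_
  have : e x ∈ center H := mem_center_iff.2 fun g => by
    have := congrArg e (mem_center_iff.1 hx (e.symm g))
    simpa using this
  rw [hH, Subgroup.mem_bot] at this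
  exact Subgroup.mem_bot.2 (e.injective (by simpa using this))

end Pool.Agent.Lib.MP_7d7b85_al
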